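import Mathlib

/-!
# The weight conjecture and perfect groups: statements about groups and counting
-/

set_option autoImplicit false

open scoped Classical BigOperators

noncomputable section

namespace Pool.Agent.J4.H3.PG

/-- the homomorphism `(γ, q) ↦ ∏ γ_i G'` from the wreath product to the abelianization -/
def sg (G Q : Type) [Group G] [Group Q] [Fintype Q] :
    RegularWreathProduct G Q →* Abelianization G where
  toFun w := ∏ i : Q, Abelianization.of (w.left i)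
  map_one' := by simp
  map_mul' a b := by
    simp only [RegularWreathProduct.mul_left, Pi.mul_apply, map_mul, Finset.prod_mul_distrib]
    congr 1
    exact Fintype.prod_equiv (Equiv.mulLeft a.right⁻¹) _ _ fun i => rfl

/-- a nontrivial finite perfect group of order prime to `p` exists -/
def HasPerfect (p : ℕ) : Prop :=
  ∃ (Q : Type) (_ : Group Q), Finite Q ∧ Nontrivial Q ∧ commutator Q = ⊤ ∧ ¬ p ∣ Nat.card Q

/-- TW: counting tuples -/
def S_TW : Prop := ∀ (Ω T M : Type) [CommGroup M] [Finite M] [Finite T] (a : M → Ω → Ω),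
  (∀ ω, a 1 ω = ω) → (∀ μ ν ω, a (μ * ν) ω = a μ (a ν ω)) → ∀ (b : T → Ω) (β : Ω),
  (∀ μ, Nat.card {t // b t = a μ β} = Nat.card {t // b t = β}) →
  ∀ (p : ℕ) [Fact p.Prime] (F : Type) [Field F] [CharP F p], ¬ p ∣ Nat.card M →
  ∀ (ι : Type) [Fintype ι] [Nonempty ι],
    (Nat.card {t // b t = β}) ^ (Fintype.card ι) ≤ Nat.card {t : ι → T //
      (Nat.card M : F)⁻¹ * ∑ᶠ μ : M, ∏ i, (if a μ (b (t i)) = β then (1 : F) else 0) =
        (Nat.card M : F)⁻¹ * Nat.card {μ : M // a μ β = β}} ∧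
    Nat.card {t : ι → T //
      (Nat.card M : F)⁻¹ * ∑ᶠ μ : M, ∏ i, (if a μ (b (t i)) = β then (1 : F) else 0) =
        (Nat.card M : F)⁻¹ * Nat.card {μ : M // a μ β = β}} ≤
      Nat.card M * (Nat.card {t // b t = β}) ^ (Fintype.card ι)

/-- MC: the number of linear characters -/
def S_MC : Prop := ∀ (p : ℕ) [Fact p.Prime] (G : Type) [Group G] [Finite G],
  (∀ N : Subgroup G, N.Normal → N.index ≠ p) → Finite (G →* ℂˣ) ∧
    Nat.card (G →* ℂˣ) = Nat.card (Abelianization G) ∧ ¬ p ∣ Nat.card (G →* ℂˣ)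

/-- PERF: the kernel of `sg` is perfect -/
def S_PERF : Prop := ∀ (G Q : Type) [Group G] [Group Q] [Finite G] [Fintype Q], Nontrivial Q →
  commutator Q = ⊤ → commutator (sg G Q).ker = ⊤

/-- OP: the kernel of `sg` has no nontrivial normal `p`-subgroup -/
def S_OP : Prop := ∀ (p : ℕ) [Fact p.Prime] (G Q : Type) [Group G] [Group Q] [Finite G]
  [Fintype Q], Nontrivial Q → ¬ p ∣ Nat.card Q →
  (∀ M : Subgroup G, M.Normal → IsPGroup p M → M = ⊥) →
    ∀ M : Subgroup (sg G Q).ker, M.Normal → IsPGroup p M → M = ⊥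

/-- QP: large perfect groups of order prime to `p` -/
def S_QP : Prop := ∀ (p : ℕ) [Fact p.Prime], HasPerfect p → ∀ n : ℕ,
  ∃ (Q : Type) (_ : Group Q), Finite Q ∧ Nontrivial Q ∧ commutator Q = ⊤ ∧ ¬ p ∣ Nat.card Q ∧
    n ≤ Nat.card Q

/-- Q7: perfect groups of order prime to `p ≥ 7` -/
def S_Q7 : Prop := ∀ p : ℕ, p.Prime → 7 ≤ p → HasPerfect p

/-- Q5: a perfect group of order prime to 5 -/
def S_Q5 : Prop := HasPerfect 5

/-- Q3: a perfect group of order prime to 3 (a Suzuki group) -/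
def S_Q3 : Prop := HasPerfect 3

/-- AMP: taking roots -/
def S_AMP : Prop := ∀ (l w : ℕ) (g A : ℝ), 1 ≤ g → 0 ≤ A →
  (∀ ε : ℝ, 0 < ε → ∃ K : ℝ, 0 ≤ K ∧ ∀ N : ℕ, ∃ n : ℕ, N ≤ n ∧ 1 ≤ n ∧
    (l : ℝ) ^ n ≤ K * (A * (n : ℝ) ^ 4) * (g ^ n * n) ^ ε * (w : ℝ) ^ n) → l ≤ w

end Pool.Agent.J4.H3.PG
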