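import Pool.Agent.Y63.NV.Defs
import Pool.Agent.J4.H3.PG.D0

/-!
# The weight conjecture and perfect groups: definitions and statements of the parts
-/

set_option autoImplicit false

open scoped Classical BigOperators

noncomputable section

namespace Pool.Agent.J4.H3.PG

open Pool.Agent.Y63.NV
open Pool.Agent.Y63.AWC (IsIrreducibleCharacter pSubgroupSetoid)

/-! ### Definitions -/

/-- the number of irreducible characters of `G` over `F` on which `z` acts as the scalar `c` -/
def LL {F : Type} [Field F] {G : Type} [Group G] (z : G → F) (c : F) : ℕ :=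
  Nat.card {φ : G → F // IsIrrTrace φ ∧ ∀ x : G, ∑ᶠ g : G, z g * φ (g * x) = c * φ x}

/-- `|G|` times the number of `G`-classes of weights at which `z` takes the value `c` -/
def WW (p : ℕ) {F : Type} [Field F] (red : integralClosure ℤ ℂ →+* F) {G : Type} [Group G]
    (z : G → F) (c : F) : ℕ :=
  ∑ᶠ Q : Subgroup G, if IsPGroup p Q then Nat.card (Subgroup.normalizer (Q : Set G)) *
    Nw p red (Q.subgroupOf (Subgroup.normalizer (Q : Set G))) (fun x => z x) c else 0

/-- `l(B)` (the same as `Pool.Agent.Y63.NV.numIrrBlock`) -/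
def nIrr {F : Type} [Field F] {G : Type} [Group G] (B : (G → F) → F) : ℕ :=
  Nat.card {φ : G → F // IsIrrTrace φ ∧
    ∀ f : G → F, IsClassFun f → ∀ x : G, ∑ᶠ g : G, f g * φ (g * x) = B f * φ x}

/-- the number of weight characters of `N_G(Q)` in the block `B` (the same as
`Pool.Agent.Y63.NV.numWtBlock`) -/
def nWtB (p : ℕ) {F : Type} [Field F] (red : integralClosure ℤ ℂ →+* F) {G : Type} [Group G]
    (Q : Subgroup G) (B : (G → F) → F) : ℕ :=
  Nat.card {χ : Subgroup.normalizer (Q : Set G) → ℂ //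
    IsWt p (Q.subgroupOf (Subgroup.normalizer (Q : Set G))) χ ∧
    ∀ f : G → F, IsClassFun f → centralValue red χ (fun x => f x) = B f}

/-- the number of classes of weights of the block `B` -/
def nWts (p : ℕ) {F : Type} [Field F] (red : integralClosure ℤ ℂ →+* F) {G : Type} [Group G]
    (B : (G → F) → F) : ℕ :=
  ∑ᶠ c : Quotient (pSubgroupSetoid p G), nWtB p red c.out.1 B

/-- the irreducible characters of `G` over `F` -/
def Lt (F G : Type) [Field F] [Group G] : Type := {φ : G → F // IsIrrTrace φ}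

/-- the weights of `G`, together with an element of the normaliser -/
@[ext] structure Wt (p : ℕ) (G : Type) [Group G] : Type where
  Q : Subgroup G
  pg : IsPGroup p Q
  g : Subgroup.normalizer (Q : Set G)
  χ : Subgroup.normalizer (Q : Set G) → ℂ
  wt : IsWt p (Q.subgroupOf (Subgroup.normalizer (Q : Set G))) χ

/-- the scalar by which the class function `f` acts on `φ` -/
def lv {F G : Type} [Field F] [Group G] (φ : Lt F G) (f : G → F) : F :=
  if h : ∃ c : F, ∀ x : G, ∑ᶠ g : G, f g * φ.1 (g * x) = c * φ.1 x then h.choose else 0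

/-- the value of the central character of the weight `w` at `f` -/
def wv {p : ℕ} {F G : Type} [Field F] [Group G] (red : integralClosure ℤ ℂ →+* F) (w : Wt p G)
    (f : G → F) : F :=
  centralValue red w.χ (fun x => f x)

/-- class functions -/
abbrev CFn (G F : Type) [Group G] : Type := {f : G → F // IsClassFun f}

/-- the reduction of a unit -/
def rc {F : Type} [Field F] (red : integralClosure ℤ ℂ →+* F) (u : ℂˣ) : F := redC red (u : ℂ)

/-- the product of a class function with a linear character -/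
def twf {F G : Type} [Field F] [Group G] (red : integralClosure ℤ ℂ →+* F) (μ : G →* ℂˣ)
    (f : G → F) : G → F := fun x => rc red (μ x) * f x

/-- the action of the linear characters on the functionals on class functions -/
def act {F G : Type} [Field F] [Group G] (red : integralClosure ℤ ℂ →+* F) (μ : G →* ℂˣ)
    (β : CFn G F → F) : CFn G F → F := fun f =>
  if h : IsClassFun (twf red μ f.1) then β ⟨twf red μ f.1, h⟩ else 0

/-- the functional on class functions given by `φ` -/
def lb {F G : Type} [Field F] [Group G] (φ : Lt F G) : CFn G F → F := fun f => lv φ f.1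

/-- the functional on class functions given by `w` -/
def wb {p : ℕ} {F G : Type} [Field F] [Group G] (red : integralClosure ℤ ℂ →+* F) (w : Wt p G) :
    CFn G F → F := fun f => wv red w f.1

/-- the functional on class functions given by `B` -/
def bb {F G : Type} [Field F] [Group G] (B : (G → F) → F) : CFn G F → F := fun f => B f.1

/-- `e` is the idempotent of the block `B` -/
structure IsIdem {F G : Type} [Field F] [Group G] (B : (G → F) → F) (e : G → F) : Prop where
  cf : IsClassFun e
  val : ∀ B' : (G → F) → F, IsBlock B' → B' e = if bb B' = bb B then 1 else 0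

/-- the central element of `F[G^ι]` -/
def Zf {F G : Type} [Field F] [Group G] (red : integralClosure ℤ ℂ →+* F) (ι : Type) [Fintype ι]
    (e : G → F) : (ι → G) → F := fun γ =>
  (Nat.card (G →* ℂˣ) : F)⁻¹ * ∑ᶠ μ : G →* ℂˣ, ∏ i, (rc red (μ (γ i)) * e (γ i))

/-! ### Statements of the parts -/

/-- LC: irreducible characters over `F` and normal subgroups -/
def S_LC : Prop := ∀ (F : Type) [Field F] [IsAlgClosed F] (G : Type) [Group G] [Finite G]
  (N : Subgroup G) [N.Normal] (z : G → F) (c : F), InZ N z →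
    LL (fun x : N => z x) c ≤ N.index * LL z c ∧ LL z c ≤ N.index * LL (fun x : N => z x) c

/-- DC: characters of defect zero and normal subgroups of index prime to `p` -/
def S_DC : Prop := ∀ (p : ℕ) [Fact p.Prime] (F : Type) [Field F] [IsAlgClosed F] [CharP F p]
  (red : integralClosure ℤ ℂ →+* F) (J : Type) [Group J] [Finite J] (I Q : Subgroup J) [I.Normal]
  [Q.Normal] (z : J → F) (c : F), ¬ p ∣ I.index → Q ≤ I → IsPGroup p Q → InZ I z →
    Nw p red (Q.subgroupOf I) (fun x : I => z x) c ≤ I.index * Nw p red Q z c ∧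
      Nw p red Q z c ≤ I.index * Nw p red (Q.subgroupOf I) (fun x : I => z x) c

/-- WC: weights and normal subgroups of index prime to `p` -/
def S_WC : Prop := ∀ (p : ℕ) [Fact p.Prime] (F : Type) [Field F] [IsAlgClosed F] [CharP F p]
  (red : integralClosure ℤ ℂ →+* F) (G : Type) [Group G] [Finite G] (N : Subgroup G) [N.Normal]
  (z : G → F) (c : F), ¬ p ∣ N.index → InZ N z →
    WW p red (fun x : N => z x) c ≤ N.index ^ 2 * WW p red z c ∧
      WW p red z c ≤ N.index ^ 2 * WW p red (fun x : N => z x) c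

/-- LPI: irreducible characters over `F` of direct powers -/
def S_LPI : Prop := ∀ (F : Type) [Field F] [IsAlgClosed F] (G : Type) [Group G] [Finite G]
  (ι : Type) [Fintype ι], ∃ E : (ι → Lt F G) ≃ Lt F (ι → G),
    ∀ φ : ι → Lt F G, (E φ).1 = fun x => ∏ i, (φ i).1 (x i)

/-- WPI: weights of direct powers -/
def S_WPI : Prop := ∀ (p : ℕ) [Fact p.Prime] (F : Type) [Field F] [CharP F p]
  (red : integralClosure ℤ ℂ →+* F) (G : Type) [Group G] [Finite G]
  (ι : Type) [Fintype ι], ∃ E : (ι → Wt p G) ≃ Wt p (ι → G),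
    ∀ (w : ι → Wt p G) (f : ι → G → F), (∀ i, IsClassFun (f i)) →
      wv red (E w) (fun x => ∏ i, f i (x i)) = ∏ i, wv red (w i) (f i)

/-- CPI: irreducible complex characters of direct products -/
def S_CPI : Prop := ∀ (ι : Type) [Fintype ι] (J : ι → Type) [∀ i, Group (J i)]
  [∀ i, Finite (J i)],
    (∀ χ : ∀ i, J i → ℂ, (∀ i, IsIrreducibleCharacter (χ i)) →
      IsIrreducibleCharacter (fun x : ∀ i, J i => ∏ i, χ i (x i))) ∧
    (∀ ψ : (∀ i, J i) → ℂ, IsIrreducibleCharacter ψ → ∃! χ : ∀ i, J i → ℂ,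
      (∀ i, IsIrreducibleCharacter (χ i)) ∧ ψ = fun x => ∏ i, χ i (x i))

/-- CVP: central characters of products -/
def S_CVP : Prop := ∀ (F : Type) [Field F] (red : integralClosure ℤ ℂ →+* F) (ι : Type) [Fintype ι]
  (J : ι → Type) [∀ i, Group (J i)] [∀ i, Finite (J i)] (χ : ∀ i, J i → ℂ) (f : ∀ i, J i → F),
  (∀ i, IsIrreducibleCharacter (χ i)) → (∀ i, IsClassFun (f i)) →
    centralValue red (fun x : ∀ i, J i => ∏ i, χ i (x i)) (fun x => ∏ i, f i (x i)) =
      ∏ i, centralValue red (χ i) (f i)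

/-- NPI: the subgroups of a direct power which belong to weights, and their normalisers -/
def S_NPI : Prop := ∀ (p : ℕ) [Fact p.Prime] (G : Type) [Group G] [Finite G] (ι : Type) [Fintype ι],
  (∀ Q : ι → Subgroup G, Subgroup.normalizer ((Subgroup.pi Set.univ Q : Subgroup (ι → G)) :
      Set (ι → G)) = Subgroup.pi Set.univ (fun i => Subgroup.normalizer (Q i : Set G))) ∧
  (∀ (Q : Subgroup (ι → G)) (χ : Subgroup.normalizer (Q : Set (ι → G)) → ℂ), IsPGroup p Q →
    IsWt p (Q.subgroupOf (Subgroup.normalizer (Q : Set (ι → G)))) χ →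
    Q = Subgroup.pi Set.univ (fun i => Q.map (Pi.evalMonoidHom (fun _ : ι => G) i)))

/-- BAS: the numbers of irreducible characters and of weights in terms of `Lt` and `Wt` -/
def S_BAS : Prop := ∀ (p : ℕ) [Fact p.Prime] (F : Type) [Field F] [IsAlgClosed F] [CharP F p]
  (red : integralClosure ℤ ℂ →+* F) (G : Type) [Group G] [Finite G],
    Finite (Lt F G) ∧ Finite (Wt p G) ∧
    (∀ φ : Lt F G, IsBlock (lv φ)) ∧
    (∀ w : Wt p G, IsBlock (wv red w)) ∧
    (∀ (φ : Lt F G) (f : G → F), IsClassFun f → ∀ x : G,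
      ∑ᶠ g : G, f g * φ.1 (g * x) = lv φ f * φ.1 x) ∧
    (∀ φ : Lt F G, ∃ x : G, φ.1 x ≠ 0) ∧
    (∀ (z : G → F) (c : F), IsClassFun z →
      LL z c = Nat.card {φ : Lt F G // lv φ z = c} ∧
      WW p red z c = Nat.card {w : Wt p G // wv red w z = c}) ∧
    (∀ B : (G → F) → F,
      nIrr B = Nat.card {φ : Lt F G // lb φ = bb B} ∧
      Nat.card G * nWts p red B = Nat.card {w : Wt p G // wb red w = bb B})

/-- SB: sums over blocks -/
def S_SB : Prop := ∀ (p : ℕ) [Fact p.Prime] (F : Type) [Field F] [IsAlgClosed F] [CharP F p]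
  (red : integralClosure ℤ ℂ →+* F) (G : Type) [Group G] [Finite G] (K : ℝ), 0 ≤ K →
    ((∀ B : (G → F) → F, IsBlock B → (nIrr B : ℝ) ≤ K * nWts p red B) →
      ∀ (z : G → F) (c : F), IsClassFun z →
        (Nat.card G : ℝ) * LL z c ≤ K * WW p red z c) ∧
    ((∀ B : (G → F) → F, IsBlock B → (nWts p red B : ℝ) ≤ K * nIrr B) →
      ∀ (z : G → F) (c : F), IsClassFun z →
        (WW p red z c : ℝ) ≤ K * ((Nat.card G : ℝ) * LL z c))

/-- ISO: invariance under isomorphisms -/
def S_ISO : Prop := ∀ (p : ℕ) [Fact p.Prime] (F : Type) [Field F] (red : integralClosure ℤ ℂ →+* F)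
  (G G' : Type) [Group G] [Group G'] [Finite G] [Finite G'] (e : G ≃* G') (z : G' → F) (c : F),
    IsClassFun z →
    LL (fun x => z (e x)) c = LL z c ∧ WW p red (fun x => z (e x)) c = WW p red z c

/-- ID: block idempotents -/
def S_ID : Prop := ∀ (F : Type) [Field F] [IsAlgClosed F] (G : Type) [Group G] [Finite G]
  (B : (G → F) → F), IsBlock B → ∃ e : G → F, IsIdem B e

/-- ZF: the central element `Zf` -/
def S_ZF : Prop := ∀ (p : ℕ) [Fact p.Prime] (F : Type) [Field F] [CharP F p]
  (red : integralClosure ℤ ℂ →+* F) (G : Type) [Group G] [Finite G] (ι : Type) [Fintype ι]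
  (e : G → F), IsClassFun e →
    IsClassFun (Zf red ι e) ∧
    (∀ (s : Equiv.Perm ι) (γ : ι → G), Zf red ι e (fun i => γ (s i)) = Zf red ι e γ) ∧
    (∀ γ : ι → G, ∏ i, Abelianization.of (γ i) ≠ 1 → Zf red ι e γ = 0)

/-- ACT: the action of the linear characters -/
def S_ACT : Prop := ∀ (p : ℕ) [Fact p.Prime] (F : Type) [Field F] [CharP F p]
  (red : integralClosure ℤ ℂ →+* F) (G : Type) [Group G] [Finite G],
    (∀ (μ : G →* ℂˣ) (f : G → F), IsClassFun f → IsClassFun (twf red μ f)) ∧
    (∀ β : CFn G F → F, act red 1 β = β) ∧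
    (∀ (μ ν : G →* ℂˣ) (β : CFn G F → F), act red (μ * ν) β = act red μ (act red ν β)) ∧
    (∀ (μ : G →* ℂˣ) (B : (G → F) → F), IsBlock B → IsBlock (fun f => B (twf red μ f)))

/-- TWL: twisting irreducible characters over `F` -/
def S_TWL : Prop := ∀ (p : ℕ) [Fact p.Prime] (F : Type) [Field F] [IsAlgClosed F] [CharP F p]
  (red : integralClosure ℤ ℂ →+* F) (G : Type) [Group G] [Finite G] (μ : G →* ℂˣ)
  (β : CFn G F → F),
    Nat.card {φ : Lt F G // lb φ = act red μ β} = Nat.card {φ : Lt F G // lb φ = β}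

/-- TWW: twisting weights -/
def S_TWW : Prop := ∀ (p : ℕ) [Fact p.Prime] (F : Type) [Field F] [IsAlgClosed F] [CharP F p]
  (red : integralClosure ℤ ℂ →+* F) (G : Type) [Group G] [Finite G] (μ : G →* ℂˣ)
  (β : CFn G F → F), ¬ p ∣ Nat.card (G →* ℂˣ) →
    Nat.card {w : Wt p G // wb red w = act red μ β} = Nat.card {w : Wt p G // wb red w = β}

end Pool.Agent.J4.H3.PG
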