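import Pool.Agent.J4.H3.PG.D1

/-!
# Weights and arbitrary normal subgroups: statements
-/

set_option autoImplicit false

open scoped Classical BigOperators

noncomputable section

namespace Pool.Agent.J4.H3.PG

open Pool.Agent.Y63.NV
open Pool.Agent.Y63.AWC (IsIrreducibleCharacter)

/-- the sum over the `p`-subgroups `Q` of `J` with `M ∩ Q = 1` -/
def dsum (p : ℕ) {F : Type} [Field F] (red : integralClosure ℤ ℂ →+* F) {J : Type} [Group J]
    (M : Subgroup J) (z : J → F) (c : F) : ℕ :=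
  ∑ᶠ Q : Subgroup J, if IsPGroup p Q ∧ M ⊓ Q = ⊥ then Nat.card (Subgroup.normalizer (Q : Set J)) *
    Nw p red (Q.subgroupOf (Subgroup.normalizer (Q : Set J))) (fun x => z x) c else 0

/-- the stabiliser of the character `θ` of the normal subgroup `I` -/
def StabC {J : Type} [Group J] (I : Subgroup J) (θ : I → ℂ) : Set J :=
  {g | ∀ x y : I, (y : J) = g * x * g⁻¹ → θ y = θ x}

/-- DCG: characters over a normal subgroup of arbitrary index, upper bound -/
def S_DCG : Prop := ∀ (p : ℕ) [Fact p.Prime] (F : Type) [Field F] [IsAlgClosed F] [CharP F p]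
  (red : integralClosure ℤ ℂ →+* F) (J : Type) [Group J] [Finite J] (I Q : Subgroup J) [I.Normal]
  [Q.Normal] (z : J → F) (c : F), Q ≤ I → IsPGroup p Q → InZ I z →
    Nw p red Q z c ≤ I.index * Nw p red (Q.subgroupOf I) (fun x : I => z x) c

/-- UP: characters over a normal subgroup of arbitrary index, lower bound -/
def S_UP : Prop := ∀ (p : ℕ) [Fact p.Prime] (F : Type) [Field F] [IsAlgClosed F] [CharP F p]
  (red : integralClosure ℤ ℂ →+* F) (J : Type) [Group J] [Finite J] (I Q : Subgroup J) [I.Normal]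
  [Q.Normal] (z : J → F) (c : F), Q ≤ I → IsPGroup p Q → InZ I z →
    Nat.card {θ : I → ℂ // (IsWt p (Q.subgroupOf I) θ ∧ centralValue red θ (fun x : I => z x) = c) ∧
      (Nat.card (StabC I θ)).factorization p = (Nat.card I).factorization p} ≤
    I.index * Nw p red Q z c

/-- WG1 -/
def S_WG1 : Prop := ∀ (p : ℕ) [Fact p.Prime] (F : Type) [Field F] [IsAlgClosed F] [CharP F p]
  (red : integralClosure ℤ ℂ →+* F) (J : Type) [Group J] [Finite J] (M : Subgroup J) [M.Normal]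
  (z : J → F) (c : F), InZ M z →
    Nat.card M * Nw p red (⊥ : Subgroup M) (fun x : M => z x) c ≤ M.index ^ 2 * dsum p red M z c

/-- WG2 -/
def S_WG2 : Prop := ∀ (p : ℕ) [Fact p.Prime] (F : Type) [Field F] [IsAlgClosed F] [CharP F p]
  (red : integralClosure ℤ ℂ →+* F) (J : Type) [Group J] [Finite J] (M : Subgroup J) [M.Normal]
  (z : J → F) (c : F), InZ M z →
    dsum p red M z c ≤ M.index ^ 3 * Nat.card (Subgroup (J ⧸ M)) *
      (Nat.card M * Nw p red (⊥ : Subgroup M) (fun x : M => z x) c)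

/-- WG: weights and arbitrary normal subgroups -/
def S_WG : Prop := ∀ (p : ℕ) [Fact p.Prime] (F : Type) [Field F] [IsAlgClosed F] [CharP F p]
  (red : integralClosure ℤ ℂ →+* F) (G : Type) [Group G] [Finite G] (N : Subgroup G) [N.Normal]
  (z : G → F) (c : F), InZ N z →
    WW p red (fun x : N => z x) c ≤ N.index ^ 2 * WW p red z c ∧
      WW p red z c ≤ N.index ^ 3 * Nat.card (Subgroup (G ⧸ N)) * WW p red (fun x : N => z x) c

/-- LIFT -/
def S_LIFT : Prop := S_WG1 → S_WG2 → S_WG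

/-- OP2: the kernel of `sg` has no nontrivial normal `p`-subgroup -/
def S_OP2 : Prop := ∀ (p : ℕ) [Fact p.Prime] (G Q : Type) [Group G] [Group Q] [Finite G]
  [Fintype Q], Nontrivial Q → (∀ M : Subgroup Q, M.Normal → IsPGroup p M → M = ⊥) →
  (∀ M : Subgroup G, M.Normal → IsPGroup p M → M = ⊥) →
    ∀ M : Subgroup (sg G Q).ker, M.Normal → IsPGroup p M → M = ⊥

/-- QP2: large perfect groups without normal `p`-subgroups (powers of `A_5`) -/
def S_QP2 : Prop := ∀ (p : ℕ) [Fact p.Prime], ∀ n : ℕ,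
  ∃ (Q : Type) (_ : Group Q), Finite Q ∧ Nontrivial Q ∧ commutator Q = ⊤ ∧
    (∀ M : Subgroup Q, M.Normal → IsPGroup p M → M = ⊥) ∧ n ≤ Nat.card Q

/-- SUBC: the number of subgroups -/
def S_SUBC : Prop := ∀ (Q : Type) [Group Q] [Finite Q],
  Nat.card (Subgroup Q) ≤ (Nat.card Q) ^ (Nat.log 2 (Nat.card Q))

/-- AMP2: taking roots -/
def S_AMP2 : Prop := ∀ (l w : ℕ) (g A : ℝ), 1 ≤ g → 0 ≤ A →
  (∀ ε : ℝ, 0 < ε → ∃ K : ℝ, 0 ≤ K ∧ ∀ N : ℕ, ∃ n : ℕ, N ≤ n ∧ 1 ≤ n ∧
    (l : ℝ) ^ n ≤ K * (A * ((n : ℝ) ^ 6 * (n : ℝ) ^ (Nat.log 2 n))) * (g ^ n * n) ^ ε *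
      (w : ℝ) ^ n) → l ≤ w

end Pool.Agent.J4.H3.PG
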