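import Pool.Agent.J4.H3.PG.D0

/-!
# Groups with a largest proper normal subgroup
-/

set_option autoImplicit false

open scoped Classical BigOperators

noncomputable section

namespace Pool.Agent.J4.H3.PG

/-- `H` has a largest proper normal subgroup `N`, and `H / N ≅ S` -/
def Top1 (S : Type) [Group S] (H : Type) [Group H] : Prop :=
  ∃ N : Subgroup H, ∃ _ : N.Normal, N ≠ ⊤ ∧ (∀ M : Subgroup H, M.Normal → M ≠ ⊤ → M ≤ N) ∧
    Nonempty (H ⧸ N ≃* S)

/-- UNIQ: the kernel of `sg` has a largest proper normal subgroup if `Q` has one -/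
def S_UNIQ : Prop := ∀ (S G Q : Type) [Group S] [Group G] [Group Q] [Finite G] [Fintype Q],
  5 ≤ Nat.card Q → commutator Q = ⊤ → Top1 S Q → Top1 S (sg G Q).ker

/-- TOWER: large perfect groups with a largest proper normal subgroup with factor group `S` -/
def S_TOWER : Prop := ∀ (S : Type) [Group S] [Finite S] [IsSimpleGroup S], commutator S = ⊤ →
  ∀ n : ℕ, ∃ (Q : Type) (_ : Group Q), Finite Q ∧ Nontrivial Q ∧ commutator Q = ⊤ ∧
    5 ≤ Nat.card Q ∧ n ≤ Nat.card Q ∧ Top1 S Q ∧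
    (∀ p : ℕ, p.Prime → ∀ M : Subgroup Q, M.Normal → IsPGroup p M → M = ⊥) ∧
    (∀ p : ℕ, p.Prime → ¬ p ∣ Nat.card S → ¬ p ∣ Nat.card Q)

end Pool.Agent.J4.H3.PG
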