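import Pool.Agent.J4.H3.PG.D2

/-!
# AMP2: taking roots
-/

set_option autoImplicit false

open Filter Topology

namespace Pool.Agent.J4.H3.PG

/-- `C n^7 n^(log₂ n)` is less than `s^n` for large `n` -/
theorem subexp {C s : ℝ} (hC : 0 < C) (hs : 1 < s) :
    ∀ᶠ n : ℕ in atTop, C * ((n : ℝ) ^ 7 * (n : ℝ) ^ (Nat.log 2 n)) < s ^ n := by
  have hδ : 0 < Real.log s := Real.log_pos hs
  have hs0 : 0 < s := by linarith
  have h1 := (Real.isLittleO_pow_log_id_atTop (n := 2)).bound
    (show 0 < Real.log s / 36 by positivity)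
  have h2 := tendsto_natCast_atTop_atTop (R := ℝ).eventually h1
  have h3 : ∀ᶠ n : ℕ in atTop, Real.log C + 1 ≤ Real.log s / 2 * n := by
    have := (tendsto_natCast_atTop_atTop (R := ℝ)).eventually_ge_atTop
      ((Real.log C + 1) / (Real.log s / 2))
    filter_upwards [this] with n hn
    rwa [div_le_iff₀' (by positivity)] at hn
  filter_upwards [h2, h3, eventually_ge_atTop 3] with n h4 h5 h6
  have hn0 : (0 : ℝ) < n := by
    have : 0 < n := by omega
    exact_mod_cast this
  have h7 : Real.log n ^ 2 ≤ Real.log s / 36 * n := by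
    simp only [id_eq, Real.norm_eq_abs, abs_of_pos hn0] at h4
    exact (le_abs_self _).trans h4
  have h8 : 1 ≤ Real.log n := by
    rw [Real.le_log_iff_exp_le hn0]
    have h9 : Real.exp 1 ≤ 3 := by
      have := Real.exp_one_lt_d9
      linarith
    have h10 : (3 : ℝ) ≤ n := by exact_mod_cast h6
    linarith
  have h9 : (Nat.log 2 n : ℝ) ≤ 2 * Real.log n := by
    have e1 : 2 ^ Nat.log 2 n ≤ n := Nat.pow_log_le_self 2 (by omega)
    have e2 : (2 : ℝ) ^ Nat.log 2 n ≤ n := by exact_mod_cast e1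
    have e3 := Real.log_le_log (by positivity) e2
    rw [Real.log_pow] at e3
    have e4 := Real.log_two_gt_d9
    have e5 : (0 : ℝ) ≤ Nat.log 2 n := Nat.cast_nonneg _
    nlinarith
  have h10 : (n : ℝ) ^ 7 * (n : ℝ) ^ (Nat.log 2 n) =
      Real.exp ((7 + Nat.log 2 n : ℕ) * Real.log n) := by
    rw [← pow_add, Real.exp_nat_mul, Real.exp_log hn0]
  have h11 : s ^ n = Real.exp (n * Real.log s) := by
    rw [Real.exp_nat_mul, Real.exp_log hs0]
  rw [h10, h11, ← Real.exp_log hC, ← Real.exp_add, Real.exp_lt_exp]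
  have h12 : ((7 + Nat.log 2 n : ℕ) : ℝ) * Real.log n ≤ 9 * Real.log n ^ 2 := by
    push_cast
    nlinarith
  nlinarith

theorem t_AMP2 : S_AMP2 := by
  intro l w g A hg hA h
  by_contra hlw
  push Not at hlw
  have hl1 : (1 : ℝ) ≤ l := by exact_mod_cast (show 1 ≤ l by omega)
  rcases Nat.eq_zero_or_pos w with hw | hw
  · subst hw
    obtain ⟨K, _, hK⟩ := h 1 one_pos
    obtain ⟨n, _, hn1, hn⟩ := hK 0
    rw [Nat.cast_zero, zero_pow (by omega), mul_zero] at hn
    have := one_le_pow₀ (n := n) hl1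
    linarith
  · have hw' : (0 : ℝ) < w := by exact_mod_cast hw
    have hlw' : (w : ℝ) < l := by exact_mod_cast hlw
    set r : ℝ := l / w with hr
    have hr1 : 1 < r := (one_lt_div hw').2 hlw'
    set s : ℝ := Real.sqrt r with hs
    have hs1 : 1 < s := by
      rw [hs, Real.lt_sqrt (by norm_num)]
      simpa using hr1
    have hs0 : 0 < s := by linarith
    have hss : s * s = r := Real.mul_self_sqrt (by linarith)
    have hlg : 0 ≤ Real.log g := Real.log_nonneg hg
    have hls : 0 < Real.log s := Real.log_pos hs1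
    have hg0 : 0 < g := by linarith
    set ε : ℝ := min 1 (Real.log s / (Real.log g + 1)) with hε
    have hε0 : 0 < ε := lt_min one_pos (by positivity)
    have hε1 : ε ≤ 1 := min_le_left _ _
    have hε2 : ε * Real.log g ≤ Real.log s := by
      have h1 : ε ≤ Real.log s / (Real.log g + 1) := min_le_right _ _
      have h2 : ε * (Real.log g + 1) ≤ Real.log s := by
        rwa [le_div_iff₀ (by linarith)] at h1
      linarith [hε0.le]
    have hgε : g ^ ε ≤ s := by
      rw [Real.rpow_def_of_pos hg0, ← Real.le_log_iff_exp_le hs0, mul_comm]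
      exact hε2
    obtain ⟨K, hK0, hK⟩ := h ε hε0
    obtain ⟨N, hN⟩ := eventually_atTop.1
      (subexp (C := K * A + 1) (by positivity) hs1)
    obtain ⟨n, hnN, hn1, hn⟩ := hK N
    have h5 := hN n hnN
    have hn1' : (1 : ℝ) ≤ n := by exact_mod_cast hn1
    have hsn : 0 < s ^ n := pow_pos hs0 n
    have h6 : (g ^ n * n) ^ ε ≤ s ^ n * n := by
      rw [Real.mul_rpow (by positivity) (by linarith)]
      refine mul_le_mul ?_ ?_ (Real.rpow_nonneg (by linarith) _) hsn.le
      · rw [← Real.rpow_natCast g n, ← Real.rpow_mul hg0.le, mul_comm, Real.rpow_mul hg0.le,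
          Real.rpow_natCast]
        exact pow_le_pow_left₀ (Real.rpow_nonneg hg0.le _) hgε n
      · calc (n : ℝ) ^ ε ≤ (n : ℝ) ^ (1 : ℝ) := Real.rpow_le_rpow_of_exponent_le hn1' hε1
          _ = n := Real.rpow_one _
    have h7 : (l : ℝ) ^ n = r ^ n * w ^ n := by
      rw [← mul_pow, hr, div_mul_cancel₀ _ hw'.ne']
    have hwn : (0 : ℝ) < (w : ℝ) ^ n := pow_pos hw' n
    rw [h7] at hn
    have h8 := le_of_mul_le_mul_right hn hwn
    set Y : ℝ := (n : ℝ) ^ Nat.log 2 n with hY
    have hY0 : 0 ≤ Y := by positivity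
    have h9 : K * (A * ((n : ℝ) ^ 6 * Y)) * (g ^ n * n) ^ ε ≤
        K * (A * ((n : ℝ) ^ 6 * Y)) * (s ^ n * n) :=
      mul_le_mul_of_nonneg_left h6 (by positivity)
    have h10 : r ^ n = s ^ n * s ^ n := by
      rw [← mul_pow, hss]
    have h11 : K * A * ((n : ℝ) ^ 7 * Y) < s ^ n := by
      have e1 : (K * A + 1) * ((n : ℝ) ^ 7 * Y) = K * A * ((n : ℝ) ^ 7 * Y) + (n : ℝ) ^ 7 * Y := by
        ring
      rw [e1] at h5
      have : (0 : ℝ) ≤ (n : ℝ) ^ 7 * Y := by positivity
      linarith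
    have h12 : K * (A * ((n : ℝ) ^ 6 * Y)) * (s ^ n * n) =
        (K * A * ((n : ℝ) ^ 7 * Y)) * s ^ n := by ring
    have h13 := mul_lt_mul_of_pos_right h11 hsn
    linarith

end Pool.Agent.J4.H3.PG
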