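import Pool.Agent.J4.H3.PG.D0

/-!
# The kernel of `sg` has no nontrivial normal `p`-subgroup
-/

set_option autoImplicit false

open scoped Classical BigOperators

noncomputable section

namespace Pool.Agent.J4.H3.PG

namespace OP

variable {G Q : Type} [Group G] [Group Q] [Fintype Q]

/-- the element with `g` at the place `i` and `g⁻¹` at the place `j` -/
def pr (i j : Q) (g : G) : RegularWreathProduct G Q := ⟨Pi.mulSingle i g * Pi.mulSingle j g⁻¹, 1⟩

lemma pr_mem (i j : Q) (g : G) : pr i j g ∈ (sg G Q).ker := by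
  rw [MonoidHom.mem_ker]
  show ∏ x : Q, Abelianization.of ((Pi.mulSingle i g * Pi.mulSingle j g⁻¹ : Q → G) x) = 1
  have h : ∀ (i : Q) (g : G), ∏ x : Q, Abelianization.of ((Pi.mulSingle i g : Q → G) x) =
      Abelianization.of g := by
    intro i g
    rw [Finset.prod_eq_single i]
    · rw [Pi.mulSingle_eq_same]
    · intro x _ hx
      rw [Pi.mulSingle_eq_of_ne hx, map_one]
    · intro h
      exact absurd (Finset.mem_univ i) h
  simp only [Pi.mul_apply, map_mul, Finset.prod_mul_distrib]
  rw [h, h, ← map_mul, mul_inv_cancel, map_one]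

lemma pr_left (i j : Q) (hij : i ≠ j) (g : G) : (pr i j g).left i = g := by
  show (Pi.mulSingle i g * Pi.mulSingle j g⁻¹ : Q → G) i = g
  rw [Pi.mul_apply, Pi.mulSingle_eq_same, Pi.mulSingle_eq_of_ne hij, mul_one]

lemma left_mul_of (a b : RegularWreathProduct G Q) (ha : a.right = 1) (i : Q) :
    (a * b).left i = a.left i * b.left i := by
  rw [RegularWreathProduct.mul_left, Pi.mul_apply, ha, inv_one, one_mul]

lemma left_pow_of (a : RegularWreathProduct G Q) (ha : a.right = 1) (i : Q) (n : ℕ) :
    (a ^ n).left i = (a.left i) ^ n := by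
  induction n with
  | zero => rw [pow_zero, pow_zero]; rfl
  | succ n ih => rw [pow_succ', left_mul_of a _ ha, ih, pow_succ']

end OP

open OP

theorem t_OP : S_OP := by
  intro p hp G Q _ _ _ _ hQ hpQ hG M hM hMp
  have hr : ∀ m ∈ M, (m : RegularWreathProduct G Q).right = 1 := by
    intro m hm
    obtain ⟨k, hk⟩ := hMp ⟨m, hm⟩
    have h1 : m ^ p ^ k = 1 := by
      have := congrArg Subtype.val hk
      exact this
    have h2 : (m : RegularWreathProduct G Q) ^ p ^ k = 1 := by
      have := congrArg Subtype.val h1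
      exact this
    have h3 : (m : RegularWreathProduct G Q).right ^ p ^ k = 1 := by
      have := congrArg (RegularWreathProduct.rightHom : RegularWreathProduct G Q →* Q) h2
      rw [map_pow, map_one] at this
      exact this
    have h4 : orderOf (m : RegularWreathProduct G Q).right ∣ p ^ k := orderOf_dvd_of_pow_eq_one h3
    have h5 : orderOf (m : RegularWreathProduct G Q).right ∣ Nat.card Q := orderOf_dvd_natCard _
    have h6 : Nat.Coprime (p ^ k) (Nat.card Q) :=
      Nat.Coprime.pow_left _ ((Nat.Prime.coprime_iff_not_dvd hp.out).2 hpQ)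
    exact orderOf_eq_one_iff.1 (Nat.eq_one_of_dvd_coprimes h6 h4 h5)
  have hl : ∀ (i : Q), ∀ m ∈ M, (m : RegularWreathProduct G Q).left i = 1 := by
    intro i
    obtain ⟨j, hj⟩ := exists_ne i
    let P : Subgroup G :=
      { carrier := {x | ∃ m ∈ M, (m : RegularWreathProduct G Q).left i = x}
        one_mem' := ⟨1, M.one_mem, rfl⟩
        mul_mem' := by
          rintro a b ⟨m, hm, rfl⟩ ⟨n, hn, rfl⟩
          exact ⟨m * n, M.mul_mem hm hn, left_mul_of _ _ (hr m hm) i⟩
        inv_mem' := by
          rintro a ⟨m, hm, rfl⟩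
          refine ⟨m⁻¹, M.inv_mem hm, ?_⟩
          have h1 := left_mul_of (m : RegularWreathProduct G Q) ((m⁻¹ : (sg G Q).ker) :
            RegularWreathProduct G Q) (hr m hm) i
          have h2 : (m : RegularWreathProduct G Q) * ((m⁻¹ : (sg G Q).ker) :
            RegularWreathProduct G Q) = 1 := by
            rw [← Subgroup.coe_mul, mul_inv_cancel, Subgroup.coe_one]
          rw [h2] at h1
          exact (eq_inv_of_mul_eq_one_right h1.symm) }
    have hPn : P.Normal := by
      refine ⟨?_⟩
      rintro a ⟨m, hm, rfl⟩ g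
      let k : (sg G Q).ker := ⟨pr i j g, pr_mem i j g⟩
      have hkm : k * m * k⁻¹ ∈ M := hM.conj_mem m hm k
      refine ⟨k * m * k⁻¹, hkm, ?_⟩
      have h1 := left_mul_of ((k * m * k⁻¹ : (sg G Q).ker) : RegularWreathProduct G Q)
        (k : RegularWreathProduct G Q) (hr _ hkm) i
      have h2 : ((k * m * k⁻¹ : (sg G Q).ker) : RegularWreathProduct G Q) *
          (k : RegularWreathProduct G Q) = (k : RegularWreathProduct G Q) * m := by
        rw [← Subgroup.coe_mul, inv_mul_cancel_right, Subgroup.coe_mul]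
      rw [h2, left_mul_of _ _ rfl] at h1
      have h3 : (k : RegularWreathProduct G Q).left i = g := pr_left i j hj.symm g
      rw [h3] at h1
      rw [eq_mul_inv_iff_mul_eq]
      exact h1.symm
    have hPp : IsPGroup p P := by
      rintro ⟨a, m, hm, rfl⟩
      obtain ⟨k, hk⟩ := hMp ⟨m, hm⟩
      refine ⟨k, ?_⟩
      apply Subtype.ext
      show ((m : RegularWreathProduct G Q).left i) ^ p ^ k = 1
      rw [← left_pow_of _ (hr m hm)]
      have h1 : m ^ p ^ k = 1 := congrArg Subtype.val hk
      have h2 : (m : RegularWreathProduct G Q) ^ p ^ k = 1 := congrArg Subtype.val h1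
      rw [h2]
      rfl
    have hP := hG P hPn hPp
    intro m hm
    have h1 : (m : RegularWreathProduct G Q).left i ∈ P := ⟨m, hm, rfl⟩
    rw [hP] at h1
    exact Subgroup.mem_bot.1 h1
  rw [eq_bot_iff]
  intro m hm
  rw [Subgroup.mem_bot]
  apply Subtype.ext
  apply RegularWreathProduct.ext
  · funext i
    exact hl i m hm
  · exact hr m hm

end Pool.Agent.J4.H3.PG
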