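import Pool.Agent.J4.H3.PG.D2
import Pool.Agent.J4.H3.PG.T_OP

/-!
# The kernel of `sg` has no nontrivial normal `p`-subgroup, second form
-/

set_option autoImplicit false

open scoped Classical BigOperators

noncomputable section

namespace Pool.Agent.J4.H3.PG

open OP

theorem t_OP2 : S_OP2 := by
  intro p hp G Q _ _ _ _ hQ hQp hG M hM hMp
  have hr : ∀ m ∈ M, (m : RegularWreathProduct G Q).right = 1 := by
    let P0 : Subgroup Q := (M.map (sg G Q).ker.subtype).map RegularWreathProduct.rightHom
    have hP0n : P0.Normal := by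
      refine ⟨?_⟩
      rintro q ⟨_, ⟨m, hm, rfl⟩, rfl⟩ g
      have hk0 : (⟨1, g⟩ : RegularWreathProduct G Q) ∈ (sg G Q).ker := by
        rw [MonoidHom.mem_ker]
        show ∏ x : Q, Abelianization.of ((1 : Q → G) x) = 1
        simp
      let k : (sg G Q).ker := ⟨⟨1, g⟩, hk0⟩
      have hkm : k * m * k⁻¹ ∈ M := hM.conj_mem m hm k
      refine ⟨_, ⟨k * m * k⁻¹, hkm, rfl⟩, ?_⟩
      rw [map_mul, map_mul, map_inv, map_mul, map_mul, map_inv]
      rfl
    have hP0p : IsPGroup p P0 := (hMp.map _).map _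
    have hP0 := hQp P0 hP0n hP0p
    intro m hm
    have h1 : (m : RegularWreathProduct G Q).right ∈ P0 := ⟨_, ⟨m, hm, rfl⟩, rfl⟩
    rw [hP0] at h1
    exact Subgroup.mem_bot.1 h1
  have hl : ∀ (i : Q), ∀ m ∈ M, (m : RegularWreathProduct G Q).left i = 1 := by
    intro i
    obtain ⟨j, hj⟩ := exists_ne i
    let P : Subgroup G :=
      { carrier := {x | ∃ m ∈ M, (m : RegularWreathProduct G Q).left i = x}
        one_mem' := ⟨1, M.one_mem, rfl⟩
        mul_mem' := by
          rintro a b ⟨m, hm, rfl⟩ ⟨n, hn, rfl⟩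
          exact ⟨m * n, M.mul_mem hm hn, left_mul_of _ _ (hr m hm) i⟩
        inv_mem' := by
          rintro a ⟨m, hm, rfl⟩
          refine ⟨m⁻¹, M.inv_mem hm, ?_⟩
          have h1 := left_mul_of (m : RegularWreathProduct G Q) ((m⁻¹ : (sg G Q).ker) :
            RegularWreathProduct G Q) (hr m hm) i
          have h2 : (m : RegularWreathProduct G Q) * ((m⁻¹ : (sg G Q).ker) :
            RegularWreathProduct G Q) = 1 := by
            rw [← Subgroup.coe_mul, mul_inv_cancel, Subgroup.coe_one]
          rw [h2] at h1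
          exact (eq_inv_of_mul_eq_one_right h1.symm) }
    have hPn : P.Normal := by
      refine ⟨?_⟩
      rintro a ⟨m, hm, rfl⟩ g
      let k : (sg G Q).ker := ⟨pr i j g, pr_mem i j g⟩
      have hkm : k * m * k⁻¹ ∈ M := hM.conj_mem m hm k
      refine ⟨k * m * k⁻¹, hkm, ?_⟩
      have h1 := left_mul_of ((k * m * k⁻¹ : (sg G Q).ker) : RegularWreathProduct G Q)
        (k : RegularWreathProduct G Q) (hr _ hkm) i
      have h2 : ((k * m * k⁻¹ : (sg G Q).ker) : RegularWreathProduct G Q) *
          (k : RegularWreathProduct G Q) = (k : RegularWreathProduct G Q) * m := by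
        rw [← Subgroup.coe_mul, inv_mul_cancel_right, Subgroup.coe_mul]
      rw [h2, left_mul_of _ _ rfl] at h1
      have h3 : (k : RegularWreathProduct G Q).left i = g := pr_left i j hj.symm g
      rw [h3] at h1
      rw [eq_mul_inv_iff_mul_eq]
      exact h1.symm
    have hPp : IsPGroup p P := by
      rintro ⟨a, m, hm, rfl⟩
      obtain ⟨k, hk⟩ := hMp ⟨m, hm⟩
      refine ⟨k, ?_⟩
      apply Subtype.ext
      show ((m : RegularWreathProduct G Q).left i) ^ p ^ k = 1
      rw [← left_pow_of _ (hr m hm)]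
      have h1 : m ^ p ^ k = 1 := congrArg Subtype.val hk
      have h2 : (m : RegularWreathProduct G Q) ^ p ^ k = 1 := congrArg Subtype.val h1
      rw [h2]
      rfl
    have hP := hG P hPn hPp
    intro m hm
    have h1 : (m : RegularWreathProduct G Q).left i ∈ P := ⟨m, hm, rfl⟩
    rw [hP] at h1
    exact Subgroup.mem_bot.1 h1
  rw [eq_bot_iff]
  intro m hm
  rw [Subgroup.mem_bot]
  apply Subtype.ext
  apply RegularWreathProduct.ext
  · funext i
    exact hl i m hm
  · exact hr m hm

end Pool.Agent.J4.H3.PG
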