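import Pool.Agent.J4.H3.PG.D0

/-!
# PERF: the kernel of `sg` is perfect (helper81)
-/

set_option autoImplicit false

namespace Pool.Agent.J4.H3.PG.Perf

open RegularWreathProduct
open scoped commutatorElement

variable {G Q : Type} [Group G] [Group Q] [Fintype Q]

/-- the element `(f, 1)` of the kernel -/
noncomputable def bs (f : Q → G) (hf : ∏ i : Q, Abelianization.of (f i) = 1) : (sg G Q).ker :=
  ⟨⟨f, 1⟩, hf⟩

/-- the element `(1, q)` of the kernel -/
noncomputable def tp (q : Q) : (sg G Q).ker :=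
  ⟨⟨1, q⟩, by
    show ∏ i : Q, Abelianization.of ((1 : Q → G) i) = 1
    simp⟩

theorem dd_mem [DecidableEq Q] (i j : Q) (x : G) :
    ∏ t : Q, Abelianization.of ((Pi.mulSingle i x * (Pi.mulSingle j x)⁻¹ : Q → G) t) = 1 := by
  have h : ∀ k : Q, ∏ t : Q, Abelianization.of ((Pi.mulSingle k x : Q → G) t) =
      Abelianization.of x := by
    intro k
    rw [Finset.prod_eq_single k]
    · rw [Pi.mulSingle_eq_same]
    · intro b _ hb
      rw [Pi.mulSingle_eq_of_ne hb, map_one]
    · intro hk
      exact absurd (Finset.mem_univ k) hk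
  simp only [Pi.mul_apply, Pi.inv_apply, map_mul, map_inv, Finset.prod_mul_distrib,
    Finset.prod_inv_distrib]
  rw [h i, h j, mul_inv_cancel]

/-- `x` in the coordinate `i` and `x⁻¹` in the coordinate `j` -/
noncomputable def dd [DecidableEq Q] (i j : Q) (x : G) : (sg G Q).ker :=
  bs (Pi.mulSingle i x * (Pi.mulSingle j x)⁻¹) (dd_mem i j x)

theorem dd_mul [DecidableEq Q] (i j k : Q) (x : G) : dd i j x * dd j k x = dd i k x := by
  apply Subtype.ext
  apply RegularWreathProduct.ext
  · funext t
    show (Pi.mulSingle i x * (Pi.mulSingle j x)⁻¹ : Q → G) t *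
      (Pi.mulSingle j x * (Pi.mulSingle k x)⁻¹ : Q → G) ((1 : Q)⁻¹ * t) =
        (Pi.mulSingle i x * (Pi.mulSingle k x)⁻¹ : Q → G) t
    rw [inv_one, one_mul]
    simp only [Pi.mul_apply, Pi.inv_apply]
    group
  · show (1 : Q) * 1 = 1
    rw [one_mul]

theorem conj_tp [DecidableEq Q] (q i j : Q) (x : G) :
    tp q * dd i j x * (tp q)⁻¹ = dd (q * i) (q * j) x := by
  rw [mul_inv_eq_iff_eq_mul]
  apply Subtype.ext
  apply RegularWreathProduct.ext
  · funext t
    show (1 : Q → G) t * (Pi.mulSingle i x * (Pi.mulSingle j x)⁻¹ : Q → G) (q⁻¹ * t) =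
      (Pi.mulSingle (q * i) x * (Pi.mulSingle (q * j) x)⁻¹ : Q → G) t * (1 : Q → G) ((1 : Q)⁻¹ * t)
    have h : ∀ k : Q, (Pi.mulSingle k x : Q → G) (q⁻¹ * t) = (Pi.mulSingle (q * k) x : Q → G) t := by
      intro k
      by_cases hk : t = q * k
      · rw [hk, Pi.mulSingle_eq_same, inv_mul_cancel_left, Pi.mulSingle_eq_same]
      · rw [Pi.mulSingle_eq_of_ne hk, Pi.mulSingle_eq_of_ne]
        intro h1
        apply hk
        rw [← h1, mul_inv_cancel_left]
    simp only [Pi.mul_apply, Pi.inv_apply, Pi.one_apply, one_mul, mul_one, h]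
  · show q * 1 = 1 * q
    rw [mul_one, one_mul]

variable {A : Type} [CommGroup A] (φ : (sg G Q).ker →* A)

theorem hom_trivial (hQ : commutator Q = ⊤) (E : Q →* A) (q : Q) : E q = 1 := by
  have h := Abelianization.commutator_subset_ker E
  rw [hQ] at h
  exact (h (Subgroup.mem_top q))

theorem map_tp (hQ : commutator Q = ⊤) (q : Q) : φ (tp q) = 1 := by
  have h := hom_trivial hQ (A := A) (φ.comp
    { toFun := fun q => tp q
      map_one' := rfl
      map_mul' := fun a b => by
        apply Subtype.ext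
        apply RegularWreathProduct.ext
        · funext t
          show (1 : Q → G) t = (1 : Q → G) t * (1 : Q → G) (a⁻¹ * t)
          simp
        · rfl }) q
  exact h

theorem map_dd [DecidableEq Q] (hQ : commutator Q = ⊤) (i j : Q) (x : G) : φ (dd i j x) = 1 := by
  have hc : ∀ q i j : Q, φ (dd (q * i) (q * j) x) = φ (dd i j x) := by
    intro q i j
    rw [← conj_tp, map_mul, map_mul, map_inv, mul_comm (φ (tp q)), mul_assoc, mul_inv_cancel, mul_one]
  have h := hom_trivial hQ (A := A)
    { toFun := fun g => φ (dd 1 g x)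
      map_one' := by
        have h1 := congrArg φ (dd_mul (1 : Q) 1 1 x)
        rw [map_mul] at h1
        exact mul_eq_left.1 h1
      map_mul' := fun a b => by
        have h1 := congrArg φ (dd_mul (1 : Q) a (a * b) x)
        rw [map_mul] at h1
        have h2 := hc a 1 b
        rw [mul_one] at h2
        rw [← h1, h2] } (i⁻¹ * j)
  have h2 := hc i 1 (i⁻¹ * j)
  rw [mul_one, mul_inv_cancel_left] at h2
  rw [h2]
  exact h

/-- a commutator in the coordinate `i` -/
theorem map_comm [DecidableEq Q] {i j k : Q} (hij : i ≠ j) (hik : i ≠ k) (hjk : j ≠ k) (x y : G)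
    (h : ∏ t : Q, Abelianization.of ((Pi.mulSingle i ⁅x, y⁆ : Q → G) t) = 1) :
    φ (bs (Pi.mulSingle i ⁅x, y⁆) h) = 1 := by
  have e : bs (Pi.mulSingle i ⁅x, y⁆) h = dd i j x * dd i k y * (dd i j x)⁻¹ * (dd i k y)⁻¹ := by
    rw [eq_mul_inv_iff_mul_eq, eq_mul_inv_iff_mul_eq]
    apply Subtype.ext
    apply RegularWreathProduct.ext
    · funext t
      show ((Pi.mulSingle i ⁅x, y⁆ : Q → G) t *
          (Pi.mulSingle i y * (Pi.mulSingle k y)⁻¹ : Q → G) ((1 : Q)⁻¹ * t)) *
          (Pi.mulSingle i x * (Pi.mulSingle j x)⁻¹ : Q → G) ((1 * 1 : Q)⁻¹ * t) =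
        (Pi.mulSingle i x * (Pi.mulSingle j x)⁻¹ : Q → G) t *
          (Pi.mulSingle i y * (Pi.mulSingle k y)⁻¹ : Q → G) ((1 : Q)⁻¹ * t)
      simp only [inv_one, one_mul, Pi.mul_apply, Pi.inv_apply]
      by_cases h1 : t = i
      · subst h1
        rw [Pi.mulSingle_eq_same, Pi.mulSingle_eq_same, Pi.mulSingle_eq_same,
          Pi.mulSingle_eq_of_ne hij, Pi.mulSingle_eq_of_ne hik, commutatorElement_def]
        group
      · rw [Pi.mulSingle_eq_of_ne h1, Pi.mulSingle_eq_of_ne h1, Pi.mulSingle_eq_of_ne h1]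
        by_cases h2 : t = j
        · subst h2
          rw [Pi.mulSingle_eq_same, Pi.mulSingle_eq_of_ne hjk]
          group
        · rw [Pi.mulSingle_eq_of_ne h2]
          group
    · show (1 : Q) * 1 * 1 = 1 * 1
      group
  rw [e, map_mul, map_mul, map_mul, map_inv, map_inv, mul_comm (φ (dd i j x)), mul_assoc,
    mul_assoc, mul_inv_cancel_left, mul_inv_cancel]

theorem map_one_coord [DecidableEq Q] {i j k : Q} (hij : i ≠ j) (hik : i ≠ k) (hjk : j ≠ k) (g : G)
    (hg : g ∈ commutator G) (h : ∏ t : Q, Abelianization.of ((Pi.mulSingle i g : Q → G) t) = 1) :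
    φ (bs (Pi.mulSingle i g) h) = 1 := by
  have key : ∀ g ∈ commutator G, ∃ h, φ (bs (Pi.mulSingle i g) h) = 1 := by
    intro g hg
    rw [commutator_eq_closure] at hg
    induction hg using Subgroup.closure_induction with
    | mem y hy =>
      obtain ⟨a, b, rfl⟩ := hy
      have h1 : ∏ t : Q, Abelianization.of ((Pi.mulSingle i ⁅a, b⁆ : Q → G) t) = 1 := by
        rw [Finset.prod_eq_single i]
        · rw [Pi.mulSingle_eq_same, map_commutatorElement, commutatorElement_eq_one_iff_mul_comm,
            mul_comm]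
        · intro t _ ht
          rw [Pi.mulSingle_eq_of_ne ht, map_one]
        · intro hk
          exact absurd (Finset.mem_univ i) hk
      exact ⟨h1, map_comm φ hij hik hjk a b h1⟩
    | one =>
      refine ⟨by simp, ?_⟩
      have e : bs (Pi.mulSingle i (1 : G)) (by simp) = (1 : (sg G Q).ker) := by
        apply Subtype.ext
        apply RegularWreathProduct.ext
        · show (Pi.mulSingle i (1 : G) : Q → G) = 1
          simp
        · rfl
      rw [e, map_one]
    | mul a b _ _ ha hb =>
      obtain ⟨h1, h2⟩ := ha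
      obtain ⟨h3, h4⟩ := hb
      have h5 : ∏ t : Q, Abelianization.of ((Pi.mulSingle i (a * b) : Q → G) t) = 1 := by
        rw [Pi.mulSingle_mul]
        simp only [Pi.mul_apply, map_mul, Finset.prod_mul_distrib]
        rw [h1, h3, mul_one]
      refine ⟨h5, ?_⟩
      have e : bs (Pi.mulSingle i (a * b)) h5 = bs (Pi.mulSingle i a) h1 * bs (Pi.mulSingle i b) h3 := by
        apply Subtype.ext
        apply RegularWreathProduct.ext
        · funext t
          show (Pi.mulSingle i (a * b) : Q → G) t = (Pi.mulSingle i a : Q → G) t *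
            (Pi.mulSingle i b : Q → G) ((1 : Q)⁻¹ * t)
          rw [inv_one, one_mul, Pi.mulSingle_mul]
          rfl
        · show (1 : Q) = 1 * 1
          rw [one_mul]
      rw [e, map_mul, h2, h4, one_mul]
    | inv a _ ha =>
      obtain ⟨h1, h2⟩ := ha
      have h5 : ∏ t : Q, Abelianization.of ((Pi.mulSingle i a⁻¹ : Q → G) t) = 1 := by
        rw [Pi.mulSingle_inv]
        simp only [Pi.inv_apply, map_inv, Finset.prod_inv_distrib]
        rw [h1, inv_one]
      refine ⟨h5, ?_⟩
      have e : bs (Pi.mulSingle i a⁻¹) h5 = (bs (Pi.mulSingle i a) h1)⁻¹ := by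
        rw [eq_inv_iff_mul_eq_one]
        apply Subtype.ext
        apply RegularWreathProduct.ext
        · funext t
          show (Pi.mulSingle i a⁻¹ : Q → G) t * (Pi.mulSingle i a : Q → G) ((1 : Q)⁻¹ * t) = 1
          rw [inv_one, one_mul, Pi.mulSingle_inv, Pi.inv_apply, inv_mul_cancel]
        · show (1 : Q) * 1 = 1
          rw [one_mul]
      rw [e, map_inv, h2, inv_one]
  obtain ⟨_, h'⟩ := key g hg
  exact h'

theorem map_base [DecidableEq Q] [DecidableEq G] {i j k : Q} (hij : i ≠ j) (hik : i ≠ k) (hjk : j ≠ k)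
    (hQ : commutator Q = ⊤) : ∀ (n : ℕ) (f : Q → G)
    (hf : ∏ t : Q, Abelianization.of (f t) = 1),
    (Finset.univ.filter fun t => t ≠ i ∧ f t ≠ 1).card ≤ n → φ (bs f hf) = 1 := by
  intro n
  induction n with
  | zero =>
    intro f hf hn
    have h1 : ∀ t, t ≠ i → f t = 1 := by
      intro t ht
      by_contra h
      have : t ∈ (Finset.univ.filter fun t => t ≠ i ∧ f t ≠ 1) :=
        Finset.mem_filter.2 ⟨Finset.mem_univ _, ht, h⟩
      have h2 := Finset.card_pos.2 ⟨t, this⟩
      omega
    have h2 : f = Pi.mulSingle i (f i) := by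
      funext t
      by_cases ht : t = i
      · subst ht
        rw [Pi.mulSingle_eq_same]
      · rw [Pi.mulSingle_eq_of_ne ht, h1 t ht]
    have h3 : f i ∈ commutator G := by
      rw [← Abelianization.ker_of, MonoidHom.mem_ker]
      rw [Finset.prod_eq_single i (fun t _ ht => by rw [h1 t ht, map_one])
        (fun hk => absurd (Finset.mem_univ i) hk)] at hf
      exact hf
    have h4 : ∏ t : Q, Abelianization.of ((Pi.mulSingle i (f i) : Q → G) t) = 1 := by
      rw [← h2]
      exact hf
    have h5 : bs f hf = bs (Pi.mulSingle i (f i)) h4 := by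
      apply Subtype.ext
      apply RegularWreathProduct.ext
      · exact h2
      · rfl
    rw [h5]
    exact map_one_coord φ hij hik hjk _ h3 h4
  | succ n ih =>
    intro f hf hn
    by_cases hex : ∃ t, t ≠ i ∧ f t ≠ 1
    · obtain ⟨t, hti, ht1⟩ := hex
      have h1 : ∏ l : Q, Abelianization.of
          (((Pi.mulSingle i (f t) * (Pi.mulSingle t (f t))⁻¹ : Q → G) * f) l) = 1 := by
        have h0 : ∀ l : Q, Abelianization.of
            (((Pi.mulSingle i (f t) * (Pi.mulSingle t (f t))⁻¹ : Q → G) * f) l) =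
            Abelianization.of ((Pi.mulSingle i (f t) * (Pi.mulSingle t (f t))⁻¹ : Q → G) l) *
              Abelianization.of (f l) := fun l => map_mul _ _ _
        rw [Finset.prod_congr rfl (fun l _ => h0 l), Finset.prod_mul_distrib, hf, mul_one]
        exact dd_mem i t (f t)
      have h2 : bs f hf = dd t i (f t) *
          bs ((Pi.mulSingle i (f t) * (Pi.mulSingle t (f t))⁻¹ : Q → G) * f) h1 := by
        apply Subtype.ext
        apply RegularWreathProduct.ext
        · funext l
          show f l = (Pi.mulSingle t (f t) * (Pi.mulSingle i (f t))⁻¹ : Q → G) l *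
            ((Pi.mulSingle i (f t) * (Pi.mulSingle t (f t))⁻¹ : Q → G) * f) ((1 : Q)⁻¹ * l)
          rw [inv_one, one_mul]
          simp only [Pi.mul_apply, Pi.inv_apply]
          group
        · show (1 : Q) = 1 * 1
          rw [one_mul]
      rw [h2, map_mul, map_dd φ hQ, one_mul]
      refine ih _ h1 ?_
      have h3 : (Finset.univ.filter fun l => l ≠ i ∧
          ((Pi.mulSingle i (f t) * (Pi.mulSingle t (f t))⁻¹ : Q → G) * f) l ≠ 1) ⊆
          (Finset.univ.filter fun l => l ≠ i ∧ f l ≠ 1).erase t := by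
        intro l hl
        obtain ⟨-, hli, hl1⟩ := Finset.mem_filter.1 hl
        have hlt : l ≠ t := by
          rintro rfl
          apply hl1
          simp only [Pi.mul_apply, Pi.inv_apply]
          rw [Pi.mulSingle_eq_of_ne hli, Pi.mulSingle_eq_same]
          group
        refine Finset.mem_erase.2 ⟨hlt, Finset.mem_filter.2 ⟨Finset.mem_univ _, hli, ?_⟩⟩
        intro h0
        apply hl1
        simp only [Pi.mul_apply, Pi.inv_apply]
        rw [Pi.mulSingle_eq_of_ne hli, Pi.mulSingle_eq_of_ne hlt, h0]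
        group
      have h4 := Finset.card_le_card h3
      rw [Finset.card_erase_of_mem (Finset.mem_filter.2 ⟨Finset.mem_univ _, hti, ht1⟩)] at h4
      omega
    · refine ih f hf ?_
      have : (Finset.univ.filter fun t => t ≠ i ∧ f t ≠ 1) = ∅ := by
        rw [Finset.filter_eq_empty_iff]
        intro t _ h
        exact hex ⟨t, h⟩
      rw [this]
      exact Nat.zero_le _

theorem exists_three (hn : Nontrivial Q) (hQ : commutator Q = ⊤) :
    ∃ j k : Q, (1 : Q) ≠ j ∧ (1 : Q) ≠ k ∧ j ≠ k := by
  by_contra hcon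
  push Not at hcon
  have hcomm : ∀ a b : Q, a * b = b * a := by
    intro a b
    by_cases ha : 1 = a
    · rw [← ha, one_mul, mul_one]
    · by_cases hb : 1 = b
      · rw [← hb, one_mul, mul_one]
      · rw [hcon a b ha hb]
  have h1 : commutator Q = ⊥ := by
    rw [commutator_eq_closure, Subgroup.closure_eq_bot_iff]
    rintro _ ⟨a, b, rfl⟩
    rw [Set.mem_singleton_iff, commutatorElement_eq_one_iff_mul_comm]
    exact hcomm a b
  rw [hQ] at h1
  exact top_ne_bot h1

end Pool.Agent.J4.H3.PG.Perf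

namespace Pool.Agent.J4.H3.PG

open Perf in
theorem t_PERF : S_PERF := by
  classical
  intro G Q _ _ _ _ hn hQ
  obtain ⟨j, k, h1j, h1k, hjk⟩ := exists_three hn hQ
  rw [Subgroup.eq_top_iff']
  intro h
  rw [← Abelianization.ker_of, MonoidHom.mem_ker]
  obtain ⟨⟨f, q⟩, hf⟩ := h
  have hf' : ∏ t : Q, Abelianization.of (f t) = 1 := hf
  have e : (⟨⟨f, q⟩, hf⟩ : (sg G Q).ker) = bs f hf' * tp q := by
    apply Subtype.ext
    apply RegularWreathProduct.ext
    · funext t
      show f t = f t * (1 : Q → G) ((1 : Q)⁻¹ * t)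
      rw [Pi.one_apply, mul_one]
    · show q = 1 * q
      rw [one_mul]
  rw [e, map_mul, map_tp _ hQ, mul_one]
  exact map_base _ h1j h1k hjk hQ _ f hf' le_rfl

end Pool.Agent.J4.H3.PG
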