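import Pool.Agent.J4.H3.PG.D0
import Pool.Agent.J4.H64.SZ.Mats

/-!
# A perfect group of order prime to three

The subgroup of `GL_4(F_8)` generated by two elements `a`, `b` of the Suzuki group `Sz(8)` of orders
`5`, `7` whose product has order `13`. It is perfect, since the images of `a`, `b` in every abelian
quotient are trivial, and has no element of order three (`P.order_three`).
-/

set_option autoImplicit false

namespace Pool.Agent.J4.H3.PG

open Pool.Agent.J4.H64.SZ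

namespace Q3

theorem a_pow : a1 ^ 5 = 1 := by
  rw [show 5 = 2 + 2 + 1 from rfl, pow_add, pow_add, pow_one, pow_two, a1_a1, a2_a2, a4_a1]

theorem b_pow : b1 ^ 7 = 1 := by
  rw [show 7 = 2 + 2 + 2 + 1 from rfl, pow_add, pow_add, pow_add, pow_one, pow_two, b1_b1, b2_b2,
    b4_b2, b6_b1]

theorem c_pow : (a1 * b1) ^ 13 = 1 := by
  have h2 : c1 ^ 2 = c2 := by rw [pow_two, c1_c1]
  have h4 : c1 ^ 4 = c4 := by
    calc c1 ^ 4 = c1 ^ 2 * c1 ^ 2 := by rw [← pow_add]
      _ = c4 := by rw [h2, c2_c2]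
  calc (a1 * b1) ^ 13 = c1 ^ 4 * c1 ^ 4 * c1 ^ 4 * c1 := by
        rw [a1_b1, ← pow_add, ← pow_add, ← pow_succ]
    _ = 1 := by rw [h4, c4_c4, c8_c4, c12_c1]

/-- `a` as an element of `GL_4(F_8)` -/
noncomputable def ua : (Matrix (Fin 4) (Fin 4) F8)ˣ := Units.ofPowEqOne a1 5 a_pow (by norm_num)
/-- `b` as an element of `GL_4(F_8)` -/
noncomputable def ub : (Matrix (Fin 4) (Fin 4) F8)ˣ := Units.ofPowEqOne b1 7 b_pow (by norm_num)

theorem ua_val : (ua : Matrix (Fin 4) (Fin 4) F8) = a1 := rfl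
theorem ub_val : (ub : Matrix (Fin 4) (Fin 4) F8) = b1 := rfl

/-- the group -/
def K : Subgroup (Matrix (Fin 4) (Fin 4) F8)ˣ := Subgroup.closure {ua, ub}

theorem P_pow {g : Matrix (Fin 4) (Fin 4) F8} (hg : P F8.phi g) (n : ℕ) : P F8.phi (g ^ n) := by
  induction n with
  | zero => rw [pow_zero]; exact P.one _
  | succ n ih => rw [pow_succ]; exact ih.mul F8.two_eq hg

theorem P_of_mem {g : (Matrix (Fin 4) (Fin 4) F8)ˣ} (hg : g ∈ K) :
    P F8.phi (g : Matrix (Fin 4) (Fin 4) F8) := by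
  induction hg using Subgroup.closure_induction with
  | mem x hx =>
    rcases hx with rfl | hx
    · exact P_a
    · rw [Set.mem_singleton_iff] at hx
      rw [hx]
      exact P_b
  | one => exact P.one _
  | mul x y _ _ hx hy => exact hx.mul F8.two_eq hy
  | inv x _ hx =>
    have : Finite (Matrix (Fin 4) (Fin 4) F8)ˣ := inferInstance
    have h : x⁻¹ = x ^ (orderOf x - 1) := by
      rw [inv_eq_iff_mul_eq_one, ← pow_succ', Nat.sub_add_cancel (orderOf_pos x), pow_orderOf_eq_one]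
    rw [h, Units.val_pow_eq_pow_val]
    exact P_pow hx _

theorem ua_pow : ua ^ 5 = 1 := Units.ext (by rw [Units.val_pow_eq_pow_val, ua_val, a_pow]; rfl)
theorem ub_pow : ub ^ 7 = 1 := Units.ext (by rw [Units.val_pow_eq_pow_val, ub_val, b_pow]; rfl)
theorem uc_pow : (ua * ub) ^ 13 = 1 :=
  Units.ext (by rw [Units.val_pow_eq_pow_val, Units.val_mul, ua_val, ub_val, c_pow]; rfl)

theorem comm_trivial {A : Type} [CommGroup A] {x y : A} (hx : x ^ 5 = 1) (hy : y ^ 7 = 1)
    (hxy : (x * y) ^ 13 = 1) : x = 1 ∧ y = 1 := by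
  have h1 : x = 1 := by
    calc x = (x ^ 5) ^ 18 * x := by rw [hx, one_pow, one_mul]
      _ = x ^ 91 * (y ^ 7) ^ 13 := by rw [hy, one_pow, mul_one, ← pow_mul, ← pow_succ]
      _ = ((x * y) ^ 13) ^ 7 := by rw [← pow_mul, ← pow_mul, mul_pow]
      _ = 1 := by rw [hxy, one_pow]
  refine ⟨h1, ?_⟩
  rw [h1, one_mul] at hxy
  calc y = y * y ^ 13 := by rw [hxy, mul_one]
    _ = (y ^ 7) ^ 2 := by rw [← pow_mul, ← pow_succ']
    _ = 1 := by rw [hy, one_pow]

theorem perfect : commutator K = ⊤ := by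
  have ha : ua ∈ K := Subgroup.subset_closure (by simp)
  have hb : ub ∈ K := Subgroup.subset_closure (by simp)
  obtain ⟨h1, h2⟩ := comm_trivial (A := Abelianization K) (x := Abelianization.of ⟨ua, ha⟩)
    (y := Abelianization.of ⟨ub, hb⟩)
    (by rw [← map_pow, show (⟨ua, ha⟩ : K) ^ 5 = 1 from Subtype.ext ua_pow, map_one])
    (by rw [← map_pow, show (⟨ub, hb⟩ : K) ^ 7 = 1 from Subtype.ext ub_pow, map_one])
    (by rw [← map_mul, ← map_pow, show ((⟨ua, ha⟩ : K) * ⟨ub, hb⟩) ^ 13 = 1 from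
      Subtype.ext uc_pow, map_one])
  have htop : Subgroup.closure (((↑) : K → (Matrix (Fin 4) (Fin 4) F8)ˣ) ⁻¹' {ua, ub}) = ⊤ :=
    Subgroup.closure_closure_coe_preimage
  rw [eq_top_iff, ← htop, Subgroup.closure_le]
  intro x hx
  have hx' : (x : (Matrix (Fin 4) (Fin 4) F8)ˣ) = ua ∨
      (x : (Matrix (Fin 4) (Fin 4) F8)ˣ) = ub := hx
  have hk : x ∈ (Abelianization.of (G := K)).ker := by
    rw [MonoidHom.mem_ker]
    rcases hx' with h | h
    · rw [show x = ⟨ua, ha⟩ from Subtype.ext h]; exact h1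
    · rw [show x = ⟨ub, hb⟩ from Subtype.ext h]; exact h2
  rw [Abelianization.ker_of] at hk
  exact hk

theorem not_three : ¬ 3 ∣ Nat.card K := by
  intro h
  have : Fact (Nat.Prime 3) := ⟨Nat.prime_three⟩
  obtain ⟨x, hx⟩ := exists_prime_orderOf_dvd_card' 3 h
  have h3 : x ^ 3 = 1 := by rw [← hx]; exact pow_orderOf_eq_one x
  have h4 : ((x : (Matrix (Fin 4) (Fin 4) F8)ˣ) : Matrix (Fin 4) (Fin 4) F8) ^ 3 = 1 := by
    rw [← Units.val_pow_eq_pow_val, ← Subgroup.coe_pow, h3]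
    rfl
  have h5 := (P_of_mem x.2).order_three F8.two_eq h4
  have h6 : x = 1 := Subtype.ext (Units.ext h5)
  rw [h6, orderOf_one] at hx
  exact absurd hx (by norm_num)

theorem ua_ne : ua ≠ 1 := by
  intro h
  have h1 : a1 = 1 := by rw [← ua_val, h]; rfl
  have h2 := congrFun (congrFun h1 0) 0
  rw [Matrix.one_apply_eq] at h2
  revert h2
  decide

end Q3

/-- **A perfect group of order prime to three.** -/
theorem t_Q3 : S_Q3 :=
  ⟨Q3.K, inferInstance, inferInstance,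
    ⟨⟨⟨Q3.ua, Subgroup.subset_closure (by simp)⟩, 1, fun h => Q3.ua_ne (congrArg Subtype.val h)⟩⟩,
    Q3.perfect, Q3.not_three⟩

end Pool.Agent.J4.H3.PG
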