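import Pool.Agent.J4.H3.PG.D0

/-!
# A perfect group of order prime to 5: a subgroup of `GL_3(F_2)`
-/

set_option autoImplicit false

open scoped commutatorElement

namespace Pool.Agent.J4.H3.PG

namespace Q5

/-- the group `GL_3(F_2)` of order 168 -/
abbrev G3 : Type := Matrix.GeneralLinearGroup (Fin 3) (ZMod 2)

def a : G3 := ⟨!![0, 0, 1; 0, 1, 0; 1, 1, 0], !![0, 1, 1; 0, 1, 0; 1, 0, 0], by decide, by decide⟩

def b : G3 := ⟨!![0, 0, 1; 1, 0, 1; 1, 1, 1], !![1, 1, 0; 0, 1, 1; 1, 0, 0], by decide, by decide⟩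

lemma ha : ⁅b * a, b⁆ = a := by
  apply Units.ext
  decide

lemma hb : ⁅a⁻¹ * b, a * b⁻¹⁆ = b := by
  apply Units.ext
  decide

lemma ha1 : a ≠ 1 := by
  intro h
  have h1 := congrArg Units.val h
  revert h1
  decide

/-- the group generated by `a` and `b` -/
def H : Subgroup G3 := Subgroup.closure {a, b}

lemma a_mem : a ∈ H := Subgroup.subset_closure (by simp)
lemma b_mem : b ∈ H := Subgroup.subset_closure (by simp)

lemma card_G3 : Nat.card G3 = 168 := by
  rw [Matrix.card_GL_field]
  simp [ZMod.card, Fin.prod_univ_succ]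

end Q5

open Q5

theorem t_Q5 : S_Q5 := by
  refine ⟨H, inferInstance, inferInstance, ?_, ?_, ?_⟩
  · exact ⟨⟨a, a_mem⟩, 1, fun h => ha1 (congrArg Subtype.val h)⟩
  · apply Subgroup.map_injective H.subtype_injective
    rw [Subgroup.map_subtype_commutator, ← MonoidHom.range_eq_map, Subgroup.range_subtype]
    apply le_antisymm
    · exact Subgroup.commutator_le_self H
    · have h : H = Subgroup.closure {a, b} := rfl
      conv_lhs => rw [h]
      rw [Subgroup.closure_le]
      rintro x (rfl | rfl)
      · have h1 := Subgroup.commutator_mem_commutator (H.mul_mem b_mem a_mem) b_mem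
        rw [ha] at h1
        exact h1
      · have h1 := Subgroup.commutator_mem_commutator (H.mul_mem (H.inv_mem a_mem) b_mem)
          (H.mul_mem a_mem (H.inv_mem b_mem))
        rw [hb] at h1
        exact h1
  · intro h5
    have h1 : Nat.card H ∣ 168 := card_G3 ▸ Subgroup.card_subgroup_dvd_card H
    have h2 : 5 ∣ 168 := h5.trans h1
    omega

end Pool.Agent.J4.H3.PG
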