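import Pool.Agent.J4.H3.PG.D0

set_option autoImplicit false

open scoped Classical BigOperators

noncomputable section

namespace Pool.Agent.J4.H3.PG

theorem t_QP : S_QP := by
  intro p _ ⟨Q, _, hfin, hnt, hper, hp⟩ n
  have hpp : p.Prime := Fact.out
  refine ⟨Fin (n + 1) → Q, inferInstance, inferInstance, inferInstance, ?_, ?_, ?_⟩
  · have h1 := Subgroup.commutator_pi_pi_of_finite (fun _ : Fin (n + 1) => (⊤ : Subgroup Q))
      (fun _ => ⊤)
    have h2 : Subgroup.pi Set.univ (fun _ : Fin (n + 1) => (⊤ : Subgroup Q)) = ⊤ := by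
      ext x
      simp [Subgroup.mem_pi]
    have h3 : ⁅(⊤ : Subgroup Q), (⊤ : Subgroup Q)⁆ = ⊤ := hper
    rw [h3, h2] at h1
    exact h1
  · rw [Nat.card_fun, Nat.card_fin]
    exact fun h => hp (hpp.dvd_of_dvd_pow h)
  · rw [Nat.card_fun, Nat.card_fin]
    have h1 : 2 ≤ Nat.card Q := Finite.one_lt_card
    have h2 : n + 1 < 2 ^ (n + 1) := Nat.lt_two_pow_self
    have h3 := Nat.pow_le_pow_left h1 (n + 1)
    omega

theorem t_Q7 : S_Q7 := by
  intro p hp hp7
  refine ⟨alternatingGroup (Fin 5), inferInstance, inferInstance, inferInstance, ?_, ?_⟩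
  · rcases IsSimpleGroup.eq_bot_or_eq_top_of_normal (commutator (alternatingGroup (Fin 5)))
      inferInstance with h | h
    · exfalso
      rw [commutator_eq_bot_iff_center_eq_top] at h
      have hc : ∀ x y : alternatingGroup (Fin 5), x * y = y * x := by
        intro x y
        have hx : x ∈ Subgroup.center (alternatingGroup (Fin 5)) := by rw [h]; trivial
        exact (Subgroup.mem_center_iff.1 hx y).symm
      have hx : Equiv.swap (0 : Fin 5) 1 * Equiv.swap 1 2 ∈ alternatingGroup (Fin 5) := by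
        rw [Equiv.Perm.mem_alternatingGroup]
        decide
      have hy : Equiv.swap (0 : Fin 5) 1 * Equiv.swap 1 3 ∈ alternatingGroup (Fin 5) := by
        rw [Equiv.Perm.mem_alternatingGroup]
        decide
      have h1 : (Equiv.swap (0 : Fin 5) 1 * Equiv.swap 1 2) * (Equiv.swap (0 : Fin 5) 1 * Equiv.swap 1 3) =
          (Equiv.swap (0 : Fin 5) 1 * Equiv.swap 1 3) * (Equiv.swap (0 : Fin 5) 1 * Equiv.swap 1 2) :=
        congrArg Subtype.val (hc ⟨_, hx⟩ ⟨_, hy⟩)
      exact absurd h1 (by decide)
    · exact h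
  · intro h
    have h1 : Nat.card (alternatingGroup (Fin 5)) = 60 := by
      have := nat_card_alternatingGroup (α := Fin 5)
      rw [this]
      simp
      decide
    rw [h1] at h
    have h2 : p ∣ 2 * 2 * 3 * 5 := h
    have h3 := (hp.dvd_mul.1 h2)
    rcases h3 with h3 | h3
    · rcases hp.dvd_mul.1 h3 with h4 | h4
      · rcases hp.dvd_mul.1 h4 with h5 | h5 <;>
        · have := Nat.le_of_dvd (by norm_num) h5
          omega
      · have := Nat.le_of_dvd (by norm_num) h4
        omega
    · have := Nat.le_of_dvd (by norm_num) h3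
      omega

end Pool.Agent.J4.H3.PG
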