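import Pool.Agent.J4.H3.PG.D2
import Pool.Agent.J4.H3.PG.D4

/-!
# Iterated wreath products with a simple group
-/

set_option autoImplicit false

open scoped Classical BigOperators

noncomputable section

namespace Pool.Agent.J4.H3.PG

namespace TOWER

variable {S : Type} [Group S] [Finite S]

/-- a nontrivial perfect finite group is not a `p`-group -/
lemma not_pGroup [Nontrivial S] (hS : commutator S = ⊤) (p : ℕ) [Fact p.Prime] : ¬ IsPGroup p S := by
  intro hp
  have hnil : Group.IsNilpotent S := hp.isNilpotent
  have hsol : Group.IsSolvable S := inferInstance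
  have h1 : commutator S < ⊤ := Group.IsSolvable.commutator_lt_top_of_nontrivial S
  exact h1.ne hS

/-- a nontrivial perfect finite group has at least five elements -/
lemma five_le [Nontrivial S] (hS : commutator S = ⊤) : 5 ≤ Nat.card S := by
  by_contra hcon
  have h1 : 2 ≤ Nat.card S := Finite.one_lt_card
  have h2 : ∀ (p k : ℕ), p.Prime → Nat.card S = p ^ k → False := by
    intro p k hp hk
    have := Fact.mk hp
    exact not_pGroup hS p (IsPGroup.of_card hk)
  have h3 : Nat.card S = 2 ∨ Nat.card S = 3 ∨ Nat.card S = 4 := by omega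
  rcases h3 with h | h | h
  · exact h2 2 1 Nat.prime_two (by rw [h]; norm_num)
  · exact h2 3 1 Nat.prime_three (by rw [h]; norm_num)
  · exact h2 2 2 Nat.prime_two (by rw [h]; norm_num)

/-- normal `p`-subgroups of a simple group -/
lemma no_normal [IsSimpleGroup S] (hS : commutator S = ⊤) (p : ℕ) [Fact p.Prime] (M : Subgroup S)
    (hM : M.Normal) (hp : IsPGroup p M) : M = ⊥ := by
  rcases IsSimpleGroup.eq_bot_or_eq_top_of_normal M hM with h | h
  · exact h
  · exfalso
    rw [h] at hp
    exact not_pGroup hS p (hp.of_equiv Subgroup.topEquiv)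

omit [Finite S] in
/-- the simple group itself -/
lemma top1 [IsSimpleGroup S] : Top1 S S := by
  refine ⟨⊥, inferInstance, ?_, ?_, ⟨QuotientGroup.quotientBot⟩⟩
  · exact bot_ne_top
  · intro M hM hne
    rcases IsSimpleGroup.eq_bot_or_eq_top_of_normal M hM with h | h
    · exact h.le
    · exact absurd h hne

omit [Finite S] in
/-- the kernel of `sg S Q` is everything -/
lemma ker_card (hS : commutator S = ⊤) (Q : Type) [Group Q] [Fintype Q] :
    Nat.card (sg S Q).ker = Nat.card S ^ Nat.card Q * Nat.card Q := by
  have h1 : (sg S Q).ker = ⊤ := by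
    rw [eq_top_iff]
    intro w _
    rw [MonoidHom.mem_ker]
    have h2 : ∀ x : Abelianization S, x = 1 := by
      intro x
      obtain ⟨y, rfl⟩ := QuotientGroup.mk_surjective x
      show Abelianization.of y = 1
      rw [← MonoidHom.mem_ker, Abelianization.ker_of, hS]
      trivial
    exact h2 _
  rw [h1, Nat.card_congr Subgroup.topEquiv.toEquiv, RegularWreathProduct.card]

end TOWER

open TOWER

theorem t_TOWER (h : S_UNIQ) (h1 : S_PERF) (h2 : S_OP2) : S_TOWER := by
  intro S _ _ _ hS n
  induction n with
  | zero =>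
    exact ⟨S, inferInstance, inferInstance, inferInstance, hS, five_le hS, Nat.zero_le _, top1,
      fun p hp M hM hMp => by
        have := Fact.mk hp
        exact no_normal hS p M hM hMp, fun p _ hn => hn⟩
  | succ n ih =>
    obtain ⟨Q, _, hf, hnt, hperf, h5, hn, htop, hO, hdiv⟩ := ih
    let _ : Fintype Q := Fintype.ofFinite Q
    have hc := ker_card hS Q
    have hS2 : 2 ≤ Nat.card S := by
      have := five_le hS
      omega
    have hbig : Nat.card Q + 1 ≤ Nat.card (sg S Q).ker := by
      rw [hc]
      have h3 : Nat.card Q < 2 ^ Nat.card Q := Nat.lt_two_pow_self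
      have h4 : 2 ^ Nat.card Q ≤ Nat.card S ^ Nat.card Q := Nat.pow_le_pow_left hS2 _
      have h5' : Nat.card Q + 1 ≤ Nat.card S ^ Nat.card Q := by omega
      calc Nat.card Q + 1 ≤ Nat.card S ^ Nat.card Q * 1 := by omega
        _ ≤ Nat.card S ^ Nat.card Q * Nat.card Q := Nat.mul_le_mul_left _ (by omega)
    refine ⟨(sg S Q).ker, inferInstance, inferInstance, ?_, h1 S Q hnt hperf, by omega, by omega,
      h S S Q h5 hperf htop, ?_, ?_⟩
    · exact Finite.one_lt_card_iff_nontrivial.1 (by omega)
    · intro p hp M hM hMp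
      have := Fact.mk hp
      exact h2 p S Q hnt (fun M hM hMp => hO p hp M hM hMp)
        (fun M hM hMp => no_normal hS p M hM hMp) M hM hMp
    · intro p hp hpS
      rw [hc]
      intro hd
      rcases (hp.dvd_mul).1 hd with h3 | h3
      · exact hpS (hp.dvd_of_dvd_pow h3)
      · exact hdiv p hp hpS h3

end Pool.Agent.J4.H3.PG
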