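import Pool.Agent.J4.H3.PG.D4

/-!
# The kernel of `sg` has a largest proper normal subgroup
-/

set_option autoImplicit false

open scoped Classical BigOperators commutatorElement

noncomputable section

namespace Pool.Agent.J4.H3.PG

namespace UNIQ

variable {G Q : Type} [Group G] [Group Q] [Fintype Q]

/-- the base of the wreath product -/
def io : (Q → G) →* RegularWreathProduct G Q where
  toFun f := ⟨f, 1⟩
  map_one' := rfl
  map_mul' f g := by
    apply RegularWreathProduct.ext
    · funext t
      show f t * g t = f t * g ((1 : Q)⁻¹ * t)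
      rw [inv_one, one_mul]
    · show (1 : Q) = 1 * 1
      rw [one_mul]

omit [Group Q] in
theorem exists_out (s : Finset Q) (hs : s.card < Nat.card Q) : ∃ j, j ∉ s := by
  by_contra hcon
  push Not at hcon
  have h1 : s = Finset.univ := Finset.eq_univ_iff_forall.2 hcon
  rw [h1, Finset.card_univ, Nat.card_eq_fintype_card] at hs
  exact lt_irrefl _ hs

/-- `x` at the place `i` and `x⁻¹` at the place `j` -/
def two (i j : Q) (x : G) : Q → G := Pi.mulSingle i x * Pi.mulSingle j x⁻¹

theorem two_mem (i j : Q) (x : G) : (io (two i j x) : RegularWreathProduct G Q) ∈ (sg G Q).ker := by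
  rw [MonoidHom.mem_ker]
  show ∏ t : Q, Abelianization.of ((Pi.mulSingle i x * Pi.mulSingle j x⁻¹ : Q → G) t) = 1
  have h : ∀ (i : Q) (g : G), ∏ x : Q, Abelianization.of ((Pi.mulSingle i g : Q → G) x) =
      Abelianization.of g := by
    intro i g
    rw [Finset.prod_eq_single i]
    · rw [Pi.mulSingle_eq_same]
    · intro x _ hx
      rw [Pi.mulSingle_eq_of_ne hx, map_one]
    · intro h
      exact absurd (Finset.mem_univ i) h
  simp only [Pi.mul_apply, map_mul, Finset.prod_mul_distrib]
  rw [h, h, ← map_mul, mul_inv_cancel, map_one]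

omit [Group Q] [Fintype Q] in
theorem two_same {i j : Q} (h : i ≠ j) (x : G) : two i j x i = x := by
  show (Pi.mulSingle i x : Q → G) i * (Pi.mulSingle j x⁻¹ : Q → G) i = x
  rw [Pi.mulSingle_eq_same, Pi.mulSingle_eq_of_ne h, mul_one]

omit [Group Q] [Fintype Q] in
theorem two_ne {i j t : Q} (h1 : t ≠ i) (h2 : t ≠ j) (x : G) : two i j x t = 1 := by
  show (Pi.mulSingle i x : Q → G) t * (Pi.mulSingle j x⁻¹ : Q → G) t = 1
  rw [Pi.mulSingle_eq_of_ne h1, Pi.mulSingle_eq_of_ne h2, mul_one]

variable (M : Subgroup (sg G Q).ker) (hM : M.Normal)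

/-- `M` as a subgroup of the wreath product -/
def ex : Subgroup (RegularWreathProduct G Q) := M.map (sg G Q).ker.subtype

include hM in
theorem ex_conj {k x : RegularWreathProduct G Q} (hk : k ∈ (sg G Q).ker) (hx : x ∈ ex M) :
    k * x * k⁻¹ ∈ ex M := by
  obtain ⟨m, hm, rfl⟩ := hx
  exact ⟨⟨k, hk⟩ * m * ⟨k, hk⟩⁻¹, hM.conj_mem m hm _, rfl⟩

include hM in
/-- commutators with elements of the base -/
theorem single_of {f : Q → G} (hf : io f ∈ ex M) {i k : Q} (hik : i ≠ k) (hk : f k = 1) (y : G) :
    io (Pi.mulSingle i ⁅f i, y⁆) ∈ ex M := by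
  have h1 : (Pi.mulSingle i ⁅f i, y⁆ : Q → G) = f * (two i k y * f⁻¹ * (two i k y)⁻¹) := by
    funext t
    simp only [Pi.mul_apply, Pi.inv_apply]
    by_cases hti : t = i
    · subst hti
      rw [Pi.mulSingle_eq_same, two_same hik, commutatorElement_def]
      group
    · rw [Pi.mulSingle_eq_of_ne hti]
      by_cases htk : t = k
      · subst htk
        rw [hk]
        group
      · rw [two_ne hti htk]
        group
  rw [h1, map_mul, map_mul, map_mul, map_inv, map_inv]
  exact (ex M).mul_mem hf (ex_conj M hM (two_mem i k y) ((ex M).inv_mem hf))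

include hM in
theorem exists_f (h5 : 5 ≤ Nat.card Q) (hs : ∀ q : Q, ∃ m ∈ ex M, m.right = q) (i : Q) (x : G) :
    ∃ f : Q → G, io f ∈ ex M ∧ f i = x⁻¹ ∧ ∃ k, i ≠ k ∧ f k = 1 := by
  have hnt : Nontrivial Q := Finite.one_lt_card_iff_nontrivial.1 (by omega)
  obtain ⟨q, hq⟩ := exists_ne (1 : Q)
  obtain ⟨m, hm, hmq⟩ := hs q
  obtain ⟨j, hj⟩ := exists_out ({i, q * i, q⁻¹ * i} : Finset Q)
    (lt_of_le_of_lt Finset.card_le_three (by omega))
  obtain ⟨k, hk⟩ := exists_out ({i, j, q * i, q * j} : Finset Q)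
    (lt_of_le_of_lt Finset.card_le_four (by omega))
  simp only [Finset.mem_insert, Finset.mem_singleton, not_or] at hj hk
  obtain ⟨hj1, hj2, hj3⟩ := hj
  obtain ⟨hk1, hk2, hk3, hk4⟩ := hk
  refine ⟨fun t => m.left t * two i j x (q⁻¹ * t) * (m.left t)⁻¹ * (two i j x t)⁻¹, ?_, ?_, k,
    Ne.symm hk1, ?_⟩
  · have h1 : (io (fun t => m.left t * two i j x (q⁻¹ * t) * (m.left t)⁻¹ * (two i j x t)⁻¹) :
        RegularWreathProduct G Q) * io (two i j x) * m = m * io (two i j x) := by
      apply RegularWreathProduct.ext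
      · funext t
        show (m.left t * two i j x (q⁻¹ * t) * (m.left t)⁻¹ * (two i j x t)⁻¹ *
          two i j x ((1 : Q)⁻¹ * t)) * m.left ((1 * 1 : Q)⁻¹ * t) =
          m.left t * two i j x (m.right⁻¹ * t)
        rw [hmq, one_mul, inv_one, one_mul]
        group
      · show (1 : Q) * 1 * m.right = m.right * 1
        rw [one_mul, one_mul, mul_one]
    have h2 : (io (fun t => m.left t * two i j x (q⁻¹ * t) * (m.left t)⁻¹ * (two i j x t)⁻¹) :
        RegularWreathProduct G Q) = m * (io (two i j x) * m⁻¹ * (io (two i j x))⁻¹) := by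
      have h3 := eq_mul_inv_of_mul_eq (eq_mul_inv_of_mul_eq h1)
      rw [h3]
      group
    rw [h2]
    exact (ex M).mul_mem hm (ex_conj M hM (two_mem i j x) ((ex M).inv_mem hm))
  · show m.left i * two i j x (q⁻¹ * i) * (m.left i)⁻¹ * (two i j x i)⁻¹ = x⁻¹
    have h1 : q⁻¹ * i ≠ i := by
      intro h
      apply hq
      have h2 : q⁻¹ = 1 := mul_eq_right.1 h
      exact inv_eq_one.1 h2
    rw [two_ne h1 (Ne.symm hj3), two_same (Ne.symm hj1)]
    group
  · show m.left k * two i j x (q⁻¹ * k) * (m.left k)⁻¹ * (two i j x k)⁻¹ = 1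
    have h1 : q⁻¹ * k ≠ i := by
      intro h
      apply hk3
      rw [← h, mul_inv_cancel_left]
    have h2 : q⁻¹ * k ≠ j := by
      intro h
      apply hk4
      rw [← h, mul_inv_cancel_left]
    rw [two_ne h1 h2, two_ne hk1 hk2]
    group

include hM in
theorem base_mem (h5 : 5 ≤ Nat.card Q) (hs : ∀ q : Q, ∃ m ∈ ex M, m.right = q) (f : Q → G)
    (hf : ∀ i, f i ∈ commutator G) : io f ∈ ex M := by
  have h1 : f ∈ (ex M).comap (io : (Q → G) →* RegularWreathProduct G Q) := by
    apply Subgroup.pi_mem_of_mulSingle_mem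
    intro i
    have h2 : commutator G ≤ (ex M).comap ((io : (Q → G) →* RegularWreathProduct G Q).comp
        (MonoidHom.mulSingle (fun _ : Q => G) i)) := by
      rw [commutator_eq_closure, Subgroup.closure_le]
      rintro _ ⟨x, y, rfl⟩
      obtain ⟨g, hg, hgi, k, hik, hgk⟩ := exists_f M hM h5 hs i x⁻¹
      have h3 := single_of M hM hg hik hgk y
      rw [hgi, inv_inv] at h3
      exact h3
    exact h2 (hf i)
  exact h1

end UNIQ

open UNIQ

theorem t_UNIQ (h : S_PERF) : S_UNIQ := by
  intro S G Q _ _ _ _ _ h5 hQ hT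
  obtain ⟨NQ, hNn, hNt, hmax, ⟨e⟩⟩ := hT
  have hnt : Nontrivial Q := Finite.one_lt_card_iff_nontrivial.1 (by omega)
  let π : (sg G Q).ker →* Q := RegularWreathProduct.rightHom.comp (sg G Q).ker.subtype
  have hπ : Function.Surjective π := by
    intro q
    refine ⟨⟨⟨1, q⟩, ?_⟩, rfl⟩
    rw [MonoidHom.mem_ker]
    show ∏ t : Q, Abelianization.of ((1 : Q → G) t) = 1
    simp
  let φ : (sg G Q).ker →* S := (e : Q ⧸ NQ →* S).comp ((QuotientGroup.mk' NQ).comp π)
  have hφ : Function.Surjective φ :=
    e.surjective.comp ((QuotientGroup.mk'_surjective NQ).comp hπ)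
  have hmem : ∀ x, x ∈ φ.ker ↔ π x ∈ NQ := by
    intro x
    rw [MonoidHom.mem_ker]
    show e (QuotientGroup.mk (π x)) = 1 ↔ _
    rw [map_eq_one_iff e e.injective, QuotientGroup.eq_one_iff]
  refine ⟨φ.ker, inferInstance, ?_, ?_, ⟨QuotientGroup.quotientKerEquivOfSurjective φ hφ⟩⟩
  · intro htop
    apply hNt
    rw [eq_top_iff]
    intro q _
    obtain ⟨x, rfl⟩ := hπ q
    rw [← hmem, htop]
    trivial
  · intro M hM hMt x hx
    rw [hmem]
    by_cases hmap : M.map π = ⊤
    · exfalso
      apply hMt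
      have hs : ∀ q : Q, ∃ m ∈ ex M, m.right = q := by
        intro q
        have : q ∈ M.map π := by
          rw [hmap]
          trivial
        obtain ⟨m, hm, hq⟩ := this
        exact ⟨m, ⟨m, hm, rfl⟩, hq⟩
      have hcomm : ∀ u v : (sg G Q).ker ⧸ M, u * v = v * u := by
        have hrep : ∀ u : (sg G Q).ker ⧸ M, ∃ a : (sg G Q).ker, QuotientGroup.mk a = u ∧
            (a : RegularWreathProduct G Q).right = 1 := by
          intro u
          obtain ⟨u, rfl⟩ := QuotientGroup.mk_surjective u
          obtain ⟨_, ⟨m, hm, rfl⟩, hq⟩ := hs (u : RegularWreathProduct G Q).right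
          refine ⟨u * m⁻¹, ?_, ?_⟩
          · rw [QuotientGroup.mk_mul_of_mem]
            exact M.inv_mem hm
          · show (u : RegularWreathProduct G Q).right *
              (m : RegularWreathProduct G Q).right⁻¹ = 1
            rw [← hq]
            exact mul_inv_cancel _
        intro u v
        obtain ⟨a, rfl, ha⟩ := hrep u
        obtain ⟨b, rfl, hb⟩ := hrep v
        have hab : ∃ m ∈ M, (m : RegularWreathProduct G Q) =
            io (fun i => ⁅(a : RegularWreathProduct G Q).left i,
              (b : RegularWreathProduct G Q).left i⁆) := by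
          have h1 := base_mem M hM h5 hs (fun i => ⁅(a : RegularWreathProduct G Q).left i,
              (b : RegularWreathProduct G Q).left i⁆) (fun i => Subgroup.commutator_mem_commutator
                (Subgroup.mem_top _) (Subgroup.mem_top _))
          obtain ⟨m, hm, h2⟩ := h1
          exact ⟨m, hm, h2⟩
        obtain ⟨m, hm, hm2⟩ := hab
        have h3 : m = ⁅a, b⁆ := by
          have hA : (a : RegularWreathProduct G Q) = io (a : RegularWreathProduct G Q).left :=
            RegularWreathProduct.ext rfl ha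
          have hB : (b : RegularWreathProduct G Q) = io (b : RegularWreathProduct G Q).left :=
            RegularWreathProduct.ext rfl hb
          apply Subtype.ext
          rw [hm2]
          show _ = (a : RegularWreathProduct G Q) * b * (a : RegularWreathProduct G Q)⁻¹ *
            (b : RegularWreathProduct G Q)⁻¹
          rw [hA, hB, ← map_inv, ← map_inv, ← map_mul, ← map_mul, ← map_mul]
          rfl
        rw [← QuotientGroup.mk_mul, ← QuotientGroup.mk_mul, QuotientGroup.eq]
        have h5' : (a * b)⁻¹ * (b * a) ∈ M := by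
          have h6 : (a * b)⁻¹ * (b * a) = (a * b)⁻¹ * m⁻¹ * (a * b)⁻¹⁻¹ := by
            rw [h3, commutatorElement_def]
            group
          rw [h6]
          exact hM.conj_mem _ (M.inv_mem hm) _
        exact h5'
      have hp := h G Q hnt hQ
      rw [eq_top_iff, ← hp, commutator_eq_closure, Subgroup.closure_le]
      rintro _ ⟨a, b, rfl⟩
      show ⁅a, b⁆ ∈ M
      rw [← QuotientGroup.eq_one_iff, commutatorElement_def, QuotientGroup.mk_mul,
        QuotientGroup.mk_mul, QuotientGroup.mk_mul, QuotientGroup.mk_inv, QuotientGroup.mk_inv,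
        hcomm (a : (sg G Q).ker ⧸ M) b, mul_inv_cancel_right, mul_inv_cancel]
    · have h1 := hmax (M.map π) (hM.map π hπ) hmap
      exact h1 ⟨x, hx, rfl⟩

end Pool.Agent.J4.H3.PG
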