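import Pool.Agent.J4.H3.PG.D1

/-!
# Twisting by linear characters: the action on functionals
-/

set_option autoImplicit false
set_option linter.unusedSectionVars false

open scoped Classical BigOperators

noncomputable section

namespace Pool.Agent.J4.H3.PG

open Pool.Agent.Y63.NV
open Pool.Agent.Y63.AWC (IsIrreducibleCharacter pSubgroupSetoid)

namespace Tw

section red

variable {F : Type} [Field F] (red : integralClosure ℤ ℂ →+* F)

lemma redC_of {a : ℂ} (h : IsIntegral ℤ a) : redC red a = red ⟨a, h⟩ := by
  unfold redC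
  rw [dif_pos h]

lemma redC_one : redC red 1 = 1 := by
  rw [redC_of red isIntegral_one]
  exact map_one red

lemma redC_mul {a b : ℂ} (ha : IsIntegral ℤ a) (hb : IsIntegral ℤ b) :
    redC red (a * b) = redC red a * redC red b := by
  rw [redC_of red ha, redC_of red hb, redC_of red (ha.mul hb), ← map_mul]
  rfl

lemma int_unit {G : Type} [Group G] [Finite G] (μ : G →* ℂˣ) (x : G) : IsIntegral ℤ (μ x : ℂ) := by
  have h : ((μ x : ℂˣ) : ℂ) ^ Nat.card G = 1 := by
    rw [← Units.val_pow_eq_pow_val, ← map_pow, pow_card_eq_one', map_one, Units.val_one]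
  exact IsIntegral.of_pow Nat.card_pos (by rw [h]; exact isIntegral_one)

lemma redC_mul_unit {G : Type} [Group G] [Finite G] (μ : G →* ℂˣ) (x : G) (a : ℂ) :
    redC red (a * (μ x : ℂ)) = redC red a * rc red (μ x) := by
  unfold rc
  by_cases ha : IsIntegral ℤ a
  · exact redC_mul red ha (int_unit μ x)
  · have h1 : ¬ IsIntegral ℤ (a * (μ x : ℂ)) := by
      intro h
      apply ha
      have h2 := h.mul (int_unit μ x⁻¹)
      have h3 : a * (μ x : ℂ) * (μ x⁻¹ : ℂ) = a := by
        rw [map_inv, mul_assoc, Units.mul_inv, mul_one]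
      rwa [h3] at h2
    unfold redC
    rw [dif_neg h1, dif_neg ha, zero_mul]

lemma rc_one : rc red (1 : ℂˣ) = 1 := by
  unfold rc
  rw [Units.val_one]
  exact redC_one red

lemma rc_mul {G : Type} [Group G] [Finite G] (μ ν : G →* ℂˣ) (x y : G) :
    rc red (μ x * ν y) = rc red (μ x) * rc red (ν y) := by
  unfold rc
  rw [Units.val_mul]
  exact redC_mul red (int_unit μ x) (int_unit ν y)

/-- the reduction of a linear character -/
def rm {G : Type} [Group G] [Finite G] (μ : G →* ℂˣ) : G →* Fˣ :=
  MonoidHom.toHomUnits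
    { toFun := fun x => rc red (μ x)
      map_one' := by rw [map_one]; exact rc_one red
      map_mul' := fun x y => by rw [map_mul]; exact rc_mul red μ μ x y }

lemma rm_val {G : Type} [Group G] [Finite G] (μ : G →* ℂˣ) (x : G) :
    ((rm red μ x : Fˣ) : F) = rc red (μ x) := rfl

end red

section act

variable {F G : Type} [Field F] [Group G] [Finite G] (red : integralClosure ℤ ℂ →+* F)

lemma twf_cf (μ : G →* ℂˣ) (f : G → F) (hf : IsClassFun f) : IsClassFun (twf red μ f) := by
  intro g x
  unfold twf
  rw [hf g x, map_mul, map_mul, map_inv, mul_comm (μ g) (μ x), mul_inv_cancel_right]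

lemma twf_one (f : G → F) : twf red 1 f = f := by
  funext x
  unfold twf
  rw [MonoidHom.one_apply, rc_one, one_mul]

lemma twf_mul (μ ν : G →* ℂˣ) (f : G → F) : twf red (μ * ν) f = twf red ν (twf red μ f) := by
  funext x
  unfold twf
  rw [MonoidHom.mul_apply, rc_mul]
  ring

lemma act_eq (μ : G →* ℂˣ) (β : CFn G F → F) (f : CFn G F) :
    act red μ β f = β ⟨twf red μ f.1, twf_cf red μ f.1 f.2⟩ := by
  unfold act
  rw [dif_pos (twf_cf red μ f.1 f.2)]

lemma act_one (β : CFn G F → F) : act red 1 β = β := by
  funext f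
  rw [act_eq]
  congr 1
  exact Subtype.ext (twf_one red f.1)

lemma act_mul (μ ν : G →* ℂˣ) (β : CFn G F → F) : act red (μ * ν) β = act red μ (act red ν β) := by
  funext f
  rw [act_eq, act_eq, act_eq]
  congr 1
  exact Subtype.ext (twf_mul red μ ν f.1)

lemma twf_conv (μ : G →* ℂˣ) (f g : G → F) :
    twf red μ (conv f g) = conv (twf red μ f) (twf red μ g) := by
  funext x
  unfold twf conv
  rw [← smul_eq_mul, smul_finsum' _ (Set.toFinite _)]
  refine finsum_congr fun y => ?_
  have h : rc red (μ x) = rc red (μ y) * rc red (μ (y⁻¹ * x)) := by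
    rw [← rc_mul, ← map_mul, mul_inv_cancel_left]
  rw [smul_eq_mul, h]
  ring

lemma block_tw (μ : G →* ℂˣ) (B : (G → F) → F) (hB : IsBlock B) :
    IsBlock (fun f => B (twf red μ f)) where
  add f g hf hg := by
    have h : twf red μ (f + g) = twf red μ f + twf red μ g := by
      funext x
      simp only [twf, Pi.add_apply]
      ring
    rw [h]
    exact hB.add _ _ (twf_cf red μ f hf) (twf_cf red μ g hg)
  smul a f hf := by
    have h : twf red μ (a • f) = a • twf red μ f := by
      funext x
      simp only [twf, Pi.smul_apply, smul_eq_mul]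
      ring
    rw [h]
    exact hB.smul _ _ (twf_cf red μ f hf)
  one := by
    have h : twf red μ (Pi.single 1 1) = Pi.single 1 1 := by
      funext x
      unfold twf
      by_cases hx : x = 1
      · subst hx
        rw [map_one, rc_one, one_mul]
      · rw [Pi.single_eq_of_ne hx, mul_zero]
    rw [h]
    exact hB.one
  mul f g hf hg := by
    rw [twf_conv]
    exact hB.mul _ _ (twf_cf red μ f hf) (twf_cf red μ g hg)

end act

/-! ### Twisted representations -/

section rep

variable {F G V : Type} [Field F] [Group G] [AddCommGroup V] [Module F V]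

/-- the twisted representation -/
def tw (μ : G →* Fˣ) (ρ : Representation F G V) : Representation F G V where
  toFun g := (μ g : F) • ρ g
  map_one' := by simp
  map_mul' g h := by
    rw [map_mul, map_mul, Units.val_mul, smul_mul_smul_comm]

lemma tw_apply (μ : G →* Fˣ) (ρ : Representation F G V) (g : G) (v : V) :
    tw μ ρ g v = (μ g : F) • ρ g v := rfl

/-- the subrepresentations are the same -/
def subIso (μ : G →* Fˣ) (ρ : Representation F G V) :
    Subrepresentation ρ ≃o Subrepresentation (tw μ ρ) where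
  toFun S := ⟨S.toSubmodule, fun g v hv => by
    rw [tw_apply]
    exact S.toSubmodule.smul_mem _ (S.apply_mem_toSubmodule g hv)⟩
  invFun S := ⟨S.toSubmodule, fun g v hv => by
    have h := S.toSubmodule.smul_mem ((μ g)⁻¹ : Fˣ).1 (S.apply_mem_toSubmodule g hv)
    rw [tw_apply, smul_smul, Units.inv_mul, one_smul] at h
    exact h⟩
  left_inv S := rfl
  right_inv S := rfl
  map_rel_iff' := Iff.rfl

theorem irr_tw (μ : G →* Fˣ) {φ : G → F} (h : IsIrrTrace φ) :
    IsIrrTrace (fun x => (μ x : F) * φ x) := by
  obtain ⟨V, i1, i2, i3, ρ, hρ, rfl⟩ := h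
  refine ⟨V, i1, i2, i3, tw μ ρ, ?_, ?_⟩
  · exact (OrderIso.isSimpleOrder_iff (subIso μ ρ)).1 hρ
  · funext x
    unfold Representation.character
    change _ = LinearMap.trace F V ((μ x : F) • ρ x)
    rw [map_smul, smul_eq_mul]

end rep

end Tw

theorem t_ACT : S_ACT := by
  intro p _ F _ _ red G _ _
  exact ⟨Tw.twf_cf red, Tw.act_one red, Tw.act_mul red, Tw.block_tw red⟩

end Pool.Agent.J4.H3.PG
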