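import Pool.Agent.J4.H3.PG.D0

/-!
# AMP: taking roots
-/

set_option autoImplicit false

open Filter Topology

namespace Pool.Agent.J4.H3.PG

theorem t_AMP : S_AMP := by
  intro l w g A hg hA h
  by_contra hlw
  push Not at hlw
  have hl1 : (1 : ℝ) ≤ l := by exact_mod_cast (show 1 ≤ l by omega)
  rcases Nat.eq_zero_or_pos w with hw | hw
  · subst hw
    obtain ⟨K, _, hK⟩ := h 1 one_pos
    obtain ⟨n, _, hn1, hn⟩ := hK 0
    rw [Nat.cast_zero, zero_pow (by omega), mul_zero] at hn
    have := one_le_pow₀ (n := n) hl1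
    linarith
  · have hw' : (0 : ℝ) < w := by exact_mod_cast hw
    have hlw' : (w : ℝ) < l := by exact_mod_cast hlw
    set r : ℝ := l / w with hr
    have hr1 : 1 < r := (one_lt_div hw').2 hlw'
    set s : ℝ := Real.sqrt r with hs
    have hs1 : 1 < s := by
      rw [hs, Real.lt_sqrt (by norm_num)]
      simpa using hr1
    have hs0 : 0 < s := by linarith
    have hss : s * s = r := Real.mul_self_sqrt (by linarith)
    have hlg : 0 ≤ Real.log g := Real.log_nonneg hg
    have hls : 0 < Real.log s := Real.log_pos hs1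
    have hg0 : 0 < g := by linarith
    set ε : ℝ := min 1 (Real.log s / (Real.log g + 1)) with hε
    have hε0 : 0 < ε := lt_min one_pos (by positivity)
    have hε1 : ε ≤ 1 := min_le_left _ _
    have hε2 : ε * Real.log g ≤ Real.log s := by
      have h1 : ε ≤ Real.log s / (Real.log g + 1) := min_le_right _ _
      have h2 : ε * (Real.log g + 1) ≤ Real.log s := by
        rwa [le_div_iff₀ (by linarith)] at h1
      linarith [hε0.le]
    have hgε : g ^ ε ≤ s := by
      rw [Real.rpow_def_of_pos hg0, ← Real.le_log_iff_exp_le hs0, mul_comm]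
      exact hε2
    obtain ⟨K, hK0, hK⟩ := h ε hε0
    have h3 := tendsto_pow_const_div_const_pow_of_one_lt 5 hs1
    have h4 := h3.eventually (gt_mem_nhds (show (0 : ℝ) < 1 / (K * A + 1) by positivity))
    obtain ⟨N, hN⟩ := eventually_atTop.1 h4
    obtain ⟨n, hnN, hn1, hn⟩ := hK N
    have h5 := hN n hnN
    have hn1' : (1 : ℝ) ≤ n := by exact_mod_cast hn1
    have hsn : 0 < s ^ n := pow_pos hs0 n
    rw [div_lt_div_iff₀ hsn (by positivity), one_mul] at h5
    have h6 : (g ^ n * n) ^ ε ≤ s ^ n * n := by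
      rw [Real.mul_rpow (by positivity) (by linarith)]
      refine mul_le_mul ?_ ?_ (Real.rpow_nonneg (by linarith) _) hsn.le
      · rw [← Real.rpow_natCast g n, ← Real.rpow_mul hg0.le, mul_comm, Real.rpow_mul hg0.le,
          Real.rpow_natCast]
        exact pow_le_pow_left₀ (Real.rpow_nonneg hg0.le _) hgε n
      · calc (n : ℝ) ^ ε ≤ (n : ℝ) ^ (1 : ℝ) := Real.rpow_le_rpow_of_exponent_le hn1' hε1
          _ = n := Real.rpow_one _
    have h7 : (l : ℝ) ^ n = r ^ n * w ^ n := by
      rw [← mul_pow, hr, div_mul_cancel₀ _ hw'.ne']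
    have hwn : (0 : ℝ) < (w : ℝ) ^ n := pow_pos hw' n
    rw [h7] at hn
    have h8 := le_of_mul_le_mul_right hn hwn
    have h9 : K * (A * (n : ℝ) ^ 4) * (g ^ n * n) ^ ε ≤ K * (A * (n : ℝ) ^ 4) * (s ^ n * n) :=
      mul_le_mul_of_nonneg_left h6 (by positivity)
    have h10 : r ^ n = s ^ n * s ^ n := by
      rw [← mul_pow, hss]
    have h11 : K * A * (n : ℝ) ^ 5 < s ^ n := by
      have : (n : ℝ) ^ 5 * (K * A + 1) = K * A * (n : ℝ) ^ 5 + (n : ℝ) ^ 5 := by ring
      rw [this] at h5
      have : (0 : ℝ) ≤ (n : ℝ) ^ 5 := by positivity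
      linarith
    have h12 : K * (A * (n : ℝ) ^ 4) * (s ^ n * n) = (K * A * (n : ℝ) ^ 5) * s ^ n := by ring
    have h13 := mul_lt_mul_of_pos_right h11 hsn
    linarith

end Pool.Agent.J4.H3.PG
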