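import Pool.Agent.J4.H3.PG.D1
import Pool.Agent.Y63.NV.Base48
import Pool.Agent.Y63.NV.Cutw
import Pool.Agent.Y914.NV.Irr
import Pool.Agent.Y705.NV.Schur
import Pool.Agent.Y930.NV.Cen
import Pool.Agent.Y63.NV.Wblk930

/-!
# BAS: the numbers of irreducible characters and of weights in terms of `Lt` and `Wt`
-/

set_option autoImplicit false

open scoped Classical BigOperators

noncomputable section

namespace Pool.Agent.J4.H3.PG.BAS

open Pool.Agent.Y63.NV
open Pool.Agent.Y63.AWC (IsIrreducibleCharacter pSubgroupSetoid)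
open Pool.Agent.J4.H3.PG

theorem schur' : S_SCHUR := Pool.Agent.Y705.NV.schur Pool.Agent.Y914.NV.irr

theorem wblk' : S_WBLK := Pool.Agent.Y63.NV.B930.wblk Pool.Agent.Y930.NV.cvh
  (cutw Pool.Agent.Y930.NV.inf)

section

variable {G : Type} [Group G]

theorem mem_conj (g : G) (Q : Subgroup G) (w : G) :
    w ∈ Q.map (MulAut.conj g).toMonoidHom ↔ g⁻¹ * w * g ∈ Q := by
  constructor
  · rintro ⟨y, hy, rfl⟩
    have : g⁻¹ * (MulAut.conj g).toMonoidHom y * g = y := by
      change g⁻¹ * (g * y * g⁻¹) * g = y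
      group
    rw [this]
    exact hy
  · intro h
    refine ⟨_, h, ?_⟩
    change g * (g⁻¹ * w * g) * g⁻¹ = w
    group

theorem norm_conj (g : G) (Q : Subgroup G) :
    (Subgroup.normalizer (Q : Set G)).map (MulAut.conj g).toMonoidHom =
      Subgroup.normalizer ((Q.map (MulAut.conj g).toMonoidHom : Subgroup G) : Set G) := by
  ext x
  rw [mem_conj, Subgroup.mem_normalizer_iff, Subgroup.mem_normalizer_iff]
  constructor
  · intro h w
    have h1 := h (g⁻¹ * w * g)
    rw [mem_conj, mem_conj, h1]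
    have e : g⁻¹ * x * g * (g⁻¹ * w * g) * (g⁻¹ * x * g)⁻¹ = g⁻¹ * (x * w * x⁻¹) * g := by group
    rw [e]
  · intro h w
    have h1 := h (g * w * g⁻¹)
    rw [mem_conj, mem_conj] at h1
    have e1 : g⁻¹ * (g * w * g⁻¹) * g = w := by group
    have e2 : g⁻¹ * (x * (g * w * g⁻¹) * x⁻¹) * g = g⁻¹ * x * g * w * (g⁻¹ * x * g)⁻¹ := by group
    rw [e1, e2] at h1
    exact h1

/-- conjugation by `g` on the normalisers -/
def cE (g : G) (Q : Subgroup G) : Subgroup.normalizer (Q : Set G) ≃*
    Subgroup.normalizer ((Q.map (MulAut.conj g).toMonoidHom : Subgroup G) : Set G) :=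
  ((MulAut.conj g).subgroupMap (Subgroup.normalizer (Q : Set G))).trans
    (MulEquiv.subgroupCongr (norm_conj g Q))

theorem cE_coe (g : G) (Q : Subgroup G) (x : Subgroup.normalizer (Q : Set G)) :
    ((cE g Q x : Subgroup.normalizer ((Q.map (MulAut.conj g).toMonoidHom : Subgroup G) : Set G)) : G)
      = g * x * g⁻¹ := rfl

variable {F : Type} [Field F]

/-- the weight characters with a property which only depends on the central character -/
def NP (p : ℕ) (red : integralClosure ℤ ℂ →+* F) (P : (CFn G F → F) → Prop) (Q : Subgroup G) : ℕ :=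
  Nat.card {χ : Subgroup.normalizer (Q : Set G) → ℂ //
    IsWt p (Q.subgroupOf (Subgroup.normalizer (Q : Set G))) χ ∧
      P (fun f => centralValue red χ (fun x => f.1 x))}

theorem np_conj (p : ℕ) (red : integralClosure ℤ ℂ →+* F) (P : (CFn G F → F) → Prop) (g : G)
    (Q : Subgroup G) : NP p red P Q = NP p red P (Q.map (MulAut.conj g).toMonoidHom) := by
  unfold NP
  refine Nat.card_congr ((Equiv.arrowCongr (cE g Q).toEquiv (Equiv.refl ℂ)).subtypeEquiv
    fun χ => ?_)
  have h1 : χ = fun x => ((Equiv.arrowCongr (cE g Q).toEquiv (Equiv.refl ℂ)) χ) (cE g Q x) := by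
    funext x
    change χ x = χ ((cE g Q).symm (cE g Q x))
    rw [MulEquiv.symm_apply_apply]
  generalize (Equiv.arrowCongr (cE g Q).toEquiv (Equiv.refl ℂ)) χ = ψ at h1 ⊢
  subst h1
  have hQ : ∀ x, cE g Q x ∈ (Q.map (MulAut.conj g).toMonoidHom).subgroupOf
      (Subgroup.normalizer ((Q.map (MulAut.conj g).toMonoidHom : Subgroup G) : Set G)) ↔
      x ∈ Q.subgroupOf (Subgroup.normalizer (Q : Set G)) := by
    intro x
    rw [Subgroup.mem_subgroupOf, Subgroup.mem_subgroupOf, cE_coe, mem_conj]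
    have e : g⁻¹ * (g * (x : G) * g⁻¹) * g = x := by group
    rw [e]
  rw [Pool.Agent.Y624.NV.isWt_iff (cE g Q) hQ]
  have key : IsIrreducibleCharacter ψ →
      (fun f : CFn G F => centralValue red (fun x => ψ (cE g Q x)) (fun x => f.1 x)) =
      fun f : CFn G F => centralValue red ψ (fun x => f.1 x) := by
    intro hψ
    funext f
    have h2 := Pool.Agent.Y624.NV.centralValue_comp red (cE g Q) hψ
      (f := fun x => f.1 x) (fun a x => f.2 a x)
    rw [← h2]
    congr 1
    funext x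
    change f.1 x = f.1 (g * x * g⁻¹)
    exact (f.2 g x).symm
  constructor
  · rintro ⟨a, b⟩
    rw [key a.irr] at b
    exact ⟨a, b⟩
  · rintro ⟨a, b⟩
    rw [← key a.irr] at b
    exact ⟨a, b⟩

/-- sums over representatives of the classes of `p`-subgroups -/
theorem sum_np [Finite G] (p : ℕ) (f : Subgroup G → ℕ)
    (hf : ∀ (g : G) (Q : Subgroup G), f Q = f (Q.map (MulAut.conj g).toMonoidHom)) :
    Nat.card G * ∑ᶠ c : Quotient (pSubgroupSetoid p G), f c.out.1 =
      ∑ᶠ Q : Subgroup G, if IsPGroup p Q then Nat.card (Subgroup.normalizer (Q : Set G)) * f Q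
        else 0 := by
  let P : Type := {Q : Subgroup G // IsPGroup p Q}
  have hP : Finite P := inferInstanceAs (Finite {Q : Subgroup G // IsPGroup p Q})
  have : Fintype P := Fintype.ofFinite P
  have hG : Fintype G := Fintype.ofFinite G
  let _act : MulAction G P :=
    { smul := fun g Q => ⟨Q.1.map (MulAut.conj g).toMonoidHom, Q.2.map _⟩
      one_smul := fun Q => by
        apply Subtype.ext
        change Q.1.map (MulAut.conj (1 : G)).toMonoidHom = Q.1
        ext x
        simp [Subgroup.mem_map]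
      mul_smul := fun g h Q => by
        apply Subtype.ext
        change Q.1.map (MulAut.conj (g * h)).toMonoidHom =
          (Q.1.map (MulAut.conj h).toMonoidHom).map (MulAut.conj g).toMonoidHom
        rw [Subgroup.map_map]
        congr 1
        ext x
        simp [mul_assoc] }
  have hsm : ∀ (g : G) (Q : P), (g • Q).1 = Q.1.map (MulAut.conj g).toMonoidHom := fun _ _ => rfl
  have h6 := B48B.orbit_sum (G := G) (Ω := P) (pSubgroupSetoid p G) (by
    intro Q R
    change (∃ g : G, R.1 = Q.1.map (MulAut.conj g).toMonoidHom) ↔ _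
    constructor
    · rintro ⟨g, hg⟩
      exact ⟨g, Subtype.ext (by rw [hsm, hg])⟩
    · rintro ⟨g, hg⟩
      exact ⟨g, by rw [← hg, hsm]⟩)
    (fun Q => f Q.1) (by
      rintro Q R ⟨g, hg⟩
      rw [hg]
      exact hf g Q.1)
  have hstab : ∀ Q : P, Nat.card (MulAction.stabilizer G Q) =
      Nat.card (Subgroup.normalizer (Q.1 : Set G)) := by
    intro Q
    refine Nat.card_congr (Equiv.subtypeEquivRight fun g => ?_)
    rw [MulAction.mem_stabilizer_iff, Subtype.ext_iff, hsm, Subgroup.mem_normalizer_iff]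
    constructor
    · intro h3 x
      have h4 : (g * x * g⁻¹ ∈ Q.1.map (MulAut.conj g).toMonoidHom) ↔ g * x * g⁻¹ ∈ Q.1 := by
        rw [h3]
      rw [mem_conj] at h4
      have e : g⁻¹ * (g * x * g⁻¹) * g = x := by group
      rw [e] at h4
      exact h4
    · intro h3
      ext x
      rw [mem_conj]
      have h4 := h3 (g⁻¹ * x * g)
      have e : g * (g⁻¹ * x * g) * g⁻¹ = x := by group
      rw [e] at h4
      exact h4
  rw [h6]
  have hS : Fintype (Subgroup G) := Fintype.ofFinite _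
  rw [finsum_eq_sum_of_fintype, ← Finset.sum_filter]
  rw [Finset.sum_congr rfl fun Q _ => by rw [hstab Q]]
  exact (Finset.sum_subtype (p := fun Q : Subgroup G => IsPGroup p Q)
      (Finset.univ.filter fun Q : Subgroup G => IsPGroup p Q) (by simp)
      (fun Q => Nat.card ↥(Subgroup.normalizer (Q : Set G)) * f Q)).symm

/-- the type `Wt` as a sum -/
def wtE (p : ℕ) : Wt p G ≃ (Q : {Q : Subgroup G // IsPGroup p Q}) ×
    (Subgroup.normalizer (Q.1 : Set G)) × {χ : Subgroup.normalizer (Q.1 : Set G) → ℂ //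
      IsWt p (Q.1.subgroupOf (Subgroup.normalizer (Q.1 : Set G))) χ} where
  toFun w := ⟨⟨w.Q, w.pg⟩, w.g, ⟨w.χ, w.wt⟩⟩
  invFun s := ⟨s.1.1, s.1.2, s.2.1, s.2.2.1, s.2.2.2⟩
  left_inv _ := rfl
  right_inv _ := rfl

theorem fin_chi [Finite G] (p : ℕ) (Q : Subgroup G) :
    Finite {χ : Subgroup.normalizer (Q : Set G) → ℂ //
      IsWt p (Q.subgroupOf (Subgroup.normalizer (Q : Set G))) χ} :=
  (((Pool.Agent.Y914.NV.irr ℂ (Subgroup.normalizer (Q : Set G))).1.subset
    (fun _ h => h.irr)).to_subtype)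

theorem fin_wt [Finite G] (p : ℕ) : Finite (Wt p G) := by
  have := fun Q : {Q : Subgroup G // IsPGroup p Q} => fin_chi p Q.1
  exact Finite.of_equiv _ (wtE p).symm

/-- the weights with a property of the central character -/
theorem card_wt [Finite G] (p : ℕ) (red : integralClosure ℤ ℂ →+* F) (P : (CFn G F → F) → Prop) :
    Nat.card {w : Wt p G // P (wb red w)} =
      ∑ᶠ Q : Subgroup G, if IsPGroup p Q then Nat.card (Subgroup.normalizer (Q : Set G)) *
        NP p red P Q else 0 := by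
  have hf := fun Q : {Q : Subgroup G // IsPGroup p Q} => fin_chi p Q.1
  have hP : Finite {Q : Subgroup G // IsPGroup p Q} := inferInstance
  have hPf : Fintype {Q : Subgroup G // IsPGroup p Q} := Fintype.ofFinite _
  have hS : Fintype (Subgroup G) := Fintype.ofFinite _
  let T : {Q : Subgroup G // IsPGroup p Q} → Type := fun Q =>
    (Subgroup.normalizer (Q.1 : Set G)) × {χ : Subgroup.normalizer (Q.1 : Set G) → ℂ //
      IsWt p (Q.1.subgroupOf (Subgroup.normalizer (Q.1 : Set G))) χ ∧
        P (fun f => centralValue red χ (fun x => f.1 x))}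
  have e : {w : Wt p G // P (wb red w)} ≃ (Q : {Q : Subgroup G // IsPGroup p Q}) × T Q :=
    { toFun := fun w => ⟨⟨w.1.Q, w.1.pg⟩, w.1.g, ⟨w.1.χ, w.1.wt, w.2⟩⟩
      invFun := fun s => ⟨⟨s.1.1, s.1.2, s.2.1, s.2.2.1, s.2.2.2.1⟩, s.2.2.2.2⟩
      left_inv := fun _ => rfl
      right_inv := fun _ => rfl }
  have hT : ∀ Q, Finite (T Q) := by
    intro Q
    have h1 : Finite {χ : Subgroup.normalizer (Q.1 : Set G) → ℂ //
      IsWt p (Q.1.subgroupOf (Subgroup.normalizer (Q.1 : Set G))) χ ∧
        P (fun f => centralValue red χ (fun x => f.1 x))} := by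
      have := hf Q
      exact Finite.of_injective (β := {χ : Subgroup.normalizer (Q.1 : Set G) → ℂ //
        IsWt p (Q.1.subgroupOf (Subgroup.normalizer (Q.1 : Set G))) χ})
        (fun χ => ⟨χ.1, χ.2.1⟩) (fun a b h => Subtype.ext (Subtype.mk.inj h))
    exact inferInstance
  rw [Nat.card_congr e, Nat.card_sigma, finsum_eq_sum_of_fintype, ← Finset.sum_filter]
  rw [Finset.sum_subtype (p := fun Q : Subgroup G => IsPGroup p Q)
      (Finset.univ.filter fun Q : Subgroup G => IsPGroup p Q) (by simp)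
      (fun Q => Nat.card ↥(Subgroup.normalizer (Q : Set G)) * NP p red P Q)]
  refine Finset.sum_congr rfl fun Q _ => ?_
  exact Nat.card_prod _ _

end

section irr

variable {F : Type} [Field F] [IsAlgClosed F] {G : Type} [Group G] [Finite G]

omit [IsAlgClosed F] in
theorem conv_cf {f g : G → F} (hf : IsClassFun f) (hg : IsClassFun g) : IsClassFun (conv f g) := by
  have : Fintype G := Fintype.ofFinite G
  intro h x
  unfold conv
  rw [finsum_eq_sum_of_fintype, finsum_eq_sum_of_fintype]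
  refine Fintype.sum_equiv (MulAut.conj h⁻¹).toEquiv _ _ fun y => ?_
  have e1 : (MulAut.conj h⁻¹).toEquiv y = h⁻¹ * y * h := by simp
  rw [e1]
  have e2 : f (h⁻¹ * y * h) = f y := by
    have := hf h⁻¹ y
    simpa using this
  have e3 : g ((h⁻¹ * y * h)⁻¹ * x) = g (y⁻¹ * (h * x * h⁻¹)) := by
    have := hg h ((h⁻¹ * y * h)⁻¹ * x)
    rw [← this]
    congr 1
    group
  rw [e2, e3]

omit [IsAlgClosed F] [Finite G] in
theorem single_cf : IsClassFun (Pi.single (1 : G) (1 : F) : G → F) := by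
  intro g x
  by_cases hx : x = 1
  · subst hx
    have : g * 1 * g⁻¹ = 1 := by group
    rw [this]
  · rw [Pi.single_eq_of_ne hx, Pi.single_eq_of_ne]
    intro h
    apply hx
    have : g⁻¹ * (g * x * g⁻¹) * g = g⁻¹ * 1 * g := by rw [h]
    have e : g⁻¹ * (g * x * g⁻¹) * g = x := by group
    rw [e] at this
    rw [this]
    group

theorem ne0 (φ : Lt F G) : ∃ x : G, φ.1 x ≠ 0 := (schur' F G φ.1 φ.2).1

theorem lv_spec (φ : Lt F G) (f : G → F) (hf : IsClassFun f) (x : G) :
    ∑ᶠ g : G, f g * φ.1 (g * x) = lv φ f * φ.1 x := by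
  obtain ⟨-, B, -, hB⟩ := schur' F G φ.1 φ.2
  have h : ∃ c : F, ∀ x : G, ∑ᶠ g : G, f g * φ.1 (g * x) = c * φ.1 x := ⟨B f, hB f hf⟩
  unfold lv
  rw [dif_pos h]
  exact h.choose_spec x

theorem lv_unique (φ : Lt F G) (f : G → F) (hf : IsClassFun f) (c : F)
    (hc : ∀ x : G, ∑ᶠ g : G, f g * φ.1 (g * x) = c * φ.1 x) : lv φ f = c := by
  obtain ⟨x, hx⟩ := ne0 φ
  exact mul_right_cancel₀ hx ((lv_spec φ f hf x).symm.trans (hc x))

theorem lv_block (φ : Lt F G) : IsBlock (lv φ) := by
  obtain ⟨-, B, hB, hB2⟩ := schur' F G φ.1 φ.2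
  have e : ∀ f : G → F, IsClassFun f → lv φ f = B f := fun f hf =>
    lv_unique φ f hf _ (hB2 f hf)
  refine ⟨fun f g hf hg => ?_, fun a f hf => ?_, ?_, fun f g hf hg => ?_⟩
  · rw [e f hf, e g hg, e (f + g) (fun a x => by
      rw [Pi.add_apply, Pi.add_apply, hf a x, hg a x]), hB.add f g hf hg]
  · rw [e f hf, e (a • f) (fun b x => by
      rw [Pi.smul_apply, Pi.smul_apply, hf b x]), hB.smul a f hf]
  · rw [e _ single_cf, hB.one]
  · rw [e f hf, e g hg, e _ (conv_cf hf hg), hB.mul f g hf hg]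

end irr

end Pool.Agent.J4.H3.PG.BAS

namespace Pool.Agent.J4.H3.PG

open Pool.Agent.Y63.NV
open Pool.Agent.Y63.AWC (IsIrreducibleCharacter pSubgroupSetoid)

theorem t_BAS : S_BAS := by
  intro p _ F _ _ _ red G _ _
  refine ⟨?_, BAS.fin_wt p, BAS.lv_block, ?_, fun φ f hf x => BAS.lv_spec φ f hf x, BAS.ne0, ?_, ?_⟩
  · exact (Pool.Agent.Y914.NV.irr F G).1.to_subtype
  · intro w
    exact BAS.wblk' p F red G w.Q w.χ w.pg w.wt
  · intro z c hz
    constructor
    · unfold LL
      refine Nat.card_congr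
        { toFun := fun φ => ⟨⟨φ.1, φ.2.1⟩, BAS.lv_unique _ z hz c φ.2.2⟩
          invFun := fun φ => ⟨φ.1.1, φ.1.2, fun x => ?_⟩
          left_inv := fun _ => rfl
          right_inv := fun _ => rfl }
      have h1 := BAS.lv_spec φ.1 z hz x
      have h2 : lv φ.1 z = c := φ.2
      rwa [h2] at h1
    · exact (BAS.card_wt p red (fun β : CFn G F → F => β ⟨z, hz⟩ = c)).symm
  · intro B
    constructor
    · unfold nIrr
      refine Nat.card_congr
        { toFun := fun φ => ⟨⟨φ.1, φ.2.1⟩, ?_⟩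
          invFun := fun φ => ⟨φ.1.1, φ.1.2, fun f hf x => ?_⟩
          left_inv := fun _ => rfl
          right_inv := fun _ => rfl }
      · funext f
        exact BAS.lv_unique ⟨φ.1, φ.2.1⟩ f.1 f.2 _ (φ.2.2 f.1 f.2)
      · have h1 := BAS.lv_spec φ.1 f hf x
        have h2 : lv φ.1 f = B f := congrFun φ.2 ⟨f, hf⟩
        rwa [h2] at h1
    · have h1 := BAS.card_wt p red (fun β : CFn G F → F => β = bb B)
      rw [h1, ← BAS.sum_np p (fun Q => BAS.NP p red (fun β : CFn G F → F => β = bb B) Q)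
        (fun g Q => BAS.np_conj p red _ g Q)]
      unfold nWts
      congr 1
      refine finsum_congr fun c => ?_
      unfold nWtB BAS.NP
      refine Nat.card_congr (Equiv.subtypeEquivRight fun χ => ?_)
      refine and_congr_right fun _ => ?_
      constructor
      · intro h
        funext f
        exact h f.1 f.2
      · intro h f hf
        exact congrFun h ⟨f, hf⟩

end Pool.Agent.J4.H3.PG
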