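import Pool.Agent.J4.H3.PG.IrrProd
import Pool.Agent.J4.H3.PG.D1

/-!
# CPI: irreducible complex characters of direct products
-/

set_option autoImplicit false

open scoped BigOperators

namespace Pool.Agent.J4.H3.PG

open Pool.Agent.Y63.NV Pool.Agent.J4.H3.PG.IP
open Pool.Agent.Y63.AWC (IsIrreducibleCharacter)

theorem t_CPI : S_CPI := by
  intro ι _ J _ _
  obtain ⟨h1, h2⟩ := nfold (F := ℂ) ι J
  refine ⟨fun χ hχ => h1 χ hχ, fun ψ hψ => ?_⟩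
  obtain ⟨χ, hχ, h3⟩ := h2 ψ hψ
  refine ⟨χ, ⟨hχ, h3⟩, ?_⟩
  rintro χ' ⟨hχ', h3'⟩
  refine prod_inj (fun i => hχ' i) (fun i => hχ i) fun x => ?_
  rw [← congrFun h3' x, ← congrFun h3 x]

end Pool.Agent.J4.H3.PG
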