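import Pool.Agent.J4.H3.PG.D1
import Pool.Agent.Y930.NV.Cen

/-!
# Central characters of direct products
-/

set_option autoImplicit false

open scoped Classical BigOperators

noncomputable section

namespace Pool.Agent.J4.H3.PG

open Pool.Agent.Y63.NV Pool.Agent.Y930.NV
open Pool.Agent.Y63.AWC (IsIrreducibleCharacter)

namespace CVP

theorem redC_prod {F : Type} [Field F] (red : integralClosure ℤ ℂ →+* F) {ι : Type}
    (s : Finset ι) (a : ι → ℂ) (ha : ∀ i ∈ s, IsIntegral ℤ (a i)) :
    redC red (∏ i ∈ s, a i) = ∏ i ∈ s, redC red (a i) := by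
  induction s using Finset.induction_on with
  | empty => simp [redC_one]
  | insert i s his ih =>
    have h2 : IsIntegral ℤ (∏ j ∈ s, a j) :=
      IsIntegral.prod _ fun j hj => ha j (Finset.mem_insert_of_mem hj)
    rw [Finset.prod_insert his, Finset.prod_insert his,
      redC_mul red (ha i (Finset.mem_insert_self i s)) h2,
      ih fun j hj => ha j (Finset.mem_insert_of_mem hj)]

variable {ι : Type} [Fintype ι] {J : ι → Type} [∀ i, Group (J i)]

/-- the classes of a direct product -/
def clsE : ConjClasses (∀ i, J i) ≃ ∀ i, ConjClasses (J i) where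
  toFun C i := ConjClasses.map (Pi.evalMonoidHom J i) C
  invFun c := ConjClasses.mk fun i => (c i).out
  left_inv C := by
    obtain ⟨x, rfl⟩ := ConjClasses.exists_rep C
    rw [ConjClasses.mk_eq_mk_iff_isConj, isConj_iff]
    have h : ∀ i, ∃ g : J i, g * (ConjClasses.mk (x i)).out * g⁻¹ = x i := fun i => by
      rw [← isConj_iff, ← ConjClasses.mk_eq_mk_iff_isConj]
      exact Quotient.out_eq (ConjClasses.mk (x i))
    choose g hg using h
    exact ⟨g, funext hg⟩
  right_inv c := by
    funext i
    exact Quotient.out_eq (c i)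

theorem clsE_mk (x : ∀ i, J i) (i : ι) : clsE (ConjClasses.mk x) i = ConjClasses.mk (x i) := rfl

theorem mk_out_apply (C : ConjClasses (∀ i, J i)) (i : ι) :
    ConjClasses.mk (C.out i) = clsE C i := by
  rw [← clsE_mk]
  exact congrFun (congrArg clsE (Quotient.out_eq C)) i

theorem card_carrier (C : ConjClasses (∀ i, J i)) [∀ i, Finite (J i)] :
    Nat.card C.carrier = ∏ i, Nat.card (clsE C i).carrier := by
  have h : C.carrier = Set.pi Set.univ (fun i => (clsE C i).carrier) := by
    ext x
    rw [ConjClasses.mem_carrier_iff_mk_eq, Set.mem_univ_pi]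
    constructor
    · rintro rfl i
      rw [ConjClasses.mem_carrier_iff_mk_eq, clsE_mk]
    · intro hx
      apply clsE.injective
      funext i
      rw [clsE_mk]
      exact ConjClasses.mem_carrier_iff_mk_eq.1 (hx i)
  rw [h, Nat.card_congr (Equiv.Set.univPi _), Nat.card_pi]

end CVP

theorem t_CVP : S_CVP := by
  intro F _ red ι _ J _ _ χ f hχ hf
  have hFin : ∀ i, Fintype (J i) := fun i => Fintype.ofFinite (J i)
  unfold centralValue
  rw [finsum_eq_sum_of_fintype]
  have hterm : ∀ C : ConjClasses (∀ i, J i),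
      (∏ i, f i (C.out i)) * redC red ((Nat.card C.carrier : ℂ) * (∏ i, χ i (C.out i)) /
        ∏ i, χ i ((1 : ∀ i, J i) i)) =
      ∏ i, (f i (CVP.clsE C i).out * redC red ((Nat.card (CVP.clsE C i).carrier : ℂ) *
        χ i (CVP.clsE C i).out / χ i 1)) := by
    intro C
    rw [Finset.prod_mul_distrib]
    congr 1
    · refine Finset.prod_congr rfl fun i _ => ?_
      exact (Cf_out (hf i) (CVP.mk_out_apply C i)).symm
    · rw [← CVP.redC_prod]
      · congr 1
        rw [CVP.card_carrier, Finset.prod_div_distrib, Finset.prod_mul_distrib]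
        push_cast
        congr 2
        refine Finset.prod_congr rfl fun i _ => ?_
        exact (Cf_out (irr_Cf (hχ i)) (CVP.mk_out_apply C i)).symm
      · intro i _
        rw [← om_ind (χ i) (irr_Cf (hχ i)), ← ind_cast]
        exact om_int (hχ i) (Cf_ind ℤ _)
  obtain ⟨T, hT⟩ : ∃ T : ∀ i, ConjClasses (J i) → F, T = fun i C =>
      f i C.out * redC red ((Nat.card C.carrier : ℂ) * χ i C.out / χ i 1) := ⟨_, rfl⟩
  have hterm2 : ∀ C : ConjClasses (∀ i, J i),
      (∏ i, f i (C.out i)) * redC red ((Nat.card C.carrier : ℂ) * (∏ i, χ i (C.out i)) /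
        ∏ i, χ i ((1 : ∀ i, J i) i)) = ∏ i, T i (CVP.clsE C i) := by
    intro C
    rw [hterm C, hT]
  have h3 : ∀ i, ∑ᶠ C : ConjClasses (J i),
      f i C.out * redC red ((Nat.card C.carrier : ℂ) * χ i C.out / χ i 1) = ∑ C, T i C := by
    intro i
    rw [finsum_eq_sum_of_fintype, hT]
  rw [Finset.sum_congr rfl fun C _ => hterm2 C,
    Equiv.sum_comp CVP.clsE (fun c : ∀ i, ConjClasses (J i) => ∏ i, T i (c i)),
    Finset.prod_congr rfl fun i _ => h3 i]
  rw [Finset.prod_univ_sum, Fintype.piFinset_univ]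

end Pool.Agent.J4.H3.PG
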