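import Pool.Agent.J4.H12.PG.Dc

/-!
# The weight conjecture and perfect groups: piece DC
-/

set_option autoImplicit false

open scoped BigOperators Classical
open Pool.Agent.Helper884.IC
open Pool.Agent.Y63.AWC hiding ind
open Pool.Agent.Y63.NV (centralValue IsWt)

open Pool.Agent.J4.H12.PG in
/-- **DC** -/
theorem Pool.Agent.J4.H3.PG.t_DC : Pool.Agent.J4.H3.PG.S_DC := by
  intro p hp F _ _ _ red J _ _ I Q hI hQn z c hpI hQI hQ hz
  cases nonempty_fintype J
  rw [nw_eq, nw_eq]
  set S := (Irr J).filter fun chi => IsWt p Q chi ∧ centralValue red chi z = c with hS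
  set T := (Irr I).filter fun theta => IsWt p (Q.subgroupOf I) theta ∧
    centralValue red theta (fun x : I => z x) = c with hT
  have hST : ∀ (chi : J → ℂ) (theta : I → ℂ), IsIrrChar chi → IsIrrChar theta →
      mult I chi theta ≠ 0 → (chi ∈ S ↔ theta ∈ T) := by
    intro chi theta hc ht hm
    rw [hS, hT, Finset.mem_filter, Finset.mem_filter, mem_Irr, mem_Irr,
      wt_iff I Q hpI hQI hQ hc ht hm, Pool.Agent.Y809.NV.cv_eq I red hc ht hm hz]
    simp only [hc, ht, true_and]
  constructor
  · have h := Finset.card_mul_le_card_mul (s := T) (t := S) (m := 1) (n := I.index)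
      (fun theta chi => mult I chi theta ≠ 0) (by
        intro theta htheta
        have ht := mem_Irr.1 (Finset.mem_filter.1 htheta).1
        obtain ⟨chi, hc, hm⟩ := exists_over I ht
        refine Finset.card_pos.2 ⟨chi, ?_⟩
        exact Finset.mem_filter.2 ⟨(hST chi theta hc ht hm).2 htheta, hm⟩) (by
        intro chi hchi
        have hc := mem_Irr.1 (Finset.mem_filter.1 hchi).1
        obtain ⟨theta, ht, hm⟩ := mult_exists I hc
        refine le_trans ?_ (card_Orb_le I theta ht)
        rw [← support_eq I hc ht hm]
        refine Finset.card_le_card fun t htt => ?_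
        obtain ⟨h1, h2⟩ := Finset.mem_filter.1 htt
        exact Finset.mem_filter.2 ⟨(Finset.mem_filter.1 h1).1, h2⟩)
    rw [mul_one, mul_comm] at h
    exact h
  · have h := Finset.card_mul_le_card_mul (s := S) (t := T) (m := 1) (n := I.index)
      (fun chi theta => mult I chi theta ≠ 0) (by
        intro chi hchi
        have hc := mem_Irr.1 (Finset.mem_filter.1 hchi).1
        obtain ⟨theta, ht, hm⟩ := mult_exists I hc
        refine Finset.card_pos.2 ⟨theta, ?_⟩
        exact Finset.mem_filter.2 ⟨(hST chi theta hc ht hm).1 hchi, hm⟩) (by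
        intro theta htheta
        have ht := mem_Irr.1 (Finset.mem_filter.1 htheta).1
        refine le_trans ?_ (card_over_le I ht)
        refine Finset.card_le_card fun t htt => ?_
        obtain ⟨h1, h2⟩ := Finset.mem_filter.1 htt
        exact Finset.mem_filter.2 ⟨(Finset.mem_filter.1 h1).1, h2⟩)
    rw [mul_one, mul_comm] at h
    exact h
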