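import Pool.Agent.J4.H3.PG.D1

/-!
# ID: block idempotents
-/

set_option autoImplicit false

open scoped Classical BigOperators

noncomputable section

namespace Pool.Agent.J4.H3.PG.IDp

open Pool.Agent.Y63.NV
open Pool.Agent.J4.H3.PG

variable {F : Type} [Field F] {G : Type} [Group G]

theorem cf_add {f g : G → F} (hf : IsClassFun f) (hg : IsClassFun g) : IsClassFun (f + g) :=
  fun a x => by rw [Pi.add_apply, Pi.add_apply, hf, hg]

theorem cf_smul (a : F) {f : G → F} (hf : IsClassFun f) : IsClassFun (a • f) :=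
  fun b x => by rw [Pi.smul_apply, Pi.smul_apply, hf]

theorem cf_zero : IsClassFun (0 : G → F) := fun _ _ => rfl

theorem cf_one : IsClassFun (Pi.single 1 1 : G → F) := by
  intro a x
  by_cases h : x = 1
  · subst h
    rw [mul_one, mul_inv_cancel]
  · have h2 : a * x * a⁻¹ ≠ 1 := by
      intro h3
      apply h
      have h4 : a⁻¹ * (a * x * a⁻¹) * a = 1 := by rw [h3]; group
      have h5 : a⁻¹ * (a * x * a⁻¹) * a = x := by group
      rw [← h5, h4]
    rw [Pi.single_eq_of_ne h, Pi.single_eq_of_ne h2]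

theorem cf_conv {f g : G → F} (hf : IsClassFun f) (hg : IsClassFun g) :
    IsClassFun (conv f g) := by
  intro a x
  unfold conv
  rw [← finsum_comp_equiv (MulAut.conj a).toEquiv
    (f := fun y : G => f y * g (y⁻¹ * (a * x * a⁻¹)))]
  refine finsum_congr fun y => ?_
  have e1 : (MulAut.conj a).toEquiv y = a * y * a⁻¹ := rfl
  have e2 : (a * y * a⁻¹)⁻¹ * (a * x * a⁻¹) = a * (y⁻¹ * x) * a⁻¹ := by group
  simp only [e1]
  rw [hf, e2, hg]

/-- the blocks -/
abbrev Bl (G F : Type) [Group G] [Field F] : Type := {B : (G → F) → F // IsBlock B}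

theorem bl_zero (B : Bl G F) : B.1 0 = 0 := by
  have h := B.2.smul 0 0 cf_zero
  rw [zero_smul, zero_mul] at h
  exact h

/-- the class functions at which the blocks of the list vanish -/
def VV (S : List (Bl G F)) : Submodule F (G → F) where
  carrier := {f | IsClassFun f ∧ ∀ B ∈ S, (B : Bl G F).1 f = 0}
  zero_mem' := ⟨cf_zero, fun B _ => bl_zero B⟩
  add_mem' := by
    rintro f g ⟨hf, hf2⟩ ⟨hg, hg2⟩
    exact ⟨cf_add hf hg, fun B hB => by rw [B.2.add f g hf hg, hf2 B hB, hg2 B hB, add_zero]⟩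
  smul_mem' := by
    rintro a f ⟨hf, hf2⟩
    exact ⟨cf_smul a hf, fun B hB => by rw [B.2.smul a f hf, hf2 B hB, mul_zero]⟩

theorem sep (B B' : Bl G F) (h : bb B'.1 ≠ bb B.1) :
    ∃ f : G → F, IsClassFun f ∧ B.1 f = 1 ∧ B'.1 f = 0 := by
  have h1 : ∃ f : CFn G F, B'.1 f.1 ≠ B.1 f.1 := by
    by_contra hc
    push Not at hc
    exact h (funext hc)
  obtain ⟨f, hf⟩ := h1
  have hd : B.1 f.1 - B'.1 f.1 ≠ 0 := fun h => hf (sub_eq_zero.1 h).symm
  have c1 : IsClassFun ((-(B'.1 f.1)) • (Pi.single 1 1 : G → F)) := cf_smul _ cf_one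
  have c2 : IsClassFun (f.1 + (-(B'.1 f.1)) • (Pi.single 1 1 : G → F)) := cf_add f.2 c1
  refine ⟨(B.1 f.1 - B'.1 f.1)⁻¹ • (f.1 + (-(B'.1 f.1)) • (Pi.single 1 1 : G → F)),
    cf_smul _ c2, ?_, ?_⟩
  · rw [B.2.smul _ _ c2, B.2.add _ _ f.2 c1, B.2.smul _ _ cf_one, B.2.one, mul_one, ← sub_eq_add_neg]
    exact inv_mul_cancel₀ hd
  · rw [B'.2.smul _ _ c2, B'.2.add _ _ f.2 c1, B'.2.smul _ _ cf_one, B'.2.one, mul_one,
      ← sub_eq_add_neg, sub_self, mul_zero]

theorem elt (B : Bl G F) (S : List (Bl G F)) (hS : ∀ B' ∈ S, bb (B' : Bl G F).1 ≠ bb B.1) :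
    ∃ f : G → F, f ∈ VV S ∧ B.1 f = 1 := by
  induction S with
  | nil => exact ⟨Pi.single 1 1, ⟨cf_one, fun B' hB' => absurd hB' (by simp)⟩, B.2.one⟩
  | cons B' S ih =>
    obtain ⟨f, hf, hf1⟩ := ih fun B'' h => hS B'' (List.mem_cons_of_mem _ h)
    obtain ⟨g, hg, hg1, hg2⟩ := sep B B' (hS B' List.mem_cons_self)
    refine ⟨conv g f, ⟨cf_conv hg hf.1, fun B'' h => ?_⟩, ?_⟩
    · rw [B''.2.mul g f hg hf.1]
      rcases List.mem_cons.1 h with rfl | h
      · rw [hg2, zero_mul]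
      · rw [hf.2 B'' h, mul_zero]
    · rw [B.2.mul g f hg hf.1, hg1, hf1, mul_one]

theorem main [Finite G] (B : Bl G F) (n : ℕ) : ∀ S : List (Bl G F),
    (∀ B' ∈ S, bb (B' : Bl G F).1 ≠ bb B.1) → Module.finrank F (VV S) ≤ n →
      ∃ e : G → F, IsIdem B.1 e := by
  induction n with
  | zero =>
    intro S hS hn
    exfalso
    obtain ⟨f, hf, hf1⟩ := elt B S hS
    have h0 : VV S = ⊥ := Submodule.finrank_eq_zero.1 (Nat.le_zero.1 hn)
    rw [h0, Submodule.mem_bot] at hf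
    rw [hf, bl_zero B] at hf1
    exact zero_ne_one hf1
  | succ n ih =>
    intro S hS hn
    obtain ⟨f, hf, hf1⟩ := elt B S hS
    by_cases h : ∀ B' : Bl G F, bb B'.1 ≠ bb B.1 → B'.1 f = 0
    · refine ⟨f, hf.1, fun B' hB' => ?_⟩
      by_cases hb : bb B' = bb B.1
      · rw [if_pos hb, ← hf1]
        exact congrFun hb ⟨f, hf.1⟩
      · rw [if_neg hb]
        exact h ⟨B', hB'⟩ hb
    · push Not at h
      obtain ⟨B', hB', hB'f⟩ := h
      refine ih (B' :: S) ?_ ?_
      · intro B'' hB''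
        rcases List.mem_cons.1 hB'' with rfl | h2
        · exact hB'
        · exact hS B'' h2
      · have hlt : VV (B' :: S) < VV S := by
          refine lt_of_le_of_ne ?_ ?_
          · rintro g ⟨hg, hg2⟩
            exact ⟨hg, fun B'' h => hg2 B'' (List.mem_cons_of_mem _ h)⟩
          · intro heq
            rw [← heq] at hf
            exact hB'f (hf.2 B' List.mem_cons_self)
        have h3 := Submodule.finrank_lt_finrank_of_lt hlt
        omega

end Pool.Agent.J4.H3.PG.IDp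

namespace Pool.Agent.J4.H3.PG

/-- ID: block idempotents -/
theorem t_ID : S_ID := fun _ _ _ _ _ _ B hB =>
  IDp.main ⟨B, hB⟩ _ [] (fun _ h => absurd h (by simp)) le_rfl

end Pool.Agent.J4.H3.PG
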