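import Pool.Agent.J4.H3.PG.D1
import Pool.Agent.Y624.NV.Trn

/-!
# ISO: invariance under isomorphisms
-/

set_option autoImplicit false

open scoped Classical BigOperators

noncomputable section

namespace Pool.Agent.J4.H3.PG.ISOp

open Pool.Agent.Y63.NV
open Pool.Agent.J4.H3.PG

section chars

variable {F : Type} [Field F] {J J' : Type} [Group J] [Group J']

/-- the same subspaces are invariant -/
def subIso (e : J ≃* J') {V : Type} [AddCommGroup V] [Module F V] (ρ : Representation F J' V) :
    Subrepresentation ρ ≃o Subrepresentation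
      ((MonoidHom.comp ρ e.toMonoidHom : Representation F J V)) where
  toFun s := ⟨s.toSubmodule, fun g _ hv => s.apply_mem_toSubmodule (e g) hv⟩
  invFun s := ⟨s.toSubmodule, fun g v hv => by
    have h := s.apply_mem_toSubmodule (e.symm g) hv
    change ρ (e (e.symm g)) v ∈ _ at h
    rwa [e.apply_symm_apply] at h⟩
  left_inv _ := rfl
  right_inv _ := rfl
  map_rel_iff' := Iff.rfl

theorem irr_comp (e : J ≃* J') {χ : J' → F} (h : IsIrrTrace χ) :
    IsIrrTrace (fun x => χ (e x)) := by
  obtain ⟨V, i1, i2, i3, ρ, hρ, rfl⟩ := h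
  refine ⟨V, i1, i2, i3, (MonoidHom.comp ρ e.toMonoidHom : Representation F J V), ?_, rfl⟩
  exact (subIso e ρ).isSimpleOrder_iff.1 hρ

theorem irr_iff (e : J ≃* J') {χ : J' → F} :
    IsIrrTrace (fun x => χ (e x)) ↔ IsIrrTrace χ := by
  refine ⟨fun h => ?_, irr_comp e⟩
  have h2 := irr_comp e.symm h
  simpa using h2

end chars

theorem ll_iso {F : Type} [Field F] {G G' : Type} [Group G] [Group G'] (e : G ≃* G')
    (z : G' → F) (c : F) : LL (fun x => z (e x)) c = LL z c := by
  unfold LL
  refine Nat.card_congr ((Equiv.arrowCongr e.toEquiv (Equiv.refl F)).subtypeEquiv fun χ => ?_)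
  have h1 : χ = fun x => ((Equiv.arrowCongr e.toEquiv (Equiv.refl F)) χ) (e x) := by
    funext x
    change χ x = χ (e.symm (e x))
    rw [e.symm_apply_apply]
  generalize (Equiv.arrowCongr e.toEquiv (Equiv.refl F)) χ = ψ at h1 ⊢
  subst h1
  rw [irr_iff e]
  refine and_congr_right fun _ => ?_
  have h2 : ∀ x : G, ∑ᶠ g : G, z (e g) * ψ (e (g * x)) = ∑ᶠ g : G', z g * ψ (g * e x) := by
    intro x
    rw [← finsum_comp_equiv e.toEquiv (f := fun g : G' => z g * ψ (g * e x))]
    refine finsum_congr fun g => ?_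
    rw [map_mul]
    rfl
  constructor
  · intro h x
    have h3 := h (e.symm x)
    rw [h2] at h3
    simp only [e.apply_symm_apply] at h3
    exact h3
  · intro h x
    rw [h2]
    exact h (e x)

theorem norm_map {G G' : Type} [Group G] [Group G'] (e : G ≃* G') (Q : Subgroup G) (x : G) :
    e x ∈ Subgroup.normalizer ((Q.map e.toMonoidHom : Subgroup G') : Set G') ↔
      x ∈ Subgroup.normalizer (Q : Set G) := by
  have hmem : ∀ w : G, e w ∈ Q.map e.toMonoidHom ↔ w ∈ Q := by
    intro w
    constructor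
    · rintro ⟨y, hy, hyw⟩
      rwa [← e.injective hyw]
    · intro h
      exact ⟨w, h, rfl⟩
  rw [Subgroup.mem_normalizer_iff, Subgroup.mem_normalizer_iff]
  constructor
  · intro h y
    have h1 := h (e y)
    rw [← map_mul, ← map_inv, ← map_mul, hmem, hmem] at h1
    exact h1
  · intro h y
    have h1 := h (e.symm y)
    rw [← hmem, ← hmem, map_mul, map_mul, map_inv, e.apply_symm_apply] at h1
    exact h1

/-- the isomorphism of the normalisers -/
def normEquiv {G G' : Type} [Group G] [Group G'] (e : G ≃* G') (Q : Subgroup G) :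
    Subgroup.normalizer (Q : Set G) ≃*
      Subgroup.normalizer ((Q.map e.toMonoidHom : Subgroup G') : Set G') where
  toFun x := ⟨e x.1, (norm_map e Q x.1).2 x.2⟩
  invFun y := ⟨e.symm y.1, by
    rw [← norm_map e Q, e.apply_symm_apply]
    exact y.2⟩
  left_inv x := Subtype.ext (e.symm_apply_apply x.1)
  right_inv y := Subtype.ext (e.apply_symm_apply y.1)
  map_mul' x y := Subtype.ext (map_mul e x.1 y.1)

theorem ww_iso {F : Type} [Field F] (p : ℕ) (red : integralClosure ℤ ℂ →+* F) {G G' : Type}
    [Group G] [Group G'] (e : G ≃* G') (z : G' → F) (c : F) (hz : IsClassFun z) :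
    WW p red (fun x => z (e x)) c = WW p red z c := by
  unfold WW
  rw [← finsum_comp_equiv (e.mapSubgroup).toEquiv]
  refine finsum_congr fun Q => ?_
  have hmap : (e.mapSubgroup).toEquiv Q = Q.map e.toMonoidHom := rfl
  rw [hmap]
  have hp : IsPGroup p Q ↔ IsPGroup p (Q.map e.toMonoidHom) := by
    constructor
    · intro h
      exact h.map _
    · intro h
      exact h.of_equiv ((e.subgroupMap Q).symm)
  have hc : Nat.card (Subgroup.normalizer (Q : Set G)) =
      Nat.card (Subgroup.normalizer ((Q.map e.toMonoidHom : Subgroup G') : Set G')) :=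
    Nat.card_congr (normEquiv e Q).toEquiv
  have hn := Pool.Agent.Y624.NV.nw_congr p red (normEquiv e Q)
    (Q := Q.subgroupOf (Subgroup.normalizer (Q : Set G)))
    (Q' := (Q.map e.toMonoidHom).subgroupOf
      (Subgroup.normalizer ((Q.map e.toMonoidHom : Subgroup G') : Set G')))
    (f := fun x => z (e x.1)) (f' := fun x => z x.1) (by
      intro x
      rw [Subgroup.mem_subgroupOf, Subgroup.mem_subgroupOf]
      change e x.1 ∈ Q.map e.toMonoidHom ↔ x.1 ∈ Q
      constructor
      · rintro ⟨y, hy, hyw⟩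
        rwa [← e.injective hyw]
      · intro h
        exact ⟨x.1, h, rfl⟩) (fun x => rfl) (fun g x => hz g.1 x.1) c
  by_cases h : IsPGroup p Q
  · rw [if_pos h, if_pos (hp.1 h), hc, hn]
  · rw [if_neg h, if_neg (fun h' => h (hp.2 h'))]

end Pool.Agent.J4.H3.PG.ISOp

namespace Pool.Agent.J4.H3.PG

/-- ISO: invariance under isomorphisms -/
theorem t_ISO : S_ISO := fun p _ _ _ red _ _ _ _ _ _ e z c hz =>
  ⟨ISOp.ll_iso e z c, ISOp.ww_iso p red e z c hz⟩

end Pool.Agent.J4.H3.PG
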