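import Pool.Agent.Y914.NV.Irr
import Pool.Agent.Y705.NV.Schur
import Pool.Agent.J4.H3.PG.D1

/-!
# PG, piece LC: irreducible characters over `F` and normal subgroups (modular Clifford counting)
-/

set_option autoImplicit false

open scoped Classical BigOperators MonoidAlgebra

noncomputable section

namespace Pool.Agent.J4.H3.PG.LC

open Pool.Agent.Y63.NV Pool.Agent.J4.H3.PG Representation
open Pool.Agent.Y705.NV (opT opT_scalar trace_opT)
open Pool.Agent.Y914.NV (pair noniso)

/-- irreducible representations, bundled -/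
structure IR (F G : Type) [Field F] [Group G] where
  V : Type
  [a : AddCommGroup V]
  [m : Module F V]
  [fd : FiniteDimensional F V]
  ρ : Representation F G V
  irr : ρ.IsIrreducible

attribute [instance] IR.a IR.m IR.fd

section basic

variable {F : Type} [Field F] {G : Type} [Group G]

lemma isIrrTrace_iff (φ : G → F) : IsIrrTrace φ ↔ ∃ R : IR F G, φ = R.ρ.character := by
  constructor
  · rintro ⟨V, i1, i2, i3, ρ, h, rfl⟩
    exact ⟨⟨V, ρ, h⟩, rfl⟩
  · rintro ⟨R, rfl⟩
    exact ⟨R.V, R.a, R.m, R.fd, R.ρ, R.irr, rfl⟩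

lemma inv_sub {V : Type} [AddCommGroup V] [Module F V] {ρ : Representation F G V}
    (h : ρ.IsIrreducible) (S : Submodule F V) (hS : ∀ g, ∀ v ∈ S, ρ g v ∈ S) :
    S = ⊥ ∨ S = ⊤ := by
  have := h
  rcases IsSimpleOrder.eq_bot_or_eq_top (⟨S, fun g v hv => hS g v hv⟩ : Subrepresentation ρ)
    with h1 | h1
  · left
    exact congrArg Subrepresentation.toSubmodule h1
  · right
    exact congrArg Subrepresentation.toSubmodule h1

lemma mk_irr {V : Type} [AddCommGroup V] [Module F V] (ρ : Representation F G V)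
    (hV : Nontrivial V)
    (h : ∀ S : Submodule F V, (∀ g, ∀ v ∈ S, ρ g v ∈ S) → S = ⊥ ∨ S = ⊤) :
    ρ.IsIrreducible := by
  have : Nontrivial (Subrepresentation ρ) := by
    refine ⟨⊥, ⊤, fun h => ?_⟩
    have h1 : (⊥ : Submodule F V) = ⊤ := congrArg Subrepresentation.toSubmodule h
    exact bot_ne_top h1
  exact
    { eq_bot_or_eq_top := fun S => by
        rcases h S.toSubmodule (fun g v hv => S.apply_mem_toSubmodule g hv) with h1 | h1
        · left
          exact Subrepresentation.toSubmodule_injective h1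
        · right
          exact Subrepresentation.toSubmodule_injective h1 }

lemma nontriv (R : IR F G) : Nontrivial R.V := by
  have := R.irr
  exact IsSimpleModule.nontrivial F[G] R.ρ.asModule

lemma alg_inter {V W : Type} [AddCommGroup V] [Module F V] [AddCommGroup W] [Module F W]
    (ρ : Representation F G V) (σ : Representation F G W) (u : V →ₗ[F] W)
    (hu : ∀ g v, u (ρ g v) = σ g (u v)) (x : F[G]) (v : V) :
    u (ρ.asAlgebraHom x v) = σ.asAlgebraHom x (u v) := by
  induction x using MonoidAlgebra.induction_linear with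
  | zero => simp
  | add x y hx hy => rw [map_add, map_add, LinearMap.add_apply, LinearMap.add_apply, map_add, hx, hy]
  | single g a =>
    rw [asAlgebraHom_single, asAlgebraHom_single, LinearMap.smul_apply, LinearMap.smul_apply,
      map_smul, hu]

/-- a minimal invariant subspace -/
lemma min_sub {V : Type} [AddCommGroup V] [Module F V] [FiniteDimensional F V]
    (ρ : Representation F G V) (S0 : Submodule F V) (h0 : ∀ g, ∀ v ∈ S0, ρ g v ∈ S0)
    (hne : S0 ≠ ⊥) : ∃ S : Submodule F V, S ≤ S0 ∧ (∀ g, ∀ v ∈ S, ρ g v ∈ S) ∧ S ≠ ⊥ ∧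
      ∀ T : Submodule F V, T ≤ S → (∀ g, ∀ v ∈ T, ρ g v ∈ T) → T = ⊥ ∨ T = S := by
  let P : ℕ → Prop := fun k => ∃ S : Submodule F V, S ≤ S0 ∧ (∀ g, ∀ v ∈ S, ρ g v ∈ S) ∧ S ≠ ⊥ ∧
    Module.finrank F S = k
  have hP : ∃ k, P k := ⟨_, S0, le_rfl, h0, hne, rfl⟩
  obtain ⟨S, h1, h2, h3, h4⟩ := Nat.find_spec hP
  refine ⟨S, h1, h2, h3, fun T hT hT2 => ?_⟩
  by_cases hT3 : T = ⊥
  · exact Or.inl hT3
  · right
    refine Submodule.eq_of_le_of_finrank_le hT ?_
    rw [h4]
    exact Nat.find_min' hP ⟨T, hT.trans h1, hT2, hT3, rfl⟩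

/-- a maximal proper invariant subspace -/
lemma max_sub {V : Type} [AddCommGroup V] [Module F V] [FiniteDimensional F V]
    (ρ : Representation F G V) (hV : Nontrivial V) :
    ∃ S : Submodule F V, (∀ g, ∀ v ∈ S, ρ g v ∈ S) ∧ S ≠ ⊤ ∧
      ∀ T : Submodule F V, S ≤ T → (∀ g, ∀ v ∈ T, ρ g v ∈ T) → T = S ∨ T = ⊤ := by
  let P : ℕ → Prop := fun k => ∃ S : Submodule F V, (∀ g, ∀ v ∈ S, ρ g v ∈ S) ∧ S ≠ ⊤ ∧
    Module.finrank F V - Module.finrank F S = k
  have hP : ∃ k, P k := ⟨_, ⊥, fun g v hv => by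
    rw [Submodule.mem_bot] at hv ⊢
    rw [hv, map_zero], bot_ne_top, rfl⟩
  obtain ⟨S, h1, h2, h3⟩ := Nat.find_spec hP
  refine ⟨S, h1, h2, fun T hT hT2 => ?_⟩
  by_cases hT3 : T = ⊤
  · exact Or.inr hT3
  · left
    refine (Submodule.eq_of_le_of_finrank_le hT ?_).symm
    have h4 := Nat.find_min' hP ⟨T, hT2, hT3, rfl⟩
    have h5 : Module.finrank F S ≤ Module.finrank F T := Submodule.finrank_mono hT
    have h6 : Module.finrank F T ≤ Module.finrank F V := Submodule.finrank_le T
    omega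

end basic

section closed

variable {F : Type} [Field F] [IsAlgClosed F] {G : Type} [Group G] [Finite G]

omit [Finite G] in
lemma pr (R R' : IR F G) (h : R'.ρ.character ≠ R.ρ.character) :
    ∃ x : F[G], R.ρ.asAlgebraHom x = 1 ∧ R'.ρ.asAlgebraHom x = 0 := by
  have := R.irr
  have := R'.irr
  obtain ⟨a, ha, hb⟩ := pair (F := F) (A := F[G]) (noniso R.ρ R'.ρ (Ne.symm h))
  refine ⟨a, ?_, ?_⟩
  · ext v
    rw [Pool.Agent.Y914.NV.act, ha, LinearEquiv.apply_symm_apply, Module.End.one_apply]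
  · ext v
    rw [Pool.Agent.Y914.NV.act, hb, map_zero, LinearMap.zero_apply]

omit [Finite G] in
lemma many (R : IR F G) {ι : Type} (Q : ι → IR F G) (s : Finset ι) :
    (∀ i ∈ s, (Q i).ρ.character ≠ R.ρ.character) →
      ∃ x : F[G], R.ρ.asAlgebraHom x = 1 ∧ ∀ i ∈ s, (Q i).ρ.asAlgebraHom x = 0 := by
  induction s using Finset.induction_on with
  | empty => exact fun _ => ⟨1, map_one _, fun i h => absurd h (Finset.notMem_empty _)⟩
  | insert j s _ ih =>
    intro h
    obtain ⟨x, hx1, hx2⟩ := ih fun i hi => h i (Finset.mem_insert_of_mem hi)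
    obtain ⟨y, hy1, hy2⟩ := pr R (Q j) (h j (Finset.mem_insert_self _ _))
    refine ⟨x * y, by rw [map_mul, hx1, hy1, mul_one], fun i hi => ?_⟩
    rcases Finset.mem_insert.1 hi with rfl | hi
    · rw [map_mul, hy2, mul_zero]
    · rw [map_mul, hx2 i hi, zero_mul]

/-- irreducible representations with the same character are isomorphic -/
lemma iso (R R' : IR F G) (h : R.ρ.character = R'.ρ.character) :
    ∃ e : R.V ≃ₗ[F] R'.V, ∀ g v, e (R.ρ g v) = R'.ρ g (e v) := by
  cases nonempty_fintype G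
  have hR := R.irr
  have hR' := R'.irr
  by_cases hE : IsEmpty (R.ρ.asModule ≃ₗ[F[G]] R'.ρ.asModule)
  · exfalso
    obtain ⟨a, ha, hb⟩ := pair (F := F) (A := F[G]) hE
    have h1 : R.ρ.asAlgebraHom a = 1 := by
      ext v
      rw [Pool.Agent.Y914.NV.act, ha, LinearEquiv.apply_symm_apply, Module.End.one_apply]
    have h2 : R'.ρ.asAlgebraHom a = 0 := by
      ext v
      rw [Pool.Agent.Y914.NV.act, hb, map_zero, LinearMap.zero_apply]
    obtain ⟨b, hb⟩ := Pool.Agent.Y914.NV.trace_one R.ρ hR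
    obtain ⟨c, hc⟩ := Pool.Agent.Y914.NV.expand (b * a)
    have h3 : LinearMap.trace F R.V (R.ρ.asAlgebraHom (b * a)) = 1 := by
      rw [map_mul, h1, mul_one, hb]
    have h4 : LinearMap.trace F R'.V (R'.ρ.asAlgebraHom (b * a)) = 0 := by
      rw [map_mul, h2, mul_zero, map_zero]
    rw [hc, Pool.Agent.Y914.NV.trace_expand] at h3 h4
    rw [h, h4] at h3
    exact zero_ne_one h3
  · rw [not_isEmpty_iff] at hE
    obtain ⟨e⟩ := hE
    refine ⟨R.ρ.asModuleEquiv.symm.trans ((e.restrictScalars F).trans R'.ρ.asModuleEquiv),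
      fun g v => ?_⟩
    show R'.ρ.asModuleEquiv (e (R.ρ.asModuleEquiv.symm (R.ρ g v))) =
      R'.ρ g (R'.ρ.asModuleEquiv (e (R.ρ.asModuleEquiv.symm v)))
    rw [asModuleEquiv_symm_map_rho, map_smul, asModuleEquiv_map_smul, asAlgebraHom_of]

/-- the action of a class function -/
lemma cond (R : IR F G) {f : G → F} (hf : IsClassFun f) (c : F) [Fintype G] :
    (∀ x, ∑ᶠ g : G, f g * R.ρ.character (g * x) = c * R.ρ.character x) ↔
      opT R.ρ f = c • 1 := by
  have hne : R.ρ.character ≠ 0 :=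
    (Pool.Agent.Y914.NV.irr F G).2.ne_zero ⟨R.ρ.character, (isIrrTrace_iff _).2 ⟨R, rfl⟩⟩
  obtain ⟨x0, hx0⟩ := Function.ne_iff.1 hne
  obtain ⟨l, hl⟩ := opT_scalar R.ρ R.irr hf
  have h1 : ∀ x, ∑ᶠ g : G, f g * R.ρ.character (g * x) = l * R.ρ.character x := by
    intro x
    rw [finsum_eq_sum_of_fintype, trace_opT, hl, smul_mul_assoc, one_mul, map_smul, smul_eq_mul]
    rfl
  constructor
  · intro h
    have h2 := (h1 x0).symm.trans (h x0)
    have h3 : l = c := mul_right_cancel₀ hx0 h2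
    rw [hl, h3]
  · intro h x
    have hN := nontriv R
    have h2 : l = c := by
      have h3 : l • (1 : Module.End F R.V) = c • 1 := hl.symm.trans h
      by_contra hne'
      have h4 : (l - c) • (1 : Module.End F R.V) = 0 := by rw [sub_smul, h3, sub_self]
      rcases smul_eq_zero.1 h4 with h5 | h5
      · exact hne' (sub_eq_zero.1 h5)
      · exact one_ne_zero h5
    rw [h1, h2]

end closed

section rel

variable {F : Type} [Field F] {G : Type} [Group G] {N : Subgroup G}

/-- `S` is a quotient of the restriction of `R` -/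
def Ov (S : IR F N) (R : IR F G) : Prop :=
  ∃ u : R.V →ₗ[F] S.V, u ≠ 0 ∧ ∀ (n : N) (v : R.V), u (R.ρ n v) = S.ρ n (u v)

/-- a vector killed by all `u ∘ ρ(g)` is zero -/
lemma kill_zero (S : IR F N) (R : IR F G) (u : R.V →ₗ[F] S.V) (hu : u ≠ 0) (v : R.V)
    (hv : ∀ g, u (R.ρ g v) = 0) : v = 0 := by
  let T : Submodule F R.V := ⨅ g : G, LinearMap.ker (u ∘ₗ R.ρ g)
  have hT : ∀ w, w ∈ T ↔ ∀ g, u (R.ρ g w) = 0 := by
    intro w
    simp only [T, Submodule.mem_iInf, LinearMap.mem_ker, LinearMap.comp_apply]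
  rcases inv_sub R.irr T (fun g w hw => by
    rw [hT] at hw ⊢
    intro h
    have := hw (h * g)
    rw [map_mul] at this
    exact this) with h1 | h1
  · have h2 : v ∈ T := (hT v).2 hv
    rw [h1, Submodule.mem_bot] at h2
    exact h2
  · exfalso
    apply hu
    ext w
    have h2 : w ∈ T := by
      rw [h1]
      trivial
    have h3 := (hT w).1 h2 1
    rw [map_one, Module.End.one_apply] at h3
    rw [h3, LinearMap.zero_apply]

lemma ov_surj (S : IR F N) (R : IR F G) (u : R.V →ₗ[F] S.V) (hu : u ≠ 0)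
    (h : ∀ (n : N) (v : R.V), u (R.ρ n v) = S.ρ n (u v)) : Function.Surjective u := by
  rw [← LinearMap.range_eq_top]
  rcases inv_sub S.irr (LinearMap.range u) (fun n w hw => by
    obtain ⟨v, rfl⟩ := hw
    exact ⟨R.ρ n v, h n v⟩) with h1 | h1
  · exact absurd (LinearMap.range_eq_bot.1 h1) hu
  · exact h1

/-- the twisted representation -/
def tw [N.Normal] (g : G) (S : IR F N) : IR F N where
  V := S.V
  ρ := S.ρ.comp (MulAut.conjNormal g⁻¹ : MulAut N).toMonoidHom
  irr := by
    refine mk_irr _ (nontriv S) fun T hT => inv_sub S.irr T fun n v hv => ?_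
    have h1 := hT (MulAut.conjNormal g n) v hv
    have h2 : (MulAut.conjNormal g⁻¹ : MulAut N) (MulAut.conjNormal g n) = n := by
      rw [← MulAut.mul_apply, ← map_mul, inv_mul_cancel, map_one, MulAut.one_apply]
    rw [MonoidHom.comp_apply, MulEquiv.coe_toMonoidHom, h2] at h1
    exact h1

/-- every irreducible representation of `G` has an irreducible quotient over `N` -/
lemma ex_under (N : Subgroup G) (R : IR F G) : ∃ S : IR F N, Ov S R := by
  have hN := nontriv R
  obtain ⟨M, hM1, hM2, hM3⟩ := max_sub (R.ρ.comp N.subtype) hN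
  let σ : Representation F N (R.V ⧸ M) :=
    Representation.quotient (R.ρ.comp N.subtype) M (fun n v hv => hM1 n v hv)
  have hnt : Nontrivial (R.V ⧸ M) := Submodule.Quotient.nontrivial_iff.2 hM2
  have hσ : σ.IsIrreducible := by
    refine mk_irr σ hnt fun T hT => ?_
    have h1 : M ≤ T.comap M.mkQ := by
      intro v hv
      rw [Submodule.mem_comap, Submodule.mkQ_apply, (Submodule.Quotient.mk_eq_zero M).2 hv]
      exact T.zero_mem
    rcases hM3 (T.comap M.mkQ) h1 (fun n v hv => hT n _ hv) with h2 | h2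
    · left
      rw [← Submodule.map_comap_eq_of_surjective (Submodule.mkQ_surjective M) T, h2,
        Submodule.mkQ_map_self]
    · right
      rw [← Submodule.map_comap_eq_of_surjective (Submodule.mkQ_surjective M) T, h2,
        Submodule.map_top, Submodule.range_mkQ]
  refine ⟨⟨R.V ⧸ M, σ, hσ⟩, M.mkQ, ?_, fun n v => rfl⟩
  intro h
  apply hM2
  rw [← Submodule.ker_mkQ M, h, LinearMap.ker_zero]

/-- every irreducible representation of `N` is a quotient of an irreducible representation of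
`G` -/
lemma ex_over [Finite G] (S : IR F N) : ∃ R : IR F G, Ov S R := by
  -- the right translations
  let τ : Representation F G (G → S.V) :=
    { toFun := fun h => LinearMap.funLeft F S.V (fun g => g * h)
      map_one' := by
        ext f g
        simp [LinearMap.funLeft_apply]
      map_mul' := fun a b => by
        ext f g
        simp [LinearMap.funLeft_apply, mul_assoc] }
  have hτ : ∀ h f g, τ h f g = f (g * h) := fun h f g => rfl
  let S0 : Submodule F (G → S.V) :=
    { carrier := {f | ∀ (n : N) (g : G), f (n * g) = S.ρ n (f g)}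
      zero_mem' := fun n g => by simp
      add_mem' := by
        intro a b ha hb n g
        rw [Pi.add_apply, Pi.add_apply, ha, hb, map_add]
      smul_mem' := by
        intro c a ha n g
        rw [Pi.smul_apply, Pi.smul_apply, ha, map_smul] }
  have hS0 : ∀ f, f ∈ S0 ↔ ∀ (n : N) (g : G), f (n * g) = S.ρ n (f g) := fun f => Iff.rfl
  have hinv : ∀ g, ∀ v ∈ S0, τ g v ∈ S0 := by
    intro g v hv n h
    rw [hτ, hτ, mul_assoc]
    exact hv n (h * g)
  have hne : S0 ≠ ⊥ := by
    have hN := nontriv S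
    obtain ⟨w, hw⟩ := exists_ne (0 : S.V)
    intro h
    have h1 : (fun g : G => if hg : g ∈ N then S.ρ ⟨g, hg⟩ w else 0) ∈ S0 := by
      intro n g
      by_cases hg : g ∈ N
      · have hng : (n : G) * g ∈ N := N.mul_mem n.2 hg
        simp only [dif_pos hg, dif_pos hng]
        rw [← Module.End.mul_apply, ← map_mul]
        rfl
      · have hng : ¬ (n : G) * g ∈ N := fun hc => hg (by
          have := N.mul_mem (N.inv_mem n.2) hc
          rwa [inv_mul_cancel_left] at this)
        simp only [dif_neg hg, dif_neg hng, map_zero]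
    rw [h, Submodule.mem_bot] at h1
    have h2 := congrFun h1 1
    rw [dif_pos N.one_mem] at h2
    apply hw
    have h3 : (⟨1, N.one_mem⟩ : N) = 1 := rfl
    rw [h3, map_one, Module.End.one_apply] at h2
    exact h2
  obtain ⟨V, hV1, hV2, hV3, hV4⟩ := min_sub τ S0 hinv hne
  let ρ : Representation F G V := τ.subrepresentation V (fun g v hv => hV2 g v hv)
  have hρ : ρ.IsIrreducible := by
    refine mk_irr ρ (Submodule.nontrivial_iff_ne_bot.2 hV3) fun T hT => ?_
    rcases hV4 (T.map V.subtype) (Submodule.map_subtype_le V T) (by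
      rintro g _ ⟨v, hv, rfl⟩
      exact ⟨ρ g v, hT g v hv, rfl⟩) with h1 | h1
    · left
      refine Submodule.map_injective_of_injective (Submodule.injective_subtype V) ?_
      rw [h1, Submodule.map_bot]
    · right
      rw [eq_top_iff]
      intro v _
      have h2 : (v : G → S.V) ∈ T.map V.subtype := by
        rw [h1]
        exact v.2
      obtain ⟨w, hw, hw2⟩ := h2
      have h3 : w = v := Subtype.ext hw2
      rw [← h3]
      exact hw
  refine ⟨⟨V, ρ, hρ⟩, (LinearMap.proj (1 : G)) ∘ₗ V.subtype, ?_, ?_⟩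
  · intro h
    apply hV3
    rw [Submodule.eq_bot_iff]
    intro f hf
    funext g
    have h1 := LinearMap.congr_fun h (⟨τ g f, hV2 g f hf⟩ : V)
    have h2 : (τ g f) 1 = 0 := h1
    rw [hτ, one_mul] at h2
    exact h2
  · intro n v
    show τ n v 1 = S.ρ n ((v : G → S.V) 1)
    rw [hτ, one_mul]
    have h1 := hV1 v.2 n 1
    rw [mul_one] at h1
    exact h1

lemma ov_alg (S : IR F N) (R : IR F G) (u : R.V →ₗ[F] S.V)
    (h : ∀ (n : N) (v : R.V), u (R.ρ n v) = S.ρ n (u v)) (x : F[N]) (v : R.V) :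
    u (Representation.asAlgebraHom (R.ρ.comp N.subtype) x v) = S.ρ.asAlgebraHom x (u v) :=
  alg_inter (R.ρ.comp N.subtype) S.ρ u (fun g v => h g v) x v

/-- twisted characters -/
def twc [N.Normal] (g : G) (θ : N → F) : N → F :=
  fun n => θ ((MulAut.conjNormal g⁻¹ : MulAut N) n)

lemma tw_char [N.Normal] (g : G) (S : IR F N) : (tw g S).ρ.character = twc g S.ρ.character := rfl

lemma twc_mul [N.Normal] (g : G) (n : N) (S : IR F N) :
    twc (g * n) S.ρ.character = twc g S.ρ.character := by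
  funext x
  unfold twc
  have h1 : (MulAut.conjNormal (g * (n : G))⁻¹ : MulAut N) x =
      n⁻¹ * (MulAut.conjNormal g⁻¹ : MulAut N) x * (n⁻¹)⁻¹ := by
    ext
    simp only [MulAut.conjNormal_apply, Subgroup.coe_mul, Subgroup.coe_inv]
    group
  rw [h1]
  exact Representation.char_conj _ _ _

/-- all quotients of `R` over `N` are conjugate -/
lemma conj_of_ov [IsAlgClosed F] [Finite G] [N.Normal] (S S' : IR F N) (R : IR F G)
    (h : Ov S R) (h' : Ov S' R) : ∃ g : G, S'.ρ.character = twc g S.ρ.character := by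
  cases nonempty_fintype G
  by_contra hcon
  push Not at hcon
  obtain ⟨u, hu, hu2⟩ := h
  obtain ⟨u', hu', hu2'⟩ := h'
  obtain ⟨x, hx1, hx2⟩ := many S' (fun g : G => tw g S) Finset.univ
    (fun g _ => by rw [tw_char]; exact (hcon g).symm)
  have h1 : ∀ v, Representation.asAlgebraHom (R.ρ.comp N.subtype) x v = 0 := by
    intro v
    refine kill_zero S R u hu _ fun g => ?_
    have h2 : ∀ (n : N) (w : R.V), (u ∘ₗ R.ρ g) ((R.ρ.comp N.subtype) n w) =
        (tw g⁻¹ S).ρ n ((u ∘ₗ R.ρ g) w) := by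
      intro n w
      show u (R.ρ g (R.ρ n w)) = S.ρ ((MulAut.conjNormal (g⁻¹)⁻¹ : MulAut N) n) (u (R.ρ g w))
      rw [← hu2, inv_inv, MulAut.conjNormal_apply, ← Module.End.mul_apply, ← map_mul,
        ← Module.End.mul_apply, ← map_mul, inv_mul_cancel_right]
    have h3 := alg_inter (R.ρ.comp N.subtype) (tw g⁻¹ S).ρ (u ∘ₗ R.ρ g) h2 x v
    rw [hx2 g⁻¹ (Finset.mem_univ _), LinearMap.zero_apply] at h3
    exact h3
  apply hu'
  ext v
  have h2 := ov_alg S' R u' hu2' x v
  rw [h1, hx1, map_zero, Module.End.one_apply] at h2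
  rw [← h2, LinearMap.zero_apply]

/-- at most `[G : N]` irreducible quotients -/
lemma card_under [IsAlgClosed F] [Finite G] [N.Normal] (R : IR F G) (T : Finset (N → F))
    (hT : ∀ θ ∈ T, ∃ S : IR F N, θ = S.ρ.character ∧ Ov S R) : T.card ≤ N.index := by
  rcases T.eq_empty_or_nonempty with rfl | ⟨θ0, h0⟩
  · simp
  obtain ⟨S, -, hS⟩ := hT θ0 h0
  cases nonempty_fintype (G ⧸ N)
  have h1 : T ⊆ Finset.univ.image (fun i : G ⧸ N => twc i.out S.ρ.character) := by
    intro θ hθ
    obtain ⟨S', rfl, hS'⟩ := hT θ hθ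
    obtain ⟨g, hg⟩ := conj_of_ov S S' R hS hS'
    rw [Finset.mem_image]
    refine ⟨(g : G ⧸ N), Finset.mem_univ _, ?_⟩
    obtain ⟨n, hn⟩ := QuotientGroup.mk_out_eq_mul N g
    rw [hn, twc_mul, hg]
  refine (Finset.card_le_card h1).trans (Finset.card_image_le.trans ?_)
  rw [Finset.card_univ, ← Nat.card_eq_fintype_card]
  exact le_of_eq rfl

/-- at most `[G : N]` irreducible representations of `G` over one of `N` -/
lemma card_over [IsAlgClosed F] [Finite G] [N.Normal] (S : IR F N) {ι : Type} [Fintype ι]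
    (R : ι → IR F G) (hinj : Function.Injective fun i => (R i).ρ.character)
    (hO : ∀ i, Ov S (R i)) : Fintype.card ι ≤ N.index := by
  cases nonempty_fintype (G ⧸ N)
  choose u hu hu2 using hO
  let Φ : (∀ i, (R i).V) →ₗ[F] (G ⧸ N → S.V) :=
    LinearMap.pi fun q => ∑ i, (u i) ∘ₗ ((R i).ρ (q.out)⁻¹) ∘ₗ (LinearMap.proj i)
  have hΦ : ∀ v q, Φ v q = ∑ i, u i ((R i).ρ (q.out)⁻¹ (v i)) := by
    intro v q
    simp only [Φ, LinearMap.pi_apply, LinearMap.sum_apply, LinearMap.comp_apply,
      LinearMap.proj_apply]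
  have hker : ∀ v, Φ v = 0 → ∀ g, ∑ i, u i ((R i).ρ g (v i)) = 0 := by
    intro v hv g
    obtain ⟨n, hn⟩ := QuotientGroup.mk_out_eq_mul N g⁻¹
    have h1 := congrFun hv (g⁻¹ : G)
    rw [hΦ, hn] at h1
    have h2 : ∀ i, u i ((R i).ρ (g⁻¹ * (n : G))⁻¹ (v i)) = S.ρ n⁻¹ (u i ((R i).ρ g (v i))) := by
      intro i
      rw [← hu2 i, ← Module.End.mul_apply, ← map_mul]
      congr 3
      rw [mul_inv_rev, inv_inv, Subgroup.coe_inv]
    rw [Finset.sum_congr rfl fun i _ => h2 i, ← map_sum] at h1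
    have h3 := congrArg (S.ρ n) h1
    rw [← Module.End.mul_apply, ← map_mul, mul_inv_cancel, map_one, Module.End.one_apply] at h3
    rw [h3]
    simp
  have hker2 : ∀ v, Φ v = 0 → ∀ (x : F[G]) g,
      ∑ i, u i ((R i).ρ g ((R i).ρ.asAlgebraHom x (v i))) = 0 := by
    intro v hv x g
    induction x using MonoidAlgebra.induction_linear with
    | zero => simp
    | add x y hx hy =>
      have h1 : ∀ i, u i ((R i).ρ g ((R i).ρ.asAlgebraHom (x + y) (v i))) =
          u i ((R i).ρ g ((R i).ρ.asAlgebraHom x (v i))) +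
            u i ((R i).ρ g ((R i).ρ.asAlgebraHom y (v i))) := by
        intro i
        rw [map_add, LinearMap.add_apply, map_add, map_add]
      rw [Finset.sum_congr rfl fun i _ => h1 i, Finset.sum_add_distrib, hx, hy, add_zero]
    | single h a =>
      have h1 : ∀ i, u i ((R i).ρ g ((R i).ρ.asAlgebraHom (MonoidAlgebra.single h a) (v i))) =
          a • u i ((R i).ρ (g * h) (v i)) := by
        intro i
        rw [asAlgebraHom_single, LinearMap.smul_apply, map_smul, map_smul, map_mul,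
          Module.End.mul_apply]
      rw [Finset.sum_congr rfl fun i _ => h1 i, ← Finset.smul_sum, hker v hv, smul_zero]
  have hinjΦ : Function.Injective Φ := by
    rw [← LinearMap.ker_eq_bot, LinearMap.ker_eq_bot']
    intro v hv
    funext j
    obtain ⟨x, hx1, hx2⟩ := many (R j) R (Finset.univ.erase j) (fun i hi h =>
      (Finset.ne_of_mem_erase hi) (hinj h))
    refine kill_zero S (R j) (u j) (hu j) _ fun g => ?_
    have h1 := hker2 v hv x g
    rw [Finset.sum_eq_single j] at h1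
    · rw [hx1, Module.End.one_apply] at h1
      exact h1
    · intro i _ hij
      rw [hx2 i (Finset.mem_erase.2 ⟨hij, Finset.mem_univ _⟩), LinearMap.zero_apply, map_zero,
        map_zero]
    · intro h
      exact absurd (Finset.mem_univ _) h
  have h1 := LinearMap.finrank_le_finrank_of_injective hinjΦ
  rw [Module.finrank_pi_fintype, Module.finrank_pi_fintype, Finset.sum_const, Finset.card_univ,
    smul_eq_mul] at h1
  have h2 : ∀ i, Module.finrank F S.V ≤ Module.finrank F (R i).V := fun i =>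
    LinearMap.finrank_le_finrank_of_surjective (ov_surj S (R i) (u i) (hu i) (hu2 i))
  have h3 : Fintype.card ι * Module.finrank F S.V ≤ Fintype.card (G ⧸ N) * Module.finrank F S.V := by
    refine le_trans ?_ h1
    rw [← Finset.card_univ, ← smul_eq_mul, ← Finset.sum_const]
    exact Finset.sum_le_sum fun i _ => h2 i
  have hN := nontriv S
  have h4 := Nat.le_of_mul_le_mul_right h3 Module.finrank_pos
  rw [← Nat.card_eq_fintype_card (α := G ⧸ N)] at h4
  exact h4

/-- the scalars agree -/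
lemma scal [Fintype G] [Fintype N] (S : IR F N) (R : IR F G) (hO : Ov S R) (z : G → F)
    (hz : InZ N z) (c d : F) (h1 : opT R.ρ z = c • 1) (h2 : opT S.ρ (fun x : N => z x) = d • 1) :
    c = d := by
  obtain ⟨u, hu, hu2⟩ := hO
  obtain ⟨v, hv⟩ : ∃ v, u v ≠ 0 := by
    by_contra h
    push Not at h
    exact hu (LinearMap.ext h)
  have h3 : u (opT R.ρ z v) = opT S.ρ (fun x : N => z x) (u v) := by
    unfold opT
    rw [LinearMap.sum_apply, LinearMap.sum_apply, map_sum]
    refine (Fintype.sum_of_injective (fun n : N => (n : G)) Subtype.val_injective _ _ ?_ ?_).symm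
    · intro g hg
      have h4 : g ∉ N := fun h => hg ⟨⟨g, h⟩, rfl⟩
      rw [hz.supp g h4, zero_smul, LinearMap.zero_apply, map_zero]
    · intro n
      rw [LinearMap.smul_apply, LinearMap.smul_apply, map_smul, hu2]
  rw [h1, h2, LinearMap.smul_apply, LinearMap.smul_apply, Module.End.one_apply,
    Module.End.one_apply, map_smul, ← sub_eq_zero, ← sub_smul] at h3
  rcases smul_eq_zero.1 h3 with h4 | h4
  · exact sub_eq_zero.1 h4
  · exact absurd h4 hv

end rel

section final

variable {F : Type} [Field F] [IsAlgClosed F] {G : Type} [Group G] [Finite G] {N : Subgroup G}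

/-- the relation on characters -/
def Und (θ : N → F) (φ : G → F) : Prop :=
  ∃ (S : IR F N) (R : IR F G), θ = S.ρ.character ∧ φ = R.ρ.character ∧ Ov S R

lemma ov_congr (S : IR F N) (R R' : IR F G) (h : R.ρ.character = R'.ρ.character)
    (hO : Ov S R) : Ov S R' := by
  obtain ⟨e, he⟩ := iso R' R h.symm
  obtain ⟨u, hu, hu2⟩ := hO
  refine ⟨u ∘ₗ (e : R'.V →ₗ[F] R.V), ?_, fun n v => ?_⟩
  · intro h0
    apply hu
    ext v
    have := LinearMap.congr_fun h0 (e.symm v)
    simpa using this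
  · show u (e (R'.ρ n v)) = S.ρ n (u (e v))
    rw [he, hu2]

lemma ov_congr' (S S' : IR F N) (R : IR F G) (h : S.ρ.character = S'.ρ.character)
    (hO : Ov S R) : Ov S' R := by
  obtain ⟨e, he⟩ := iso S S' h
  obtain ⟨u, hu, hu2⟩ := hO
  refine ⟨(e : S.V →ₗ[F] S'.V) ∘ₗ u, ?_, fun n v => ?_⟩
  · intro h0
    apply hu
    ext v
    have := LinearMap.congr_fun h0 v
    simpa using this
  · show e (u (R.ρ n v)) = S'.ρ n (e (u v))
    rw [hu2, he]

lemma und_scal (z : G → F) (hz : InZ N z) (c : F) (θ : N → F) (φ : G → F) (h : Und θ φ) :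
    (∀ x : N, ∑ᶠ g : N, z g * θ (g * x) = c * θ x) ↔
      ∀ x : G, ∑ᶠ g : G, z g * φ (g * x) = c * φ x := by
  cases nonempty_fintype G
  cases nonempty_fintype N
  obtain ⟨S, R, rfl, rfl, hO⟩ := h
  have hz1 : IsClassFun z := fun g x => hz.conj g x
  have hz2 : IsClassFun (fun x : N => z x) := fun g x => hz.conj g x
  rw [cond R hz1 c, cond S hz2 c]
  obtain ⟨l, hl⟩ := opT_scalar R.ρ R.irr hz1
  obtain ⟨m, hm⟩ := opT_scalar S.ρ S.irr hz2
  have h1 := scal S R hO z hz l m hl hm
  rw [hl, hm, h1]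
  have hR := nontriv R
  have hS := nontriv S
  have e1 : ∀ {V : Type} [AddCommGroup V] [Module F V] [Nontrivial V] (a b : F),
      a • (1 : Module.End F V) = b • 1 ↔ a = b := by
    intro V _ _ _ a b
    constructor
    · intro h
      by_contra hne'
      have h4 : (a - b) • (1 : Module.End F V) = 0 := by rw [sub_smul, h, sub_self]
      rcases smul_eq_zero.1 h4 with h5 | h5
      · exact hne' (sub_eq_zero.1 h5)
      · exact one_ne_zero h5
    · rintro rfl
      rfl
  rw [e1, e1]

end final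

/-- counting with a relation -/
lemma count {α β : Type} [Finite α] [Finite β] (f : α → β) (m : ℕ)
    (h : ∀ b : β, ∀ T : Finset α, (∀ a ∈ T, f a = b) → T.card ≤ m) :
    Nat.card α ≤ m * Nat.card β := by
  cases nonempty_fintype α
  cases nonempty_fintype β
  rw [Nat.card_eq_fintype_card, Nat.card_eq_fintype_card, ← Finset.card_univ, ← Finset.card_univ]
  refine (Finset.card_le_mul_card_image (s := (Finset.univ : Finset α)) (f := f) m ?_).trans ?_
  · intro b _
    exact h b _ fun a ha => (Finset.mem_filter.1 ha).2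
  · exact Nat.mul_le_mul_left _ (Finset.card_le_card (Finset.subset_univ _))

end Pool.Agent.J4.H3.PG.LC

namespace Pool.Agent.J4.H3.PG

open Pool.Agent.Y63.NV LC

/-- LC -/
theorem t_LC : S_LC := by
  intro F _ _ G _ _ N _ z c hz
  have hfinG : Finite {φ : G → F // IsIrrTrace φ} :=
    Set.finite_coe_iff.2 (Pool.Agent.Y914.NV.irr F G).1
  have hfinN : Finite {φ : N → F // IsIrrTrace φ} :=
    Set.finite_coe_iff.2 (Pool.Agent.Y914.NV.irr F N).1
  have hA : Finite {φ : G → F // IsIrrTrace φ ∧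
      ∀ x : G, ∑ᶠ g : G, z g * φ (g * x) = c * φ x} :=
    Finite.of_injective (β := {φ : G → F // IsIrrTrace φ}) (fun φ => ⟨φ.1, φ.2.1⟩)
      fun a b h => Subtype.ext (Subtype.mk.inj h)
  have hB : Finite {φ : N → F // IsIrrTrace φ ∧
      ∀ x : N, ∑ᶠ g : N, z g * φ (g * x) = c * φ x} :=
    Finite.of_injective (β := {φ : N → F // IsIrrTrace φ}) (fun φ => ⟨φ.1, φ.2.1⟩)
      fun a b h => Subtype.ext (Subtype.mk.inj h)
  unfold LL
  constructor
  · have key : ∀ θ : {φ : N → F // IsIrrTrace φ ∧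
        ∀ x : N, ∑ᶠ g : N, z g * φ (g * x) = c * φ x},
        ∃ φ : {φ : G → F // IsIrrTrace φ ∧
          ∀ x : G, ∑ᶠ g : G, z g * φ (g * x) = c * φ x}, Und θ.1 φ.1 := by
      rintro ⟨θ, h1, h2⟩
      obtain ⟨S, rfl⟩ := (isIrrTrace_iff _).1 h1
      obtain ⟨R, hR⟩ := ex_over S
      have hU : Und S.ρ.character R.ρ.character := ⟨S, R, rfl, rfl, hR⟩
      exact ⟨⟨R.ρ.character, (isIrrTrace_iff _).2 ⟨R, rfl⟩, (und_scal z hz c _ _ hU).1 h2⟩, hU⟩
    choose f hf using key
    refine count f N.index fun φ T hT => ?_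
    obtain ⟨R, hR⟩ := (isIrrTrace_iff _).1 φ.2.1
    have h1 := card_under R (T.image fun θ => θ.1) (by
      intro θ hθ
      obtain ⟨θ', hθ', rfl⟩ := Finset.mem_image.1 hθ
      obtain ⟨S, R', e1, e2, hO⟩ := hf θ'
      refine ⟨S, e1, ov_congr S R' R ?_ hO⟩
      rw [← e2, hT θ' hθ', hR])
    rwa [Finset.card_image_of_injective _ Subtype.val_injective] at h1
  · have key : ∀ φ : {φ : G → F // IsIrrTrace φ ∧
          ∀ x : G, ∑ᶠ g : G, z g * φ (g * x) = c * φ x},
        ∃ θ : {φ : N → F // IsIrrTrace φ ∧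
          ∀ x : N, ∑ᶠ g : N, z g * φ (g * x) = c * φ x}, Und θ.1 φ.1 := by
      rintro ⟨φ, h1, h2⟩
      obtain ⟨R, rfl⟩ := (isIrrTrace_iff _).1 h1
      obtain ⟨S, hS⟩ := ex_under N R
      have hU : Und S.ρ.character R.ρ.character := ⟨S, R, rfl, rfl, hS⟩
      exact ⟨⟨S.ρ.character, (isIrrTrace_iff _).2 ⟨S, rfl⟩, (und_scal z hz c _ _ hU).2 h2⟩, hU⟩
    choose f hf using key
    refine count f N.index fun θ T hT => ?_
    obtain ⟨S, hS⟩ := (isIrrTrace_iff _).1 θ.2.1
    have h2 : ∀ φ : T, ∃ R : IR F G, φ.1.1 = R.ρ.character ∧ Ov S R := by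
      rintro ⟨φ, hφ⟩
      obtain ⟨S', R, e1, e2, hO⟩ := hf φ
      refine ⟨R, e2, ov_congr' S' S R ?_ hO⟩
      rw [← e1, hT φ hφ, hS]
    choose R hR1 hR2 using h2
    have h3 := card_over S R (by
      intro a b hab
      have h4 : a.1.1 = b.1.1 := by
        rw [hR1 a, hR1 b]
        exact hab
      exact Subtype.ext (Subtype.ext h4)) hR2
    rwa [Fintype.card_coe] at h3

end Pool.Agent.J4.H3.PG
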