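import Pool.Agent.J4.H3.PG.IrrProd
import Pool.Agent.J4.H3.PG.D1

/-!
# LPI: irreducible characters over `F` of direct powers
-/

set_option autoImplicit false

open scoped BigOperators

namespace Pool.Agent.J4.H3.PG

open Pool.Agent.Y63.NV Pool.Agent.J4.H3.PG.IP

theorem t_LPI : S_LPI := by
  intro F _ _ G _ _ ι _
  obtain ⟨h1, h2⟩ := nfold (F := F) ι (fun _ => G)
  let f : (ι → Lt F G) → Lt F (ι → G) := fun φ =>
    ⟨fun x => ∏ i, (φ i).1 (x i), h1 (fun i => (φ i).1) fun i => (φ i).2⟩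
  have hf : Function.Bijective f := by
    constructor
    · intro φ φ' h
      have h3 : (fun i => (φ i).1) = fun i => (φ' i).1 :=
        prod_inj (J := fun _ : ι => G) (fun i => (φ i).2) (fun i => (φ' i).2)
          fun x => congrFun (congrArg Subtype.val h) x
      funext i
      exact Subtype.ext (congrFun h3 i)
    · rintro ⟨ψ, hψ⟩
      obtain ⟨χ, hχ, h3⟩ := h2 ψ hψ
      exact ⟨fun i => ⟨χ i, hχ i⟩, Subtype.ext h3.symm⟩
  exact ⟨Equiv.ofBijective f hf, fun φ => rfl⟩

end Pool.Agent.J4.H3.PG
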