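import Pool.Agent.J4.H3.PG.D0

set_option autoImplicit false

open scoped Classical BigOperators

noncomputable section

namespace Pool.Agent.J4.H3.PG

theorem t_MC : S_MC := by
  intro p _ G _ _ hG
  have hp : p.Prime := Fact.out
  have hfinA : Finite (Abelianization G) := inferInstance
  obtain ⟨e⟩ := CommGroup.monoidHom_mulEquiv_of_hasEnoughRootsOfUnity (Abelianization G) ℂ
  have hE : (G →* ℂˣ) ≃ Abelianization G := (Abelianization.lift (G := G) (A := ℂˣ)).trans e.toEquiv
  have hfin : Finite (G →* ℂˣ) := Finite.of_equiv _ hE.symm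
  refine ⟨hfin, Nat.card_congr hE, fun hdvd => ?_⟩
  obtain ⟨χ, hχ⟩ := exists_prime_orderOf_dvd_card' p hdvd
  have hχp : χ ^ p = 1 := by rw [← hχ]; exact pow_orderOf_eq_one χ
  have hχ1 : χ ≠ 1 := by
    rintro rfl
    rw [orderOf_one] at hχ
    exact hp.one_lt.ne hχ
  have h1 : χ.range ≤ rootsOfUnity p ℂ := by
    rintro _ ⟨g, rfl⟩
    rw [mem_rootsOfUnity]
    have := DFunLike.congr_fun hχp g
    rwa [MonoidHom.pow_apply, MonoidHom.one_apply] at this
  have : NeZero p := ⟨hp.ne_zero⟩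
  have h2 : Nat.card χ.range ∣ p := by
    have := Subgroup.card_dvd_of_le h1
    rwa [HasEnoughRootsOfUnity.natCard_rootsOfUnity ℂ p] at this
  have h3 : Nat.card χ.range ≠ 1 := by
    intro h
    apply hχ1
    rw [Subgroup.card_eq_one] at h
    ext g
    have h4 : χ g ∈ χ.range := ⟨g, rfl⟩
    rw [h, Subgroup.mem_bot] at h4
    rw [h4]
    rfl
  have h4 : Nat.card χ.range = p := ((Nat.dvd_prime hp).1 h2).resolve_left h3
  exact hG χ.ker inferInstance (by rw [Subgroup.index_ker, h4])

end Pool.Agent.J4.H3.PG
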