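import Pool.Agent.J4.H3.PG.D1
import Pool.Agent.Y63.NV.Infl

/-!
# The subgroups of a direct power which belong to weights, and their normalisers
-/

set_option autoImplicit false

open scoped Classical BigOperators

noncomputable section

namespace Pool.Agent.J4.H3.PG

open Pool.Agent.Y63.NV

namespace NPI

theorem norm_pi {G : Type} [Group G] {ι : Type} (Q : ι → Subgroup G) :
    Subgroup.normalizer ((Subgroup.pi Set.univ Q : Subgroup (ι → G)) : Set (ι → G)) =
      Subgroup.pi Set.univ (fun i => Subgroup.normalizer (Q i : Set G)) := by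
  ext x
  rw [Subgroup.mem_normalizer_iff, Subgroup.mem_pi]
  constructor
  · intro h i _
    rw [Subgroup.mem_normalizer_iff]
    intro y
    have h1 := h (Pi.mulSingle i y)
    rw [Subgroup.mulSingle_mem_pi] at h1
    have h2 : x * Pi.mulSingle i y * x⁻¹ = Pi.mulSingle i (x i * y * (x i)⁻¹) := by
      funext j
      by_cases hj : j = i
      · subst hj; simp
      · simp [Pi.mulSingle_eq_of_ne hj]
    rw [h2, Subgroup.mulSingle_mem_pi] at h1
    simpa using h1
  · intro h y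
    rw [Subgroup.mem_pi, Subgroup.mem_pi]
    refine forall_congr' fun i => forall_congr' fun hi => ?_
    exact Subgroup.mem_normalizer_iff.1 (h i hi) (y i)

theorem pgroup_pi {p : ℕ} {G : Type} [Group G] {ι : Type} [Fintype ι] (Q : ι → Subgroup G)
    (h : ∀ i, IsPGroup p (Q i)) : IsPGroup p (Subgroup.pi Set.univ Q : Subgroup (ι → G)) := by
  rintro ⟨x, hx⟩
  rw [Subgroup.mem_pi] at hx
  have h1 : ∀ i, ∃ k : ℕ, x i ^ p ^ k = 1 := fun i => by
    obtain ⟨k, hk⟩ := h i ⟨x i, hx i (Set.mem_univ i)⟩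
    exact ⟨k, by simpa [Subtype.ext_iff] using hk⟩
  choose k hk using h1
  refine ⟨∑ i, k i, ?_⟩
  rw [Subtype.ext_iff]
  funext i
  have h2 : k i ≤ ∑ i, k i := Finset.single_le_sum (f := k) (fun _ _ => Nat.zero_le _)
    (Finset.mem_univ i)
  obtain ⟨m, hm⟩ := Nat.exists_eq_add_of_le h2
  show x i ^ p ^ (∑ i, k i) = 1
  rw [hm, pow_add, pow_mul, hk, one_pow]

end NPI

theorem t_NPI : S_NPI := by
  intro p _ G _ _ ι _
  refine ⟨fun Q => NPI.norm_pi Q, fun Q χ hQ hχ => ?_⟩
  obtain ⟨Qt, hQt⟩ : ∃ Qt : Subgroup (ι → G), Qt =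
      Subgroup.pi Set.univ (fun i => Q.map (Pi.evalMonoidHom (fun _ : ι => G) i)) := ⟨_, rfl⟩
  rw [← hQt]
  have hle : Q ≤ Qt := by
    rw [hQt]
    intro x hx
    rw [Subgroup.mem_pi]
    exact fun i _ => Subgroup.mem_map_of_mem _ hx
  have hpg : IsPGroup p Qt := by
    rw [hQt]
    exact NPI.pgroup_pi _ fun i => hQ.map _
  have hN : Subgroup.normalizer (Q : Set (ι → G)) ≤ Subgroup.normalizer (Qt : Set (ι → G)) := by
    intro x hx
    rw [hQt, NPI.norm_pi, Subgroup.mem_pi]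
    intro i _
    rw [Subgroup.mem_normalizer_iff] at hx ⊢
    have h1 : ∀ z : ι → G, (∀ y, y ∈ Q → z * y * z⁻¹ ∈ Q) → ∀ y : G,
        y ∈ Q.map (Pi.evalMonoidHom (fun _ : ι => G) i) →
          z i * y * (z i)⁻¹ ∈ Q.map (Pi.evalMonoidHom (fun _ : ι => G) i) := by
      rintro z hz _ ⟨y, hy, rfl⟩
      exact ⟨z * y * z⁻¹, hz y hy, rfl⟩
    intro y
    refine ⟨h1 x (fun y hy => (hx y).1 hy) y, fun hy => ?_⟩
    have h2 := h1 x⁻¹ (fun y hy => (hx _).2 (by simpa [mul_assoc] using hy)) _ hy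
    simpa [mul_assoc] using h2
  by_contra hne
  have hlt : Q < Qt := lt_of_le_of_ne hle hne
  -- the normaliser of `Q` in `Qt` is larger than `Q`
  have : Group.IsNilpotent Qt := hpg.isNilpotent
  have hnc : NormalizerCondition Qt := Group.normalizerCondition_of_isNilpotent
  have h1 : Q.subgroupOf Qt < ⊤ := by
    rw [lt_top_iff_ne_top]
    intro h
    rw [Subgroup.subgroupOf_eq_top] at h
    exact absurd (le_antisymm hle h) hne
  obtain ⟨-, g, hg1, hg2⟩ := SetLike.lt_iff_le_and_exists.1 (hnc _ h1)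
  have hgN : (g : ι → G) ∈ Subgroup.normalizer (Q : Set (ι → G)) := by
    rw [Subgroup.mem_normalizer_iff] at hg1 ⊢
    intro y
    constructor
    · intro hy
      have := (hg1 ⟨y, hle hy⟩).1 (by rw [Subgroup.mem_subgroupOf]; exact hy)
      rw [Subgroup.mem_subgroupOf] at this
      simpa using this
    · intro hy
      have hyt : y ∈ Qt := by
        have h3 := Qt.mul_mem (Qt.mul_mem (Qt.inv_mem g.2) (hle hy)) g.2
        have h4 : (g : ι → G)⁻¹ * (g * y * (g : ι → G)⁻¹) * g = y := by group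
        rwa [h4] at h3
      have := (hg1 ⟨y, hyt⟩).2 (by rw [Subgroup.mem_subgroupOf]; simpa using hy)
      rwa [Subgroup.mem_subgroupOf] at this
  -- the normal `p`-subgroup `Qt ⊓ N(Q)` of `N(Q)`
  obtain ⟨J, hJ⟩ : ∃ J : Subgroup (ι → G), J = Subgroup.normalizer (Q : Set (ι → G)) := ⟨_, rfl⟩
  have hQn : (Q.subgroupOf (Subgroup.normalizer (Q : Set (ι → G)))).Normal :=
    Subgroup.normal_in_normalizer
  have hQtn : (Qt.subgroupOf (Subgroup.normalizer (Q : Set (ι → G)))).Normal := by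
    refine ⟨fun n hn a => ?_⟩
    rw [Subgroup.mem_subgroupOf] at hn ⊢
    have := (Subgroup.mem_normalizer_iff.1 (hN a.2) (n : ι → G)).1 hn
    simpa using this
  have hQtp : IsPGroup p (Qt.subgroupOf (Subgroup.normalizer (Q : Set (ι → G)))) := by
    rintro ⟨x, hx⟩
    rw [Subgroup.mem_subgroupOf] at hx
    obtain ⟨k, hk⟩ := hpg ⟨x, hx⟩
    refine ⟨k, ?_⟩
    rw [Subtype.ext_iff, Subtype.ext_iff]
    simpa [Subtype.ext_iff] using hk
  refine wtn p _ _ _ χ hQn hQtn hQtp ?_ hχ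
  refine lt_of_le_of_ne (fun x hx => ?_) fun h => ?_
  · rw [Subgroup.mem_subgroupOf] at hx ⊢
    exact hle hx
  · have h5 : (⟨g, hgN⟩ : Subgroup.normalizer (Q : Set (ι → G))) ∈
        Qt.subgroupOf (Subgroup.normalizer (Q : Set (ι → G))) := by
      rw [Subgroup.mem_subgroupOf]
      exact g.2
    rw [← h, Subgroup.mem_subgroupOf] at h5
    apply hg2
    rw [Subgroup.mem_subgroupOf]
    exact h5

end Pool.Agent.J4.H3.PG
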