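import Pool.Agent.J4.H3.PG.T_BAS

/-!
# SB: sums over blocks
-/

set_option autoImplicit false

open scoped Classical BigOperators

noncomputable section

namespace Pool.Agent.J4.H3.PG

open Pool.Agent.Y63.NV
open Pool.Agent.Y63.AWC (IsIrreducibleCharacter pSubgroupSetoid)

theorem t_SB : S_SB := by
  intro p _ F _ _ _ red G _ _ K hK
  obtain ⟨hL, hW, b1, b2, -, -, b3, b4⟩ := t_BAS p F red G
  have hfL : Fintype (Lt F G) := Fintype.ofFinite _
  have hfW : Fintype (Wt p G) := Fintype.ofFinite _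
  let S : Finset (CFn G F → F) := (Finset.univ.image fun φ : Lt F G => lb φ) ∪
    Finset.univ.image fun w : Wt p G => wb red w
  have hSL : ∀ φ : Lt F G, lb φ ∈ S := fun φ =>
    Finset.mem_union_left _ (Finset.mem_image_of_mem _ (Finset.mem_univ _))
  have hSW : ∀ w : Wt p G, wb red w ∈ S := fun w =>
    Finset.mem_union_right _ (Finset.mem_image_of_mem _ (Finset.mem_univ _))
  have hS : ∀ β ∈ S, ∃ B : (G → F) → F, IsBlock B ∧ bb B = β := by
    intro β hβ
    rcases Finset.mem_union.1 hβ with h | h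
    · obtain ⟨φ, -, rfl⟩ := Finset.mem_image.1 h
      exact ⟨lv φ, b1 φ, rfl⟩
    · obtain ⟨w, -, rfl⟩ := Finset.mem_image.1 h
      exact ⟨wv red w, b2 w, rfl⟩
  have eL : ∀ (z : G → F) (c : F) (hz : IsClassFun z), (LL z c : ℝ) =
      ∑ β ∈ S, if β ⟨z, hz⟩ = c then (Nat.card {φ : Lt F G // lb φ = β} : ℝ) else 0 := by
    intro z c hz
    have h1 := B48B.card_fib (fun φ : Lt F G => lb φ) S hSL (fun β => β ⟨z, hz⟩ = c)
    have h2 : LL z c = Nat.card {φ : Lt F G // lb φ ⟨z, hz⟩ = c} := (b3 z c hz).1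
    rw [h2, h1]
    push_cast
    rfl
  have eW : ∀ (z : G → F) (c : F) (hz : IsClassFun z), (WW p red z c : ℝ) =
      ∑ β ∈ S, if β ⟨z, hz⟩ = c then (Nat.card {w : Wt p G // wb red w = β} : ℝ) else 0 := by
    intro z c hz
    have h1 := B48B.card_fib (fun w : Wt p G => wb red w) S hSW (fun β => β ⟨z, hz⟩ = c)
    have h2 : WW p red z c = Nat.card {w : Wt p G // wb red w ⟨z, hz⟩ = c} := (b3 z c hz).2
    rw [h2, h1]
    push_cast
    rfl
  have hG : (0 : ℝ) ≤ Nat.card G := Nat.cast_nonneg _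
  constructor
  · intro h z c hz
    rw [eL z c hz, eW z c hz, Finset.mul_sum, Finset.mul_sum]
    refine Finset.sum_le_sum fun β hβ => ?_
    by_cases hc : β ⟨z, hz⟩ = c
    · rw [if_pos hc, if_pos hc]
      obtain ⟨B, hB, rfl⟩ := hS β hβ
      obtain ⟨h1, h2⟩ := b4 B
      rw [← h1, ← h2]
      push_cast
      have h3 := mul_le_mul_of_nonneg_left (h B hB) hG
      linarith
    · rw [if_neg hc, if_neg hc, mul_zero, mul_zero]
  · intro h z c hz
    rw [eL z c hz, eW z c hz, Finset.mul_sum, Finset.mul_sum]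
    refine Finset.sum_le_sum fun β hβ => ?_
    by_cases hc : β ⟨z, hz⟩ = c
    · rw [if_pos hc, if_pos hc]
      obtain ⟨B, hB, rfl⟩ := hS β hβ
      obtain ⟨h1, h2⟩ := b4 B
      rw [← h1, ← h2]
      push_cast
      have h3 := mul_le_mul_of_nonneg_left (h B hB) hG
      linarith
    · rw [if_neg hc, if_neg hc, mul_zero, mul_zero]

end Pool.Agent.J4.H3.PG
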