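import Pool.Agent.J4.H3.PG.D3

/-!
# Classes of `p`-groups: SYL1 and SYL2
-/

set_option autoImplicit false

open scoped Classical BigOperators

noncomputable section

namespace Pool.Agent.J4.H3.PG

namespace Syl

/-- an abstract `p`-group which embeds into `G` lies in `C` -/
theorem emb {p : ℕ} [Fact p.Prime] {C : (P : Type) → Group P → Prop} (hC : ClsP C)
    {G : Type} [Group G] (hG : SylIn p C G) {R : Type} [hR : Group R] (hp : IsPGroup p R)
    (f : R →* G) (hf : Function.Injective f) : C R hR := by
  have h1 : IsPGroup p f.range := hp.of_equiv (MonoidHom.ofInjective hf)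
  obtain ⟨S, hS⟩ := h1.exists_le_sylow
  have h2 : C S inferInstance := hG S
  have h3 := hC.sub S inferInstance h2 (f.range.subgroupOf S)
  have e1 : f.range.subgroupOf (S : Subgroup G) ≃* f.range := Subgroup.subgroupOfEquivOfLe hS
  exact hC.iso _ R _ hR h3 ⟨e1.trans (MonoidHom.ofInjective hf).symm⟩

/-- quotients -/
theorem quo {p : ℕ} [Fact p.Prime] {C : (P : Type) → Group P → Prop} (hC : ClsP C)
    {G : Type} [Group G] (hG : SylIn p C G) (M : Subgroup G) [M.Normal] (hM : IsPGroup p M) :
    SylIn p C (G ⧸ M) := by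
  intro S
  let P : Subgroup G := (S : Subgroup (G ⧸ M)).comap (QuotientGroup.mk' M)
  have hP : IsPGroup p P := by
    refine S.isPGroup'.comap_of_ker_isPGroup (QuotientGroup.mk' M) ?_
    rw [QuotientGroup.ker_mk']
    exact hM
  have h1 : C P inferInstance := emb hC hG hP P.subtype P.subtype_injective
  let f : P →* (S : Subgroup (G ⧸ M)) :=
    ((QuotientGroup.mk' M).comp P.subtype).codRestrict (S : Subgroup (G ⧸ M)) (fun x => x.2)
  have hf : Function.Surjective f := by
    rintro ⟨y, hy⟩
    obtain ⟨g, rfl⟩ := QuotientGroup.mk'_surjective M y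
    exact ⟨⟨g, hy⟩, Subtype.ext rfl⟩
  have h2 := hC.quot P inferInstance h1 f.ker inferInstance
  exact hC.iso _ _ _ _ h2 ⟨QuotientGroup.quotientKerEquivOfSurjective f hf⟩

end Syl

theorem t_SYL1 : S_SYL1 := by
  intro p _ C hC
  refine ⟨?_, ?_, ?_⟩
  · rintro G H _ _ hG ⟨e⟩ S
    refine Syl.emb hC hG S.isPGroup' (e.symm.toMonoidHom.comp (S : Subgroup H).subtype) ?_
    exact e.symm.injective.comp (Subgroup.subtype_injective _)
  · intro G _ hG H S
    refine Syl.emb hC hG S.isPGroup' (H.subtype.comp (S : Subgroup H).subtype) ?_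
    exact H.subtype_injective.comp (Subgroup.subtype_injective _)
  · intro G _ hG M _ hM
    exact Syl.quo hC hG M hM

theorem t_SYL2 : S_SYL2 := by
  intro p hpp C hC G Q _ _ _ _ hQ hG S
  have hS : IsPGroup p S := S.isPGroup'
  -- the right coordinates are trivial
  have hright : ∀ w : S, ((w : (sg G Q).ker) : RegularWreathProduct G Q).right = 1 := by
    intro w
    obtain ⟨k, hk⟩ := hS w
    let r : (S : Subgroup (sg G Q).ker) →* Q :=
      (RegularWreathProduct.rightHom).comp
        (((sg G Q).ker.subtype).comp (S : Subgroup (sg G Q).ker).subtype)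
    have h1 : (r w) ^ p ^ k = 1 := by rw [← map_pow, hk, map_one]
    have h2 : orderOf (r w) ∣ p ^ k := orderOf_dvd_of_pow_eq_one h1
    have h3 : orderOf (r w) ∣ Nat.card Q := orderOf_dvd_natCard _
    have h4 : Nat.Coprime (p ^ k) (Nat.card Q) :=
      ((Nat.Prime.coprime_iff_not_dvd hpp.out).2 hQ).pow_left k
    have h5 : orderOf (r w) = 1 := Nat.eq_one_of_dvd_coprimes h4 h2 h3
    exact orderOf_eq_one_iff.1 h5
  -- the homomorphism to the base group
  let b : (S : Subgroup (sg G Q).ker) →* (Q → G) :=
    { toFun := fun w => ((w : (sg G Q).ker) : RegularWreathProduct G Q).left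
      map_one' := rfl
      map_mul' := by
        intro v w
        have := hright v
        show (((v : (sg G Q).ker) : RegularWreathProduct G Q) *
          ((w : (sg G Q).ker) : RegularWreathProduct G Q)).left = _
        rw [RegularWreathProduct.mul_left, this]
        simp }
  have hb : Function.Injective b := by
    intro v w hvw
    apply Subtype.ext
    apply Subtype.ext
    apply RegularWreathProduct.ext
    · exact hvw
    · rw [hright v, hright w]
  -- the Sylow subgroup of `G`
  obtain ⟨S0⟩ : Nonempty (Sylow p G) := inferInstance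
  have hcoord : ∀ i : Q, ∃ T : Sylow p G, ∀ w : S, b w i ∈ T := by
    intro i
    let bi : (S : Subgroup (sg G Q).ker) →* G := (Pi.evalMonoidHom (fun _ : Q => G) i).comp b
    have h1 : IsPGroup p bi.range := by
      refine hS.of_surjective bi.rangeRestrict bi.rangeRestrict_surjective
    obtain ⟨T, hT⟩ := h1.exists_le_sylow
    exact ⟨T, fun w => hT ⟨w, rfl⟩⟩
  choose T hT using hcoord
  let e : ∀ i : Q, T i ≃* S0 := fun i => Sylow.equiv (T i) S0
  let n := Fintype.card Q
  let q : Fin n ≃ Q := (Fintype.equivFin Q).symm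
  let F : (S : Subgroup (sg G Q).ker) →* (Fin n → S0) :=
    { toFun := fun w j => e (q j) ⟨b w (q j), hT (q j) w⟩
      map_one' := by
        funext j
        have : (⟨b 1 (q j), hT (q j) 1⟩ : T (q j)) = 1 := Subtype.ext (by simp)
        rw [this, map_one]
        rfl
      map_mul' := by
        intro v w
        funext j
        have : (⟨b (v * w) (q j), hT (q j) (v * w)⟩ : T (q j)) =
            ⟨b v (q j), hT (q j) v⟩ * ⟨b w (q j), hT (q j) w⟩ := Subtype.ext (by simp)
        rw [this, map_mul]
        rfl }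
  have hF : Function.Injective F := by
    intro v w hvw
    apply hb
    funext i
    have h1 := congrFun hvw (q.symm i)
    have h2 : e (q (q.symm i)) ⟨b v (q (q.symm i)), hT (q (q.symm i)) v⟩ =
      e (q (q.symm i)) ⟨b w (q (q.symm i)), hT (q (q.symm i)) w⟩ := h1
    have h3 := (e (q (q.symm i))).injective h2
    have h4 : b v (q (q.symm i)) = b w (q (q.symm i)) := congrArg Subtype.val h3
    rwa [Equiv.apply_symm_apply] at h4
  have h1 : C S0 inferInstance := hG S0
  have h2 := hC.pow S0 inferInstance h1 n
  have h3 := hC.sub _ _ h2 F.range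
  exact hC.iso _ _ _ _ h3 ⟨(MonoidHom.ofInjective hF).symm⟩

end Pool.Agent.J4.H3.PG
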