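import Pool.Agent.J4.H3.PG.D0

set_option autoImplicit false

open scoped Classical BigOperators

noncomputable section

namespace Pool.Agent.J4.H3.PG

namespace TW

theorem card_pi {Ω T ι : Type} [Fintype ι] (b : T → Ω) (ω : Ω) :
    Nat.card {t : ι → T // ∀ i, b (t i) = ω} = (Nat.card {t // b t = ω}) ^ (Fintype.card ι) := by
  rw [Nat.card_congr (Equiv.subtypePiEquivPi (p := fun (_ : ι) (t : T) => b t = ω)), Nat.card_fun,
    Nat.card_eq_fintype_card (α := ι)]

end TW

open TW in
theorem t_TW : S_TW := by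
  intro Ω T M _ _ _ a ha1 hamul b β hb p _ F _ _ hpM ι _ _
  -- the stabiliser
  let St : Subgroup M :=
    { carrier := {μ | a μ β = β}
      mul_mem' := fun {x y} hx hy => by
        show a (x * y) β = β
        have hx' : a x β = β := hx
        have hy' : a y β = β := hy
        rw [hamul, hy', hx']
      one_mem' := ha1 β
      inv_mem' := fun {x} hx => by
        show a x⁻¹ β = β
        have hx' : a x β = β := hx
        have h1 := hamul x⁻¹ x β
        rw [inv_mul_cancel, ha1, hx'] at h1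
        exact h1.symm }
  have hSt : Nat.card {μ : M // a μ β = β} = Nat.card St := rfl
  have hM0 : (Nat.card M : F) ≠ 0 := by
    intro h
    exact hpM ((CharP.cast_eq_zero_iff F p _).1 h)
  have hS0 : (Nat.card {μ : M // a μ β = β} : F) ≠ 0 := by
    intro h
    rw [hSt] at h
    exact hpM (((CharP.cast_eq_zero_iff F p _).1 h).trans (Subgroup.card_subgroup_dvd_card St))
  have hfin : Fintype M := Fintype.ofFinite M
  have hsum : ∀ t : ι → T, ∑ᶠ μ : M, ∏ i, (if a μ (b (t i)) = β then (1 : F) else 0) =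
      (Nat.card {μ : M // ∀ i, a μ (b (t i)) = β} : F) := by
    intro t
    rw [finsum_eq_sum_of_fintype, Nat.card_eq_fintype_card, Fintype.card_subtype]
    have h1 : ∀ μ : M, ∏ i, (if a μ (b (t i)) = β then (1 : F) else 0) =
        if ∀ i, a μ (b (t i)) = β then 1 else 0 := by
      intro μ
      rw [Finset.prod_ite_zero]
      simp
    rw [Finset.sum_congr rfl fun μ _ => h1 μ, Finset.sum_boole]
  have hN : ∀ t : ι → T, (∃ μ, ∀ i, a μ (b (t i)) = β) →
      Nat.card {μ : M // ∀ i, a μ (b (t i)) = β} = Nat.card {μ : M // a μ β = β} := by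
    rintro t ⟨μ₀, hμ₀⟩
    refine Nat.card_congr
      { toFun := fun μ => ⟨μ.1 * μ₀⁻¹, ?_⟩
        invFun := fun ν => ⟨ν.1 * μ₀, ?_⟩
        left_inv := fun μ => Subtype.ext (by simp)
        right_inv := fun ν => Subtype.ext (by simp) }
    · obtain ⟨i⟩ := (inferInstance : Nonempty ι)
      have h1 := μ.2 i
      have h2 := hamul (μ.1 * μ₀⁻¹) μ₀ (b (t i))
      rw [inv_mul_cancel_right, h1, hμ₀ i] at h2
      exact h2.symm
    · intro i
      rw [hamul, hμ₀ i]
      exact ν.2
  have hC : ∀ t : ι → T, ((Nat.card M : F)⁻¹ * ∑ᶠ μ : M, ∏ i,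
      (if a μ (b (t i)) = β then (1 : F) else 0) =
        (Nat.card M : F)⁻¹ * Nat.card {μ : M // a μ β = β}) ↔ ∃ μ, ∀ i, a μ (b (t i)) = β := by
    intro t
    rw [mul_right_inj' (inv_ne_zero hM0), hsum]
    constructor
    · intro h
      by_contra hcon
      have h1 : IsEmpty {μ : M // ∀ i, a μ (b (t i)) = β} := ⟨fun μ => hcon ⟨μ.1, μ.2⟩⟩
      rw [Nat.card_of_isEmpty, Nat.cast_zero] at h
      exact hS0 h.symm
    · intro h
      rw [hN t h]
  constructor
  · rw [← card_pi b β]
    refine Nat.card_le_card_of_injective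
      (fun t => ⟨t.1, (hC t.1).2 ⟨1, fun i => by rw [ha1]; exact t.2 i⟩⟩) ?_
    intro t t' h
    exact Subtype.ext (by simpa using h)
  · have h1 : Nat.card (Σ μ : M, {t : ι → T // ∀ i, b (t i) = a μ β}) =
        Nat.card M * (Nat.card {t // b t = β}) ^ (Fintype.card ι) := by
      rw [Nat.card_sigma]
      have : ∀ μ : M, Nat.card {t : ι → T // ∀ i, b (t i) = a μ β} =
          (Nat.card {t // b t = β}) ^ (Fintype.card ι) := fun μ => by rw [card_pi b (a μ β), hb]
      simp only [this]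
      rw [Finset.sum_const, Finset.card_univ, smul_eq_mul, Nat.card_eq_fintype_card (α := M)]
    rw [← h1]
    have h2 : ∀ t : {t : ι → T // (Nat.card M : F)⁻¹ * ∑ᶠ μ : M, ∏ i,
        (if a μ (b (t i)) = β then (1 : F) else 0) =
        (Nat.card M : F)⁻¹ * Nat.card {μ : M // a μ β = β}}, ∃ μ, ∀ i, b (t.1 i) = a μ β := by
      intro t
      obtain ⟨μ, hμ⟩ := (hC t.1).1 t.2
      refine ⟨μ⁻¹, fun i => ?_⟩
      have h5 := hamul μ⁻¹ μ (b (t.1 i))
      rw [inv_mul_cancel, ha1, hμ i] at h5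
      exact h5
    choose m hm using h2
    refine Nat.card_le_card_of_injective (fun t => (⟨m t, ⟨t.1, hm t⟩⟩ :
      Σ μ : M, {t : ι → T // ∀ i, b (t i) = a μ β})) ?_
    intro t t' h
    apply Subtype.ext
    have h3 : ∀ (x y : Σ μ : M, {t : ι → T // ∀ i, b (t i) = a μ β}), x = y → x.2.1 = y.2.1 := by
      rintro x y rfl
      rfl
    exact h3 _ _ h

end Pool.Agent.J4.H3.PG
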