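import Pool.Agent.J4.H3.PG.T_ACT

/-!
# Twisting by linear characters: irreducible characters over `F` and weights
-/

set_option autoImplicit false
set_option linter.unusedSectionVars false

open scoped Classical BigOperators

noncomputable section

namespace Pool.Agent.J4.H3.PG

open Pool.Agent.Y63.NV
open Pool.Agent.Y63.AWC (IsIrreducibleCharacter pSubgroupSetoid)

namespace Tw

lemma inv2 {G : Type} [Group G] (μ : G →* ℂˣ) : μ⁻¹⁻¹ = μ := by
  apply MonoidHom.ext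
  intro x
  simp

lemma inv_mul1 {G : Type} [Group G] (μ : G →* ℂˣ) : μ⁻¹ * μ = 1 := by
  apply MonoidHom.ext
  intro x
  simp

section L

variable {F G : Type} [Field F] [Group G] [Finite G] (red : integralClosure ℤ ℂ →+* F)

/-- the twisted irreducible character -/
def twL (μ : G →* ℂˣ) (φ : Lt F G) : Lt F G :=
  ⟨fun x => (rm red μ x : F) * φ.1 x, irr_tw (rm red μ) φ.2⟩

lemma twL_inv (μ : G →* ℂˣ) (φ : Lt F G) : twL red μ⁻¹ (twL red μ φ) = φ := by
  apply Subtype.ext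
  funext x
  change (rm red μ⁻¹ x : F) * ((rm red μ x : F) * φ.1 x) = φ.1 x
  rw [rm_val, rm_val, ← mul_assoc, ← rc_mul]
  have h : μ⁻¹ x * μ x = 1 := by rw [MonoidHom.inv_apply, inv_mul_cancel]
  rw [h, rc_one, one_mul]

lemma twL_inv' (μ : G →* ℂˣ) (φ : Lt F G) : twL red μ (twL red μ⁻¹ φ) = φ := by
  have h := twL_inv red μ⁻¹ φ
  rwa [inv2] at h

lemma lb_tw (hlv : ∀ (φ : Lt F G) (f : G → F), IsClassFun f → ∀ x : G,
      ∑ᶠ g : G, f g * φ.1 (g * x) = lv φ f * φ.1 x)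
    (hne : ∀ φ : Lt F G, ∃ x : G, φ.1 x ≠ 0) (μ : G →* ℂˣ) (φ : Lt F G) :
    lb (twL red μ φ) = act red μ (lb φ) := by
  funext f
  rw [act_eq]
  change lv (twL red μ φ) f.1 = lv φ (twf red μ f.1)
  obtain ⟨x, hx⟩ := hne (twL red μ φ)
  apply mul_right_cancel₀ hx
  rw [← hlv (twL red μ φ) f.1 f.2 x]
  change ∑ᶠ g : G, f.1 g * ((rm red μ (g * x) : F) * φ.1 (g * x)) =
    lv φ (twf red μ f.1) * ((rm red μ x : F) * φ.1 x)
  have h1 := hlv φ (twf red μ f.1) (twf_cf red μ f.1 f.2) x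
  calc _ = ∑ᶠ g : G, (rm red μ x : F) * (twf red μ f.1 g * φ.1 (g * x)) := by
        refine finsum_congr fun g => ?_
        unfold twf
        rw [map_mul, Units.val_mul, rm_val red μ g]
        ring
    _ = (rm red μ x : F) * ∑ᶠ g : G, (twf red μ f.1 g * φ.1 (g * x)) := by
        simp only [← smul_eq_mul (rm red μ x : F)]
        rw [smul_finsum' _ (Set.toFinite _)]
    _ = _ := by
        rw [h1]
        ring

end L

/-- a bijection between the fibres -/
lemma card_fib {X Y : Type} (b : X → Y) (T T' : X → X) (h1 : ∀ x, T' (T x) = x)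
    (h2 : ∀ x, T (T' x) = x) (A A' : Y → Y) (hA : ∀ x, b (T x) = A (b x))
    (hA' : ∀ x, b (T' x) = A' (b x)) (hAA : ∀ y, A' (A y) = y) (β : Y) :
    Nat.card {x // b x = A β} = Nat.card {x // b x = β} := by
  refine Nat.card_congr
    { toFun := fun x => ⟨T' x.1, by rw [hA', x.2, hAA]⟩
      invFun := fun x => ⟨T x.1, by rw [hA, x.2]⟩
      left_inv := fun x => Subtype.ext (h2 x.1)
      right_inv := fun x => Subtype.ext (h1 x.1) }

section W

variable {p : ℕ} {F G : Type} [Field F] [Group G] [Finite G] (red : integralClosure ℤ ℂ →+* F)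

/-- linear characters are trivial on `p`-subgroups -/
lemma triv [Fact p.Prime] (hp : ¬ p ∣ Nat.card (G →* ℂˣ)) (μ : G →* ℂˣ) (Q : Subgroup G)
    (hQ : IsPGroup p Q) (q : G) (hq : q ∈ Q) : μ q = 1 := by
  have hfin : Finite (G →* ℂˣ) := by
    by_contra h
    rw [not_finite_iff_infinite] at h
    apply hp
    rw [Nat.card_eq_zero_of_infinite]
    exact dvd_zero p
  have h1 : μ q ^ Nat.card (G →* ℂˣ) = 1 := by
    rw [← MonoidHom.pow_apply, pow_card_eq_one', MonoidHom.one_apply]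
  obtain ⟨k, hk⟩ := hQ ⟨q, hq⟩
  have h2 : μ q ^ (p ^ k) = 1 := by
    rw [← map_pow]
    have h3 : q ^ p ^ k = 1 := by
      have := congrArg Subtype.val hk
      simpa using this
    rw [h3, map_one]
  have hc : Nat.Coprime (p ^ k) (Nat.card (G →* ℂˣ)) :=
    Nat.Coprime.pow_left k ((Nat.Prime.coprime_iff_not_dvd (Fact.out)).2 hp)
  have h4 := orderOf_dvd_of_pow_eq_one h1
  have h5 := orderOf_dvd_of_pow_eq_one h2
  have h6 : orderOf (μ q) ∣ 1 := by
    have := Nat.dvd_gcd h5 h4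
    rwa [hc] at this
  exact orderOf_eq_one_iff.1 (Nat.dvd_one.1 h6)

/-- the restriction of a linear character -/
def rs (μ : G →* ℂˣ) (J : Subgroup G) : J →* ℂˣ := μ.comp J.subtype

/-- the twisted weight -/
def twW [Fact p.Prime] (hp : ¬ p ∣ Nat.card (G →* ℂˣ)) (μ : G →* ℂˣ) (w : Wt p G) : Wt p G where
  Q := w.Q
  pg := w.pg
  g := w.g
  χ := fun x => (μ x : ℂ) * w.χ x
  wt := by
    refine ⟨?_, ?_, ?_⟩
    · exact irr_tw (F := ℂ) (rs μ _) w.wt.irr
    · intro q hq x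
      have h1 := w.wt.inflated q hq x
      rw [h1]
      have h2 : μ (q : G) = 1 := triv hp μ w.Q w.pg q (Subgroup.mem_subgroupOf.1 hq)
      rw [Subgroup.coe_mul, map_mul, h2, one_mul]
    · obtain ⟨n, h1, h2⟩ := w.wt.defectZero
      refine ⟨n, ?_, h2⟩
      rw [Subgroup.coe_one, map_one, Units.val_one, one_mul, h1]

lemma twW_inv [Fact p.Prime] (hp : ¬ p ∣ Nat.card (G →* ℂˣ)) (μ : G →* ℂˣ) (w : Wt p G) :
    twW hp μ⁻¹ (twW hp μ w) = w := by
  obtain ⟨Q, pg, g, χ, wt⟩ := w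
  unfold twW
  simp only [Wt.mk.injEq, heq_eq_eq, true_and]
  funext x
  rw [MonoidHom.inv_apply, ← mul_assoc, Units.inv_mul, one_mul]

lemma twW_inv' [Fact p.Prime] (hp : ¬ p ∣ Nat.card (G →* ℂˣ)) (μ : G →* ℂˣ) (w : Wt p G) :
    twW hp μ (twW hp μ⁻¹ w) = w := by
  have h := twW_inv hp μ⁻¹ w
  rwa [inv2] at h

lemma wb_tw [Fact p.Prime] (hp : ¬ p ∣ Nat.card (G →* ℂˣ)) (μ : G →* ℂˣ) (w : Wt p G) :
    wb red (twW hp μ w) = act red μ (wb red w) := by
  funext f
  rw [act_eq]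
  change centralValue red (fun x : Subgroup.normalizer (w.Q : Set G) => (μ x : ℂ) * w.χ x)
    (fun x => f.1 x) =
    centralValue red w.χ (fun x => twf red μ f.1 x)
  unfold centralValue
  refine finsum_congr fun C => ?_
  have h1 : (Nat.card C.carrier : ℂ) * ((μ (C.out : Subgroup.normalizer (w.Q : Set G)) : ℂ) *
      w.χ C.out) / ((μ ((1 : Subgroup.normalizer (w.Q : Set G)) : G) : ℂ) * w.χ 1) =
      ((Nat.card C.carrier : ℂ) * w.χ C.out / w.χ 1) *
        ((rs μ (Subgroup.normalizer (w.Q : Set G))) C.out : ℂ) := by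
    have h2 : (rs μ (Subgroup.normalizer (w.Q : Set G))) C.out = μ (C.out : G) := rfl
    rw [h2, Subgroup.coe_one, map_one, Units.val_one, one_mul]
    ring
  rw [h1, redC_mul_unit]
  unfold twf
  have h2 : (rs μ (Subgroup.normalizer (w.Q : Set G))) C.out = μ (C.out : G) := rfl
  rw [h2]
  ring

end W

end Tw

theorem t_TWL (h : S_BAS) : S_TWL := by
  intro p _ F _ _ _ red G _ _ μ β
  obtain ⟨-, -, -, -, h5, h6, -, -⟩ := h p F red G
  refine Tw.card_fib lb (Tw.twL red μ) (Tw.twL red μ⁻¹) (Tw.twL_inv red μ) (Tw.twL_inv' red μ)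
    (act red μ) (act red μ⁻¹) (Tw.lb_tw red h5 h6 μ) (Tw.lb_tw red h5 h6 μ⁻¹) (fun y => ?_) β
  rw [← Tw.act_mul, Tw.inv_mul1, Tw.act_one]

theorem t_TWW : S_TWW := by
  intro p _ F _ _ _ red G _ _ μ β hp
  refine Tw.card_fib (wb red) (Tw.twW hp μ) (Tw.twW hp μ⁻¹) (Tw.twW_inv hp μ) (Tw.twW_inv' hp μ)
    (act red μ) (act red μ⁻¹) (Tw.wb_tw red hp μ) (Tw.wb_tw red hp μ⁻¹) (fun y => ?_) β
  rw [← Tw.act_mul, Tw.inv_mul1, Tw.act_one]

end Pool.Agent.J4.H3.PG
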