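import Pool.Agent.J4.H3.PG.D1
import Pool.Agent.Y624.NV.Trn

/-!
# The weight conjecture and perfect groups: piece WC
-/

set_option autoImplicit false
set_option linter.unusedSectionVars false

open scoped BigOperators Classical

noncomputable section

namespace Pool.Agent.J4.H3.PG.WC

open Pool.Agent.Y63.NV (InZ IsWt Nw IsClassFun)
open Pool.Agent.Y624.NV (nw_congr norm_fwd norm_bwd)

variable {p : ℕ} [hp : Fact p.Prime] {G : Type} [Group G] [Finite G]

theorem le_of_pgroup (N : Subgroup G) [N.Normal] (hpN : ¬ p ∣ N.index) {Q : Subgroup G}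
    (hQ : IsPGroup p Q) : Q ≤ N := by
  rw [← Subgroup.relIndex_eq_one]
  have h1 : N.relIndex Q ∣ N.index := Subgroup.relIndex_dvd_index_of_normal N Q
  obtain ⟨n, hn⟩ := hQ.index (N.subgroupOf Q)
  have h2 : N.relIndex Q = p ^ n := hn
  rcases Nat.eq_zero_or_pos n with h | h
  · rw [h2, h, pow_zero]
  · exfalso
    apply hpN
    rw [h2] at h1
    exact (dvd_pow_self p h.ne').trans h1

/-- the normalizer in `N` -/
def nE (N Q : Subgroup G) (hQ : Q ≤ N) :
    ↥(Subgroup.normalizer ((Q.subgroupOf N : Subgroup N) : Set N)) ≃*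
      ↥(N.subgroupOf (Subgroup.normalizer (Q : Set G))) where
  toFun x := ⟨⟨x.1.1, norm_bwd hQ x.2⟩, Subgroup.mem_subgroupOf.2 x.1.2⟩
  invFun y := ⟨⟨y.1.1, Subgroup.mem_subgroupOf.1 y.2⟩, norm_fwd _ y.1.2⟩
  left_inv _ := rfl
  right_inv _ := rfl
  map_mul' _ _ := rfl

/-- the term of a subgroup -/
def fW (p : ℕ) {F : Type} [Field F] (red : integralClosure ℤ ℂ →+* F) {G : Type} [Group G]
    (z : G → F) (c : F) (Q : Subgroup G) : ℕ :=
  Nat.card (Subgroup.normalizer (Q : Set G)) *
    Nw p red (Q.subgroupOf (Subgroup.normalizer (Q : Set G))) (fun x => z x) c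

theorem WW_eq {F : Type} [Field F] (red : integralClosure ℤ ℂ →+* F) (z : G → F) (c : F)
    [Fintype {Q : Subgroup G // IsPGroup p Q}] :
    WW p red z c = ∑ Q : {Q : Subgroup G // IsPGroup p Q}, fW p red z c Q.1 := by
  have : Fintype (Subgroup G) := Fintype.ofFinite _
  unfold WW
  rw [finsum_eq_sum_of_fintype, ← Finset.sum_filter]
  exact Finset.sum_subtype (p := fun Q : Subgroup G => IsPGroup p Q)
    (Finset.univ.filter fun Q : Subgroup G => IsPGroup p Q) (by simp) (fW p red z c)

/-- the `p`-subgroups of `N` and of `G` -/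
def pE (N : Subgroup G) [N.Normal] (hpN : ¬ p ∣ N.index) :
    {Q : Subgroup G // IsPGroup p Q} ≃ {R : Subgroup N // IsPGroup p R} where
  toFun Q := ⟨Q.1.subgroupOf N,
    Q.2.of_equiv (Subgroup.subgroupOfEquivOfLe (le_of_pgroup N hpN Q.2)).symm⟩
  invFun R := ⟨R.1.map N.subtype, R.2.map N.subtype⟩
  left_inv Q := by
    apply Subtype.ext
    exact Subgroup.map_subgroupOf_eq_of_le (le_of_pgroup N hpN Q.2)
  right_inv R := by
    apply Subtype.ext
    ext x
    simp only [Subgroup.mem_subgroupOf, Subgroup.mem_map]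
    constructor
    · rintro ⟨y, hy, hxy⟩
      have : y = x := Subtype.ext hxy
      exact this ▸ hy
    · intro hx
      exact ⟨x, hx, rfl⟩

theorem term (hDC : S_DC) {F : Type} [Field F] [IsAlgClosed F] [CharP F p]
    (red : integralClosure ℤ ℂ →+* F) (N : Subgroup G) [hN : N.Normal] (z : G → F) (c : F)
    (hpN : ¬ p ∣ N.index) (hz : InZ N z) (Q : Subgroup G) (hQ : IsPGroup p Q) :
    fW p red (fun x : N => z x) c (Q.subgroupOf N) ≤ N.index ^ 2 * fW p red z c Q ∧
      fW p red z c Q ≤ N.index ^ 2 * fW p red (fun x : N => z x) c (Q.subgroupOf N) := by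
  have hQN := le_of_pgroup N hpN hQ
  set K := Subgroup.normalizer (Q : Set G) with hK
  have hQK : Q ≤ K := Subgroup.le_normalizer
  set I : Subgroup K := N.subgroupOf K with hI
  have : I.Normal := hN.subgroupOf K
  have hQn : (Q.subgroupOf K).Normal := Subgroup.normal_in_normalizer
  have hidx : I.index ∣ N.index := Subgroup.relIndex_dvd_index_of_normal N K
  have hidx' : I.index ≤ N.index :=
    Nat.le_of_dvd (Nat.pos_of_ne_zero Subgroup.index_ne_zero_of_finite) hidx
  have hQI : Q.subgroupOf K ≤ I := by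
    intro x hx
    exact Subgroup.mem_subgroupOf.2 (hQN (Subgroup.mem_subgroupOf.1 hx))
  have hQp : IsPGroup p (Q.subgroupOf K) := hQ.of_equiv (Subgroup.subgroupOfEquivOfLe hQK).symm
  have hzI : InZ I (fun x : K => z x) := by
    refine ⟨fun g x => hz.conj (g : G) (x : G), fun x hx => hz.supp _ fun h => hx ?_⟩
    exact Subgroup.mem_subgroupOf.2 h
  obtain ⟨h1, h2⟩ := hDC p F red K I (Q.subgroupOf K) (fun x : K => z x) c
    (fun h => hpN (h.trans hidx)) hQI hQp hzI
  have h3 : Nw p red ((Q.subgroupOf N).subgroupOf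
      (Subgroup.normalizer ((Q.subgroupOf N : Subgroup N) : Set N)))
      (fun x => z ((x : N) : G)) c =
      Nw p red ((Q.subgroupOf K).subgroupOf I) (fun x : I => z ((x : K) : G)) c := by
    refine nw_congr p red (nE N Q hQN) (Q := (Q.subgroupOf N).subgroupOf
      (Subgroup.normalizer ((Q.subgroupOf N : Subgroup N) : Set N)))
      (Q' := (Q.subgroupOf K).subgroupOf I)
      (f := fun x => z ((x : N) : G)) (f' := fun x : I => z ((x : K) : G))
      (fun x => ?_) (fun x => rfl) ?_ c
    · simp only [Subgroup.mem_subgroupOf]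
      rfl
    · intro g x
      exact hz.conj ((g : K) : G) ((x : K) : G)
  have h4 : Nat.card (Subgroup.normalizer ((Q.subgroupOf N : Subgroup N) : Set N)) = Nat.card I :=
    Nat.card_congr (nE N Q hQN).toEquiv
  have h5 : Nat.card K = Nat.card I * I.index := I.card_mul_index.symm
  set A := Nw p red (Q.subgroupOf K) (fun x : K => z x) c with hA
  set A' := Nw p red ((Q.subgroupOf K).subgroupOf I) (fun x : I => z ((x : K) : G)) c with hA'
  have e1 : fW p red (fun x : N => z x) c (Q.subgroupOf N) = Nat.card I * A' := by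
    unfold fW
    rw [h4]
    congr 1
  have e2 : fW p red z c Q = Nat.card I * I.index * A := by
    unfold fW
    rw [← hK, h5]
  have hpos : 0 < I.index := Nat.pos_of_ne_zero Subgroup.index_ne_zero_of_finite
  rw [e1, e2]
  constructor
  · calc Nat.card I * A' ≤ Nat.card I * (I.index * A) := Nat.mul_le_mul_left _ h1
      _ = 1 * (Nat.card I * I.index * A) := by ring
      _ ≤ N.index ^ 2 * (Nat.card I * I.index * A) := by
        apply Nat.mul_le_mul_right
        exact Nat.one_le_pow _ _ (lt_of_lt_of_le hpos hidx')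
  · calc Nat.card I * I.index * A ≤ Nat.card I * I.index * (I.index * A') :=
        Nat.mul_le_mul_left _ h2
      _ = I.index ^ 2 * (Nat.card I * A') := by ring
      _ ≤ N.index ^ 2 * (Nat.card I * A') := by
        apply Nat.mul_le_mul_right
        exact Nat.pow_le_pow_left hidx' 2

end Pool.Agent.J4.H3.PG.WC

open Pool.Agent.J4.H3.PG.WC in
/-- **WC** -/
theorem Pool.Agent.J4.H3.PG.t_WC (h : Pool.Agent.J4.H3.PG.S_DC) : Pool.Agent.J4.H3.PG.S_WC := by
  intro p hp F _ _ _ red G _ _ N hN z c hpN hz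
  have : Fintype {Q : Subgroup G // IsPGroup p Q} := Fintype.ofFinite _
  have : Fintype {R : Subgroup N // IsPGroup p R} := Fintype.ofFinite _
  rw [WW_eq, WW_eq, ← Equiv.sum_comp (pE N hpN), Finset.mul_sum, Finset.mul_sum]
  constructor
  · exact Finset.sum_le_sum fun Q _ => (term h red N z c hpN hz Q.1 Q.2).1
  · exact Finset.sum_le_sum fun Q _ => (term h red N z c hpN hz Q.1 Q.2).2
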