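import Pool.Agent.J4.H3.PG.D1
import Pool.Agent.Y63.NV.Infl
import Pool.Agent.Y624.NV.Trn
import Pool.Agent.Y63.AWC.Deg

/-!
# Weights of direct powers
-/

set_option autoImplicit false

open scoped Classical BigOperators

noncomputable section

namespace Pool.Agent.J4.H3.PG

open Pool.Agent.Y63.NV
open Pool.Agent.Y63.AWC (IsIrreducibleCharacter)

namespace WPI

/-! ### Degrees -/

/-- the bound for the degree of an inflated irreducible character -/
theorem deg_le (p : ℕ) {J : Type} [Group J] [Finite J] (Q : Subgroup J) [Q.Normal]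
    {χ : J → ℂ} (h : IsIrreducibleCharacter χ) (hi : ∀ q ∈ Q, ∀ x : J, χ (q * x) = χ x) {n : ℕ}
    (hn : χ 1 = (n : ℂ)) :
    n.factorization p + (Nat.card Q).factorization p ≤ (Nat.card J).factorization p := by
  obtain ⟨χ', h1, h2⟩ := deflate Q h hi
  have : Fintype (J ⧸ Q) := Fintype.ofFinite _
  have h3 : χ' 1 = (n : ℂ) := by
    rw [← hn, h2 1]
    rfl
  have h4 : n ∣ Nat.card (J ⧸ Q) := Pool.Agent.Y63.AWC.deg_dvd h1 h3
  have hcard := Subgroup.card_eq_card_quotient_mul_card_subgroup Q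
  have h0 : 0 < Nat.card (J ⧸ Q) := Nat.card_pos
  have h0' : 0 < Nat.card Q := Nat.card_pos
  have h5 := (Nat.factorization_le_iff_dvd (Nat.pos_of_dvd_of_pos h4 h0).ne' h0.ne').2 h4 p
  rw [hcard, Nat.factorization_mul h0.ne' h0'.ne', Finsupp.add_apply]
  omega

theorem deg_nat {J : Type} [Group J] [Finite J] {χ : J → ℂ} (h : IsIrreducibleCharacter χ) :
    ∃ n : ℕ, 0 < n ∧ χ 1 = (n : ℂ) := by
  have : Fintype J := Fintype.ofFinite _
  exact Pool.Agent.Y63.AWC.deg_nat h

section prod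

variable {ι : Type} [Fintype ι] {J : ι → Type} [∀ i, Group (J i)] [∀ i, Finite (J i)]

omit [∀ i, Finite (J i)] in
theorem card_pi' (Q : ∀ i, Subgroup (J i)) :
    Nat.card (Subgroup.pi Set.univ Q) = ∏ i, Nat.card (Q i) := by
  rw [← Nat.card_pi]
  exact Nat.card_congr
    { toFun := fun x i => ⟨x.1 i, x.2 i (Set.mem_univ i)⟩
      invFun := fun y => ⟨fun i => (y i).1, fun i _ => (y i).2⟩
      left_inv := fun _ => rfl
      right_inv := fun _ => rfl }

theorem fac_prod (p : ℕ) (a : ι → ℕ) (ha : ∀ i, a i ≠ 0) :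
    (∏ i, a i).factorization p = ∑ i, (a i).factorization p := by
  rw [Nat.factorization_prod fun i _ => ha i, Finsupp.finsetSum_apply]

theorem card_eqs (p : ℕ) (Q : ∀ i, Subgroup (J i)) :
    (Nat.card (Subgroup.pi Set.univ Q)).factorization p =
      ∑ i, (Nat.card (Q i)).factorization p ∧
    (Nat.card (∀ i, J i)).factorization p = ∑ i, (Nat.card (J i)).factorization p := by
  rw [card_pi', Nat.card_pi]
  exact ⟨fac_prod p _ fun i => Nat.card_pos.ne', fac_prod p _ fun i => Nat.card_pos.ne'⟩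

theorem prod_wt (hC : S_CPI) (p : ℕ) (Q : ∀ i, Subgroup (J i)) (χ : ∀ i, J i → ℂ)
    (h : ∀ i, IsWt p (Q i) (χ i)) :
    IsWt p (Subgroup.pi Set.univ Q) (fun x : ∀ i, J i => ∏ i, χ i (x i)) := by
  refine ⟨(hC ι J).1 χ fun i => (h i).irr, fun q hq x => ?_, ?_⟩
  · refine Finset.prod_congr rfl fun i _ => ?_
    exact (h i).inflated (q i) (hq i (Set.mem_univ i)) (x i)
  · choose n hn1 hn2 using fun i => (h i).defectZero
    have hn0 : ∀ i, n i ≠ 0 := fun i => by
      obtain ⟨m, hm, hm2⟩ := deg_nat (h i).irr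
      rw [hn1 i] at hm2
      have : n i = m := by exact_mod_cast hm2
      omega
    refine ⟨∏ i, n i, ?_, ?_⟩
    · show ∏ i, χ i 1 = _
      push_cast
      exact Finset.prod_congr rfl fun i _ => hn1 i
    · rw [(card_eqs p Q).1, (card_eqs p Q).2, fac_prod p n hn0, ← Finset.sum_add_distrib]
      exact Finset.sum_congr rfl fun i _ => hn2 i

theorem wt_factor (p : ℕ) (Q : ∀ i, Subgroup (J i)) [∀ i, (Q i).Normal]
    (χ : ∀ i, J i → ℂ) (hχ : ∀ i, IsIrreducibleCharacter (χ i))
    (h : IsWt p (Subgroup.pi Set.univ Q) (fun x : ∀ i, J i => ∏ i, χ i (x i))) (i : ι) :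
    IsWt p (Q i) (χ i) := by
  choose n hn0 hn using fun i => deg_nat (hχ i)
  have hinf : ∀ i, ∀ q ∈ Q i, ∀ x : J i, χ i (q * x) = χ i x := by
    intro i q hq x
    have h1 := h.inflated (Pi.mulSingle i q) (by
      rw [Subgroup.mulSingle_mem_pi]
      exact fun _ => hq) (Pi.mulSingle i x)
    rw [← Pi.mulSingle_mul] at h1
    have key : ∀ y : J i, ∏ j, χ j ((Pi.mulSingle i y : ∀ j, J j) j) =
        χ i y * ∏ j ∈ Finset.univ.erase i, χ j 1 := by
      intro y
      rw [← Finset.mul_prod_erase _ _ (Finset.mem_univ i), Pi.mulSingle_eq_same]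
      congr 1
      refine Finset.prod_congr rfl fun j hj => ?_
      rw [Pi.mulSingle_eq_of_ne (Finset.ne_of_mem_erase hj)]
    simp only [key] at h1
    refine mul_right_cancel₀ ?_ h1
    refine Finset.prod_ne_zero_iff.2 fun j _ => ?_
    rw [hn j]
    exact_mod_cast (hn0 j).ne'
  refine ⟨hχ i, hinf i, n i, hn i, ?_⟩
  have hle : ∀ j, (n j).factorization p + (Nat.card (Q j)).factorization p ≤
      (Nat.card (J j)).factorization p := fun j => deg_le p (Q j) (hχ j) (hinf j) (hn j)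
  obtain ⟨m, hm1, hm2⟩ := h.defectZero
  have hmn : m = ∏ j, n j := by
    have h2 : (∏ j, χ j 1 : ℂ) = (m : ℂ) := hm1
    have h3 : (∏ j, χ j 1 : ℂ) = ((∏ j, n j : ℕ) : ℂ) := by
      push_cast
      exact Finset.prod_congr rfl fun j _ => hn j
    exact_mod_cast (h2.symm.trans h3)
  rw [hmn, (card_eqs p Q).1, (card_eqs p Q).2, fac_prod p n fun j => (hn0 j).ne',
    ← Finset.sum_add_distrib] at hm2
  exact (Finset.sum_eq_sum_iff_of_le fun j _ => hle j).1 hm2 i (Finset.mem_univ i)

end prod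

/-! ### Direct powers -/

section pow

variable {G : Type} [Group G] {ι : Type}

/-- the isomorphism of the normaliser of a product with the product of the normalisers -/
def iso (Q : ι → Subgroup G)
    (h : Subgroup.normalizer ((Subgroup.pi Set.univ Q : Subgroup (ι → G)) : Set (ι → G)) =
      Subgroup.pi Set.univ (fun i => Subgroup.normalizer (Q i : Set G))) :
    Subgroup.normalizer ((Subgroup.pi Set.univ Q : Subgroup (ι → G)) : Set (ι → G)) ≃*
      (∀ i, Subgroup.normalizer (Q i : Set G)) where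
  toFun x i := ⟨x.1 i, (h.le x.2) i (Set.mem_univ i)⟩
  invFun y := ⟨fun i => (y i).1, h.ge (fun i _ => (y i).2)⟩
  left_inv _ := rfl
  right_inv _ := rfl
  map_mul' _ _ := rfl

theorem pi_pg [Fintype ι] {p : ℕ} (Q : ι → Subgroup G) (h : ∀ i, IsPGroup p (Q i)) :
    IsPGroup p (Subgroup.pi Set.univ Q : Subgroup (ι → G)) := by
  intro x
  choose k hk using fun i => h i ⟨x.1 i, x.2 i (Set.mem_univ i)⟩
  refine ⟨∑ i, k i, ?_⟩
  apply Subtype.ext
  funext i
  have h1 : (x.1 i) ^ p ^ k i = 1 := congrArg Subtype.val (hk i)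
  show (x.1 i) ^ p ^ (∑ i, k i) = 1
  rw [← Finset.add_sum_erase _ _ (Finset.mem_univ i), pow_add, pow_mul, h1, one_pow]

theorem iso_mem (Q : ι → Subgroup G)
    (h : Subgroup.normalizer ((Subgroup.pi Set.univ Q : Subgroup (ι → G)) : Set (ι → G)) =
      Subgroup.pi Set.univ (fun i => Subgroup.normalizer (Q i : Set G)))
    (x : Subgroup.normalizer ((Subgroup.pi Set.univ Q : Subgroup (ι → G)) : Set (ι → G))) :
    iso Q h x ∈ Subgroup.pi Set.univ
      (fun i => (Q i).subgroupOf (Subgroup.normalizer (Q i : Set G))) ↔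
    x ∈ (Subgroup.pi Set.univ Q : Subgroup (ι → G)).subgroupOf
      (Subgroup.normalizer ((Subgroup.pi Set.univ Q : Subgroup (ι → G)) : Set (ι → G))) := by
  rw [Subgroup.mem_subgroupOf, Subgroup.mem_pi, Subgroup.mem_pi]
  exact forall₂_congr fun i _ => Subgroup.mem_subgroupOf

theorem pi_inj {Q Q' : ι → Subgroup G}
    (h : (Subgroup.pi Set.univ Q : Subgroup (ι → G)) = Subgroup.pi Set.univ Q') : Q = Q' := by
  funext i
  ext x
  have h1 : ∀ R : ι → Subgroup G, x ∈ R i ↔
      (Pi.mulSingle i x : ι → G) ∈ Subgroup.pi Set.univ R := fun R => by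
    rw [Subgroup.mulSingle_mem_pi]
    exact ⟨fun h _ => h, fun h => h (Set.mem_univ i)⟩
  rw [h1 Q, h1 Q', h]

end pow

end WPI

open WPI in
/-- WPI: weights of direct powers -/
theorem t_WPI (h1 : S_CPI) (h2 : S_CVP) (h3 : S_NPI) : S_WPI := by
  intro p _ F _ _ red G _ _ ι _
  have hN := (h3 p G ι).1
  have hW := (h3 p G ι).2
  set E0 : (ι → Wt p G) → Wt p (ι → G) := fun w =>
    { Q := Subgroup.pi Set.univ (fun i => (w i).Q)
      pg := pi_pg _ fun i => (w i).pg
      g := (iso _ (hN fun i => (w i).Q)).symm fun i => (w i).g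
      χ := fun x => ∏ i, (w i).χ (iso _ (hN fun i => (w i).Q) x i)
      wt := by
        refine Pool.Agent.Y624.NV.isWt_comp (iso _ (hN fun i => (w i).Q))
          (fun x => iso_mem _ (hN fun i => (w i).Q) x)
          (χ := fun y => ∏ i, (w i).χ (y i)) ?_
        exact prod_wt h1 p _ _ fun i => (w i).wt } with hE0
  have hinj : Function.Injective E0 := by
    intro w w' heq
    obtain ⟨Q, pg, g, χ, wt, rfl⟩ : ∃ (Q : ι → Subgroup G) (pg : ∀ i, IsPGroup p (Q i))
        (g : ∀ i, Subgroup.normalizer (Q i : Set G))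
        (χ : ∀ i, Subgroup.normalizer (Q i : Set G) → ℂ)
        (wt : ∀ i, IsWt p ((Q i).subgroupOf (Subgroup.normalizer (Q i : Set G))) (χ i)),
        w = fun i => ⟨Q i, pg i, g i, χ i, wt i⟩ :=
      ⟨fun i => (w i).Q, fun i => (w i).pg, fun i => (w i).g, fun i => (w i).χ,
        fun i => (w i).wt, rfl⟩
    obtain ⟨Q', pg', g', χ', wt', rfl⟩ : ∃ (Q : ι → Subgroup G) (pg : ∀ i, IsPGroup p (Q i))
        (g : ∀ i, Subgroup.normalizer (Q i : Set G))
        (χ : ∀ i, Subgroup.normalizer (Q i : Set G) → ℂ)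
        (wt : ∀ i, IsWt p ((Q i).subgroupOf (Subgroup.normalizer (Q i : Set G))) (χ i)),
        w' = fun i => ⟨Q i, pg i, g i, χ i, wt i⟩ :=
      ⟨fun i => (w' i).Q, fun i => (w' i).pg, fun i => (w' i).g, fun i => (w' i).χ,
        fun i => (w' i).wt, rfl⟩
    have hQ : Q = Q' := pi_inj (congrArg Wt.Q heq)
    subst hQ
    simp only [hE0] at heq
    injection heq with _ hg hχ
    have hg' : g = g' := (iso Q (hN Q)).symm.injective hg
    have hχ' : χ = χ' := by
      have h4 : (fun y : ∀ i, Subgroup.normalizer (Q i : Set G) => ∏ i, χ i (y i)) =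
          fun y => ∏ i, χ' i (y i) := by
        funext y
        have := congrFun hχ ((iso Q (hN Q)).symm y)
        exact this
      obtain ⟨ψ, _, hu⟩ := (h1 ι (fun i => Subgroup.normalizer (Q i : Set G))).2
        (fun y => ∏ i, χ i (y i)) ((h1 ι _).1 χ fun i => (wt i).irr)
      exact (hu χ ⟨fun i => (wt i).irr, rfl⟩).trans (hu χ' ⟨fun i => (wt' i).irr, h4⟩).symm
    subst hg' hχ'
    rfl
  have hsurj : Function.Surjective E0 := by
    rintro ⟨R, pg, g, χ, wt⟩
    have hR := hW R χ pg wt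
    obtain ⟨Q, hQ⟩ : ∃ Q : ι → Subgroup G, R = Subgroup.pi Set.univ Q := ⟨_, hR⟩
    subst hQ
    have hχ : χ = fun x => (fun y => χ ((iso Q (hN Q)).symm y)) (iso Q (hN Q) x) := by
      funext x
      simp only [MulEquiv.symm_apply_apply]
    have hwt : IsWt p (Subgroup.pi Set.univ
        (fun i => (Q i).subgroupOf (Subgroup.normalizer (Q i : Set G))))
        (fun y => χ ((iso Q (hN Q)).symm y)) := by
      rw [hχ] at wt
      exact (Pool.Agent.Y624.NV.isWt_iff (iso Q (hN Q)) (iso_mem Q (hN Q))).1 wt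
    obtain ⟨ψ, ⟨hψ1, hψ2⟩, _⟩ := (h1 ι (fun i => Subgroup.normalizer (Q i : Set G))).2 _ hwt.irr
    rw [hψ2] at hwt
    have hwi := wt_factor p (fun i => (Q i).subgroupOf (Subgroup.normalizer (Q i : Set G))) ψ hψ1 hwt
    have hpi : ∀ i, IsPGroup p (Q i) := by
      intro i
      refine pg.of_injective
        (MonoidHom.codRestrict ((MonoidHom.mulSingle (fun _ : ι => G) i).comp (Q i).subtype) _
          (fun x => ?_)) ?_
      · show (Pi.mulSingle i (x : G) : ι → G) ∈ _
        rw [Subgroup.mulSingle_mem_pi]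
        exact fun _ => x.2
      · intro x y hxy
        have h5 := congrArg Subtype.val hxy
        have h6 : (Pi.mulSingle i (x : G) : ι → G) = Pi.mulSingle i (y : G) := h5
        exact Subtype.ext (Pi.mulSingle_injective i h6)
    refine ⟨fun i => ⟨Q i, hpi i, iso Q (hN Q) g i, ψ i, hwi i⟩, ?_⟩
    simp only [hE0]
    refine Wt.ext rfl ?_ ?_
    · exact heq_of_eq ((iso Q (hN Q)).symm_apply_apply g)
    · refine heq_of_eq ?_
      funext x
      exact (congrFun hψ2 (iso Q (hN Q) x)).symm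
  refine ⟨Equiv.ofBijective E0 ⟨hinj, hsurj⟩, fun w f hf => ?_⟩
  show centralValue red (fun x => ∏ i, (w i).χ (iso _ (hN fun i => (w i).Q) x i))
    (fun x => ∏ i, f i (x.1 i)) = _
  have h5 := Pool.Agent.Y624.NV.centralValue_comp red (iso _ (hN fun i => (w i).Q))
    (χ := fun y => ∏ i, (w i).χ (y i)) (f := fun y => ∏ i, f i (y i))
    ((h1 ι _).1 _ fun i => (w i).wt.irr) (fun g x => by
      refine Finset.prod_congr rfl fun i _ => ?_
      exact hf i _ _)
  refine Eq.trans h5 ?_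
  exact h2 F red ι _ (fun i => (w i).χ) (fun i x => f i x) (fun i => (w i).wt.irr)
    (fun i g x => hf i _ _)

end Pool.Agent.J4.H3.PG
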