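import Pool.Agent.J4.H3.PG.D1

/-!
# ZF: the central element `Zf`
-/

set_option autoImplicit false

open scoped Classical BigOperators

noncomputable section

namespace Pool.Agent.J4.H3.PG

open Pool.Agent.Y63.NV
open Pool.Agent.Y63.AWC (IsIrreducibleCharacter pSubgroupSetoid)

theorem zf_int {G : Type} [Group G] [Finite G] (μ : G →* ℂˣ) (g : G) :
    IsIntegral ℤ ((μ g : ℂˣ) : ℂ) := by
  have h : ((μ g : ℂˣ) : ℂ) ^ Nat.card G = 1 := by
    rw [← Units.val_pow_eq_pow_val, ← map_pow, pow_card_eq_one', map_one, Units.val_one]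
  refine IsIntegral.of_pow (Nat.card_pos (α := G)) ?_
  rw [h]
  exact isIntegral_one

theorem rc_eq {F : Type} [Field F] (red : integralClosure ℤ ℂ →+* F) (u : ℂˣ)
    (h : IsIntegral ℤ (u : ℂ)) : rc red u = red ⟨(u : ℂ), h⟩ := by
  unfold rc redC
  rw [dif_pos h]

/-- the reduction of a linear character -/
def rcHom {F : Type} [Field F] (red : integralClosure ℤ ℂ →+* F) {G : Type} [Group G] [Finite G]
    (μ : G →* ℂˣ) : G →* F where
  toFun g := rc red (μ g)
  map_one' := by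
    rw [rc_eq red _ (zf_int μ 1)]
    rw [← map_one red]
    congr 1
    apply Subtype.ext
    simp
  map_mul' x y := by
    rw [rc_eq red _ (zf_int μ (x * y)), rc_eq red _ (zf_int μ x), rc_eq red _ (zf_int μ y),
      ← map_mul]
    congr 1
    apply Subtype.ext
    simp

theorem zf_orth {A : Type} [CommGroup A] [Finite A] [Fintype (A →* ℂˣ)] {x : A} (hx : x ≠ 1) :
    ∑ ν : A →* ℂˣ, ((ν x : ℂˣ) : ℂ) = 0 := by
  obtain ⟨φ, hφ⟩ := CommGroup.exists_apply_ne_one_of_hasEnoughRootsOfUnity A ℂ hx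
  have h : ∑ ν : A →* ℂˣ, ((ν x : ℂˣ) : ℂ) = ((φ x : ℂˣ) : ℂ) * ∑ ν : A →* ℂˣ, ((ν x : ℂˣ) : ℂ) := by
    rw [Finset.mul_sum, ← Equiv.sum_comp (Equiv.mulLeft φ)]
    refine Finset.sum_congr rfl fun ν _ => ?_
    simp
  have h2 : (((φ x : ℂˣ) : ℂ) - 1) * ∑ ν : A →* ℂˣ, ((ν x : ℂˣ) : ℂ) = 0 := by
    rw [sub_mul, one_mul, ← h, sub_self]
  rcases mul_eq_zero.1 h2 with h3 | h3
  · exact absurd (Units.ext (by simpa using sub_eq_zero.1 h3)) hφ
  · exact h3

theorem finite_hom {G : Type} [Group G] [Finite G] : Finite (G →* ℂˣ) := by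
  have h1 : Finite (Abelianization G →* ℂˣ) := by
    obtain ⟨f⟩ := CommGroup.monoidHom_mulEquiv_of_hasEnoughRootsOfUnity (Abelianization G) ℂ
    exact Finite.of_equiv _ f.symm.toEquiv
  exact Finite.of_equiv _ (Abelianization.lift (G := G) (A := ℂˣ)).symm

theorem t_ZF : S_ZF := by
  intro p _ F _ _ red G _ _ ι _ e he
  refine ⟨?_, ?_, ?_⟩
  · intro g x
    unfold Zf
    congr 1
    refine finsum_congr fun μ => ?_
    refine Finset.prod_congr rfl fun i _ => ?_
    have h1 : μ ((g * x * g⁻¹) i) = μ (x i) := by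
      simp only [Pi.mul_apply, Pi.inv_apply, map_mul, map_inv]
      rw [mul_comm (μ (g i)), mul_assoc, mul_inv_cancel, mul_one]
    have h2 : e ((g * x * g⁻¹) i) = e (x i) := he (g i) (x i)
    rw [h1, h2]
  · intro s γ
    unfold Zf
    congr 1
    refine finsum_congr fun μ => ?_
    exact Equiv.prod_comp s (fun i => rc red (μ (γ i)) * e (γ i))
  · intro γ hγ
    unfold Zf
    have : Finite (G →* ℂˣ) := finite_hom
    have : Finite (Abelianization G →* ℂˣ) := finite_hom
    have : Fintype (G →* ℂˣ) := Fintype.ofFinite _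
    have : Fintype (Abelianization G →* ℂˣ) := Fintype.ofFinite _
    have h1 : ∀ μ : G →* ℂˣ, ∏ i, (rc red (μ (γ i)) * e (γ i)) =
        rcHom red (Abelianization.lift μ) (∏ i, Abelianization.of (γ i)) * ∏ i, e (γ i) := by
      intro μ
      rw [Finset.prod_mul_distrib, map_prod]
      rfl
    rw [finsum_eq_sum_of_fintype]
    simp_rw [h1]
    rw [← Finset.sum_mul]
    rw [Equiv.sum_comp (Abelianization.lift (G := G) (A := ℂˣ))
      (fun ν => rcHom red ν (∏ i, Abelianization.of (γ i)))]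
    have h2 : ∑ ν : Abelianization G →* ℂˣ, rcHom red ν (∏ i, Abelianization.of (γ i)) = 0 := by
      have h3 : ∀ ν : Abelianization G →* ℂˣ, rcHom red ν (∏ i, Abelianization.of (γ i)) =
          red ⟨((ν (∏ i, Abelianization.of (γ i)) : ℂˣ) : ℂ), zf_int ν _⟩ := fun ν =>
        rc_eq red _ (zf_int ν _)
      simp_rw [h3]
      rw [← map_sum, ← map_zero red]
      congr 1
      apply Subtype.ext
      rw [AddSubmonoidClass.coe_finsetSum]
      exact zf_orth hγ
    rw [h2, zero_mul, mul_zero]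

end Pool.Agent.J4.H3.PG
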