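import Pool.Agent.J4.H3.PG.Fin4
import Pool.Agent.J4.H3.PG.T_ACT
import Pool.Agent.J4.H3.PG.T_AMP
import Pool.Agent.J4.H3.PG.T_BAS
import Pool.Agent.J4.H3.PG.T_CPI
import Pool.Agent.J4.H3.PG.T_CVP
import Pool.Agent.J4.H3.PG.T_DC
import Pool.Agent.J4.H3.PG.T_ID
import Pool.Agent.J4.H3.PG.T_ISO
import Pool.Agent.J4.H3.PG.T_LC
import Pool.Agent.J4.H3.PG.T_LPI
import Pool.Agent.J4.H3.PG.T_MC
import Pool.Agent.J4.H3.PG.T_NPI
import Pool.Agent.J4.H3.PG.T_OP
import Pool.Agent.J4.H3.PG.T_PERF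
import Pool.Agent.J4.H3.PG.T_Q3
import Pool.Agent.J4.H3.PG.T_Q5
import Pool.Agent.J4.H3.PG.T_QP
import Pool.Agent.J4.H3.PG.T_SB
import Pool.Agent.J4.H3.PG.T_SYL
import Pool.Agent.J4.H3.PG.T_TW
import Pool.Agent.J4.H3.PG.T_TWL
import Pool.Agent.J4.H3.PG.T_WC
import Pool.Agent.J4.H3.PG.T_WPI
import Pool.Agent.J4.H3.PG.T_ZF

/-!
# The parts, and odd primes
-/

set_option autoImplicit false

open scoped Classical BigOperators

noncomputable section

namespace Pool.Agent.J4.H3.PG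

open Pool.Agent.Y63.NV

theorem parts3 : Parts3 where
  BAS := t_BAS
  LPI := t_LPI
  WPI := t_WPI t_CPI t_CVP t_NPI
  ID := t_ID
  ZF := t_ZF
  ACT := t_ACT
  TWL := t_TWL t_BAS
  TWW := t_TWW
  TW := t_TW
  LC := t_LC
  WC := t_WC t_DC
  ISO := t_ISO
  SB := t_SB
  MC := t_MC

theorem has_perfect (p : ℕ) (hp : p.Prime) (h2 : p ≠ 2) : HasPerfect p := by
  rcases lt_or_ge p 7 with h | h
  · interval_cases p
    · exact absurd hp (by norm_num)
    · exact absurd hp (by norm_num)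
    · exact absurd rfl h2
    · exact t_Q3
    · exact absurd hp (by norm_num)
    · exact t_Q5
    · exact absurd hp (by norm_num)
  · exact t_Q7 p hp h

/-- odd primes and classes of `p`-groups -/
theorem odd_main (p : ℕ) [Fact p.Prime] (h2 : p ≠ 2) (F : Type) [Field F] [IsAlgClosed F]
    [CharP F p] (red : integralClosure ℤ ℂ →+* F) (C : (P : Type) → Group P → Prop)
    (hC : ClsP C) : Equiv4 p red (fun G i => @SylIn p C G i) :=
  equiv_odd parts3 t_PERF t_OP t_QP t_AMP t_SYL1 t_SYL2 p F red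
    (has_perfect p Fact.out h2) C hC

end Pool.Agent.J4.H3.PG
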