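import Pool.Agent.J4.H3.PG.Fin4
import Pool.Agent.J4.H3.PG.D4

/-!
# The equivalences, relative to a class of groups and a class of perfect groups
-/

set_option autoImplicit false

open scoped Classical BigOperators commutatorElement

noncomputable section

namespace Pool.Agent.J4.H3.PG

open Pool.Agent.Y63.NV
open Pool.Agent.Y63.KR
open Pool.Agent.R674.KB

/-- the equivalences, relative to the classes `X` and `Y` -/
def EquivY (p : ℕ) {F : Type} [Field F] (red : integralClosure ℤ ℂ →+* F)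
    (X Y : (G : Type) → Group G → Prop) : Prop :=
  ((∀ (G : Type) (i : Group G) (_ : Finite G), X G i → Op1 p G → KRQ p red G) ↔
      ∀ (H : Type) (i : Group H) (_ : Finite H), X H i → Y H i → Op1 p H →
        BAWC p red H) ∧
    ((∀ (G : Type) (i : Group G) (_ : Finite G), X G i → Op1 p G → KRQ p red G) ↔
      ∀ ε : ℝ, 0 < ε → ∃ K : ℝ, ∀ (H : Type) (i : Group H) (_ : Finite H), X H i →
        Y H i → Op1 p H → ∀ B : (H → F) → F, IsBlock B →
          (nIrr B : ℝ) ≤ K * (Nat.card H : ℝ) ^ ε * nWts p red B ∧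
          (nWts p red B : ℝ) ≤ K * (Nat.card H : ℝ) ^ ε * nIrr B) ∧
    ((∀ (G : Type) (i : Group G) (_ : Finite G), X G i → Op1 p G →
        (∀ N : Subgroup G, N.Normal → N.index ≠ p) → ∀ B : (G → F) → F, IsBlock B →
          nIrr B ≤ nWts p red B) ↔
      ∀ ε : ℝ, 0 < ε → ∃ K : ℝ, ∀ (H : Type) (i : Group H) (_ : Finite H), X H i →
        Y H i → Op1 p H → ∀ B : (H → F) → F, IsBlock B →
          (nIrr B : ℝ) ≤ K * (Nat.card H : ℝ) ^ ε * nWts p red B) ∧
    ((∀ (G : Type) (i : Group G) (_ : Finite G), X G i → Op1 p G →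
        (∀ N : Subgroup G, N.Normal → N.index ≠ p) → ∀ B : (G → F) → F, IsBlock B →
          nWts p red B ≤ nIrr B) ↔
      ∀ ε : ℝ, 0 < ε → ∃ K : ℝ, ∀ (H : Type) (i : Group H) (_ : Finite H), X H i →
        Y H i → Op1 p H → ∀ B : (H → F) → F, IsBlock B →
          (nWts p red B : ℝ) ≤ K * (Nat.card H : ℝ) ^ ε * nIrr B)

theorem equivY_gen (P : Parts3) (p : ℕ) [Fact p.Prime] (F : Type) [Field F] [IsAlgClosed F]
    [CharP F p] (red : integralClosure ℤ ℂ →+* F) (X Y : (G : Type) → Group G → Prop)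
    (hX : Closed p (fun G i => X G i))
    (hY : ∀ (H : Type) (i : Group H), Y H i → commutator H = ⊤) (f : ℕ → ℝ) (hf0 : ∀ n, 0 ≤ f n) (hf : AmpFor f)
    (hQ : ∀ (G : Type) (i : Group G) (_ : Finite G), X G i → Op1 p G →
      (∀ N : Subgroup G, N.Normal → N.index ≠ p) →
      ∀ N : ℕ, ∃ (Q : Type) (_ : Group Q) (_ : Fintype Q), N ≤ Fintype.card Q ∧
      1 ≤ Fintype.card Q ∧ PerfRad p (sg G Q).ker ∧
      (X (sg G Q).ker inferInstance ∧ Y (sg G Q).ker inferInstance) ∧
      BComp p red G Q (f (Fintype.card Q))) : EquivY p red X Y := by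
  have hpr : p.Prime := Fact.out
  have triv : ∀ (k l : ℕ), k ≤ l → ∀ (H : Type) [Group H] [Finite H] (ε : ℝ), 0 < ε →
      (k : ℝ) ≤ 1 * (Nat.card H : ℝ) ^ ε * (l : ℝ) := by
    intro k l hkl H _ _ ε hε
    have h1 : (1 : ℝ) ≤ (Nat.card H : ℝ) ^ ε :=
      Real.one_le_rpow (by exact_mod_cast Nat.card_pos) hε.le
    have h2 : (k : ℝ) ≤ l := by exact_mod_cast hkl
    have h3 : (0 : ℝ) ≤ l := Nat.cast_nonneg _
    nlinarith
  have up : (∀ ε : ℝ, 0 < ε → ∃ K : ℝ, ∀ (H : Type) (i : Group H) (_ : Finite H), X H i →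
        Y H i → Op1 p H → ∀ B : (H → F) → F, IsBlock B →
          (nIrr B : ℝ) ≤ K * (Nat.card H : ℝ) ^ ε * nWts p red B) →
      ∀ (G : Type) (i : Group G) (_ : Finite G), X G i → Op1 p G →
        (∀ N : Subgroup G, N.Normal → N.index ≠ p) → ∀ B : (G → F) → F, IsBlock B →
          nIrr B ≤ nWts p red B := by
    intro h G i _ hG hM hN B hB
    refine (ineq_gen P p F red G hN (fun H i => X H i ∧ Y H i) f hf0 hf (hQ G i inferInstance hG hM hN) B hB).1 ?_
    intro ε hε
    obtain ⟨K, hK⟩ := h ε hε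
    exact ⟨K, fun H j hfH hP hXH B' hB' => hK H j hfH hXH.1 hXH.2 hP.rad B' hB'⟩
  have down : (∀ ε : ℝ, 0 < ε → ∃ K : ℝ, ∀ (H : Type) (i : Group H) (_ : Finite H), X H i →
        Y H i → Op1 p H → ∀ B : (H → F) → F, IsBlock B →
          (nWts p red B : ℝ) ≤ K * (Nat.card H : ℝ) ^ ε * nIrr B) →
      ∀ (G : Type) (i : Group G) (_ : Finite G), X G i → Op1 p G →
        (∀ N : Subgroup G, N.Normal → N.index ≠ p) → ∀ B : (G → F) → F, IsBlock B →
          nWts p red B ≤ nIrr B := by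
    intro h G i _ hG hM hN B hB
    refine (ineq_gen P p F red G hN (fun H i => X H i ∧ Y H i) f hf0 hf (hQ G i inferInstance hG hM hN) B hB).2 ?_
    intro ε hε
    obtain ⟨K, hK⟩ := h ε hε
    exact ⟨K, fun H j hfH hP hXH B' hB' => hK H j hfH hXH.1 hXH.2 hP.rad B' hB'⟩
  have sub_all : (∀ ε : ℝ, 0 < ε → ∃ K : ℝ, ∀ (H : Type) (i : Group H) (_ : Finite H), X H i →
        Y H i → Op1 p H → ∀ B : (H → F) → F, IsBlock B →
          (nIrr B : ℝ) ≤ K * (Nat.card H : ℝ) ^ ε * nWts p red B ∧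
          (nWts p red B : ℝ) ≤ K * (Nat.card H : ℝ) ^ ε * nIrr B) →
      ∀ (G : Type) (i : Group G) (_ : Finite G), X G i → BAWC p red G := by
    intro h G i _ hG
    refine (bawc_strong red _ hX).1 (fun H j _ hH hR => ?_) G ⊤
      (hX.iso _ _ hG ⟨Subgroup.topEquiv.symm⟩) (pgroup_top p G)
    rw [bawc_def]
    intro B hB
    refine le_antisymm (up (fun ε hε => ?_) H j inferInstance hH hR.radical hR.perfect B hB)
      (down (fun ε hε => ?_) H j inferInstance hH hR.radical hR.perfect B hB)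
    · obtain ⟨K, hK⟩ := h ε hε
      exact ⟨K, fun H i hfH h1 h2 h3 B hB => (hK H i hfH h1 h2 h3 B hB).1⟩
    · obtain ⟨K, hK⟩ := h ε hε
      exact ⟨K, fun H i hfH h1 h2 h3 B hB => (hK H i hfH h1 h2 h3 B hB).2⟩
  have kb := krq_bawcX red (fun G i => X G i) hX
  refine ⟨?_, ?_, ⟨fun h ε hε => ⟨1, fun H i _ h1 h2 h3 B hB =>
    triv _ _ (h H i inferInstance h1 h3 (perf_index hpr H (hY H i h2)) B hB) H ε hε⟩, up⟩,
    ⟨fun h ε hε => ⟨1, fun H i _ h1 h2 h3 B hB =>
      triv _ _ (h H i inferInstance h1 h3 (perf_index hpr H (hY H i h2)) B hB) H ε hε⟩, down⟩⟩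
  · refine kb.trans ?_
    constructor
    · intro h H i hfH h1 _ _
      exact h H i hfH h1
    · intro h
      refine sub_all fun ε hε => ⟨1, fun H i hfH h1 h2 h3 B hB => ?_⟩
      have h4 := (bawc_def red H).1 (h H i hfH h1 h2 h3) B hB
      exact ⟨triv _ _ h4.le H ε hε, triv _ _ h4.ge H ε hε⟩
  · refine kb.trans ?_
    constructor
    · intro h ε hε
      refine ⟨1, fun H i hfH h1 h2 h3 B hB => ?_⟩
      have h4 := (bawc_def red H).1 (h H i hfH h1) B hB
      exact ⟨triv _ _ h4.le H ε hε, triv _ _ h4.ge H ε hε⟩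
    · exact sub_all

/-- a group with a largest proper normal subgroup with nonabelian simple factor group is perfect -/
theorem top1_perf (S : Type) [Group S] (hS : commutator S = ⊤) (H : Type) [Group H]
    (h : Top1 S H) : commutator H = ⊤ := by
  obtain ⟨N, hN, h1, h2, ⟨e⟩⟩ := h
  by_contra hne
  have h3 : commutator H ≤ N := h2 _ inferInstance hne
  apply h1
  have h4 : IsMulCommutative (H ⧸ N) := by
    rwa [Subgroup.Normal.quotient_commutative_iff_commutator_le]
  have h5 : ∀ a b : S, a * b = b * a := by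
    intro a b
    apply e.symm.injective
    rw [map_mul, map_mul]
    exact h4.is_comm.comm _ _
  have h6 : (⊤ : Subgroup S) ≤ ⊥ := by
    rw [← hS, commutator_def, Subgroup.commutator_le]
    intro a _ b _
    rw [Subgroup.mem_bot, commutatorElement_eq_one_iff_mul_comm]
    exact h5 a b
  rw [eq_top_iff]
  intro x _
  rw [← QuotientGroup.eq_one_iff]
  apply e.injective
  rw [map_one]
  exact Subgroup.mem_bot.1 (h6 (Subgroup.mem_top _))

/-- a finite nonabelian simple group is perfect -/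
theorem simple_perf (S : Type) [Group S] [IsSimpleGroup S] (hS : ∃ a b : S, a * b ≠ b * a) :
    commutator S = ⊤ := by
  have hn : (commutator S).Normal := inferInstance
  rcases hn.eq_bot_or_eq_top with h | h
  · exfalso
    obtain ⟨a, b, hab⟩ := hS
    apply hab
    rw [← commutatorElement_eq_one_iff_mul_comm]
    have h1 := Subgroup.commutator_mem_commutator
      (Subgroup.mem_top a) (Subgroup.mem_top b)
    rw [← commutator_def, h] at h1
    exact Subgroup.mem_bot.1 h1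
  · exact h

/-- all primes -/
theorem equivY_all (P : Parts3) (hPERF : S_PERF) (hOP : S_OP2) (hAMP : S_AMP2)
    (hWG : S_WG) (hSUBC : S_SUBC) (hU : S_UNIQ) (hT : S_TOWER) (p : ℕ) [Fact p.Prime] (F : Type)
    [Field F] [IsAlgClosed F] [CharP F p] (red : integralClosure ℤ ℂ →+* F)
    (S : Type) [Group S] [Finite S] [IsSimpleGroup S] (hS : ∃ a b : S, a * b ≠ b * a) :
    EquivY p red (fun _ _ => True) (fun H _ => Top1 S H) := by
  have hSp := simple_perf S hS
  refine equivY_gen P p F red _ _ (closed_true p) (fun H _ h => top1_perf S hSp H h)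
    (fun n => (n : ℝ) ^ 6 * (n : ℝ) ^ (Nat.log 2 n)) (fun n => by positivity) hAMP ?_
  intro G i hfG hG hM hN N
  obtain ⟨Q, i1, i2, i3, i4, i5, i6, i7, i8, i9⟩ := hT S hSp N
  have hF := Fintype.ofFinite Q
  refine ⟨Q, i1, hF, ?_, Fintype.card_pos, ⟨hPERF G Q i3 i4, hOP p G Q i3 (i8 p Fact.out) hM⟩,
    ⟨trivial, hU S G Q i5 i4 i7⟩, bcomp_all hWG hSUBC p F red G Q⟩
  rw [← Nat.card_eq_fintype_card]
  exact i6

/-- classes of groups given by the Sylow subgroups -/
theorem equivY_odd (P : Parts3) (hPERF : S_PERF) (hOP : S_OP2) (hAMP : S_AMP)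
    (h1 : S_SYL1) (h2 : S_SYL2) (hU : S_UNIQ) (hT : S_TOWER) (p : ℕ) [Fact p.Prime] (F : Type)
    [Field F] [IsAlgClosed F] [CharP F p] (red : integralClosure ℤ ℂ →+* F)
    (S : Type) [Group S] [Finite S] [IsSimpleGroup S] (hS : ∃ a b : S, a * b ≠ b * a)
    (hpS : ¬ p ∣ Nat.card S) (C : (P : Type) → Group P → Prop) (hC : ClsP C) :
    EquivY p red (fun G i => @SylIn p C G i) (fun H _ => Top1 S H) := by
  have hSp := simple_perf S hS
  obtain ⟨c1, c2, c3⟩ := h1 p C hC
  refine equivY_gen P p F red _ _ ⟨fun G H _ _ hG e => c1 G H hG e, fun G _ hG H => c2 G hG H,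
    fun G _ hG M _ hM => c3 G hG M hM⟩ (fun H _ h => top1_perf S hSp H h)
    (fun n => (n : ℝ) ^ 4) (fun n => by positivity) hAMP ?_
  intro G i hfG hG hM hN N
  obtain ⟨Q, i1, i2, i3, i4, i5, i6, i7, i8, i9⟩ := hT S hSp N
  have hF := Fintype.ofFinite Q
  have hpQ := i9 p Fact.out hpS
  refine ⟨Q, i1, hF, ?_, Fintype.card_pos, ⟨hPERF G Q i3 i4, hOP p G Q i3 (i8 p Fact.out) hM⟩,
    ⟨h2 p C hC G Q hpQ hG, hU S G Q i5 i4 i7⟩, bcomp_odd P.WC p F red G Q hpQ⟩
  rw [← Nat.card_eq_fintype_card]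
  exact i6

end Pool.Agent.J4.H3.PG
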