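import Pool.Agent.J4.H12.PG.Dc
import Pool.Agent.J4.H3.PG.T_LC
import Pool.Agent.J4.H3.PG.D2

/-!
# PG, piece DCG: characters over a normal subgroup of arbitrary index, upper bound
-/

set_option autoImplicit false
set_option linter.unusedSectionVars false

open scoped BigOperators Classical
open Pool.Agent.Helper884.IC
open Pool.Agent.Y63.AWC hiding ind
open Pool.Agent.Y63.NV (centralValue IsWt)

noncomputable section

namespace Pool.Agent.J4.H3.PG.DCG

open Pool.Agent.J4.H12.PG Pool.Agent.J4.H3.PG.LC

section frob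

variable {X : Type} [Group X] [Finite X]

/-- the dimension of an irreducible representation and of a quotient over a subgroup -/
theorem dim_le {F : Type} [Field F] (T : Subgroup X) (S : IR F T) (R : IR F X) (hO : Ov S R) :
    Module.finrank F R.V ≤ T.index * Module.finrank F S.V := by
  cases nonempty_fintype (X ⧸ T)
  obtain ⟨u, hu, hu2⟩ := hO
  let Φ : R.V →ₗ[F] (X ⧸ T → S.V) := LinearMap.pi fun q => u ∘ₗ (R.ρ (q.out)⁻¹)
  have hΦ : ∀ v q, Φ v q = u (R.ρ (q.out)⁻¹ v) := fun v q => rfl
  have hinj : Function.Injective Φ := by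
    rw [← LinearMap.ker_eq_bot, LinearMap.ker_eq_bot']
    intro v hv
    refine kill_zero S R u hu v fun g => ?_
    obtain ⟨n, hn⟩ := QuotientGroup.mk_out_eq_mul T g⁻¹
    have h1 := congrFun hv (g⁻¹ : X)
    rw [hΦ, hn] at h1
    have h2 : u (R.ρ (g⁻¹ * (n : X))⁻¹ v) = S.ρ n⁻¹ (u (R.ρ g v)) := by
      rw [← hu2, ← Module.End.mul_apply, ← map_mul]
      congr 3
      rw [mul_inv_rev, inv_inv, Subgroup.coe_inv]
    rw [h2] at h1
    have h3 := congrArg (S.ρ n) h1
    rw [← Module.End.mul_apply, ← map_mul, mul_inv_cancel, map_one, Module.End.one_apply] at h3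
    rw [h3]
    simp
  have h1 := LinearMap.finrank_le_finrank_of_injective hinj
  rw [Module.finrank_pi_fintype, Finset.sum_const, Finset.card_univ, smul_eq_mul,
    ← Nat.card_eq_fintype_card (α := X ⧸ T)] at h1
  exact h1

end frob

variable {X : Type} [Group X] [Fintype X]

/-- the degree of a character and of a constituent of the restriction to a subgroup -/
theorem deg_le (T : Subgroup X) {chi : X → ℂ} {psi : T → ℂ} (hc : IsIrrChar chi)
    (hp : IsIrrChar psi) (hm : mult T chi psi ≠ 0) {n m : ℕ} (hn : chi 1 = (n : ℂ))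
    (hm1 : psi 1 = (m : ℂ)) : n ≤ T.index * m := by
  have hspec := mult_spec T hc hp
  obtain ⟨V, i1, i2, i3, rho, hr, rfl⟩ := hc
  obtain ⟨W, j1, j2, j3, sigma, hs, rfl⟩ := hp
  have : Invertible (Nat.card T : ℂ) := invertibleOfNonzero cardG_ne
  let rho' : Representation ℂ T V := rho.comp T.subtype
  have h := Representation.card_inv_mul_sum_char_mul_char_eq_finrank rho' sigma
  rw [B_comm] at hspec
  have h1 : B sigma.character (res T rho.character) =
      (Module.finrank ℂ (Representation.IntertwiningMap rho' sigma) : ℂ) := h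
  rw [hspec] at h1
  have h2 : Module.finrank ℂ (Representation.IntertwiningMap rho' sigma) ≠ 0 := by
    intro h3
    rw [h3] at h1
    exact hm (by exact_mod_cast h1)
  have h3 : Nontrivial (Representation.IntertwiningMap rho' sigma) := by
    by_contra h4
    rw [not_nontrivial_iff_subsingleton] at h4
    exact h2 Module.finrank_zero_of_subsingleton
  obtain ⟨u, hu⟩ := exists_ne (0 : Representation.IntertwiningMap rho' sigma)
  have h4 := dim_le T (⟨W, sigma, hs⟩ : IR ℂ T) (⟨V, rho, hr⟩ : IR ℂ X)
    ⟨u.toLinearMap, fun h0 => hu (by ext v; exact LinearMap.congr_fun h0 v), fun t v =>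
      LinearMap.congr_fun (u.isIntertwining' t) v⟩
  have h5 : rho.character 1 = (Module.finrank ℂ V : ℂ) := Representation.char_one rho
  have h6 : sigma.character 1 = (Module.finrank ℂ W : ℂ) := Representation.char_one sigma
  rw [hn] at h5
  rw [hm1] at h6
  have h7 : n = Module.finrank ℂ V := by exact_mod_cast h5
  have h8 : m = Module.finrank ℂ W := by exact_mod_cast h6
  rw [h7, h8]
  exact h4

section main

variable (M : Subgroup X) [hM : M.Normal]

/-- the isomorphism -/
def eT (T : Subgroup X) (h : M ≤ T) : M.subgroupOf T ≃* M := Subgroup.subgroupOfEquivOfLe h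

theorem eT_coe (T : Subgroup X) (h : M ≤ T) (x : M.subgroupOf T) :
    ((eT M T h x : M) : X) = ((x : T) : X) := rfl

/-- multiplicities in stages -/
theorem mult_stages (T : Subgroup X) (h : M ≤ T) {chi : X → ℂ} {theta : M → ℂ}
    (hc : IsIrrChar chi) (ht : IsIrrChar theta) :
    mult M chi theta = ∑ psi ∈ Irr T, mult T chi psi *
      mult (M.subgroupOf T) psi (fun x => theta (eT M T h x)) := by
  have htT : IsIrrChar (fun x : M.subgroupOf T => theta (eT M T h x)) := irr_comp (eT M T h) ht
  have h1 : B (res M chi) theta =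
      B (res (M.subgroupOf T) (res T chi)) (fun x => theta (eT M T h x)) := by
    unfold B
    congr 1
    · congr 2
      exact (Nat.card_congr (eT M T h).toEquiv).symm
    · refine (Fintype.sum_equiv (eT M T h).toEquiv _ _ fun x => ?_).symm
      simp only [res, MulEquiv.toEquiv_eq_coe, EquivLike.coe_coe, map_inv]
      rfl
  have h2 : res (M.subgroupOf T) (res T chi) =
      ∑ psi ∈ Irr T, (mult T chi psi : ℂ) • res (M.subgroupOf T) psi := by
    rw [res_eq T hc]
    funext x
    simp only [res, Finset.sum_apply, Pi.smul_apply]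
  rw [mult_spec M hc ht, h2, B_sum_left] at h1
  have h3 : ∀ psi ∈ Irr T, B ((mult T chi psi : ℂ) • res (M.subgroupOf T) psi)
      (fun x => theta (eT M T h x)) = ((mult T chi psi *
        mult (M.subgroupOf T) psi (fun x => theta (eT M T h x)) : ℕ) : ℂ) := by
    intro psi hpsi
    rw [B_smul_left, mult_spec (M.subgroupOf T) (mem_Irr.1 hpsi) htT]
    push_cast
    rfl
  rw [Finset.sum_congr rfl h3, ← Nat.cast_sum] at h1
  exact_mod_cast h1

/-- an intermediate character over `theta` -/
theorem exists_stage (T : Subgroup X) (h : M ≤ T) {chi : X → ℂ} {theta : M → ℂ}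
    (hc : IsIrrChar chi) (ht : IsIrrChar theta) (hm : mult M chi theta ≠ 0) :
    ∃ psi : T → ℂ, IsIrrChar psi ∧ mult T chi psi ≠ 0 ∧
      mult (M.subgroupOf T) psi (fun x => theta (eT M T h x)) ≠ 0 ∧
      mult (M.subgroupOf T) psi (fun x => theta (eT M T h x)) ≤ mult M chi theta := by
  have h1 := mult_stages M T h hc ht
  rw [h1] at hm
  obtain ⟨psi, hp, hne⟩ := Finset.exists_ne_zero_of_sum_ne_zero hm
  obtain ⟨h2, h3⟩ := mul_ne_zero_iff.1 hne
  refine ⟨psi, mem_Irr.1 hp, h2, h3, ?_⟩
  rw [h1]
  refine le_trans ?_ (Finset.single_le_sum (f := fun psi => mult T chi psi *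
      mult (M.subgroupOf T) psi (fun x => theta (eT M T h x))) (fun _ _ => Nat.zero_le _) hp)
  exact Nat.le_mul_of_pos_left _ (Nat.pos_of_ne_zero h2)

/-- over its stabiliser the character is invariant -/
theorem orb_stab {theta : M → ℂ} (ht : IsIrrChar theta) :
    Orb (M.subgroupOf (St M theta))
      (fun x => theta (eT M (St M theta) (le_St M ht.isClass) x)) =
      {fun x => theta (eT M (St M theta) (le_St M ht.isClass) x)} := by
  unfold Orb
  have h1 : ∀ t : St M theta, cj (M.subgroupOf (St M theta)) t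
      (fun x => theta (eT M (St M theta) (le_St M ht.isClass) x)) =
      (fun x => theta (eT M (St M theta) (le_St M ht.isClass) x)) := by
    intro t
    funext x
    have h2 := congrFun (mem_St M |>.1 t.2) (eT M (St M theta) (le_St M ht.isClass) x)
    rw [← h2]
    unfold cj
    congr 1
  rw [Finset.image_congr (g := fun _ => fun x => theta (eT M (St M theta) (le_St M ht.isClass) x))
    (fun t _ => h1 t)]
  exact Finset.image_const Finset.univ_nonempty _

/-- **constituents of weight characters** -/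
theorem wt_down {p : ℕ} [hp : Fact p.Prime] (Q : Subgroup X) [hQn : Q.Normal] (hQM : Q ≤ M)
    (hQ : IsPGroup p Q) {chi : X → ℂ} {theta : M → ℂ} (hc : IsIrrChar chi) (ht : IsIrrChar theta)
    (hm : mult M chi theta ≠ 0) (hw : IsWt p Q chi) : IsWt p (Q.subgroupOf M) theta := by
  have hi := infl_iff M Q hQM hc ht hm
  have hQc : Nat.card (Q.subgroupOf M) = Nat.card Q :=
    Nat.card_congr (Subgroup.subgroupOfEquivOfLe hQM).toEquiv
  obtain ⟨n, hn0, hn⟩ := deg_nat hc
  obtain ⟨d, hd0, hd⟩ := deg_nat ht
  -- the stabiliser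
  obtain ⟨T, hT⟩ : ∃ T, T = St M theta := ⟨_, rfl⟩
  have hMT : M ≤ T := hT ▸ le_St M ht.isClass
  obtain ⟨psi, hpsi, hm1, hm2, hm3⟩ := exists_stage M T hMT hc ht hm
  obtain ⟨m, hm0, hmd⟩ := deg_nat hpsi
  have htT : IsIrrChar (fun x : M.subgroupOf T => theta (eT M T hMT x)) :=
    irr_comp (eT M T hMT) ht
  have hdT : (fun x : M.subgroupOf T => theta (eT M T hMT x)) 1 = (d : ℂ) := by
    simp only [map_one]
    exact hd
  have horb : Orb (M.subgroupOf T) (fun x => theta (eT M T hMT x)) =
      {fun x => theta (eT M T hMT x)} := by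
    subst hT
    exact orb_stab M ht
  have h1 := deg_eq (M.subgroupOf T) hpsi htT hm2 hmd hdT
  rw [horb, Finset.card_singleton, one_mul] at h1
  have h2 := deg_eq M hc ht hm hn hd
  have h3 := deg_le T hc hpsi hm1 hn hmd
  have hOT : (Orb M theta).card = T.index := by
    have h4 := card_Orb_mul M theta
    rw [← hT, ← T.card_mul_index, mul_comm (Nat.card T)] at h4
    exact Nat.eq_of_mul_eq_mul_right Nat.card_pos h4
  have hnT : n = T.index * m := by
    apply le_antisymm h3
    rw [h2, h1, hOT, mul_assoc]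
    exact Nat.mul_le_mul_left _ (Nat.mul_le_mul_right _ hm3)
  -- `psi` is a weight character
  have hQT : Q.subgroupOf T ≤ M.subgroupOf T := fun x hx => hQM hx
  have hQTc : Nat.card (Q.subgroupOf T) = Nat.card Q :=
    Nat.card_congr (Subgroup.subgroupOfEquivOfLe (hQM.trans hMT)).toEquiv
  have hiT := infl_iff (M.subgroupOf T) (Q.subgroupOf T) hQT hpsi htT hm2
  have hinfl : ∀ q ∈ Q.subgroupOf T, ∀ x, psi (q * x) = psi x := by
    refine hiT.2 fun q hq x => ?_
    rw [map_mul]
    exact hi.1 hw.inflated _ (Subgroup.mem_subgroupOf.2 (Subgroup.mem_subgroupOf.1 hq)) _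
  obtain ⟨n', hn', hdz⟩ := hw.defectZero
  have hnn : n' = n := by
    rw [hn] at hn'
    exact_mod_cast hn'.symm
  subst hnn
  have hwT : IsWt p (Q.subgroupOf T) psi := by
    refine ⟨hpsi, hinfl, m, hmd, ?_⟩
    rw [hnT, ← T.card_mul_index, Nat.factorization_mul Subgroup.index_ne_zero_of_finite hm0.ne',
      Nat.factorization_mul Nat.card_pos.ne' Subgroup.index_ne_zero_of_finite, Finsupp.add_apply,
      Finsupp.add_apply] at hdz
    rw [hQTc]
    omega
  -- the values of `theta`
  have hval : ∀ x : M.subgroupOf T, psi (x : T) =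
      (mult (M.subgroupOf T) psi (fun x => theta (eT M T hMT x)) : ℂ) * theta (eT M T hMT x) := by
    intro x
    have h4 := congrFun (res_eq (M.subgroupOf T) hpsi) x
    rw [Finset.sum_apply] at h4
    have h5 : ∑ t ∈ Irr (M.subgroupOf T), ((mult (M.subgroupOf T) psi t : ℂ) • t) x
        = ∑ t ∈ (Irr (M.subgroupOf T)).filter fun t => mult (M.subgroupOf T) psi t ≠ 0,
          ((mult (M.subgroupOf T) psi t : ℂ) • t) x := by
      rw [Finset.sum_filter_of_ne]
      intro t _ ht hz
      apply ht
      simp [hz]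
    rw [h5, support_eq (M.subgroupOf T) hpsi htT hm2, horb, Finset.sum_singleton] at h4
    exact h4
  have hvan : ∀ x : M, x ∉ Q.subgroupOf M → (∃ k : ℕ, x ^ (p ^ k) = 1) → theta x = 0 := by
    rintro x hx ⟨k, hk⟩
    have h4 := hval ((eT M T hMT).symm x)
    rw [MulEquiv.apply_symm_apply] at h4
    have h5 : psi (((eT M T hMT).symm x : M.subgroupOf T) : T) = 0 := by
      refine wt_vanish hp.out (Q.subgroupOf T) hwT (k := k) ?_ ?_
      · intro h6
        exact hx (Subgroup.mem_subgroupOf.2 (Subgroup.mem_subgroupOf.1 h6))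
      · have h6 : ((eT M T hMT).symm x) ^ (p ^ k) = 1 := by
          rw [← map_pow, hk, map_one]
        have h7 := congrArg (fun t : M.subgroupOf T => (t : T)) h6
        simpa using h7
    rw [h5] at h4
    rcases mul_eq_zero.1 h4.symm with h6 | h6
    · exact absurd (by exact_mod_cast h6) hm2
    · exact h6
  refine ⟨ht, hi.1 hw.inflated, d, hd, ?_⟩
  apply le_antisymm (fac_le _ ht (hi.1 hw.inflated) hd)
  have hQ' : IsPGroup p (Q.subgroupOf M) :=
    hQ.of_equiv (Subgroup.subgroupOfEquivOfLe hQM).symm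
  obtain ⟨P, hP⟩ := hQ'.exists_le_sylow
  have hPc : Nat.card (P : Subgroup M) = p ^ (Nat.card M).factorization p := P.card_eq_multiplicity
  obtain ⟨a, ha⟩ := avg_nat (P : Subgroup M) ht
  have h4 : ∑ m : (P : Subgroup M), theta (m : M) = (Nat.card Q : ℂ) * theta 1 := by
    have h3 : ∀ m : (P : Subgroup M), theta (m : M) =
        if (m : M) ∈ Q.subgroupOf M then theta 1 else 0 := by
      intro m
      split_ifs with hmQ
      · have := (hi.1 hw.inflated) _ hmQ 1
        rwa [mul_one] at this
      · refine hvan m hmQ ?_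
        obtain ⟨k, hk⟩ := P.isPGroup' m
        refine ⟨k, ?_⟩
        have := congrArg (fun t : (P : Subgroup M) => (t : M)) hk
        simpa using this
    rw [Finset.sum_congr rfl fun m _ => h3 m, ← Finset.sum_filter, Finset.sum_const,
      nsmul_eq_mul]
    congr 2
    rw [← hQc, ← Fintype.card_subtype, ← Nat.card_eq_fintype_card]
    exact Nat.card_congr
      { toFun := fun m => ⟨m.1.1, m.2⟩
        invFun := fun q => ⟨⟨q.1, hP q.2⟩, q.2⟩
        left_inv := fun m => rfl
        right_inv := fun q => rfl }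
  rw [ha, hPc, hd] at h4
  have h5 : p ^ (Nat.card M).factorization p * a = Nat.card Q * d := by exact_mod_cast h4
  have h7 : p ^ (Nat.card M).factorization p ∣ Nat.card Q * d := ⟨a, h5.symm⟩
  have h9 := (hp.out.pow_dvd_iff_le_factorization
    (Nat.mul_ne_zero Nat.card_pos.ne' hd0.ne')).1 h7
  rw [Nat.factorization_mul Nat.card_pos.ne' hd0.ne', Finsupp.add_apply] at h9
  rw [hQc]
  omega

end main

end Pool.Agent.J4.H3.PG.DCG

open Pool.Agent.J4.H12.PG Pool.Agent.J4.H3.PG.DCG in
/-- **DCG** -/
theorem Pool.Agent.J4.H3.PG.t_DCG : Pool.Agent.J4.H3.PG.S_DCG := by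
  intro p hp F _ _ _ red J _ _ I Q hI hQn z c hQI hQ hz
  cases nonempty_fintype J
  rw [nw_eq, nw_eq]
  set S := (Irr J).filter fun chi => IsWt p Q chi ∧ centralValue red chi z = c with hS
  set T := (Irr I).filter fun theta => IsWt p (Q.subgroupOf I) theta ∧
    centralValue red theta (fun x : I => z x) = c with hT
  have hST : ∀ (chi : J → ℂ) (theta : I → ℂ), IsIrrChar chi → IsIrrChar theta →
      mult I chi theta ≠ 0 → chi ∈ S → theta ∈ T := by
    intro chi theta hc ht hm h
    obtain ⟨_, h1, h2⟩ := Finset.mem_filter.1 h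
    refine Finset.mem_filter.2 ⟨mem_Irr.2 ht, wt_down I Q hQI hQ hc ht hm h1, ?_⟩
    rw [← h2]
    exact (Pool.Agent.Y809.NV.cv_eq I red hc ht hm hz).symm
  have h := Finset.card_mul_le_card_mul (s := S) (t := T) (m := 1) (n := I.index)
    (fun chi theta => mult I chi theta ≠ 0) (by
      intro chi hchi
      have hc := mem_Irr.1 (Finset.mem_filter.1 hchi).1
      obtain ⟨theta, ht, hm⟩ := mult_exists I hc
      refine Finset.card_pos.2 ⟨theta, ?_⟩
      exact Finset.mem_filter.2 ⟨hST chi theta hc ht hm hchi, hm⟩) (by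
      intro theta htheta
      have ht := mem_Irr.1 (Finset.mem_filter.1 htheta).1
      refine le_trans ?_ (card_over_le I ht)
      refine Finset.card_le_card fun t htt => ?_
      obtain ⟨h1, h2⟩ := Finset.mem_filter.1 htt
      exact Finset.mem_filter.2 ⟨(Finset.mem_filter.1 h1).1, h2⟩)
  rw [mul_one, mul_comm] at h
  exact h
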