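import Pool.Agent.J4.H3.PG.D2
import Pool.Agent.Y487.NV.PewL

/-!
# LIFT: weights and arbitrary normal subgroups
-/

set_option autoImplicit false

open scoped Classical BigOperators

noncomputable section

namespace Pool.Agent.J4.H3.PG.LIFTp

open Pool.Agent.Y63.NV
open Pool.Agent.Y487.NV
open Pool.Agent.J4.H3.PG
open Pool.Agent.Y210.NV3 (nw_comap card_comap)

/-- the subgroups of a finite group -/
local instance fsubT {Γ : Type} [Group Γ] [Finite Γ] : Fintype (Subgroup Γ) := Fintype.ofFinite _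

/-- the number of subgroups and injective homomorphisms -/
theorem card_sub_le {A B : Type} [Group A] [Group B] [Finite B] (f : A →* B)
    (hf : Function.Injective f) : Nat.card (Subgroup A) ≤ Nat.card (Subgroup B) :=
  Nat.card_le_card_of_injective (fun H : Subgroup A => H.map f) (Subgroup.map_injective hf)

variable {F Γ : Type} [Field F] [Group Γ] [Finite Γ] {p : ℕ}

/-- the local data -/
theorem local_data [Fact p.Prime] [CharP F p]
    (red : integralClosure ℤ ℂ →+* F) (G : Subgroup Γ) [G.Normal] (z : Γ → F) (c : F)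
    (hz : InZ G z) (Q₁ : Subgroup G) (hQ₁ : IsPGroup p Q₁) :
    ∃ (Y : Type) (_ : Group Y) (_ : Finite Y) (X : Subgroup Y) (_ : X.Normal) (zY : Y → F)
      (q : ℕ), InZ X zY ∧ X.index ≤ G.index ∧
        Nat.card (Subgroup (Y ⧸ X)) ≤ Nat.card (Subgroup (Γ ⧸ G)) ∧
        wl p red (fun x : G => z x) c Q₁ =
          q * (Nat.card X * Nw p red (⊥ : Subgroup X) (fun x : X => zY x) c) ∧
        (∑ R : Subgroup Γ, if IsPGroup p R ∧ R.subgroupOf G = Q₁ then wl p red z c R else 0) =
          q * dsum p red X zY c := by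
  have hp : p.Prime := Fact.out
  obtain ⟨Q, hQ⟩ : ∃ Q : Subgroup Γ, Q = Q₁.map G.subtype := ⟨_, rfl⟩
  have hQG : Q ≤ G := by
    rw [hQ]
    exact Subgroup.map_subtype_le Q₁
  have hQcomap : Q.comap G.subtype = Q₁ := by
    rw [hQ]
    exact Subgroup.comap_map_eq_self_of_injective (Subgroup.subtype_injective G) Q₁
  have hQp : IsPGroup p Q := by
    rw [hQ]
    exact hQ₁.map _
  have hmemQ : ∀ x : G, (x : Γ) ∈ Q ↔ x ∈ Q₁ := by
    intro x
    rw [← hQcomap]
    rfl
  -- the subgroups `R` with `R ∩ G = Q`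
  have hRQ : ∀ R : Subgroup Γ, R.subgroupOf G = Q₁ → ∀ x : Γ, x ∈ Q ↔ x ∈ R ∧ x ∈ G := by
    intro R hR x
    constructor
    · intro hx
      have h3 : (⟨x, hQG hx⟩ : G) ∈ Q₁ := (hmemQ ⟨x, hQG hx⟩).1 hx
      rw [← hR] at h3
      exact ⟨h3, hQG hx⟩
    · rintro ⟨hx, hxG⟩
      have h3 : (⟨x, hxG⟩ : G) ∈ R.subgroupOf G := hx
      rw [hR] at h3
      exact (hmemQ ⟨x, hxG⟩).2 h3
  have hNR : ∀ R : Subgroup Γ, R.subgroupOf G = Q₁ →
      Subgroup.normalizer (R : Set Γ) ≤ Subgroup.normalizer (Q : Set Γ) := by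
    intro R hR x hx
    rw [Subgroup.mem_normalizer_iff] at hx ⊢
    intro h
    rw [hRQ R hR, hRQ R hR]
    refine and_congr (hx h) ⟨fun h3 => (inferInstance : G.Normal).conj_mem h h3 x, fun h3 => ?_⟩
    have h4 := (inferInstance : G.Normal).conj_mem _ h3 x⁻¹
    have h5 : x⁻¹ * (x * h * x⁻¹) * x⁻¹⁻¹ = h := by group
    rwa [h5] at h4
  have hAG := Subgroup.comap_normalizer_eq_of_le_range (f := G.subtype) (H := Q)
    (by rw [Subgroup.range_subtype]; exact hQG)
  rw [hQcomap] at hAG
  have hA0 : ∀ x : G, x ∈ Subgroup.normalizer (Q₁ : Set G) ↔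
      (x : Γ) ∈ Subgroup.normalizer (Q : Set Γ) := by
    intro x
    rw [← hAG]
    rfl
  -- the quotient
  obtain ⟨N, hNdef⟩ : ∃ N : Subgroup Γ, N = Subgroup.normalizer (Q : Set Γ) := ⟨_, rfl⟩
  rw [← hNdef] at hA0
  have hQN : Q ≤ N := by rw [hNdef]; exact Subgroup.le_normalizer
  have hnorm : (Q.subgroupOf N).Normal := by
    subst hNdef
    infer_instance
  obtain ⟨π, hπ⟩ : ∃ π : N →* N ⧸ Q.subgroupOf N, π = QuotientGroup.mk' (Q.subgroupOf N) :=
    ⟨_, rfl⟩
  have hπs : Function.Surjective π := by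
    rw [hπ]; exact QuotientGroup.mk'_surjective _
  have hπr : π.range = ⊤ := MonoidHom.range_eq_top.2 hπs
  have hπk : π.ker = Q.subgroupOf N := by
    rw [hπ]; exact QuotientGroup.ker_mk' _
  have hπ1 : ∀ x : N, π x = 1 ↔ (x : Γ) ∈ Q := by
    intro x
    rw [← MonoidHom.mem_ker, hπk, Subgroup.mem_subgroupOf]
  have hcardQ : Nat.card (Q.subgroupOf N) = Nat.card Q :=
    Nat.card_congr (Subgroup.subgroupOfEquivOfLe hQN).toEquiv
  -- the image of `G ∩ N`
  obtain ⟨X, hX⟩ : ∃ X : Subgroup (N ⧸ Q.subgroupOf N), X = (G.subgroupOf N).map π := ⟨_, rfl⟩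
  have hXn : X.Normal := by
    rw [hX]
    exact Subgroup.Normal.map inferInstance π hπs
  have hXm : ∀ x : N, π x ∈ X ↔ (x : Γ) ∈ G := by
    intro x
    rw [hX]
    constructor
    · rintro ⟨y, hy, hyx⟩
      have h3 : π (y⁻¹ * x) = 1 := by rw [map_mul, map_inv, hyx, inv_mul_cancel]
      have h4 : ((y⁻¹ * x : N) : Γ) ∈ G := hQG ((hπ1 _).1 h3)
      have h5 : (y : Γ) ∈ G := hy
      have h6 := G.mul_mem h5 h4
      have h7 : (y : Γ) * ((y⁻¹ * x : N) : Γ) = x := by
        push_cast
        group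
      rwa [h7] at h6
    · intro hx
      exact ⟨x, hx, rfl⟩
  have hXc : X.comap π = G.subgroupOf N := by
    ext x
    rw [Subgroup.mem_comap, hXm, Subgroup.mem_subgroupOf]
  -- the homomorphism from the quotient to `Γ ⧸ G`
  have hemb : ∃ f : ((N ⧸ Q.subgroupOf N) ⧸ X) →* Γ ⧸ G, Function.Injective f := by
    have hk1 : ∀ x ∈ Q.subgroupOf N, ((QuotientGroup.mk' G).comp N.subtype) x = 1 := by
      intro x hx
      rw [MonoidHom.comp_apply, Subgroup.subtype_apply, QuotientGroup.mk'_apply,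
        QuotientGroup.eq_one_iff]
      exact hQG hx
    obtain ⟨f1, hf1⟩ : ∃ f1 : N ⧸ Q.subgroupOf N →* Γ ⧸ G, ∀ x : N, f1 (π x) = ((x : Γ) : Γ ⧸ G) := by
      refine ⟨QuotientGroup.lift (Q.subgroupOf N) ((QuotientGroup.mk' G).comp N.subtype) hk1,
        fun x => ?_⟩
      rw [hπ]
      rfl
    have hk2 : ∀ y ∈ X, f1 y = 1 := by
      intro y hy
      obtain ⟨x, rfl⟩ := hπs y
      rw [hf1, QuotientGroup.eq_one_iff]
      exact (hXm x).1 hy
    refine ⟨QuotientGroup.lift X f1 hk2, ?_⟩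
    rw [injective_iff_map_eq_one]
    intro y hy
    obtain ⟨y', rfl⟩ := QuotientGroup.mk'_surjective X y
    obtain ⟨x, rfl⟩ := hπs y'
    rw [QuotientGroup.mk'_apply, QuotientGroup.eq_one_iff, hXm]
    have h3 : f1 (π x) = 1 := hy
    rwa [hf1, QuotientGroup.eq_one_iff] at h3
  obtain ⟨f, hf⟩ := hemb
  have hXidx : X.index ≤ G.index := Nat.card_le_card_of_injective f hf
  have hXsub : Nat.card (Subgroup ((N ⧸ Q.subgroupOf N) ⧸ X)) ≤ Nat.card (Subgroup (Γ ⧸ G)) :=
    card_sub_le f hf
  -- the label function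
  obtain ⟨zY, hzY⟩ : ∃ zY : N ⧸ Q.subgroupOf N → F, zY = fib π (fun x : N => z x) := ⟨_, rfl⟩
  have hInZ : InZ X zY := by
    constructor
    · intro g x
      obtain ⟨g', rfl⟩ := hπs g
      rw [hzY]
      unfold fib
      rw [← finsum_comp_equiv (MulAut.conj g').toEquiv]
      refine finsum_congr fun n => ?_
      have h3 : (MulAut.conj g').toEquiv n = g' * n * g'⁻¹ := rfl
      rw [h3, map_mul, map_mul, map_inv]
      have h4 : (fun x : N => z (x : Γ)) (g' * n * g'⁻¹) = (fun x : N => z (x : Γ)) n :=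
        hz.conj g' n
      rw [h4]
      have h5 : π g' * π n * (π g')⁻¹ = π g' * x * (π g')⁻¹ ↔ π n = x := by
        rw [mul_left_inj, mul_right_inj]
      by_cases h6 : π n = x
      · rw [if_pos h6, if_pos (h5.2 h6)]
      · rw [if_neg h6, if_neg fun h7 => h6 (h5.1 h7)]
    · intro x hx
      rw [hzY]
      unfold fib
      refine (finsum_congr fun n => ?_).trans finsum_zero
      split_ifs with h4
      · refine hz.supp n fun h5 => hx ?_
        rw [← h4, hXm]
        exact h5
      · rfl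
  -- the group `N_G(Q) / Q`
  obtain ⟨j, hj⟩ : ∃ j : Subgroup.normalizer (Q₁ : Set G) →* N, ∀ x, (j x : Γ) = ((x : G) : Γ) :=
    ⟨(G.subtype.comp (Subgroup.subtype _)).codRestrict N fun x => (hA0 x).1 x.2, fun x => rfl⟩
  have hji : Function.Injective j := by
    intro x y hxy
    have h3 := congrArg (fun t : N => (t : Γ)) hxy
    simp only [hj] at h3
    exact Subtype.ext (Subtype.ext h3)
  have hjV : ∀ n : N, π n ∈ X ↔ n ∈ j.range := by
    intro n
    rw [hXm]
    constructor
    · intro hn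
      exact ⟨⟨⟨n, hn⟩, (hA0 _).2 n.2⟩, Subtype.ext (hj _)⟩
    · rintro ⟨x, rfl⟩
      rw [hj]
      exact (x : G).2
  have hdzX := nw_gen p red π hπs (fun x : N => z x) j hji X hjV
    (Q₁.subgroupOf (Subgroup.normalizer (Q₁ : Set G))) ⊥ (by
      intro a h
      rw [Subgroup.mem_bot, Subtype.ext_iff]
      change _ ↔ π (j a) = 1
      rw [hπ1, hj, hmemQ, Subgroup.mem_subgroupOf]) (fun x => z x) (fun a => by rw [hj])
      (fun g x => hz.conj _ _) c
  have hcardA := card_gen π hπs j hji X hjV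
  rw [hπk, hcardQ] at hcardA
  -- the sum over the complements
  have hsum : (∑ R : Subgroup Γ,
      if IsPGroup p R ∧ R.subgroupOf G = Q₁ then wl p red z c R else 0) =
      Nat.card Q * ∑ R' : Subgroup (N ⧸ Q.subgroupOf N),
        if IsPGroup p R' ∧ X ⊓ R' = ⊥ then
          Nat.card (Subgroup.normalizer (R' : Set (N ⧸ Q.subgroupOf N))) *
            Nw p red (R'.subgroupOf (Subgroup.normalizer (R' : Set (N ⧸ Q.subgroupOf N))))
              (fun x => zY x) c else 0 := by
    rw [Finset.mul_sum, ← Finset.sum_filter]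
    have h3 : ∀ R' : Subgroup (N ⧸ Q.subgroupOf N), Nat.card Q *
        (if IsPGroup p R' ∧ X ⊓ R' = ⊥ then
          Nat.card (Subgroup.normalizer (R' : Set (N ⧸ Q.subgroupOf N))) *
            Nw p red (R'.subgroupOf (Subgroup.normalizer (R' : Set (N ⧸ Q.subgroupOf N))))
              (fun x => zY x) c else 0) =
        if IsPGroup p R' ∧ X ⊓ R' = ⊥ then
          Nat.card Q * (Nat.card (Subgroup.normalizer (R' : Set (N ⧸ Q.subgroupOf N))) *
            Nw p red (R'.subgroupOf (Subgroup.normalizer (R' : Set (N ⧸ Q.subgroupOf N))))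
              (fun x => zY x) c) else 0 := fun R' => by
      rw [mul_ite, mul_zero]
    rw [Finset.sum_congr rfl fun R' _ => h3 R', ← Finset.sum_filter]
    have hfix : ∀ R : Subgroup Γ, R.subgroupOf G = Q₁ →
        ((R.subgroupOf N).map π).comap π = R.subgroupOf N := by
      intro R hR
      rw [Subgroup.comap_map_eq, hπk, sup_eq_left]
      intro x hx
      exact ((hRQ R hR _).1 hx).1
    have hRN : ∀ R : Subgroup Γ, R.subgroupOf G = Q₁ → R ≤ N := by
      intro R hR
      rw [hNdef]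
      exact Subgroup.le_normalizer.trans (hNR R hR)
    refine Finset.sum_nbij' (fun R => (R.subgroupOf N).map π)
      (fun R' => (R'.comap π).map N.subtype) ?_ ?_ ?_ ?_ ?_
    · intro R hR
      rw [Finset.mem_filter] at hR ⊢
      obtain ⟨-, hR1, hR3⟩ := hR
      refine ⟨Finset.mem_univ _, IsPGroup.map (IsPGroup.comap_subtype hR1) π, ?_⟩
      · rw [eq_bot_iff]
        intro y hy
        obtain ⟨hy1, hy2⟩ := hy
        obtain ⟨r, hr, rfl⟩ := hy2
        have hy3 : (r : Γ) ∈ G := (hXm r).1 hy1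
        rw [Subgroup.mem_bot, hπ1, hRQ R hR3]
        exact ⟨hr, hy3⟩
    · intro R' hR'
      rw [Finset.mem_filter] at hR' ⊢
      obtain ⟨-, hR1, hR3⟩ := hR'
      have hker : IsPGroup p π.ker := by
        rw [hπk]
        exact IsPGroup.comap_subtype hQp
      refine ⟨Finset.mem_univ _, IsPGroup.map (IsPGroup.comap_of_ker_isPGroup hR1 π hker) _,
        ?_⟩
      · ext x
        rw [Subgroup.mem_subgroupOf]
        constructor
        · rintro ⟨n, hn, hnx⟩
          have hnx' : (n : Γ) = (x : Γ) := hnx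
          have h4 : π n ∈ X ⊓ R' := ⟨(hXm n).2 (by rw [hnx']; exact x.2), hn⟩
          rw [hR3, Subgroup.mem_bot, hπ1, hnx', hmemQ] at h4
          exact h4
        · intro hx
          have h4 : (x : Γ) ∈ Q := (hmemQ x).2 hx
          refine ⟨⟨x, hQN h4⟩, ?_, rfl⟩
          have h5 : π ⟨x, hQN h4⟩ = 1 := (hπ1 _).2 h4
          rw [SetLike.mem_coe, Subgroup.mem_comap, h5]
          exact R'.one_mem
    · intro R hR
      rw [Finset.mem_filter] at hR
      obtain ⟨-, hR1, hR3⟩ := hR
      rw [hfix R hR3, Subgroup.subgroupOf_map_subtype, inf_eq_left]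
      exact hRN R hR3
    · intro R' _
      have h4 : ((R'.comap π).map N.subtype).subgroupOf N = R'.comap π :=
        Subgroup.comap_map_eq_self_of_injective (Subgroup.subtype_injective N) _
      rw [h4, Subgroup.map_comap_eq_self_of_surjective hπs]
    · intro R hR
      rw [Finset.mem_filter] at hR
      obtain ⟨-, hR1, hR3⟩ := hR
      have hle : Subgroup.normalizer (R : Set Γ) ≤ N := by
        rw [hNdef]; exact hNR R hR3
      obtain ⟨i, hi⟩ : ∃ i : Subgroup.normalizer (R : Set Γ) →* N,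
          ∀ x, (i x : Γ) = (x : Γ) := ⟨Subgroup.inclusion hle, fun x => rfl⟩
      have hii : Function.Injective i := by
        intro x y hxy
        have h3 := congrArg (fun t : N => (t : Γ)) hxy
        simp only [hi] at h3
        exact Subtype.ext h3
      have hmem : ∀ n : N, π n ∈ (R.subgroupOf N).map π ↔ (n : Γ) ∈ R := by
        intro n
        have h4 := hfix R hR3
        have h5 : n ∈ ((R.subgroupOf N).map π).comap π ↔ n ∈ R.subgroupOf N := by rw [h4]
        rw [Subgroup.mem_comap, Subgroup.mem_subgroupOf] at h5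
        exact h5
      have hnn : (Subgroup.normalizer (((R.subgroupOf N).map π : Subgroup _) : Set
          (N ⧸ Q.subgroupOf N))).comap π = Subgroup.normalizer ((R.subgroupOf N : Subgroup N) :
            Set N) := by
        rw [Subgroup.comap_normalizer_eq_of_le_range (by rw [hπr]; exact le_top), hfix R hR3]
      have hnn2 : (Subgroup.normalizer (R : Set Γ)).comap N.subtype =
          Subgroup.normalizer ((R.subgroupOf N : Subgroup N) : Set N) :=
        Subgroup.comap_normalizer_eq_of_le_range (by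
          rw [Subgroup.range_subtype]; exact hRN R hR3)
      have hiV : ∀ n : N, π n ∈ Subgroup.normalizer (((R.subgroupOf N).map π : Subgroup _) :
          Set (N ⧸ Q.subgroupOf N)) ↔ n ∈ i.range := by
        intro n
        rw [← Subgroup.mem_comap, hnn, ← hnn2, Subgroup.mem_comap]
        constructor
        · intro hn
          exact ⟨⟨n, hn⟩, Subtype.ext (hi _)⟩
        · rintro ⟨x, rfl⟩
          change (i x : Γ) ∈ _
          rw [hi]
          exact x.2
      have h4 := card_gen π hπs i hii _ hiV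
      have h5 := nw_gen p red π hπs (fun x : N => z x) i hii _ hiV
        (R.subgroupOf (Subgroup.normalizer (R : Set Γ)))
        (((R.subgroupOf N).map π).subgroupOf _) (by
          intro a h
          rw [Subgroup.mem_subgroupOf, Subgroup.mem_subgroupOf]
          change _ ↔ π (i a) ∈ _
          rw [hmem, hi]) (fun x => z x) (fun a => by rw [hi]) (fun g x => hz.conj _ _) c
      unfold wl
      rw [h4, h5, hπk, hcardQ, mul_assoc, hzY]
  refine ⟨N ⧸ Q.subgroupOf N, inferInstance, inferInstance, X, hXn, zY, Nat.card Q, hInZ, hXidx,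
    hXsub, ?_, ?_⟩
  · unfold wl
    rw [hdzX, hcardA, hzY, mul_assoc]
  · rw [hsum]
    unfold dsum
    rw [finsum_eq_sum_of_fintype]

theorem ww_eq (red : integralClosure ℤ ℂ →+* F) (z : Γ → F) (c : F) :
    WW p red z c = ∑ Q : Subgroup Γ, if IsPGroup p Q then wl p red z c Q else 0 := by
  unfold WW
  rw [finsum_eq_sum_of_fintype]
  rfl

theorem ww_split (red : integralClosure ℤ ℂ →+* F) (G : Subgroup Γ) (z : Γ → F) (c : F) :
    WW p red z c = ∑ Q₁ : Subgroup G, if IsPGroup p Q₁ then (∑ R : Subgroup Γ,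
      if IsPGroup p R ∧ R.subgroupOf G = Q₁ then wl p red z c R else 0) else 0 := by
  rw [ww_eq, ← Finset.sum_filter, ← Finset.sum_filter]
  rw [← Finset.sum_fiberwise_of_maps_to (s := Finset.univ.filter fun Q : Subgroup Γ =>
    IsPGroup p Q) (t := Finset.univ.filter fun Q₁ : Subgroup G => IsPGroup p Q₁)
    (g := fun R => R.subgroupOf G) (by
      intro R hR
      rw [Finset.mem_filter] at hR ⊢
      exact ⟨Finset.mem_univ _, IsPGroup.comap_subtype hR.2⟩)]
  refine Finset.sum_congr rfl fun Q₁ _ => ?_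
  rw [Finset.filter_filter, ← Finset.sum_filter]

end Pool.Agent.J4.H3.PG.LIFTp

namespace Pool.Agent.J4.H3.PG

open Pool.Agent.Y63.NV
open Pool.Agent.Y487.NV

/-- LIFT: from the defect zero statements to all weights -/
theorem t_LIFT : S_LIFT := by
  intro h1 h2 p _ F _ _ _ red Γ _ _ G _ z c hz
  rw [LIFTp.ww_eq, LIFTp.ww_split red G, Finset.mul_sum, Finset.mul_sum]
  constructor
  · refine Finset.sum_le_sum fun Q₁ _ => ?_
    by_cases hQ : IsPGroup p Q₁
    · rw [if_pos hQ, if_pos hQ]
      obtain ⟨Y, _, _, X, _, zY, q, hin, hi, -, e1, e2⟩ :=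
        LIFTp.local_data red G z c hz Q₁ hQ
      rw [e1, e2, mul_left_comm (G.index ^ 2)]
      refine Nat.mul_le_mul_left q ((h1 p F red Y X zY c hin).trans ?_)
      exact Nat.mul_le_mul_right _ (Nat.pow_le_pow_left hi 2)
    · rw [if_neg hQ]
      exact Nat.zero_le _
  · refine Finset.sum_le_sum fun Q₁ _ => ?_
    by_cases hQ : IsPGroup p Q₁
    · rw [if_pos hQ, if_pos hQ]
      obtain ⟨Y, _, _, X, _, zY, q, hin, hi, hs, e1, e2⟩ :=
        LIFTp.local_data red G z c hz Q₁ hQ
      rw [e1, e2, mul_left_comm]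
      refine Nat.mul_le_mul_left q ((h2 p F red Y X zY c hin).trans ?_)
      exact Nat.mul_le_mul_right _ (Nat.mul_le_mul (Nat.pow_le_pow_left hi 3) hs)
    · rw [if_neg hQ]
      exact Nat.zero_le _

end Pool.Agent.J4.H3.PG
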