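import Pool.Agent.J4.H3.PG.D2

/-!
# SUBC: the number of subgroups
-/

set_option autoImplicit false

namespace Pool.Agent.J4.H3.PG

theorem two_mul_card_le {Q : Type} [Group Q] [Finite Q] {K K' : Subgroup Q} (h : K < K') :
    2 * Nat.card K ≤ Nat.card K' := by
  obtain ⟨m, hm⟩ := Subgroup.card_dvd_of_le h.le
  have h0 : 0 < Nat.card K := Nat.card_pos
  have h1 : Nat.card K < Nat.card K' := by
    by_contra hcon
    exact h.ne (Subgroup.eq_of_le_of_card_ge h.le (not_lt.1 hcon))
  rw [hm] at h1 ⊢
  have h2 : 1 < m := by
    by_contra hcon
    have : m ≤ 1 := not_lt.1 hcon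
    nlinarith
  nlinarith

theorem gen_step {Q : Type} [Group Q] [Finite Q] (H : Subgroup Q) (j : ℕ) :
    ∃ f : Fin j → Q, (∀ i, f i ∈ H) ∧ (Subgroup.closure (Set.range f) = H ∨
      2 ^ j ≤ Nat.card (Subgroup.closure (Set.range f))) := by
  induction j with
  | zero =>
    refine ⟨Fin.elim0, fun i => i.elim0, Or.inr ?_⟩
    rw [pow_zero]
    exact Nat.card_pos
  | succ j ih =>
    obtain ⟨f, hf, h⟩ := ih
    rcases h with h | h
    · refine ⟨Fin.cons 1 f, ?_, Or.inl ?_⟩
      · intro i
        refine Fin.cases ?_ (fun i => ?_) i
        · exact H.one_mem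
        · exact hf i
      · rw [Fin.range_cons, ← h]
        refine le_antisymm ((Subgroup.closure_le _).2 ?_)
          (Subgroup.closure_mono (Set.subset_insert _ _))
        exact Set.insert_subset (Subgroup.one_mem _) Subgroup.subset_closure
    · by_cases hH : Subgroup.closure (Set.range f) = H
      · refine ⟨Fin.cons 1 f, ?_, Or.inl ?_⟩
        · intro i
          refine Fin.cases ?_ (fun i => ?_) i
          · exact H.one_mem
          · exact hf i
        · rw [Fin.range_cons]
          conv_rhs => rw [← hH]
          refine le_antisymm ((Subgroup.closure_le _).2 ?_)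
            (Subgroup.closure_mono (Set.subset_insert _ _))
          exact Set.insert_subset (Subgroup.one_mem _) Subgroup.subset_closure
      · have hle : Subgroup.closure (Set.range f) ≤ H := by
          rw [Subgroup.closure_le]
          rintro _ ⟨i, rfl⟩
          exact hf i
        obtain ⟨x, hx, hx'⟩ := SetLike.exists_of_lt (lt_of_le_of_ne hle hH)
        refine ⟨Fin.cons x f, ?_, Or.inr ?_⟩
        · intro i
          refine Fin.cases ?_ (fun i => ?_) i
          · exact hx
          · exact hf i
        · have hlt : Subgroup.closure (Set.range f) <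
              Subgroup.closure (Set.range (Fin.cons x f : Fin (j + 1) → Q)) := by
            rw [Fin.range_cons]
            refine lt_of_le_of_ne (Subgroup.closure_mono (Set.subset_insert _ _)) fun h0 => hx' ?_
            rw [h0]
            exact Subgroup.subset_closure (Set.mem_insert _ _)
          have := two_mul_card_le hlt
          rw [pow_succ]
          omega

theorem t_SUBC : S_SUBC := by
  intro Q _ _
  set k := Nat.log 2 (Nat.card Q) with hk
  have hsurj : Function.Surjective (fun f : Fin k → Q => Subgroup.closure (Set.range f)) := by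
    intro H
    obtain ⟨f, hf, h⟩ := gen_step H k
    rcases h with h | h
    · exact ⟨f, h⟩
    · refine ⟨f, ?_⟩
      by_contra hH
      have hle : Subgroup.closure (Set.range f) ≤ H := by
        rw [Subgroup.closure_le]
        rintro _ ⟨i, rfl⟩
        exact hf i
      have h1 := two_mul_card_le (lt_of_le_of_ne hle hH)
      have h2 : Nat.card H ≤ Nat.card Q := Subgroup.card_le_card_group H
      have h3 : Nat.card Q < 2 ^ (k + 1) := Nat.lt_pow_succ_log_self (by norm_num) _
      rw [pow_succ] at h3
      omega
  have h1 := Nat.card_le_card_of_surjective _ hsurj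
  rwa [Nat.card_fun, Nat.card_fin] at h1

end Pool.Agent.J4.H3.PG
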