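import Pool.Agent.J4.H12.PG.Dc
import Pool.Agent.J4.H3.PG.D2

/-!
# The weight conjecture and perfect groups: piece UP
-/

set_option autoImplicit false
set_option linter.unusedSectionVars false

open scoped BigOperators Classical
open Pool.Agent.Helper884.IC
open Pool.Agent.Y63.AWC hiding ind
open Pool.Agent.Y63.NV (centralValue IsWt)

noncomputable section

namespace Pool.Agent.J4.H3.PG.UP

open Pool.Agent.J4.H12.PG

variable {X : Type} [Group X] [Fintype X] (M : Subgroup X) [hM : M.Normal]

theorem stabC_eq (θ : M → ℂ) : StabC M θ = (St M θ : Set X) := by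
  ext g
  constructor
  · intro h
    change cj M g θ = θ
    funext m
    exact h m (MulAut.conjNormal g m) (MulAut.conjNormal_apply g m)
  · intro h x y hxy
    have h1 : cj M g θ = θ := h
    have h2 : y = MulAut.conjNormal g x := Subtype.ext (by rw [hxy, MulAut.conjNormal_apply])
    rw [h2]
    exact congrFun h1 x

/-- **characters over a weight character with a small stabiliser** -/
theorem wt_up {p : ℕ} [hp : Fact p.Prime] (Q : Subgroup X) [hQn : Q.Normal] (hQM : Q ≤ M)
    {chi : X → ℂ} {theta : M → ℂ} (hc : IsIrrChar chi) (ht : IsIrrChar theta)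
    (hm : mult M chi theta ≠ 0) (hw : IsWt p (Q.subgroupOf M) theta)
    (hst : (Nat.card (St M theta)).factorization p = (Nat.card M).factorization p) :
    IsWt p Q chi := by
  have hi := infl_iff M Q hQM hc ht hm
  have hQc : Nat.card (Q.subgroupOf M) = Nat.card Q :=
    Nat.card_congr (Subgroup.subgroupOfEquivOfLe hQM).toEquiv
  obtain ⟨n, hn0, hn⟩ := deg_nat hc
  obtain ⟨d, hd0, hd⟩ := deg_nat ht
  refine ⟨hc, hi.2 hw.inflated, n, hn, ?_⟩
  apply le_antisymm (fac_le _ hc (hi.2 hw.inflated) hn)
  obtain ⟨d', hd', hdz⟩ := hw.defectZero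
  have hdd : d' = d := by
    rw [hd] at hd'
    exact_mod_cast hd'.symm
  subst hdd
  have h1 := deg_eq M hc ht hm hn hd
  have hO : (Orb M theta).card ≠ 0 := by
    intro h
    rw [h, zero_mul, zero_mul] at h1
    exact hn0.ne' h1
  have h2 : ((Orb M theta).card * d').factorization p ≤ n.factorization p :=
    (Nat.factorization_le_iff_dvd (Nat.mul_ne_zero hO hd0.ne') hn0.ne').2
      ⟨mult M chi theta, by rw [h1]; ring⟩ p
  rw [Nat.factorization_mul hO hd0.ne', Finsupp.add_apply] at h2
  have h3 : ((Orb M theta).card * Nat.card (St M theta)).factorization p =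
      (Nat.card X).factorization p := by
    rw [card_Orb_mul M theta]
  rw [Nat.factorization_mul hO Nat.card_pos.ne', Finsupp.add_apply, hst] at h3
  rw [hQc] at hdz
  omega

end Pool.Agent.J4.H3.PG.UP

open Pool.Agent.J4.H12.PG Pool.Agent.J4.H3.PG.UP in
/-- **UP** -/
theorem Pool.Agent.J4.H3.PG.t_UP : Pool.Agent.J4.H3.PG.S_UP := by
  intro p hp F _ _ _ red J _ _ I Q hI hQn z c hQI hQ hz
  cases nonempty_fintype J
  rw [nw_eq]
  set S := (Irr J).filter fun chi => IsWt p Q chi ∧ centralValue red chi z = c with hS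
  set T := (Irr I).filter fun theta => (IsWt p (Q.subgroupOf I) theta ∧
    centralValue red theta (fun x : I => z x) = c) ∧
    (Nat.card (StabC I theta)).factorization p = (Nat.card I).factorization p with hT
  have hTc : Nat.card {θ : I → ℂ // (IsWt p (Q.subgroupOf I) θ ∧
      centralValue red θ (fun x : I => z x) = c) ∧
      (Nat.card (StabC I θ)).factorization p = (Nat.card I).factorization p} = T.card := by
    rw [← Fintype.card_coe, ← Nat.card_eq_fintype_card]
    refine Nat.card_congr (Equiv.subtypeEquivRight fun theta => ?_)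
    rw [hT, Finset.mem_filter, mem_Irr]
    exact ⟨fun h => ⟨h.1.1.irr, h⟩, fun h => h.2⟩
  rw [hTc]
  have hST : ∀ (chi : J → ℂ) (theta : I → ℂ), IsIrrChar chi → IsIrrChar theta →
      mult I chi theta ≠ 0 → theta ∈ T → chi ∈ S := by
    intro chi theta hc ht hm hθ
    obtain ⟨_, ⟨h1, h2⟩, h3⟩ := Finset.mem_filter.1 hθ
    refine Finset.mem_filter.2 ⟨mem_Irr.2 hc, ?_, ?_⟩
    · refine wt_up I Q hQI hc ht hm h1 ?_
      rw [stabC_eq] at h3
      exact h3
    · rw [Pool.Agent.Y809.NV.cv_eq I red hc ht hm hz]
      exact h2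
  have h := Finset.card_mul_le_card_mul (s := T) (t := S) (m := 1) (n := I.index)
    (fun theta chi => mult I chi theta ≠ 0) (by
      intro theta htheta
      have ht := mem_Irr.1 (Finset.mem_filter.1 htheta).1
      obtain ⟨chi, hc, hm⟩ := exists_over I ht
      refine Finset.card_pos.2 ⟨chi, ?_⟩
      exact Finset.mem_filter.2 ⟨hST chi theta hc ht hm htheta, hm⟩) (by
      intro chi hchi
      have hc := mem_Irr.1 (Finset.mem_filter.1 hchi).1
      obtain ⟨theta, ht, hm⟩ := mult_exists I hc
      refine le_trans ?_ (card_Orb_le I theta ht)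
      rw [← support_eq I hc ht hm]
      refine Finset.card_le_card fun t htt => ?_
      obtain ⟨h1, h2⟩ := Finset.mem_filter.1 htt
      exact Finset.mem_filter.2 ⟨(Finset.mem_filter.1 h1).1, h2⟩)
  rw [mul_one, mul_comm] at h
  exact h
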