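import Pool.Agent.J4.H3.PG.W1D
import Pool.Agent.Y286.NV.Fin

/-!
# The weight conjecture and perfect groups: piece WB
-/

set_option autoImplicit false

open scoped Classical BigOperators

noncomputable section

namespace Pool.Agent.J4.H3.PG.WG1

open Pool.Agent.Y63.NV
open Pool.Agent.Y63.AWC (IsIrreducibleCharacter)
open Pool.Agent.J4.H3.PG.WG2 (IQ isoY)
open Pool.Agent.Y286.NV (ZG wtF exists_sep)

namespace WB

theorem fin_irr {J : Type} [Group J] [Finite J] : Finite {χ : J → ℂ // IsIrreducibleCharacter χ} := by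
  have : Fintype J := Fintype.ofFinite _
  exact (Pool.Agent.Helper884.IC.irr_finite (G := J)).to_subtype

variable {J : Type} [Group J]

/-- transport of a weight character of `N_Y(Q)` -/
theorem link {p : ℕ} {F : Type} [Field F] (red : integralClosure ℤ ℂ →+* F)
    [Finite J] (M Q Y : Subgroup J) [M.Normal] (hMY : M ≤ Y) (hY : M ⊔ Q = Y) (θ : M → ℂ)
    (hθ : IsIrreducibleCharacter θ)
    (χ : Subgroup.normalizer ((Q.subgroupOf Y : Subgroup Y) : Set Y) → ℂ)
    (hw : IsWt p ((Q.subgroupOf Y).subgroupOf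
      (Subgroup.normalizer ((Q.subgroupOf Y : Subgroup Y) : Set Y))) χ)
    (hs : wtF (M.subgroupOf Y) red
      (Subgroup.normalizer ((Q.subgroupOf Y : Subgroup Y) : Set Y)) χ =
      wtF (M.subgroupOf Y) red (M.subgroupOf Y)
        (fun x => θ (Subgroup.subgroupOfEquivOfLe hMY x))) :
    Lk p red M Q θ (fun x => χ (isoY M Q Y hY x)) := by
  refine ⟨Pool.Agent.Y624.NV.isWt_comp (isoY M Q Y hY) (fun x => ?_) hw, fun f hf => ?_⟩
  · rw [Subgroup.mem_subgroupOf, Subgroup.mem_subgroupOf, Subgroup.mem_subgroupOf,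
      Subgroup.mem_subgroupOf]
    exact Iff.rfl
  · rw [hY] at hf
    have hz : InZ (M.subgroupOf Y) (fun y : Y => f y) :=
      ⟨fun g x => hf.conj g g.2 x, fun x hx => hf.supp x fun hm => hx (by
        rw [Subgroup.mem_subgroupOf]
        exact hm)⟩
    have h1 := LinearMap.congr_fun hs (⟨_, hz⟩ : ZG F (M.subgroupOf Y))
    have h2 := Pool.Agent.Y624.NV.centralValue_comp red (isoY M Q Y hY) hw.irr
      (f := fun x => f x) (fun g x => hf.conj _ g.1.2 _)
    have h3 := Pool.Agent.Y624.NV.centralValue_comp red (Subgroup.subgroupOfEquivOfLe hMY) hθ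
      (f := fun x : M => f x) (fun g x => hf.conj _ (hMY g.2) _)
    exact h2.trans (Eq.trans h1 h3)

end WB

/-- **WB** -/
theorem t_WB : S_WB := by
  intro p _ F _ _ _ red J _ _ M Y _ hMY hpY θ hθ hfix
  have hInf : Infinite F := inferInstance
  set e2 := Subgroup.subgroupOfEquivOfLe hMY with he2
  set θ' : M.subgroupOf Y → ℂ := fun x => θ (e2 x) with hθ'
  have hwθ : IsWt p (⊥ : Subgroup (M.subgroupOf Y)) θ' :=
    Pool.Agent.Y624.NV.isWt_comp e2 (fun x => by
      rw [Subgroup.mem_bot, Subgroup.mem_bot]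
      exact e2.map_eq_one_iff) hθ
  have hpg : IsPGroup p (Y ⧸ M.subgroupOf Y) := by
    intro x
    obtain ⟨y, rfl⟩ := QuotientGroup.mk_surjective x
    obtain ⟨k, hk⟩ := hpY y y.2
    refine ⟨k, ?_⟩
    rw [← QuotientGroup.mk_pow, QuotientGroup.eq_one_iff, Subgroup.mem_subgroupOf]
    exact hk
  -- the labels
  have hfin : ∀ R : Subgroup Y, Finite {χ : Subgroup.normalizer (R : Set Y) → ℂ //
      IsIrreducibleCharacter χ} := fun R => WB.fin_irr
  let I : Type := Σ R : Subgroup Y, {χ : Subgroup.normalizer (R : Set Y) → ℂ //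
    IsIrreducibleCharacter χ}
  let μ : I → (ZG F (M.subgroupOf Y) →ₗ[F] F) := fun i => wtF (M.subgroupOf Y) red _ i.2.1
  obtain ⟨z, hz⟩ := exists_sep μ (wtF (M.subgroupOf Y) red (M.subgroupOf Y) θ')
  set c : F := wtF (M.subgroupOf Y) red (M.subgroupOf Y) θ' z with hc
  have key := dgnL' p F red Y (M.subgroupOf Y) z.1 c hpg z.2
  have hpos : 1 ≤ numInvDzL p red (M.subgroupOf Y) z.1 c := by
    unfold numInvDzL
    have hf : Finite {χ : M.subgroupOf Y → ℂ // (IsIrreducibleCharacter χ ∧
        (∃ n : ℕ, χ 1 = (n : ℂ) ∧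
          n.factorization p = (Nat.card (M.subgroupOf Y)).factorization p) ∧
        ∀ (y : Y) (a b : M.subgroupOf Y), (b : Y) = y * a * y⁻¹ → χ b = χ a) ∧
        centralValue red χ (fun x => z.1 x) = c} := by
      have := WB.fin_irr (J := M.subgroupOf Y)
      exact Finite.of_injective (fun χ => (⟨χ.1, χ.2.1.1⟩ : {χ : M.subgroupOf Y → ℂ //
        IsIrreducibleCharacter χ})) fun a b hab => Subtype.ext (congrArg (fun t => t.1) hab)
    have hne : Nonempty {χ : M.subgroupOf Y → ℂ // (IsIrreducibleCharacter χ ∧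
        (∃ n : ℕ, χ 1 = (n : ℂ) ∧
          n.factorization p = (Nat.card (M.subgroupOf Y)).factorization p) ∧
        ∀ (y : Y) (a b : M.subgroupOf Y), (b : Y) = y * a * y⁻¹ → χ b = χ a) ∧
        centralValue red χ (fun x => z.1 x) = c} := by
      refine ⟨θ', ⟨hwθ.irr, ?_, fun y a b hab => ?_⟩, rfl⟩
      · obtain ⟨n, h1, h2⟩ := hwθ.defectZero
        refine ⟨n, h1, ?_⟩
        rw [Subgroup.card_bot, Nat.factorization_one] at h2
        simpa using h2
      · refine hfix y y.2 _ _ ?_
        have := congrArg (fun t : Y => (t : J)) hab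
        exact this
    exact Nat.card_pos
  have : Fintype (Subgroup J) := Fintype.ofFinite _
  have : Fintype (Subgroup Y) := Fintype.ofFinite _
  rw [finsum_eq_sum_of_fintype, ← Finset.sum_filter] at key
  rw [finsum_eq_sum_of_fintype, ← Finset.sum_filter]
  set G : Subgroup Y → ℕ := fun R => Nat.card (Subgroup.normalizer (R : Set Y)) *
    Nw p red (R.subgroupOf (Subgroup.normalizer (R : Set Y))) (fun x => z.1 x) c with hG
  set H : Subgroup J → ℕ := fun Q => Nat.card (IQ M Q) *
    Nat.card {χ : IQ M Q → ℂ // Lk p red M Q θ χ} with hH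
  -- comparison
  have hcmp : ∀ Q : Subgroup J, M ⊔ Q = Y → G (Q.subgroupOf Y) ≤ H Q := by
    intro Q hY
    simp only [hG, hH]
    rw [Nat.card_congr (isoY M Q Y hY).toEquiv]
    refine Nat.mul_le_mul_left _ ?_
    unfold Nw
    have hf : Finite {χ : IQ M Q → ℂ // Lk p red M Q θ χ} := by
      have := WB.fin_irr (J := IQ M Q)
      exact Finite.of_injective (fun χ => (⟨χ.1, χ.2.1.irr⟩ : {χ : IQ M Q → ℂ //
        IsIrreducibleCharacter χ})) fun a b hab => Subtype.ext (congrArg (fun t => t.1) hab)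
    refine Nat.card_le_card_of_injective (fun χ => ⟨fun x => χ.1 (isoY M Q Y hY x),
      WB.link red M Q Y hMY hY θ hθ.irr χ.1 χ.2.1
        (hz ⟨_, χ.1, χ.2.1.irr⟩ χ.2.2)⟩) ?_
    intro a b hab
    refine Subtype.ext (funext fun y => ?_)
    have h1 := congrFun (congrArg (fun t => t.1) hab) ((isoY M Q Y hY).symm y)
    simpa using h1
  calc Nat.card Y ≤ Nat.card Y * numInvDzL p red (M.subgroupOf Y) z.1 c :=
        Nat.le_mul_of_pos_right _ hpos
    _ = ∑ R ∈ Finset.univ.filter (fun R : Subgroup Y => IsPGroup p R ∧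
          M.subgroupOf Y ⊔ R = ⊤ ∧ M.subgroupOf Y ⊓ R = ⊥), G R := key
    _ ≤ ∑ R ∈ Finset.univ.filter (fun R : Subgroup Y => IsPGroup p R ∧
          M.subgroupOf Y ⊔ R = ⊤ ∧ M.subgroupOf Y ⊓ R = ⊥), H (R.map Y.subtype) := by
        refine Finset.sum_le_sum fun R hR => ?_
        obtain ⟨_, _, hs, _⟩ := Finset.mem_filter.1 hR
        have hY : M ⊔ R.map Y.subtype = Y := by
          have h1 := congrArg (fun S : Subgroup Y => S.map Y.subtype) hs
          simp only [Subgroup.map_sup] at h1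
          rw [Subgroup.subgroupOf_map_subtype, inf_eq_left.2 hMY, ← MonoidHom.range_eq_map,
            Subgroup.range_subtype] at h1
          exact h1
        have h2 := hcmp (R.map Y.subtype) hY
        have h3 : (R.map Y.subtype).subgroupOf Y = R :=
          Subgroup.comap_map_eq_self_of_injective Y.subtype_injective R
        rwa [h3] at h2
    _ = ∑ Q ∈ (Finset.univ.filter (fun R : Subgroup Y => IsPGroup p R ∧
          M.subgroupOf Y ⊔ R = ⊤ ∧ M.subgroupOf Y ⊓ R = ⊥)).image
            (fun R => R.map Y.subtype), H Q := by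
        rw [Finset.sum_image]
        intro R _ R' _ h
        exact Subgroup.map_injective Y.subtype_injective h
    _ ≤ _ := by
        refine Finset.sum_le_sum_of_subset ?_
        intro Q hQ
        obtain ⟨R, hR, rfl⟩ := Finset.mem_image.1 hQ
        obtain ⟨_, h1, hs, hi⟩ := Finset.mem_filter.1 hR
        refine Finset.mem_filter.2 ⟨Finset.mem_univ _, ⟨h1.map _, ?_⟩, ?_⟩
        · rw [eq_bot_iff]
          rintro x ⟨hx1, r, hr, rfl⟩
          have : r ∈ M.subgroupOf Y ⊓ R := ⟨Subgroup.mem_subgroupOf.2 hx1, hr⟩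
          rw [hi, Subgroup.mem_bot] at this
          rw [this]
          exact Subgroup.mem_bot.2 rfl
        · have h1 := congrArg (fun S : Subgroup Y => S.map Y.subtype) hs
          simp only [Subgroup.map_sup] at h1
          rw [Subgroup.subgroupOf_map_subtype, inf_eq_left.2 hMY, ← MonoidHom.range_eq_map,
            Subgroup.range_subtype] at h1
          exact h1

end Pool.Agent.J4.H3.PG.WG1
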