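import Pool.Agent.J4.H3.PG.W1D

/-!
# The assembly of WG1
-/

set_option autoImplicit false

open scoped Classical BigOperators

noncomputable section

namespace Pool.Agent.J4.H3.PG.WG1

open Pool.Agent.Y63.NV
open Pool.Agent.Y63.AWC (IsIrreducibleCharacter)
open Pool.Agent.J4.H3.PG.WG2 (IQ)

section

variable {J : Type} [Group J]

/-- the stabiliser of `θ` as a subgroup -/
def stb (M : Subgroup J) [hM : M.Normal] (θ : M → ℂ) : Subgroup J where
  carrier := {g | Fix M θ g}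
  one_mem' := by
    intro x y hxy
    have : y = x := Subtype.ext (by rw [hxy]; group)
    rw [this]
  mul_mem' := by
    intro a b ha hb x y hxy
    let w : M := ⟨b * x * b⁻¹, hM.conj_mem x x.2 b⟩
    have h1 : θ w = θ x := hb x w rfl
    rw [← h1]
    refine ha w y ?_
    rw [hxy]
    change a * b * (x : J) * (a * b)⁻¹ = a * (b * x * b⁻¹) * a⁻¹
    group
  inv_mem' := by
    intro a ha x y hxy
    refine (ha y x ?_).symm
    rw [hxy]
    group

theorem mem_stb {M : Subgroup J} [M.Normal] {θ : M → ℂ} {g : J} : g ∈ stb M θ ↔ Fix M θ g :=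
  Iff.rfl

/-- the product of `Y` with a subgroup of its normaliser -/
def prd (Y P : Subgroup J) (hP : P ≤ Subgroup.normalizer (Y : Set J)) : Subgroup J where
  carrier := {x | ∃ a ∈ Y, ∃ b ∈ P, a * b = x}
  one_mem' := ⟨1, Y.one_mem, 1, P.one_mem, by group⟩
  mul_mem' := by
    rintro _ _ ⟨a, ha, b, hb, rfl⟩ ⟨a', ha', b', hb', rfl⟩
    have h := hP hb
    rw [Subgroup.mem_normalizer_iff] at h
    refine ⟨a * (b * a' * b⁻¹), Y.mul_mem ha ((h a').1 ha'), b * b', P.mul_mem hb hb', ?_⟩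
    group
  inv_mem' := by
    rintro _ ⟨a, ha, b, hb, rfl⟩
    have h := hP (P.inv_mem hb)
    rw [Subgroup.mem_normalizer_iff] at h
    refine ⟨b⁻¹ * a⁻¹ * (b⁻¹)⁻¹, (h a⁻¹).1 (Y.inv_mem ha), b⁻¹, P.inv_mem hb, ?_⟩
    group

theorem pow_prd (Y : Subgroup J) {a b : J} (ha : a ∈ Y)
    (hb : b ∈ Subgroup.normalizer (Y : Set J)) (n : ℕ) : ∃ a' ∈ Y, (a * b) ^ n = a' * b ^ n := by
  induction n with
  | zero => exact ⟨1, Y.one_mem, by simp⟩
  | succ n ih =>
    obtain ⟨a', ha', h⟩ := ih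
    have h1 := (Subgroup.normalizer (Y : Set J)).pow_mem hb n
    rw [Subgroup.mem_normalizer_iff] at h1
    refine ⟨a' * (b ^ n * a * (b ^ n)⁻¹), Y.mul_mem ha' ((h1 a).1 ha), ?_⟩
    rw [pow_succ, h, pow_succ]
    group

/-- a maximal `p`-extension of `M` in the stabiliser -/
theorem exists_Y [Finite J] (p : ℕ) (M : Subgroup J) [M.Normal] (θ : M → ℂ)
    (hθ : ∀ g x : M, θ (g * x * g⁻¹) = θ x) :
    ∃ Y : Subgroup J, M ≤ Y ∧ (∀ y ∈ Y, ∃ k : ℕ, y ^ p ^ k ∈ M) ∧ (∀ g ∈ Y, Fix M θ g) ∧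
      ∀ P : Subgroup J, IsPGroup p P → (∀ g ∈ P, Fix M θ g) →
        P ≤ Subgroup.normalizer (Y : Set J) → P ≤ Y := by
  let s : Set (Subgroup J) := {Y | M ≤ Y ∧ (∀ y ∈ Y, ∃ k : ℕ, y ^ p ^ k ∈ M) ∧ Y ≤ stb M θ}
  have hs : s.Nonempty := by
    refine ⟨M, le_rfl, fun y hy => ⟨0, by simpa using hy⟩, ?_⟩
    intro g hg x y hxy
    have : y = ⟨g, hg⟩ * x * (⟨g, hg⟩ : M)⁻¹ := Subtype.ext hxy
    rw [this]
    exact hθ _ _
  obtain ⟨Y, hY⟩ := s.toFinite.exists_maximal hs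
  refine ⟨Y, hY.prop.1, hY.prop.2.1, fun g hg => hY.prop.2.2 hg, fun P hP hfix hn => ?_⟩
  have h1 : Y ⊔ P ≤ prd Y P hn := by
    refine sup_le (fun a ha => ⟨a, ha, 1, P.one_mem, by group⟩)
      (fun b hb => ⟨1, Y.one_mem, b, hb, by group⟩)
  have h2 : Y ⊔ P ∈ s := by
    refine ⟨hY.prop.1.trans le_sup_left, fun x hx => ?_, sup_le hY.prop.2.2 fun g hg => hfix g hg⟩
    obtain ⟨a, ha, b, hb, rfl⟩ := h1 hx
    obtain ⟨k, hk⟩ := hP ⟨b, hb⟩
    have hk' : b ^ p ^ k = 1 := congrArg Subtype.val hk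
    obtain ⟨a', ha', h3⟩ := pow_prd Y ha (hn hb) (p ^ k)
    rw [hk', mul_one] at h3
    obtain ⟨l, hl⟩ := hY.prop.2.1 a' ha'
    refine ⟨k + l, ?_⟩
    rw [pow_add, pow_mul, h3]
    exact hl
  exact le_sup_right.trans (hY.le_of_ge h2 le_sup_left)

theorem lk_finite [Finite J] (p : ℕ) {F : Type} [Field F] (red : integralClosure ℤ ℂ →+* F)
    (M Q : Subgroup J) (θ : M → ℂ) : Finite {χ : IQ M Q → ℂ // Lk p red M Q θ χ} := by
  have : Fintype (IQ M Q) := Fintype.ofFinite _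
  exact (Set.Finite.subset (Pool.Agent.Helper884.IC.irr_finite (G := IQ M Q))
    fun χ hχ => hχ.1.irr).to_subtype

theorem wg1 (h : S_UP) (hB : S_WB) (hS : S_WS) (hI : S_WI) : S_WG1 := by
  intro p _ F _ _ _ red J _ _ M _ z c hz
  have : Fintype (Subgroup J) := Fintype.ofFinite _
  have : Fintype M := Fintype.ofFinite _
  let Θ : Type := {θ : M → ℂ // IsWt p (⊥ : Subgroup M) θ ∧
    centralValue red θ (fun x : M => z x) = c}
  have hΘ : Finite Θ := (Set.Finite.subset (Pool.Agent.Helper884.IC.irr_finite (G := M))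
    fun χ hχ => hχ.1.irr).to_subtype
  have : Fintype Θ := Fintype.ofFinite _
  have hY : ∀ θ : Θ, ∃ Y : Subgroup J, M ≤ Y ∧ (∀ y ∈ Y, ∃ k : ℕ, y ^ p ^ k ∈ M) ∧
      (∀ g ∈ Y, Fix M θ.1 g) ∧ ∀ P : Subgroup J, IsPGroup p P → (∀ g ∈ P, Fix M θ.1 g) →
        P ≤ Subgroup.normalizer (Y : Set J) → P ≤ Y := fun θ =>
    exists_Y p M θ.1 fun g x => Pool.Agent.Y624.NV.irr_class θ.2.1.irr g x
  choose Y h1 h2 h3 h4 using hY
  -- the bound for one subgroup
  have hin : ∀ Q : Subgroup J, IsPGroup p Q →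
      ∑ θ : Θ, (if M ⊔ Q = Y θ then Nat.card {χ : IQ M Q → ℂ // Lk p red M Q θ.1 χ} else 0) ≤
        (IQ M Q).index * Nw p red (Q.subgroupOf (Subgroup.normalizer (Q : Set J)))
          (fun x => z x) c := by
    intro Q hQ
    have hn := WG2.IQ_normal M Q
    have hfin : ∀ θ : Θ, Finite {χ : IQ M Q → ℂ // Lk p red M Q θ.1 χ} := fun θ =>
      lk_finite p red M Q θ.1
    have hzY : InZY M (M ⊔ Q) z := ⟨fun g _ x => hz.conj g x, hz.supp⟩
    rw [← Finset.sum_filter, Finset.sum_subtype (p := fun θ : Θ => M ⊔ Q = Y θ) _ (by simp) _,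
      ← Nat.card_sigma]
    have hle : Q.subgroupOf (Subgroup.normalizer (Q : Set J)) ≤ IQ M Q := by
      intro x hx
      rw [Subgroup.mem_subgroupOf] at hx ⊢
      exact Subgroup.mem_sup_right hx
    refine le_trans ?_ (h p F red (Subgroup.normalizer (Q : Set J)) (IQ M Q)
      (Q.subgroupOf (Subgroup.normalizer (Q : Set J))) (fun x => z x) c hle hQ.comap_subtype
      (WG2.InZ_IQ M Q hz))
    have hfU : Finite {χ : IQ M Q → ℂ //
        (IsWt p ((Q.subgroupOf (Subgroup.normalizer (Q : Set J))).subgroupOf (IQ M Q)) χ ∧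
          centralValue red χ (fun x : IQ M Q => z x) = c) ∧
        (Nat.card (StabC (IQ M Q) χ)).factorization p =
          (Nat.card (IQ M Q)).factorization p} := by
      have : Fintype (IQ M Q) := Fintype.ofFinite _
      exact (Set.Finite.subset (Pool.Agent.Helper884.IC.irr_finite (G := IQ M Q))
        fun χ hχ => hχ.1.1.irr).to_subtype
    refine Nat.card_le_card_of_injective (β := {χ : IQ M Q → ℂ //
        (IsWt p ((Q.subgroupOf (Subgroup.normalizer (Q : Set J))).subgroupOf (IQ M Q)) χ ∧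
          centralValue red χ (fun x : IQ M Q => z x) = c) ∧
        (Nat.card (StabC (IQ M Q) χ)).factorization p =
          (Nat.card (IQ M Q)).factorization p}) (fun s => ⟨s.2.1, ⟨s.2.2.1, ?_⟩, ?_⟩) ?_
    · rw [s.2.2.2 z hzY]
      exact s.1.1.2.2
    · exact hS p F red J M (Y s.1.1) Q s.1.1.1 s.2.1 (h1 _) (h2 _) s.1.1.2.1 (h3 _) (h4 _) hQ
        s.1.2 s.2.2
    · rintro ⟨⟨θ1, a1⟩, ⟨χ1, b1⟩⟩ ⟨⟨θ2, a2⟩, ⟨χ2, b2⟩⟩ hab
      have e1 : χ1 = χ2 := congrArg (fun t => t.1) hab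
      subst e1
      have e2 : θ1 = θ2 := by
        refine Subtype.ext (hI p F red J M (M ⊔ Q) le_sup_left ?_ θ1.1 θ2.1 θ1.2.1 θ2.2.1 ?_ ?_ ?_)
        · rw [a1]
          exact h2 θ1
        · rw [a1]
          exact h3 θ1
        · rw [a2]
          exact h3 θ2
        · intro f hf
          rw [← b1.2 f hf, ← b2.2 f hf]
      subst e2
      rfl
  -- the sum
  have hsum : Nat.card M * Nat.card Θ ≤ dsum p red M z c := by
    calc Nat.card M * Nat.card Θ = ∑ _θ : Θ, Nat.card M := by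
          rw [Finset.sum_const, Finset.card_univ, smul_eq_mul, Nat.card_eq_fintype_card (α := Θ),
            mul_comm]
      _ ≤ ∑ θ : Θ, ∑ Q : Subgroup J, (if (IsPGroup p Q ∧ M ⊓ Q = ⊥) ∧ M ⊔ Q = Y θ then
            Nat.card (IQ M Q) * Nat.card {χ : IQ M Q → ℂ // Lk p red M Q θ.1 χ} else 0) := by
          refine Finset.sum_le_sum fun θ _ => ?_
          have h5 := hB p F red J M (Y θ) (h1 θ) (h2 θ) θ.1 θ.2.1 (h3 θ)
          rw [finsum_eq_sum_of_fintype] at h5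
          exact (Nat.le_of_dvd Nat.card_pos (Subgroup.card_dvd_of_le (h1 θ))).trans h5
      _ = ∑ Q : Subgroup J, (if IsPGroup p Q ∧ M ⊓ Q = ⊥ then Nat.card (IQ M Q) *
            ∑ θ : Θ, (if M ⊔ Q = Y θ then
              Nat.card {χ : IQ M Q → ℂ // Lk p red M Q θ.1 χ} else 0) else 0) := by
          rw [Finset.sum_comm]
          refine Finset.sum_congr rfl fun Q _ => ?_
          by_cases hQ : IsPGroup p Q ∧ M ⊓ Q = ⊥
          · rw [if_pos hQ, Finset.mul_sum]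
            refine Finset.sum_congr rfl fun θ _ => ?_
            by_cases hy : M ⊔ Q = Y θ
            · rw [if_pos ⟨hQ, hy⟩, if_pos hy]
            · rw [if_neg (fun h => hy h.2), if_neg hy, mul_zero]
          · rw [if_neg hQ]
            exact Finset.sum_eq_zero fun θ _ => if_neg fun h => hQ h.1
      _ ≤ ∑ Q : Subgroup J, (if IsPGroup p Q ∧ M ⊓ Q = ⊥ then
            Nat.card (Subgroup.normalizer (Q : Set J)) *
              Nw p red (Q.subgroupOf (Subgroup.normalizer (Q : Set J))) (fun x => z x) c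
            else 0) := by
          refine Finset.sum_le_sum fun Q _ => ?_
          by_cases hQ : IsPGroup p Q ∧ M ⊓ Q = ⊥
          · rw [if_pos hQ, if_pos hQ, ← (IQ M Q).card_mul_index, mul_assoc]
            exact Nat.mul_le_mul_left _ (hin Q hQ.1)
          · rw [if_neg hQ, if_neg hQ]
      _ = dsum p red M z c := by
          unfold dsum
          rw [finsum_eq_sum_of_fintype]
  refine hsum.trans (Nat.le_mul_of_pos_left _ ?_)
  exact pow_pos (Nat.pos_of_ne_zero Subgroup.FiniteIndex.index_ne_zero) 2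

end

end Pool.Agent.J4.H3.PG.WG1
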