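import Pool.Agent.J4.H3.PG.W1D

/-!
# The weight conjecture and perfect groups: piece WS (the stabiliser of a weight character)
-/

set_option autoImplicit false

open scoped Classical BigOperators

noncomputable section

namespace Pool.Agent.J4.H3.PG.WG1

open Pool.Agent.Y63.NV
open Pool.Agent.Y63.AWC (IsIrreducibleCharacter)
open Pool.Agent.J4.H3.PG.WG2 (IQ IQ_normal mem_sup')
open Pool.Agent.Y624.NV (irr_class centralValue_comp isWt_comp)

namespace WSAux

variable {J : Type} [Group J]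

/-- the stabiliser as a subgroup -/
def stS (I : Subgroup J) [I.Normal] (θ : I → ℂ) : Subgroup J where
  carrier := StabC I θ
  one_mem' x y h := by
    have : y = x := Subtype.ext (by rw [h]; group)
    rw [this]
  mul_mem' {g h} hg hh x y hxy := by
    have hz : h * x * h⁻¹ ∈ I := Subgroup.Normal.conj_mem ‹I.Normal› x x.2 h
    have h1 := hh x ⟨_, hz⟩ rfl
    have h2 := hg ⟨_, hz⟩ y (by
      show (y : J) = g * (h * x * h⁻¹) * g⁻¹
      rw [hxy]; group)
    exact h2.trans h1
  inv_mem' {g} hg x y hxy := by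
    refine (hg y x ?_).symm
    rw [hxy]; group

theorem conj_sup {M Q : Subgroup J} [M.Normal] {g x : J}
    (hg : g ∈ Subgroup.normalizer (Q : Set J)) (hx : x ∈ M ⊔ Q) : g * x * g⁻¹ ∈ M ⊔ Q := by
  rw [mem_sup'] at hx ⊢
  obtain ⟨a, ha, b, hb, hab⟩ := hx
  rw [Subgroup.mem_normalizer_iff] at hg
  refine ⟨g * a * g⁻¹, Subgroup.Normal.conj_mem ‹M.Normal› a ha g,
    g * b * g⁻¹, (hg b).1 hb, ?_⟩
  rw [← hab]
  group

theorem conj_sup' {M Q : Subgroup J} [M.Normal] {g x : J}
    (hg : g ∈ Subgroup.normalizer (Q : Set J)) (hx : x ∈ M ⊔ Q) : g⁻¹ * x * g ∈ M ⊔ Q := by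
  have h := conj_sup (M := M) ((Subgroup.normalizer (Q : Set J)).inv_mem hg) hx
  rwa [inv_inv] at h

theorem norm_sup {M Q : Subgroup J} [M.Normal] {g : J}
    (hg : g ∈ Subgroup.normalizer (Q : Set J)) :
    g ∈ Subgroup.normalizer ((M ⊔ Q : Subgroup J) : Set J) := by
  rw [Subgroup.mem_normalizer_iff]
  intro x
  refine ⟨fun hx => conj_sup hg hx, fun hx => ?_⟩
  have h := conj_sup' hg hx
  have h2 : g⁻¹ * (g * x * g⁻¹) * g = x := by group
  rwa [h2] at h

/-- the conjugate function -/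
def cf {F : Type} (g : J) (f : J → F) : J → F := fun x => f (g⁻¹ * x * g)

theorem inZY_cf {F : Type} [Field F] {M Q : Subgroup J} [M.Normal] {g : J}
    (hg : g ∈ Subgroup.normalizer (Q : Set J)) {f : J → F} (hf : InZY M (M ⊔ Q) f) :
    InZY M (M ⊔ Q) (cf g f) where
  conj k hk x := by
    show f (g⁻¹ * (k * x * k⁻¹) * g) = f (g⁻¹ * x * g)
    rw [← hf.conj (g⁻¹ * k * g) (conj_sup' hg hk) (g⁻¹ * x * g)]
    congr 1
    group
  supp x hx := by
    refine hf.supp _ fun h => hx ?_
    have h1 := Subgroup.Normal.conj_mem ‹M.Normal› _ h g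
    have h2 : g * (g⁻¹ * x * g) * g⁻¹ = x := by group
    rwa [h2] at h1

/-- the conjugate character -/
def cg (M : Subgroup J) [M.Normal] (g : J) (θ : M → ℂ) : M → ℂ :=
  fun x => θ ((MulAut.conjNormal g : M ≃* M) x)

theorem cv_cg {F : Type} [Field F] (red : integralClosure ℤ ℂ →+* F) (I : Subgroup J) [I.Normal]
    (g : J) {θ : I → ℂ} (hθ : IsIrreducibleCharacter θ) {f f' : I → F}
    (hff : ∀ x y : I, (y : J) = g * x * g⁻¹ → f' y = f x) (hf' : IsClassFun f') :
    centralValue red (cg I g θ) f = centralValue red θ f' := by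
  have h := centralValue_comp red (MulAut.conjNormal g : I ≃* I) hθ hf'
  have h2 : (fun x => f' ((MulAut.conjNormal g : I ≃* I) x)) = f :=
    funext fun x => hff x _ (MulAut.conjNormal_apply g x)
  rw [h2] at h
  exact h

theorem fix_of (h : S_WI) (p : ℕ) [Fact p.Prime] (F : Type) [Field F] [IsAlgClosed F] [CharP F p]
    (red : integralClosure ℤ ℂ →+* F) [Finite J] (M Q : Subgroup J)
    [M.Normal] (θ : M → ℂ) (χ : IQ M Q → ℂ)
    (hp : ∀ y ∈ M ⊔ Q, ∃ k : ℕ, y ^ p ^ k ∈ M) (hw : IsWt p (⊥ : Subgroup M) θ)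
    (hfix : ∀ g ∈ M ⊔ Q, Fix M θ g) (hL : Lk p red M Q θ χ)
    (n : Subgroup.normalizer (Q : Set J)) (hn : n ∈ StabC (IQ M Q) χ) : Fix M θ n := by
  have hI := IQ_normal M Q
  have hMY : M ≤ M ⊔ Q := le_sup_left
  have key : cg M (n : J) θ = θ := by
    refine h p F red J M (M ⊔ Q) hMY hp (cg M (n : J) θ) θ ?_ hw ?_ hfix ?_
    · refine isWt_comp (MulAut.conjNormal (n : J) : M ≃* M) (fun x => ?_) hw
      rw [Subgroup.mem_bot, Subgroup.mem_bot]
      exact (MulAut.conjNormal (n : J) : M ≃* M).map_eq_one_iff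
    · intro k hk x y hxy
      refine hfix ((n : J) * k * (n : J)⁻¹) (conj_sup n.2 hk) _ _ ?_
      rw [MulAut.conjNormal_apply, MulAut.conjNormal_apply, hxy]
      group
    · intro f hf
      have hf' := inZY_cf n.2 hf
      have h1 : centralValue red (cg M (n : J) θ) (fun x : M => f x) =
          centralValue red θ (fun x : M => cf (n : J) f x) := by
        refine cv_cg red M (n : J) hw.irr (fun x y hxy => ?_) (fun g x => ?_)
        · show f ((n : J)⁻¹ * y * n) = f x
          rw [hxy]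
          congr 1
          group
        · exact hf'.conj _ (hMY g.2) _
      have h2 : centralValue red (cg (IQ M Q) n χ) (fun x : IQ M Q => f x) =
          centralValue red χ (fun x : IQ M Q => cf (n : J) f x) := by
        refine cv_cg red (IQ M Q) n hL.1.irr (fun x y hxy => ?_) (fun g x => ?_)
        · show f ((n : J)⁻¹ * (y : Subgroup.normalizer (Q : Set J)) * n) = f x
          rw [hxy]
          simp only [Subgroup.coe_mul, Subgroup.coe_inv]
          congr 1
          group
        · have hg : ((g : Subgroup.normalizer (Q : Set J)) : J) ∈ M ⊔ Q :=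
            Subgroup.mem_subgroupOf.1 g.2
          exact hf'.conj _ hg _
      have h3 : cg (IQ M Q) n χ = χ := funext fun x => hn x _ (MulAut.conjNormal_apply n x)
      rw [h1, ← hL.2 _ hf', ← h2, h3, hL.2 _ hf]
  intro x y hxy
  have h1 : y = (MulAut.conjNormal (n : J) : M ≃* M) x :=
    Subtype.ext (by rw [hxy, MulAut.conjNormal_apply])
  rw [h1]
  exact congrFun key x

end WSAux

open WSAux

/-- **WS** -/
theorem t_WS (h : S_WI) : S_WS := by
  intro p hpp F _ _ _ red J _ _ M Y Q _ θ χ hMY hp hw hfix hmax hQ hY hL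
  subst hY
  have hI := IQ_normal M Q
  change (Nat.card (stS (IQ M Q) χ)).factorization p = _
  have hle : IQ M Q ≤ stS (IQ M Q) χ := by
    intro g hg x y hxy
    have h1 : y = ⟨g, hg⟩ * x * (⟨g, hg⟩ : IQ M Q)⁻¹ := Subtype.ext hxy
    rw [h1]
    exact irr_class hL.1.irr _ _
  obtain ⟨P⟩ : Nonempty (Sylow p (stS (IQ M Q) χ)) := inferInstance
  have hP := P.card_eq_multiplicity
  set P1 : Subgroup (Subgroup.normalizer (Q : Set J)) := P.1.map (stS (IQ M Q) χ).subtype with hP1
  have hc : Nat.card P1 = Nat.card P.1 :=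
    Nat.card_congr (P.1.equivMapOfInjective _ (Subgroup.subtype_injective _)).symm.toEquiv
  have hP2 : P1.map (Subgroup.normalizer (Q : Set J)).subtype ≤ M ⊔ Q := by
    refine hmax _ ((P.2.map _).map _) ?_ ?_
    · rintro g ⟨n, hn, rfl⟩
      obtain ⟨s, hs, rfl⟩ := hn
      exact fix_of h p F red M Q θ χ hp hw hfix hL _ s.2
    · rintro g ⟨n, hn, rfl⟩
      exact norm_sup n.2
  have hP3 : P1 ≤ IQ M Q := by
    intro n hn
    rw [Subgroup.mem_subgroupOf]
    exact hP2 ⟨n, hn, rfl⟩
  apply le_antisymm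
  · have h1 : p ^ (Nat.card (stS (IQ M Q) χ)).factorization p ∣ Nat.card (IQ M Q) := by
      rw [← hP, show Nat.card P = Nat.card P1 from hc.symm]
      exact Subgroup.card_dvd_of_le hP3
    exact (hpp.out.pow_dvd_iff_le_factorization Nat.card_pos.ne').1 h1
  · exact (Nat.factorization_le_iff_dvd Nat.card_pos.ne' Nat.card_pos.ne').2
      (Subgroup.card_dvd_of_le hle) p

end Pool.Agent.J4.H3.PG.WG1
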