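import Pool.Agent.J4.H3.PG.T_WI
import Pool.Agent.J4.H3.PG.T_WB
import Pool.Agent.J4.H3.PG.T_WS
import Pool.Agent.J4.H3.PG.T_WG1a

/-!
# WG1
-/

set_option autoImplicit false

namespace Pool.Agent.J4.H3.PG

theorem t_WG1 (h : S_UP) : S_WG1 := WG1.wg1 h WG1.t_WB (WG1.t_WS WG1.t_WI) WG1.t_WI

end Pool.Agent.J4.H3.PG
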