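import Pool.Agent.J4.H3.PG.D2
import Pool.Agent.Y624.NV.Trn
import Pool.Agent.Y63.NV.Infl
import Pool.Agent.Y63.NV.PeL

/-!
# The weight conjecture and perfect groups: piece WG2
-/

set_option autoImplicit false

open scoped Classical BigOperators

noncomputable section

namespace Pool.Agent.J4.H3.PG

open Pool.Agent.Y63.NV
open Pool.Agent.Y63.AWC (IsIrreducibleCharacter)

namespace WG2

variable {J : Type} [Group J]

theorem mem_sup' {M Q : Subgroup J} [M.Normal] {x : J} :
    x ∈ M ⊔ Q ↔ ∃ a ∈ M, ∃ b ∈ Q, a * b = x := by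
  rw [← SetLike.mem_coe, Subgroup.normal_mul, Set.mem_mul]
  rfl

/-- `N_{MQ}(Q)` as a subgroup of `N_J(Q)` -/
abbrev IQ (M Q : Subgroup J) : Subgroup (Subgroup.normalizer (Q : Set J)) :=
  (M ⊔ Q).subgroupOf (Subgroup.normalizer (Q : Set J))

theorem IQ_normal (M Q : Subgroup J) [M.Normal] : (IQ M Q).Normal := by
  refine ⟨fun x hx g => ?_⟩
  rw [Subgroup.mem_subgroupOf] at hx ⊢
  have hx' : (x : J) ∈ M ⊔ Q := hx
  show (g : J) * x * (g : J)⁻¹ ∈ M ⊔ Q
  rw [mem_sup'] at hx' ⊢
  obtain ⟨a, ha, b, hb, hab⟩ := hx'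
  have hg := g.2
  rw [Subgroup.mem_normalizer_iff] at hg
  refine ⟨g * a * (g : J)⁻¹, Subgroup.Normal.conj_mem ‹M.Normal› a ha g,
    g * b * (g : J)⁻¹, (hg b).1 hb, ?_⟩
  rw [← hab]
  group

theorem InZ_IQ {F : Type} [Field F] (M Q : Subgroup J) {z : J → F} (hz : InZ M z) :
    InZ (IQ M Q) (fun x => z x) where
  conj g x := hz.conj g x
  supp x hx := hz.supp x fun h => hx (by
    rw [Subgroup.mem_subgroupOf]
    exact Subgroup.mem_sup_left h)

theorem IQ_index [Finite J] (M Q : Subgroup J) [M.Normal] : (IQ M Q).index ≤ M.index := by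
  have h1 : (IQ M Q).index = (M ⊔ Q).relIndex (Subgroup.normalizer (Q : Set J)) := rfl
  have h2 : (M ⊔ Q).relIndex (Subgroup.normalizer (Q : Set J)) ≤ (M ⊔ Q).relIndex ⊤ :=
    Subgroup.relIndex_le_of_le_right le_top (by
      rw [Subgroup.relIndex_top_right]
      exact Subgroup.FiniteIndex.index_ne_zero)
  rw [Subgroup.relIndex_top_right] at h2
  rw [h1]
  exact h2.trans (Nat.le_of_dvd (Nat.pos_of_ne_zero Subgroup.FiniteIndex.index_ne_zero)
    (Subgroup.index_dvd_of_le le_sup_left))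

/-- the term for `N_{MQ}(Q)` -/
def gt (p : ℕ) {F : Type} [Field F] (red : integralClosure ℤ ℂ →+* F) (M Q : Subgroup J)
    (z : J → F) (c : F) : ℕ :=
  Nat.card (IQ M Q) * Nw p red ((Q.subgroupOf (Subgroup.normalizer (Q : Set J))).subgroupOf (IQ M Q))
    (fun x : IQ M Q => z x) c

/-- comparison of `N_J(Q)` and `N_{MQ}(Q)` -/
theorem step1 (h : S_DCG) (p : ℕ) [Fact p.Prime] {F : Type} [Field F] [IsAlgClosed F] [CharP F p]
    (red : integralClosure ℤ ℂ →+* F) [Finite J] (M Q : Subgroup J) [M.Normal] (z : J → F) (c : F)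
    (hz : InZ M z) (hQ : IsPGroup p Q) :
    Nat.card (Subgroup.normalizer (Q : Set J)) *
      Nw p red (Q.subgroupOf (Subgroup.normalizer (Q : Set J))) (fun x => z x) c ≤
      M.index ^ 2 * gt p red M Q z c := by
  have hn := IQ_normal M Q
  have hle : Q.subgroupOf (Subgroup.normalizer (Q : Set J)) ≤ IQ M Q := by
    intro x hx
    rw [Subgroup.mem_subgroupOf] at hx ⊢
    exact Subgroup.mem_sup_right hx
  have hpg : IsPGroup p (Q.subgroupOf (Subgroup.normalizer (Q : Set J))) :=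
    hQ.comap_subtype
  have h1 := h p F red (Subgroup.normalizer (Q : Set J)) (IQ M Q)
    (Q.subgroupOf (Subgroup.normalizer (Q : Set J))) (fun x => z x) c hle hpg (InZ_IQ M Q hz)
  have h2 := IQ_index M Q
  have h3 := (IQ M Q).card_mul_index
  unfold gt
  rw [← h3]
  calc Nat.card (IQ M Q) * (IQ M Q).index *
        Nw p red (Q.subgroupOf (Subgroup.normalizer (Q : Set J))) (fun x => z x) c
      ≤ Nat.card (IQ M Q) * M.index * (M.index * Nw p red
        ((Q.subgroupOf (Subgroup.normalizer (Q : Set J))).subgroupOf (IQ M Q))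
          (fun x : IQ M Q => z x) c) := by
        refine Nat.mul_le_mul (Nat.mul_le_mul_left _ h2) (h1.trans (Nat.mul_le_mul_right _ h2))
    _ = _ := by ring

/-- the isomorphism of `N_{MQ}(Q)` with the normaliser in `Y = MQ` -/
def isoY (M Q Y : Subgroup J) (hY : M ⊔ Q = Y) :
    IQ M Q ≃* Subgroup.normalizer ((Q.subgroupOf Y : Subgroup Y) : Set Y) where
  toFun x := ⟨⟨x.1.1, hY ▸ x.2⟩, Pool.Agent.Y624.NV.norm_fwd (hY ▸ x.2) x.1.2⟩
  invFun y := ⟨⟨y.1.1, Pool.Agent.Y624.NV.norm_bwd (hY ▸ le_sup_right) y.2⟩, by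
    rw [Subgroup.mem_subgroupOf]
    exact hY ▸ y.1.2⟩
  left_inv _ := rfl
  right_inv _ := rfl
  map_mul' _ _ := rfl

theorem gt_eq (p : ℕ) {F : Type} [Field F] (red : integralClosure ℤ ℂ →+* F)
    (M Q Y : Subgroup J) (hY : M ⊔ Q = Y) (z : J → F) (c : F) (hz : InZ M z) :
    gt p red M Q z c = Nat.card (Subgroup.normalizer ((Q.subgroupOf Y : Subgroup Y) : Set Y)) *
      Nw p red ((Q.subgroupOf Y).subgroupOf
        (Subgroup.normalizer ((Q.subgroupOf Y : Subgroup Y) : Set Y))) (fun x => z x) c := by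
  unfold gt
  rw [Nat.card_congr (isoY M Q Y hY).toEquiv]
  congr 1
  refine Pool.Agent.Y624.NV.nw_congr p red (isoY M Q Y hY) (f := fun x : IQ M Q => z x)
    (f' := fun x => z x) (fun x => ?_) (fun x => rfl) (fun g x => hz.conj _ _) c
  rw [Subgroup.mem_subgroupOf, Subgroup.mem_subgroupOf, Subgroup.mem_subgroupOf,
    Subgroup.mem_subgroupOf]
  exact Iff.rfl

/-- the weights of defect zero which are invariant are at most all of them -/
theorem inv_le (p : ℕ) [Fact p.Prime] {F : Type} [Field F] (red : integralClosure ℤ ℂ →+* F)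
    {Y : Type} [Group Y] [Finite Y] (X : Subgroup Y) (z : Y → F) (c : F) :
    numInvDzL p red X z c ≤ Nw p red (⊥ : Subgroup X) (fun x => z x) c := by
  unfold numInvDzL Nw
  have : Fintype X := Fintype.ofFinite X
  have hfin : Finite {χ : X → ℂ // IsWt p (⊥ : Subgroup X) χ ∧
      centralValue red χ (fun x => z x) = c} :=
    Set.Finite.subset (Pool.Agent.Helper884.IC.irr_finite (G := X)) fun χ hχ => hχ.1.irr
  refine Nat.card_le_card_of_injective (fun χ => ⟨χ.1, ⟨χ.2.1.1, ?_, ?_⟩, χ.2.2⟩) ?_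
  · intro q hq x
    rw [Subgroup.mem_bot.1 hq, one_mul]
  · obtain ⟨n, h1, h2⟩ := χ.2.1.2.1
    refine ⟨n, h1, ?_⟩
    rw [Subgroup.card_bot, Nat.factorization_one]
    simpa using h2
  · intro a b hab
    exact Subtype.ext (congrArg (fun t => t.1) hab)

/-- transport from `M` as a subgroup of `Y` -/
theorem nw_sub (p : ℕ) {F : Type} [Field F] (red : integralClosure ℤ ℂ →+* F) (M Y : Subgroup J)
    [M.Normal] (hMY : M ≤ Y) (z : J → F) (c : F) (hz : InZ M z) :
    Nw p red (⊥ : Subgroup (M.subgroupOf Y)) (fun x => z x) c =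
      Nw p red (⊥ : Subgroup M) (fun x : M => z x) c := by
  refine Pool.Agent.Y624.NV.nw_congr p red (Subgroup.subgroupOfEquivOfLe hMY)
    (f := fun x => z x) (f' := fun x : M => z x) (fun x => ?_)
    (fun x => rfl) (fun g x => hz.conj _ _) c
  rw [Subgroup.mem_bot, Subgroup.mem_bot]
  exact (Subgroup.subgroupOfEquivOfLe hMY).map_eq_one_iff

/-- the sum over the `Q` with `MQ = Y` -/
theorem step2 (h' : S_DGNL) (p : ℕ) [Fact p.Prime] {F : Type} [Field F] [CharP F p]
    (red : integralClosure ℤ ℂ →+* F) [Finite J] [Fintype (Subgroup J)] (M Y : Subgroup J)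
    [M.Normal] (hMY : M ≤ Y) (z : J → F) (c : F) (hz : InZ M z) :
    ∑ Q ∈ Finset.univ.filter (fun Q : Subgroup J => (IsPGroup p Q ∧ M ⊓ Q = ⊥) ∧ M ⊔ Q = Y),
      gt p red M Q z c ≤ M.index * (Nat.card M * Nw p red (⊥ : Subgroup M) (fun x : M => z x) c) := by
  rcases (Finset.univ.filter
    (fun Q : Subgroup J => (IsPGroup p Q ∧ M ⊓ Q = ⊥) ∧ M ⊔ Q = Y)).eq_empty_or_nonempty with h0 | h0
  · rw [h0, Finset.sum_empty]
    exact Nat.zero_le _
  obtain ⟨Q0, hQ0⟩ := h0
  obtain ⟨_, ⟨hp0, _⟩, hY0⟩ := Finset.mem_filter.1 hQ0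
  have hX : (M.subgroupOf Y).Normal := inferInstance
  have hpY : IsPGroup p (Y ⧸ M.subgroupOf Y) := by
    intro x
    obtain ⟨y, rfl⟩ := QuotientGroup.mk_surjective x
    have hy : (y : J) ∈ M ⊔ Q0 := hY0 ▸ y.2
    rw [mem_sup'] at hy
    obtain ⟨a, ha, b, hb, hab⟩ := hy
    obtain ⟨k, hk⟩ := hp0 ⟨b, hb⟩
    refine ⟨k, ?_⟩
    have hbY : b ∈ Y := hY0 ▸ Subgroup.mem_sup_right hb
    have e1 : (QuotientGroup.mk y : Y ⧸ M.subgroupOf Y) = QuotientGroup.mk ⟨b, hbY⟩ := by
      rw [QuotientGroup.eq, Subgroup.mem_subgroupOf]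
      show (y : J)⁻¹ * b ∈ M
      have : (y : J)⁻¹ * b = b⁻¹ * a⁻¹ * b := by
        rw [← hab]
        group
      rw [this]
      have := Subgroup.Normal.conj_mem ‹M.Normal› a⁻¹ (M.inv_mem ha) b⁻¹
      simpa using this
    rw [e1, ← QuotientGroup.mk_pow]
    have e2 : (⟨b, hbY⟩ : Y) ^ p ^ k = 1 := by
      have hk' : b ^ p ^ k = 1 := congrArg Subtype.val hk
      exact Subtype.ext hk'
    rw [e2]
    rfl
  have hzY : InZ (M.subgroupOf Y) (fun x : Y => z x) :=
    ⟨fun g x => hz.conj _ _, fun x hx => hz.supp x fun hm => hx (by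
      rw [Subgroup.mem_subgroupOf]
      exact hm)⟩
  have key := h' p F red Y (M.subgroupOf Y) (fun x : Y => z x) c hpY hzY
  have : Fintype (Subgroup Y) := Fintype.ofFinite _
  rw [finsum_eq_sum_of_fintype] at key
  have hbound : ∑ Q ∈ Finset.univ.filter
      (fun Q : Subgroup J => (IsPGroup p Q ∧ M ⊓ Q = ⊥) ∧ M ⊔ Q = Y), gt p red M Q z c ≤
      Nat.card Y * numInvDzL p red (M.subgroupOf Y) (fun x : Y => z x) c := by
    rw [key, ← Finset.sum_filter]
    set G : Subgroup Y → ℕ := fun R => Nat.card (Subgroup.normalizer (R : Set Y)) *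
      Nw p red (R.subgroupOf (Subgroup.normalizer (R : Set Y))) (fun x => z x) c with hG
    set S : Finset (Subgroup J) := Finset.univ.filter
      (fun Q : Subgroup J => (IsPGroup p Q ∧ M ⊓ Q = ⊥) ∧ M ⊔ Q = Y) with hS
    have hle : ∀ Q ∈ S, Q ≤ Y := by
      intro Q hQ
      rw [← (Finset.mem_filter.1 hQ).2.2]
      exact le_sup_right
    calc ∑ Q ∈ S, gt p red M Q z c = ∑ Q ∈ S, G (Q.subgroupOf Y) :=
          Finset.sum_congr rfl fun Q hQ =>
            gt_eq p red M Q Y (Finset.mem_filter.1 hQ).2.2 z c hz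
      _ = ∑ R ∈ S.image (fun Q => Q.subgroupOf Y), G R := by
          rw [Finset.sum_image]
          intro Q hQ Q' hQ' hQQ
          have h1 := hle Q hQ
          have h2 := hle Q' hQ'
          have h3 : Q.subgroupOf Y = Q'.subgroupOf Y := hQQ
          rw [Subgroup.subgroupOf_inj, inf_eq_left.2 h1, inf_eq_left.2 h2] at h3
          exact h3
      _ ≤ _ := by
          refine Finset.sum_le_sum_of_subset ?_
          intro R hR
          obtain ⟨Q, hQ, rfl⟩ := Finset.mem_image.1 hR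
          obtain ⟨_, ⟨hp1, hi1⟩, hY1⟩ := Finset.mem_filter.1 hQ
          refine Finset.mem_filter.2 ⟨Finset.mem_univ _, hp1.comap_subtype, ?_, ?_⟩
          · rw [← Subgroup.subgroupOf_sup hMY (hle Q hQ), hY1, Subgroup.subgroupOf_self]
          · rw [eq_bot_iff]
            intro x hx
            obtain ⟨hx1, hx2⟩ := Subgroup.mem_inf.1 hx
            rw [Subgroup.mem_subgroupOf] at hx1 hx2
            have : (x : J) ∈ M ⊓ Q := ⟨hx1, hx2⟩
            rw [hi1, Subgroup.mem_bot] at this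
            rw [Subgroup.mem_bot]
            exact Subtype.ext this
  refine hbound.trans ?_
  have h3 : Nat.card Y ≤ M.index * Nat.card M := by
    have e1 : M.relIndex Y * Nat.card M = Nat.card Y := by
      rw [mul_comm, ← Subgroup.card_mul_index (M.subgroupOf Y)]
      rw [Nat.card_congr (Subgroup.subgroupOfEquivOfLe hMY).toEquiv]
      rfl
    have e2 : M.relIndex Y ≤ M.index := by
      have := Subgroup.relIndex_le_of_le_right (H := M) (K := Y) (L := ⊤) le_top (by
        rw [Subgroup.relIndex_top_right]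
        exact Subgroup.FiniteIndex.index_ne_zero)
      rwa [Subgroup.relIndex_top_right] at this
    rw [← e1]
    exact Nat.mul_le_mul_right _ e2
  have h4 := inv_le p red (M.subgroupOf Y) (fun x : Y => z x) c
  rw [nw_sub p red M Y hMY z c hz] at h4
  calc _ ≤ (M.index * Nat.card M) * Nw p red (⊥ : Subgroup M) (fun x : M => z x) c :=
        Nat.mul_le_mul h3 h4
    _ = _ := by ring

theorem final (h : S_DCG) (h' : S_DGNL) : S_WG2 := by
  intro p _ F _ _ _ red J _ _ M _ z c hz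
  have : Fintype (Subgroup J) := Fintype.ofFinite _
  unfold dsum
  rw [finsum_eq_sum_of_fintype, ← Finset.sum_filter]
  set K : ℕ := Nat.card M * Nw p red (⊥ : Subgroup M) (fun x : M => z x) c with hK
  set T : Finset (Subgroup J) := Finset.univ.filter fun Y => M ≤ Y with hT
  have hcard : T.card = Nat.card (Subgroup (J ⧸ M)) := by
    rw [Nat.card_congr (QuotientGroup.comapMk'OrderIso M).toEquiv, hT,
      Nat.card_eq_fintype_card, Fintype.card_subtype]
  calc ∑ Q ∈ Finset.univ.filter (fun Q : Subgroup J => IsPGroup p Q ∧ M ⊓ Q = ⊥),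
        Nat.card (Subgroup.normalizer (Q : Set J)) *
          Nw p red (Q.subgroupOf (Subgroup.normalizer (Q : Set J))) (fun x => z x) c
      ≤ ∑ Q ∈ Finset.univ.filter (fun Q : Subgroup J => IsPGroup p Q ∧ M ⊓ Q = ⊥),
        M.index ^ 2 * gt p red M Q z c := Finset.sum_le_sum fun Q hQ =>
          step1 h p red M Q z c hz (Finset.mem_filter.1 hQ).2.1
    _ = M.index ^ 2 * ∑ Y ∈ T, ∑ Q ∈ (Finset.univ.filter
        (fun Q : Subgroup J => IsPGroup p Q ∧ M ⊓ Q = ⊥)).filter (fun Q => M ⊔ Q = Y),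
          gt p red M Q z c := by
        rw [← Finset.mul_sum]
        refine congrArg _ (Finset.sum_fiberwise_of_maps_to (g := fun Q => M ⊔ Q)
          (fun Q _ => ?_) _).symm
        exact Finset.mem_filter.2 ⟨Finset.mem_univ _, le_sup_left⟩
    _ ≤ M.index ^ 2 * ∑ Y ∈ T, M.index * K := by
        refine Nat.mul_le_mul_left _ (Finset.sum_le_sum fun Y hY => ?_)
        rw [Finset.filter_filter]
        exact step2 h' p red M Y (Finset.mem_filter.1 hY).2 z c hz
    _ = _ := by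
        rw [Finset.sum_const, smul_eq_mul, hcard]
        ring

end WG2

/-- **WG2** -/
theorem t_WG2 (h : S_DCG) : S_WG2 := WG2.final h dgnL'

end Pool.Agent.J4.H3.PG
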