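import Pool.Agent.J4.H3.PG.All1
import Pool.Agent.J4.H3.PG.Fin5
import Pool.Agent.J4.H3.PG.T_UP
import Pool.Agent.J4.H3.PG.T_DCG
import Pool.Agent.J4.H3.PG.T_WG1
import Pool.Agent.J4.H3.PG.T_WG2
import Pool.Agent.J4.H3.PG.T_LIFT
import Pool.Agent.J4.H3.PG.T_OP2
import Pool.Agent.J4.H3.PG.T_SUBC
import Pool.Agent.J4.H3.PG.T_AMP2
import Pool.Agent.J4.H3.PG.T_UNIQ
import Pool.Agent.J4.H3.PG.T_TOWER

/-!
# All primes, and classes of `p`-groups
-/

set_option autoImplicit false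

open scoped Classical BigOperators

noncomputable section

namespace Pool.Agent.J4.H3.PG

open Pool.Agent.Y63.NV

theorem t_WG : S_WG := t_LIFT (t_WG1 t_UP) (t_WG2 t_DCG)

theorem t_UNIQ' : S_UNIQ := t_UNIQ t_PERF

theorem t_TOWER' : S_TOWER := t_TOWER t_UNIQ' t_PERF t_OP2

/-- all finite groups, every prime -/
theorem all_main (p : ℕ) [Fact p.Prime] (F : Type) [Field F] [IsAlgClosed F] [CharP F p]
    (red : integralClosure ℤ ℂ →+* F) (S : Type) [Group S] [Finite S] [IsSimpleGroup S]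
    (hS : ∃ a b : S, a * b ≠ b * a) :
    EquivY p red (fun _ _ => True) (fun H _ => Top1 S H) :=
  equivY_all parts3 t_PERF t_OP2 t_AMP2 t_WG t_SUBC t_UNIQ' t_TOWER' p F red S hS

/-- classes of groups given by the Sylow subgroups -/
theorem syl_main (p : ℕ) [Fact p.Prime] (F : Type) [Field F] [IsAlgClosed F] [CharP F p]
    (red : integralClosure ℤ ℂ →+* F) (S : Type) [Group S] [Finite S] [IsSimpleGroup S]
    (hS : ∃ a b : S, a * b ≠ b * a) (hpS : ¬ p ∣ Nat.card S)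
    (C : (P : Type) → Group P → Prop) (hC : ClsP C) :
    EquivY p red (fun G i => @SylIn p C G i) (fun H _ => Top1 S H) :=
  equivY_odd parts3 t_PERF t_OP2 t_AMP t_SYL1 t_SYL2 t_UNIQ' t_TOWER' p F red S hS hpS C hC

end Pool.Agent.J4.H3.PG
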