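import Pool.Agent.J4.H3.PG.D0

/-!
# Classes of `p`-groups
-/

set_option autoImplicit false

open scoped Classical BigOperators

noncomputable section

namespace Pool.Agent.J4.H3.PG

/-- a class of groups closed under isomorphisms, subgroups, quotients and finite powers -/
structure ClsP (C : (P : Type) → Group P → Prop) : Prop where
  iso : ∀ (P R : Type) (i : Group P) (j : Group R), C P i → Nonempty (P ≃* R) → C R j
  sub : ∀ (P : Type) (i : Group P), C P i → ∀ S : Subgroup P, C S inferInstance
  quot : ∀ (P : Type) (i : Group P), C P i → ∀ (M : Subgroup P) (_ : M.Normal), C (P ⧸ M) inferInstance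
  pow : ∀ (P : Type) (i : Group P), C P i → ∀ n : ℕ, C (Fin n → P) inferInstance

/-- the Sylow `p`-subgroups of `G` lie in `C` -/
def SylIn (p : ℕ) (C : (P : Type) → Group P → Prop) (G : Type) [Group G] : Prop :=
  ∀ S : Sylow p G, C S inferInstance

/-- SYL1: `SylIn p C` is closed under isomorphisms, subgroups, quotients by normal `p`-subgroups -/
def S_SYL1 : Prop := ∀ (p : ℕ) [Fact p.Prime] (C : (P : Type) → Group P → Prop), ClsP C →
  (∀ (G H : Type) [Group G] [Group H], SylIn p C G → Nonempty (G ≃* H) → SylIn p C H) ∧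
  (∀ (G : Type) [Group G], SylIn p C G → ∀ H : Subgroup G, SylIn p C H) ∧
  (∀ (G : Type) [Group G], SylIn p C G → ∀ (M : Subgroup G) [M.Normal], IsPGroup p M →
    SylIn p C (G ⧸ M))

/-- SYL2: the kernel of `sg` -/
def S_SYL2 : Prop := ∀ (p : ℕ) [Fact p.Prime] (C : (P : Type) → Group P → Prop), ClsP C →
  ∀ (G Q : Type) [Group G] [Group Q] [Finite G] [Fintype Q], ¬ p ∣ Nat.card Q → SylIn p C G →
    SylIn p C (sg G Q).ker

end Pool.Agent.J4.H3.PG
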