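import Pool.Agent.J4.H3.PG.All2

/-!
# Classes of groups closed under extensions by the simple group
-/

set_option autoImplicit false

open scoped Classical BigOperators

noncomputable section

namespace Pool.Agent.J4.H3.PG

open Pool.Agent.Y63.NV

/-- classes of finite groups closed under isomorphisms, subgroups, factor groups by normal
`p`-subgroups, direct powers, and extensions by `S` -/
structure ExtCl (p : ℕ) (S : Type) [Group S] (X : (G : Type) → Group G → Prop) : Prop where
  iso : ∀ (G H : Type) (i : Group G) (j : Group H), Finite G → X G i → Nonempty (G ≃* H) → X H j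
  sub : ∀ (G : Type) (i : Group G), Finite G → X G i → ∀ H : Subgroup G, X H inferInstance
  quot : ∀ (G : Type) (i : Group G), Finite G → X G i → ∀ (M : Subgroup G) (_ : M.Normal),
    IsPGroup p M → X (G ⧸ M) inferInstance
  pow : ∀ (G : Type) (i : Group G), Finite G → X G i → ∀ n : ℕ, X (Fin n → G) inferInstance
  ext : ∀ (G : Type) (i : Group G), Finite G → ∀ (N : Subgroup G) (_ : N.Normal),
    Nonempty (G ⧸ N ≃* S) → X N inferInstance → X G i

/-- `X` is closed under extensions by `Q` -/
def ExtBy (X : (G : Type) → Group G → Prop) (Q : Type) [Group Q] : Prop :=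
  ∀ (B : Type) (i : Group B), Finite B → ∀ φ : B →* Q, Function.Surjective φ →
    X φ.ker inferInstance → X B i

section

variable {p : ℕ} {S : Type} [Group S] {X : (G : Type) → Group G → Prop}

theorem ExtCl.by1 (h : ExtCl p S X) : ExtBy X S := by
  intro B i hB φ hφ hk
  exact h.ext B i hB φ.ker inferInstance ⟨QuotientGroup.quotientKerEquivOfSurjective φ hφ⟩ hk

/-- two steps -/
theorem ExtCl.two (h : ExtCl p S X) {Q R : Type} [Group Q] [Group R] (hQ : ExtBy X Q)
    (hR : ExtBy X R) (B : Type) [i : Group B] [hB : Finite B] (N : Subgroup B)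
    (φ : B →* Q) (hφ : Function.Surjective φ) (ψ : φ.ker →* R) (hψ : Function.Surjective ψ)
    (hN : N ≤ φ.ker) (hk : ∀ x : φ.ker, ψ x = 1 ↔ (x : B) ∈ N) (hXN : X N inferInstance) :
    X B i := by
  refine hQ B i hB φ hφ (hR φ.ker inferInstance inferInstance ψ hψ ?_)
  have h1 : ψ.ker = N.subgroupOf φ.ker := by
    ext x
    rw [MonoidHom.mem_ker, Subgroup.mem_subgroupOf]
    exact hk x
  rw [h1]
  exact h.iso _ _ _ _ inferInstance hXN ⟨(Subgroup.subgroupOfEquivOfLe hN).symm⟩

theorem ExtCl.top (h : ExtCl p S X) (B : Type) [i : Group B] [hB : Finite B] (N : Subgroup B)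
    (hN : N = ⊤) (hXN : X N inferInstance) : X B i := by
  subst hN
  exact h.iso _ _ _ _ inferInstance hXN ⟨Subgroup.topEquiv⟩

theorem ExtCl.byFin (h : ExtCl p S X) {Q : Type} [Group Q] (hQ : ExtBy X Q) (n : ℕ) :
    ExtBy X (Fin n → Q) := by
  induction n with
  | zero =>
    intro B i hB φ _ hk
    refine h.top B φ.ker ?_ hk
    rw [eq_top_iff]
    intro x _
    rw [MonoidHom.mem_ker]
    exact Subsingleton.elim _ _
  | succ n ih =>
    intro B i hB φ hφ hk
    let φ0 : B →* Q := (Pi.evalMonoidHom (fun _ : Fin (n + 1) => Q) 0).comp φ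
    let ψ : φ0.ker →* (Fin n → Q) :=
      { toFun := fun x j => φ x j.succ
        map_one' := by
          funext j
          show φ ((1 : φ0.ker) : B) j.succ = 1
          rw [Subgroup.coe_one, map_one]
          rfl
        map_mul' := by
          intro x y
          funext j
          show φ ((x * y : φ0.ker) : B) j.succ = φ x j.succ * φ y j.succ
          rw [Subgroup.coe_mul, map_mul]
          rfl }
    have h0 : Function.Surjective φ0 := by
      intro q
      obtain ⟨b, hb⟩ := hφ (fun _ => q)
      exact ⟨b, congrFun hb 0⟩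
    refine h.two hQ ih B φ.ker φ0 h0 ψ ?_ ?_ ?_ hk
    · intro f
      obtain ⟨b, hb⟩ := hφ (Fin.cons 1 f)
      have hb0 : b ∈ φ0.ker := by
        rw [MonoidHom.mem_ker]
        exact congrFun hb 0
      refine ⟨⟨b, hb0⟩, ?_⟩
      funext j
      have := congrFun hb j.succ
      rw [Fin.cons_succ] at this
      exact this
    · intro x hx
      rw [MonoidHom.mem_ker] at hx ⊢
      exact congrFun hx 0
    · intro x
      rw [MonoidHom.mem_ker]
      constructor
      · intro hx
        funext j
        refine Fin.cases ?_ (fun j => ?_) j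
        · exact x.2
        · exact congrFun hx j
      · intro hx
        funext j
        exact congrFun hx j.succ

theorem ExtCl.byFun (h : ExtCl p S X) {Q : Type} [Group Q] (hQ : ExtBy X Q) (ι : Type)
    [Fintype ι] : ExtBy X (ι → Q) := by
  intro B i hB φ hφ hk
  let e := Fintype.equivFin ι
  let φ1 : B →* (Fin (Fintype.card ι) → Q) :=
    { toFun := fun x j => φ x (e.symm j)
      map_one' := by
        funext j
        rw [map_one]
        rfl
      map_mul' := by
        intro x y
        funext j
        rw [map_mul]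
        rfl }
  have h1 : φ1.ker = φ.ker := by
    ext x
    rw [MonoidHom.mem_ker, MonoidHom.mem_ker]
    constructor
    · intro hx
      funext j
      have := congrFun hx (e j)
      have h2 : φ x (e.symm (e j)) = 1 := this
      rwa [Equiv.symm_apply_apply] at h2
    · intro hx
      funext j
      exact congrFun hx (e.symm j)
  refine h.byFin hQ (Fintype.card ι) B i hB φ1 ?_ (by rw [h1]; exact hk)
  intro f
  obtain ⟨b, hb⟩ := hφ (fun x => f (e x))
  refine ⟨b, ?_⟩
  funext j
  have := congrFun hb (e.symm j)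
  have h2 : φ b (e.symm j) = f (e (e.symm j)) := this
  rw [Equiv.apply_symm_apply] at h2
  exact h2

/-- the next step of the tower -/
theorem ExtCl.byKer (h : ExtCl p S X) (hS : commutator S = ⊤) {Q : Type} [Group Q] [Fintype Q]
    (hQ : ExtBy X Q) : ExtBy X (sg S Q).ker := by
  have hall : ∀ w : RegularWreathProduct S Q, w ∈ (sg S Q).ker := by
    intro w
    rw [MonoidHom.mem_ker]
    have h2 : ∀ x : Abelianization S, x = 1 := by
      intro x
      obtain ⟨y, rfl⟩ := QuotientGroup.mk_surjective x
      show Abelianization.of y = 1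
      rw [← MonoidHom.mem_ker, Abelianization.ker_of, hS]
      trivial
    exact h2 _
  intro B i hB φ hφ hk
  let φ0 : B →* Q := (RegularWreathProduct.rightHom).comp (((sg S Q).ker.subtype).comp φ)
  have e0 : ∀ b, φ0 b = ((φ b : (sg S Q).ker) : RegularWreathProduct S Q).right := fun _ => rfl
  have h0 : Function.Surjective φ0 := by
    intro q
    obtain ⟨b, hb⟩ := hφ ⟨⟨1, q⟩, hall _⟩
    refine ⟨b, ?_⟩
    rw [e0, hb]
  let ψ : φ0.ker →* (Q → S) :=
    { toFun := fun x => ((φ x : (sg S Q).ker) : RegularWreathProduct S Q).left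
      map_one' := by
        rw [Subgroup.coe_one, map_one]
        rfl
      map_mul' := by
        intro x y
        rw [Subgroup.coe_mul, map_mul]
        show (((φ x : (sg S Q).ker) : RegularWreathProduct S Q) *
          ((φ y : (sg S Q).ker) : RegularWreathProduct S Q)).left = _
        have hx : ((φ x : (sg S Q).ker) : RegularWreathProduct S Q).right = 1 := x.2
        rw [RegularWreathProduct.mul_left, hx]
        simp }
  refine h.two hQ (h.byFun h.by1 Q) B φ.ker φ0 h0 ψ ?_ ?_ ?_ hk
  · intro f
    obtain ⟨b, hb⟩ := hφ ⟨⟨f, 1⟩, hall _⟩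
    have hb0 : b ∈ φ0.ker := by
      rw [MonoidHom.mem_ker, e0, hb]
    refine ⟨⟨b, hb0⟩, ?_⟩
    show ((φ b : (sg S Q).ker) : RegularWreathProduct S Q).left = f
    rw [hb]
  · intro x hx
    rw [MonoidHom.mem_ker] at hx ⊢
    rw [e0, hx]
    rfl
  · intro x
    rw [MonoidHom.mem_ker]
    constructor
    · intro hx
      apply Subtype.ext
      apply RegularWreathProduct.ext
      · exact hx
      · exact x.2
    · intro hx
      show ((φ x : (sg S Q).ker) : RegularWreathProduct S Q).left = 1
      rw [hx]
      rfl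

/-- the kernels of `sg` -/
theorem ExtCl.ker (h : ExtCl p S X) {Q : Type} [Group Q] [Fintype Q] (hQ : ExtBy X Q) (G : Type)
    [i : Group G] [hf : Finite G] (hG : X G i) : X (sg G Q).ker inferInstance := by
  have h1 : X (Q → G) inferInstance := by
    have h2 := h.pow G i hf hG (Fintype.card Q)
    let e := Fintype.equivFin Q
    refine h.iso _ _ _ _ inferInstance h2 ⟨?_⟩
    exact
      { toFun := fun f x => f (e x)
        invFun := fun f j => f (e.symm j)
        left_inv := fun f => by funext j; simp
        right_inv := fun f => by funext j; simp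
        map_mul' := fun f g => rfl }
  have h3 : X (BS G Q) inferInstance := h.iso _ _ _ _ inferInstance h1 ⟨(bsEquiv G Q).symm⟩
  have h4 : X (RegularWreathProduct G Q) inferInstance :=
    hQ (RegularWreathProduct G Q) inferInstance inferInstance RegularWreathProduct.rightHom
      (fun q => ⟨⟨1, q⟩, rfl⟩) h3
  exact h.sub _ inferInstance inferInstance h4 (sg G Q).ker

end

open TOWER

theorem t_TOWERX (p0 : ℕ) (S : Type) [Group S] [Finite S] [IsSimpleGroup S]
    (hS : commutator S = ⊤) (X : (G : Type) → Group G → Prop) (hX : ExtCl p0 S X) (n : ℕ) :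
    ∃ (Q : Type) (_ : Group Q), Finite Q ∧ Nontrivial Q ∧ commutator Q = ⊤ ∧
    5 ≤ Nat.card Q ∧ n ≤ Nat.card Q ∧ Top1 S Q ∧
    (∀ p : ℕ, p.Prime → ∀ M : Subgroup Q, M.Normal → IsPGroup p M → M = ⊥) ∧ ExtBy X Q := by
  induction n with
  | zero =>
    exact ⟨S, inferInstance, inferInstance, inferInstance, hS, five_le hS, Nat.zero_le _, top1,
      fun p hp M hM hMp => by
        have := Fact.mk hp
        exact no_normal hS p M hM hMp, hX.by1⟩
  | succ n ih =>
    obtain ⟨Q, _, hf, hnt, hperf, h5, hn, htop, hO, hE⟩ := ih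
    let _ : Fintype Q := Fintype.ofFinite Q
    have hc := ker_card hS Q
    have hS2 : 2 ≤ Nat.card S := by
      have := five_le hS
      omega
    have hbig : Nat.card Q + 1 ≤ Nat.card (sg S Q).ker := by
      rw [hc]
      have h3 : Nat.card Q < 2 ^ Nat.card Q := Nat.lt_two_pow_self
      have h4 : 2 ^ Nat.card Q ≤ Nat.card S ^ Nat.card Q := Nat.pow_le_pow_left hS2 _
      have h5' : Nat.card Q + 1 ≤ Nat.card S ^ Nat.card Q := by omega
      calc Nat.card Q + 1 ≤ Nat.card S ^ Nat.card Q * 1 := by omega
        _ ≤ Nat.card S ^ Nat.card Q * Nat.card Q := Nat.mul_le_mul_left _ (by omega)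
    refine ⟨(sg S Q).ker, inferInstance, inferInstance, ?_, t_PERF S Q hnt hperf, by omega,
      by omega, t_UNIQ' S S Q h5 hperf htop, ?_, hX.byKer hS hE⟩
    · exact Finite.one_lt_card_iff_nontrivial.1 (by omega)
    · intro p hp M hM hMp
      have := Fact.mk hp
      exact t_OP2 p S Q hnt (fun M hM hMp => hO p hp M hM hMp)
        (fun M hM hMp => no_normal hS p M hM hMp) M hM hMp

/-- finite groups -/
theorem equivY_fin (p : ℕ) {F : Type} [Field F] (red : integralClosure ℤ ℂ →+* F)
    (X Y : (G : Type) → Group G → Prop) (h : EquivY p red (fun G i => Finite G ∧ X G i) Y) :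
    EquivY p red X Y := by
  have key : ∀ P : (G : Type) → Group G → Finite G → Prop,
      (∀ (G : Type) (i : Group G) (hf : Finite G), (Finite G ∧ X G i) → P G i hf) =
        (∀ (G : Type) (i : Group G) (hf : Finite G), X G i → P G i hf) := by
    intro P
    apply propext
    exact ⟨fun h G i hf hx => h G i hf ⟨hf, hx⟩, fun h G i hf hx => h G i hf hx.2⟩
  unfold EquivY at h ⊢
  simp only [key] at h
  exact h

/-- the equivalences relative to a class closed under extensions by `S` -/
theorem ext_main (p : ℕ) [Fact p.Prime] (F : Type) [Field F] [IsAlgClosed F] [CharP F p]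
    (red : integralClosure ℤ ℂ →+* F) (S : Type) [Group S] [Finite S] [IsSimpleGroup S]
    (hS : ∃ a b : S, a * b ≠ b * a) (X : (G : Type) → Group G → Prop) (hX : ExtCl p S X) :
    EquivY p red X (fun H _ => Top1 S H) := by
  have hSp := simple_perf S hS
  refine equivY_fin p red X _ ?_
  refine equivY_gen parts3 p F red _ _
    ⟨fun G H _ _ hG e => ?_,
      fun G _ hG H => ?_, fun G _ hG M _ hM => ?_⟩
    (fun H _ h => top1_perf S hSp H h)
    (fun n => (n : ℝ) ^ 6 * (n : ℝ) ^ (Nat.log 2 n)) (fun n => by positivity) t_AMP2 ?_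
  · obtain ⟨h1, h2⟩ := hG
    exact ⟨Finite.of_equiv G e.some.toEquiv, hX.iso G H _ _ h1 h2 e⟩
  · obtain ⟨h1, h2⟩ := hG
    exact ⟨inferInstance, hX.sub G _ h1 h2 H⟩
  · obtain ⟨h1, h2⟩ := hG
    exact ⟨inferInstance, hX.quot G _ h1 h2 M inferInstance hM⟩
  intro G i hfG hG hM hN N
  obtain ⟨Q, i1, i2, i3, i4, i5, i6, i7, i8, i9⟩ := t_TOWERX p S hSp X hX N
  have hF := Fintype.ofFinite Q
  refine ⟨Q, i1, hF, ?_, Fintype.card_pos,
    ⟨t_PERF G Q i3 i4, t_OP2 p G Q i3 (i8 p Fact.out) hM⟩,
    ⟨⟨inferInstance, hX.ker i9 G hG.2⟩, t_UNIQ' S G Q i5 i4 i7⟩,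
    bcomp_all t_WG t_SUBC p F red G Q⟩
  rw [← Nat.card_eq_fintype_card]
  exact i6

end Pool.Agent.J4.H3.PG
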