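import Pool.Agent.J4.H3.PG.Ext
import Pool.Agent.J4.H3.PG.T_SYL

/-!
# Examples of classes of groups closed under extensions by the simple group
-/

set_option autoImplicit false

open scoped Classical BigOperators

noncomputable section

namespace Pool.Agent.J4.H3.PG

/-- Sylow subgroups of direct powers -/
theorem syl_pow {p : ℕ} [Fact p.Prime] {C : (P : Type) → Group P → Prop} (hC : ClsP C)
    {G : Type} [Group G] [Finite G] (hG : SylIn p C G) (n : ℕ) : SylIn p C (Fin n → G) := by
  intro S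
  have hS : IsPGroup p S := S.isPGroup'
  obtain ⟨S0⟩ : Nonempty (Sylow p G) := inferInstance
  have hcoord : ∀ i : Fin n, ∃ T : Sylow p G, ∀ w : S, (w : Fin n → G) i ∈ T := by
    intro i
    let bi : (S : Subgroup (Fin n → G)) →* G :=
      (Pi.evalMonoidHom (fun _ : Fin n => G) i).comp (S : Subgroup (Fin n → G)).subtype
    have h1 : IsPGroup p bi.range := by
      refine hS.of_surjective bi.rangeRestrict bi.rangeRestrict_surjective
    obtain ⟨T, hT⟩ := h1.exists_le_sylow
    exact ⟨T, fun w => hT ⟨w, rfl⟩⟩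
  choose T hT using hcoord
  let e : ∀ i : Fin n, T i ≃* S0 := fun i => Sylow.equiv (T i) S0
  let F : (S : Subgroup (Fin n → G)) →* (Fin n → S0) :=
    { toFun := fun w j => e j ⟨(w : Fin n → G) j, hT j w⟩
      map_one' := by
        funext j
        have : (⟨((1 : (S : Subgroup (Fin n → G))) : Fin n → G) j, hT j 1⟩ : T j) = 1 :=
          Subtype.ext rfl
        rw [this, map_one]
        rfl
      map_mul' := by
        intro v w
        funext j
        have : (⟨((v * w : (S : Subgroup (Fin n → G))) : Fin n → G) j, hT j (v * w)⟩ : T j) =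
            ⟨(v : Fin n → G) j, hT j v⟩ * ⟨(w : Fin n → G) j, hT j w⟩ := Subtype.ext rfl
        rw [this, map_mul]
        rfl }
  have hF : Function.Injective F := by
    intro v w hvw
    apply Subtype.ext
    funext i
    have h2 : e i ⟨(v : Fin n → G) i, hT i v⟩ = e i ⟨(w : Fin n → G) i, hT i w⟩ :=
      congrFun hvw i
    exact congrArg Subtype.val ((e i).injective h2)
  have h1 : C S0 inferInstance := hG S0
  have h2 := hC.pow S0 inferInstance h1 n
  have h3 := hC.sub _ _ h2 F.range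
  exact hC.iso _ _ _ _ h3 ⟨(MonoidHom.ofInjective hF).symm⟩

/-- Sylow subgroups of extensions by a `p'`-group -/
theorem syl_ext {p : ℕ} [Fact p.Prime] {C : (P : Type) → Group P → Prop} (hC : ClsP C)
    {G : Type} [Group G] [Finite G] {S : Type} [Group S] [Finite S] (hpS : ¬ p ∣ Nat.card S)
    (N : Subgroup G) [N.Normal] (e : G ⧸ N ≃* S) (hN : SylIn p C N) : SylIn p C G := by
  intro P
  have hP : IsPGroup p P := P.isPGroup'
  have hle : (P : Subgroup G) ≤ N := by
    intro x hx
    obtain ⟨k, hk⟩ := hP ⟨x, hx⟩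
    have hk' : x ^ p ^ k = 1 := congrArg Subtype.val hk
    have h1 : (e (x : G ⧸ N)) ^ p ^ k = 1 := by
      rw [← map_pow, ← QuotientGroup.mk_pow, hk', QuotientGroup.mk_one, map_one]
    have h2 : orderOf (e (x : G ⧸ N)) ∣ p ^ k := orderOf_dvd_of_pow_eq_one h1
    have h3 : orderOf (e (x : G ⧸ N)) ∣ Nat.card S := orderOf_dvd_natCard _
    have h4 : Nat.Coprime (p ^ k) (Nat.card S) :=
      ((Nat.Prime.coprime_iff_not_dvd (Fact.out : p.Prime)).2 hpS).pow_left k
    have h5 : orderOf (e (x : G ⧸ N)) = 1 := Nat.eq_one_of_dvd_coprimes h4 h2 h3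
    have h6 := orderOf_eq_one_iff.1 h5
    rw [← QuotientGroup.eq_one_iff]
    exact e.injective (h6.trans (map_one e).symm)
  exact Syl.emb hC hN hP (Subgroup.inclusion hle) (Subgroup.inclusion_injective hle)

theorem ext_syl {p : ℕ} [Fact p.Prime] {C : (P : Type) → Group P → Prop} (hC : ClsP C)
    {S : Type} [Group S] [Finite S] (hpS : ¬ p ∣ Nat.card S) :
    ExtCl p S (fun G i => @SylIn p C G i) := by
  obtain ⟨c1, c2, c3⟩ := t_SYL1 p C hC
  refine ⟨?_, ?_, ?_, ?_, ?_⟩
  · intro G H _ _ _ hG e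
    exact c1 G H hG e
  · intro G _ _ hG H
    exact c2 G hG H
  · intro G _ _ hG M _ hM
    exact c3 G hG M hM
  · intro G _ _ hG n
    exact syl_pow hC hG n
  · rintro G _ _ N _ ⟨e⟩ hN
    exact syl_ext hC hpS N e hN

/-! ### Sections -/

/-- the nonabelian simple sections of `G` lie in `𝓕` -/
def SecIn (𝓕 : (T : Type) → Group T → Prop) (G : Type) [Group G] : Prop :=
  ∀ (T : Type) (j : Group T), IsSimpleGroup T → (∃ a b : T, a * b ≠ b * a) →
    ∀ (H : Subgroup G) (φ : H →* T), Function.Surjective φ → 𝓕 T j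

section

variable {𝓕 : (T : Type) → Group T → Prop}

theorem SecIn.of_surj {A B : Type} [Group A] [Group B] (h : SecIn 𝓕 B) (A' : Subgroup A)
    (B' : Subgroup B) (T : Type) [j : Group T] (h1 : IsSimpleGroup T) (h2 : ∃ a b : T, a * b ≠ b * a)
    (φ : A' →* T) (hφ : Function.Surjective φ) (f : A' →* B') (hf : Function.Surjective f)
    (hk : f.ker ≤ φ.ker) : 𝓕 T j := by
  refine h T j h1 h2 B' (MonoidHom.liftOfSurjective f hf ⟨φ, hk⟩) ?_
  intro t
  obtain ⟨x, hx⟩ := hφ t
  refine ⟨f x, ?_⟩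
  rw [← hx]
  exact MonoidHom.liftOfRightInverse_comp_apply f _ (Function.rightInverse_surjInv hf) ⟨φ, hk⟩ x

theorem SecIn.inj {A B : Type} [Group A] [Group B] (h : SecIn 𝓕 B) (f : A →* B)
    (hf : Function.Injective f) : SecIn 𝓕 A := by
  intro T j h1 h2 H φ hφ
  refine h T j h1 h2 (H.map f) (φ.comp (H.equivMapOfInjective f hf).symm.toMonoidHom) ?_
  exact hφ.comp (H.equivMapOfInjective f hf).symm.surjective

theorem SecIn.quo {A : Type} [Group A] (h : SecIn 𝓕 A) (M : Subgroup A) [M.Normal] :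
    SecIn 𝓕 (A ⧸ M) := by
  intro T j h1 h2 H φ hφ
  let f : (H.comap (QuotientGroup.mk' M)) →* H :=
    ((QuotientGroup.mk' M).comp (H.comap (QuotientGroup.mk' M)).subtype).codRestrict H
      (fun x => x.2)
  have hf : Function.Surjective f := by
    rintro ⟨y, hy⟩
    obtain ⟨g, rfl⟩ := QuotientGroup.mk'_surjective M y
    exact ⟨⟨g, hy⟩, Subtype.ext rfl⟩
  exact h T j h1 h2 (H.comap (QuotientGroup.mk' M)) (φ.comp f) (hφ.comp hf)

theorem SecIn.ext {B Q : Type} [Group B] [Group Q] (π : B →* Q) (hk : SecIn 𝓕 π.ker)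
    (hQ : SecIn 𝓕 Q) : SecIn 𝓕 B := by
  intro T j h1 h2 H φ hφ
  let A : Subgroup H := π.ker.subgroupOf H
  have hA : (A.map φ).Normal := Subgroup.Normal.map inferInstance φ hφ
  rcases hA.eq_bot_or_eq_top with h | h
  · -- the restriction is trivial
    let g : H →* Q := π.comp H.subtype
    refine SecIn.of_surj hQ H g.range T h1 h2 φ hφ g.rangeRestrict g.rangeRestrict_surjective ?_
    intro x hx
    rw [MonoidHom.ker_rangeRestrict, MonoidHom.mem_ker] at hx
    rw [MonoidHom.mem_ker, ← Subgroup.mem_bot, ← h]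
    exact ⟨x, hx, rfl⟩
  · let H' : Subgroup π.ker := H.subgroupOf π.ker
    let ψ : H' →* T :=
      { toFun := fun x => φ ⟨((x : π.ker) : B), x.2⟩
        map_one' := map_one φ
        map_mul' := fun x y => map_mul φ ⟨((x : π.ker) : B), x.2⟩ ⟨((y : π.ker) : B), y.2⟩ }
    refine hk T j h1 h2 H' ψ ?_
    intro t
    have ht : t ∈ A.map φ := by rw [h]; trivial
    obtain ⟨x, hx, rfl⟩ := ht
    exact ⟨⟨⟨x.1, hx⟩, x.2⟩, rfl⟩

theorem SecIn.pow {G : Type} [Group G] (h : SecIn 𝓕 G) (n : ℕ) : SecIn 𝓕 (Fin n → G) := by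
  induction n with
  | zero =>
    intro T j _ h2 H φ hφ
    exfalso
    obtain ⟨a, b, hab⟩ := h2
    obtain ⟨x, rfl⟩ := hφ a
    obtain ⟨y, rfl⟩ := hφ b
    have hxy : x = y := Subtype.ext (Subsingleton.elim _ _)
    rw [hxy] at hab
    exact hab rfl
  | succ n ih =>
    refine SecIn.ext (Pi.evalMonoidHom (fun _ : Fin (n + 1) => G) 0) ?_ h
    let f : (Pi.evalMonoidHom (fun _ : Fin (n + 1) => G) 0).ker →* (Fin n → G) :=
      { toFun := fun x j => (x : Fin (n + 1) → G) j.succ
        map_one' := rfl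
        map_mul' := fun _ _ => rfl }
    refine ih.inj f ?_
    intro x y hxy
    apply Subtype.ext
    funext j
    refine Fin.cases ?_ (fun j => ?_) j
    · exact (show (x : Fin (n + 1) → G) 0 = 1 from x.2).trans
        (show (y : Fin (n + 1) → G) 0 = 1 from y.2).symm
    · exact congrFun hxy j

theorem ext_sec (p : ℕ) {S : Type} [Group S] (hS : SecIn 𝓕 S) :
    ExtCl p S (fun G i => @SecIn 𝓕 G i) := by
  refine ⟨?_, ?_, ?_, ?_, ?_⟩
  · rintro G H _ _ _ hG ⟨e⟩
    exact SecIn.inj hG e.symm.toMonoidHom e.symm.injective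
  · intro G _ _ hG H
    exact SecIn.inj hG H.subtype H.subtype_injective
  · intro G _ _ hG M _ _
    exact SecIn.quo hG M
  · intro G _ _ hG n
    exact SecIn.pow hG n
  · rintro G _ _ N _ ⟨e⟩ hN
    refine SecIn.ext (e.toMonoidHom.comp (QuotientGroup.mk' N)) ?_ hS
    have h1 : (e.toMonoidHom.comp (QuotientGroup.mk' N)).ker ≤ N := by
      intro x hx
      rw [MonoidHom.mem_ker] at hx
      have h2 : e (x : G ⧸ N) = 1 := hx
      rw [← QuotientGroup.eq_one_iff]
      exact e.injective (h2.trans (map_one e).symm)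
    exact SecIn.inj hN (Subgroup.inclusion h1) (Subgroup.inclusion_injective h1)

end

end Pool.Agent.J4.H3.PG
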