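import Pool.Agent.J4.H3.PG.Pow
import Pool.Agent.J4.H3.PG.Key

/-!
# The inequalities for groups without quotients of order `p`
-/

set_option autoImplicit false

open scoped Classical BigOperators

noncomputable section

namespace Pool.Agent.J4.H3.PG

open Pool.Agent.Y63.NV

/-- all parts -/
structure AllParts : Prop where
  BAS : S_BAS
  LPI : S_LPI
  WPI : S_WPI
  ID : S_ID
  ZF : S_ZF
  ACT : S_ACT
  TWL : S_TWL
  TWW : S_TWW
  TW : S_TW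
  LC : S_LC
  WC : S_WC
  ISO : S_ISO
  SB : S_SB
  MC : S_MC
  PERF : S_PERF
  OP : S_OP
  QP : S_QP
  AMP : S_AMP

/-- `H` is perfect and `O_p(H) = 1` -/
structure PerfRad (p : ℕ) (H : Type) [Group H] : Prop where
  perf : commutator H = ⊤
  rad : ∀ M : Subgroup H, M.Normal → IsPGroup p M → M = ⊥

theorem main_ineq (P : AllParts) (p : ℕ) [Fact p.Prime] (F : Type) [Field F] [IsAlgClosed F]
    [CharP F p] (red : integralClosure ℤ ℂ →+* F) (hHP : HasPerfect p) (G : Type) [Group G]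
    [Finite G] (hN : ∀ N : Subgroup G, N.Normal → N.index ≠ p)
    (hM : ∀ M : Subgroup G, M.Normal → IsPGroup p M → M = ⊥) (B : (G → F) → F) (hB : IsBlock B) :
    ((∀ ε : ℝ, 0 < ε → ∃ K : ℝ, ∀ (H : Type) [Group H] [Finite H], PerfRad p H →
      ∀ B' : (H → F) → F, IsBlock B' →
        (nIrr B' : ℝ) ≤ K * (Nat.card H : ℝ) ^ ε * nWts p red B') → nIrr B ≤ nWts p red B) ∧
    ((∀ ε : ℝ, 0 < ε → ∃ K : ℝ, ∀ (H : Type) [Group H] [Finite H], PerfRad p H →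
      ∀ B' : (H → F) → F, IsBlock B' →
        (nWts p red B' : ℝ) ≤ K * (Nat.card H : ℝ) ^ ε * nIrr B') → nWts p red B ≤ nIrr B) := by
  obtain ⟨hfin, hMA, hpM⟩ := P.MC p G hN
  set a : ℕ := Nat.card (G →* ℂˣ) with ha
  have hg1 : (1 : ℝ) ≤ Nat.card G := by exact_mod_cast Nat.card_pos
  -- the groups
  have grp : ∀ N : ℕ, ∃ (Q : Type) (_ : Group Q) (_ : Fintype Q), N ≤ Fintype.card Q ∧
      1 ≤ Fintype.card Q ∧ Nontrivial Q ∧ commutator Q = ⊤ ∧ ¬ p ∣ Nat.card Q := by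
    intro N
    obtain ⟨Q, i1, i2, i3, i4, i5, i6⟩ := P.QP p hHP N
    have := Fintype.ofFinite Q
    refine ⟨Q, i1, this, ?_, Fintype.card_pos, i3, i4, i5⟩
    rw [← Nat.card_eq_fintype_card]
    exact i6
  -- the inequalities for one `Q`
  have one : ∀ (Q : Type) [Group Q] [Fintype Q], Nontrivial Q → commutator Q = ⊤ →
      ¬ p ∣ Nat.card Q → ∀ (K0 ε : ℝ), 0 < ε →
      ((∀ B' : ((sg G Q).ker → F) → F, IsBlock B' →
          (nIrr B' : ℝ) ≤ K0 * (Nat.card (sg G Q).ker : ℝ) ^ ε * nWts p red B') →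
        (nIrr B : ℝ) ^ Fintype.card Q ≤ |K0| * ((a : ℝ) ^ 5 * (Fintype.card Q : ℝ) ^ 4) *
          ((Nat.card G : ℝ) ^ Fintype.card Q * Fintype.card Q) ^ ε *
            (nWts p red B : ℝ) ^ Fintype.card Q) ∧
      ((∀ B' : ((sg G Q).ker → F) → F, IsBlock B' →
          (nWts p red B' : ℝ) ≤ K0 * (Nat.card (sg G Q).ker : ℝ) ^ ε * nIrr B') →
        (nWts p red B : ℝ) ^ Fintype.card Q ≤ |K0| * ((a : ℝ) ^ 5 * (Fintype.card Q : ℝ) ^ 4) *
          ((Nat.card G : ℝ) ^ Fintype.card Q * Fintype.card Q) ^ ε *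
            (nIrr B : ℝ) ^ Fintype.card Q) := by
    intro Q _ _ hQ1 hQ2 hQ3 K0 ε hε
    obtain ⟨z, c, hz, hs, h0, h1, h2, h3, h4⟩ := pow_core P.BAS P.LPI P.WPI P.ID P.ZF P.ACT P.TWL
      P.TWW P.TW p F red G hfin hpM B hB Q
    set H : Subgroup (RegularWreathProduct G Q) := (sg G Q).ker with hH
    have hHc : (Nat.card H : ℝ) ^ ε ≤ ((Nat.card G : ℝ) ^ Fintype.card Q * Fintype.card Q) ^ ε := by
      refine Real.rpow_le_rpow (Nat.cast_nonneg _) ?_ hε.le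
      have e1 := Subgroup.card_le_card_group H
      rw [RegularWreathProduct.card, Nat.card_eq_fintype_card (α := Q)] at e1
      exact_mod_cast e1
    have hHn : (0 : ℝ) ≤ (Nat.card H : ℝ) ^ ε := Real.rpow_nonneg (Nat.cast_nonneg _) _
    obtain ⟨k1, k2⟩ := key P.LC P.WC P.ISO P.SB p F red G (nIrr B) (nWts p red B) a hMA hpM Q hQ3
      z c hz hs h0 h1 h2 h3 h4 (|K0| * (Nat.card H : ℝ) ^ ε) (mul_nonneg (abs_nonneg _) hHn)
    have up : ∀ x y : ℕ, (x : ℝ) ≤ K0 * (Nat.card H : ℝ) ^ ε * y →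
        (x : ℝ) ≤ |K0| * (Nat.card H : ℝ) ^ ε * y := by
      intro x y h
      refine h.trans ?_
      gcongr
      exact le_abs_self K0
    have fin : ∀ x y : ℝ, 0 ≤ y → x ≤ |K0| * (Nat.card H : ℝ) ^ ε *
        ((a : ℝ) ^ 5 * (Fintype.card Q : ℝ) ^ 4) * y →
        x ≤ |K0| * ((a : ℝ) ^ 5 * (Fintype.card Q : ℝ) ^ 4) *
          ((Nat.card G : ℝ) ^ Fintype.card Q * Fintype.card Q) ^ ε * y := by
      intro x y hy h
      refine h.trans ?_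
      calc |K0| * (Nat.card H : ℝ) ^ ε * ((a : ℝ) ^ 5 * (Fintype.card Q : ℝ) ^ 4) * y
          = |K0| * ((a : ℝ) ^ 5 * (Fintype.card Q : ℝ) ^ 4) * (Nat.card H : ℝ) ^ ε * y := by ring
        _ ≤ _ := by gcongr
    refine ⟨fun h => fin _ _ (by positivity) (k1 fun B' hB' => up _ _ (h B' hB')),
      fun h => fin _ _ (by positivity) (k2 fun B' hB' => up _ _ (h B' hB'))⟩
  have PR : ∀ (Q : Type) [Group Q] [Fintype Q], Nontrivial Q → commutator Q = ⊤ →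
      ¬ p ∣ Nat.card Q → PerfRad p (sg G Q).ker := fun Q _ _ hQ1 hQ2 hQ3 =>
    ⟨P.PERF G Q hQ1 hQ2, P.OP p G Q hQ1 hQ3 hM⟩
  constructor
  · intro h
    refine P.AMP (nIrr B) (nWts p red B) (Nat.card G) ((a : ℝ) ^ 5) hg1 (by positivity) ?_
    intro ε hε
    obtain ⟨K0, hK0⟩ := h ε hε
    refine ⟨|K0|, abs_nonneg _, fun N => ?_⟩
    obtain ⟨Q, i1, i2, hN', h1', hQ1, hQ2, hQ3⟩ := grp N
    exact ⟨Fintype.card Q, hN', h1', (one Q hQ1 hQ2 hQ3 K0 ε hε).1 fun B' hB' =>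
      hK0 (sg G Q).ker (PR Q hQ1 hQ2 hQ3) B' hB'⟩
  · intro h
    refine P.AMP (nWts p red B) (nIrr B) (Nat.card G) ((a : ℝ) ^ 5) hg1 (by positivity) ?_
    intro ε hε
    obtain ⟨K0, hK0⟩ := h ε hε
    refine ⟨|K0|, abs_nonneg _, fun N => ?_⟩
    obtain ⟨Q, i1, i2, hN', h1', hQ1, hQ2, hQ3⟩ := grp N
    exact ⟨Fintype.card Q, hN', h1', (one Q hQ1 hQ2 hQ3 K0 ε hε).2 fun B' hB' =>
      hK0 (sg G Q).ker (PR Q hQ1 hQ2 hQ3) B' hB'⟩

end Pool.Agent.J4.H3.PG
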