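import Pool.Agent.J4.H3.PG.Fin1
import Pool.Agent.R674.KB.Main
import Pool.Agent.R674.KB.Dz
import Pool.Agent.Y63.NV.Bawc

/-!
# The equivalences
-/

set_option autoImplicit false

open scoped Classical BigOperators

noncomputable section

namespace Pool.Agent.J4.H3.PG

open Pool.Agent.Y63.NV
open Pool.Agent.Y63.KR
open Pool.Agent.R674.KB

theorem closed_true (p : ℕ) : Closed p (fun _ _ => True) where
  iso := fun _ _ _ _ _ _ => trivial
  sub := fun _ _ _ _ => trivial
  quot := fun _ _ _ _ _ _ => trivial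

theorem xp_true (p : ℕ) (H : Type) [Group H] : XP p (fun _ _ => True) H :=
  ⟨⊤, inferInstance, trivial, pgroup_top p H⟩

/-- reduction to groups without quotients of order `p` and without normal `p`-subgroups -/
theorem bawc_red {p : ℕ} [Fact p.Prime] {F : Type} [Field F] [IsAlgClosed F] [CharP F p]
    (red : integralClosure ℤ ℂ →+* F)
    (h : ∀ (H : Type) [Group H] [Finite H], Reduced p H → BAWC p red H) (G : Type) [Group G]
    [Finite G] : BAWC p red G :=
  (bawc_strong red _ (closed_true p)).1 (fun H _ _ _ hR => h H hR) G ⊤ trivial (pgroup_top p G)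

/-- the alternating sums and the weights -/
theorem krq_bawc {p : ℕ} [Fact p.Prime] {F : Type} [Field F] [IsAlgClosed F] [CharP F p]
    (red : integralClosure ℤ ℂ →+* F) :
    (∀ (G : Type) [Group G] [Finite G], (∀ M : Subgroup G, M.Normal → IsPGroup p M → M = ⊥) →
      KRQ p red G) ↔ ∀ (G : Type) [Group G] [Finite G], BAWC p red G := by
  constructor
  · intro h G _ _
    rw [bawc_iff]
    refine bawc_reduction' red _ (closed_true p) ?_ (Nat.card G) G le_rfl (xp_true p G)
    intro H _ _ _ hR hsmall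
    refine bawc_of_krb kdimh kfilt kfin' red (fun σ hσ hne => ?_)
      ((krq_iff red H).1 (h H hR.radical))
    exact hsmall (chainStabilizer σ) (xp_true p _) (stab_lt hR.radical hσ hne)
  · intro h G _ _ _
    rw [krq_iff]
    exact krb_of_bawc kdimh kfilt kfin' red fun σ _ => (bawc_iff p red).1 (h (chainStabilizer σ))

theorem nWts_eq {p : ℕ} {F : Type} [Field F] (red : integralClosure ℤ ℂ →+* F) {G : Type} [Group G]
    (B : (G → F) → F) : nWts p red B =
      ∑ᶠ c : Quotient (Pool.Agent.Y63.AWC.pSubgroupSetoid p G), numWtBlock p red c.out.1 B := rfl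

theorem nIrr_eq {F : Type} [Field F] {G : Type} [Group G] (B : (G → F) → F) :
    nIrr B = numIrrBlock B := rfl

theorem bawc_def {p : ℕ} {F : Type} [Field F] (red : integralClosure ℤ ℂ →+* F) (G : Type)
    [Group G] : BAWC p red G ↔ ∀ B : (G → F) → F, IsBlock B → nIrr B = nWts p red B := Iff.rfl

/-- the final theorem -/
theorem final (P : AllParts) (p : ℕ) [Fact p.Prime] (F : Type) [Field F] [IsAlgClosed F]
    [CharP F p] (red : integralClosure ℤ ℂ →+* F) (hHP : HasPerfect p) :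
    ((∀ (G : Type) [Group G] [Finite G], (∀ M : Subgroup G, M.Normal → IsPGroup p M → M = ⊥) →
      KRQ p red G) ↔
      ∀ (H : Type) [Group H] [Finite H], PerfRad p H → BAWC p red H) ∧
    ((∀ (G : Type) [Group G] [Finite G], (∀ M : Subgroup G, M.Normal → IsPGroup p M → M = ⊥) →
      KRQ p red G) ↔
      ∀ ε : ℝ, 0 < ε → ∃ K : ℝ, ∀ (H : Type) [Group H] [Finite H], PerfRad p H →
        ∀ B : (H → F) → F, IsBlock B →
          (nIrr B : ℝ) ≤ K * (Nat.card H : ℝ) ^ ε * nWts p red B ∧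
          (nWts p red B : ℝ) ≤ K * (Nat.card H : ℝ) ^ ε * nIrr B) ∧
    ((∀ (G : Type) [Group G] [Finite G], Reduced p G → ∀ B : (G → F) → F, IsBlock B →
      nIrr B ≤ nWts p red B) ↔
      ∀ ε : ℝ, 0 < ε → ∃ K : ℝ, ∀ (H : Type) [Group H] [Finite H], PerfRad p H →
        ∀ B : (H → F) → F, IsBlock B →
          (nIrr B : ℝ) ≤ K * (Nat.card H : ℝ) ^ ε * nWts p red B) ∧
    ((∀ (G : Type) [Group G] [Finite G], Reduced p G → ∀ B : (G → F) → F, IsBlock B →
      nWts p red B ≤ nIrr B) ↔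
      ∀ ε : ℝ, 0 < ε → ∃ K : ℝ, ∀ (H : Type) [Group H] [Finite H], PerfRad p H →
        ∀ B : (H → F) → F, IsBlock B →
          (nWts p red B : ℝ) ≤ K * (Nat.card H : ℝ) ^ ε * nIrr B) := by
  -- a perfect group has no normal subgroup of index `p`
  have hperf : ∀ (H : Type) [Group H] [Finite H], PerfRad p H → Reduced p H := by
    intro H _ _ hH
    refine ⟨fun N hN hi => ?_, hH.rad⟩
    have := hN
    have hpr : p.Prime := Fact.out
    have hc : Nat.card (H ⧸ N) = p := hi
    have : IsCyclic (H ⧸ N) := isCyclic_of_prime_card hc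
    have h1 : commutator H ≤ N := by
      rw [← Subgroup.Normal.quotient_commutative_iff_commutator_le]
      exact IsCyclic.isMulCommutative
    rw [hH.perf, top_le_iff] at h1
    subst h1
    rw [Subgroup.index_top] at hi
    exact hpr.one_lt.ne hi
  have triv : ∀ (k l : ℕ), k ≤ l → ∀ (H : Type) [Group H] [Finite H] (ε : ℝ), 0 < ε →
      (k : ℝ) ≤ 1 * (Nat.card H : ℝ) ^ ε * (l : ℝ) := by
    intro k l hkl H _ _ ε hε
    have h1 : (1 : ℝ) ≤ (Nat.card H : ℝ) ^ ε :=
      Real.one_le_rpow (by exact_mod_cast Nat.card_pos) hε.le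
    have h2 : (k : ℝ) ≤ l := by exact_mod_cast hkl
    have h3 : (0 : ℝ) ≤ l := Nat.cast_nonneg _
    nlinarith
  have up : (∀ ε : ℝ, 0 < ε → ∃ K : ℝ, ∀ (H : Type) [Group H] [Finite H], PerfRad p H →
        ∀ B : (H → F) → F, IsBlock B →
          (nIrr B : ℝ) ≤ K * (Nat.card H : ℝ) ^ ε * nWts p red B) →
      ∀ (G : Type) [Group G] [Finite G], Reduced p G → ∀ B : (G → F) → F, IsBlock B →
        nIrr B ≤ nWts p red B := fun h G _ _ hG B hB =>
    (main_ineq P p F red hHP G hG.perfect hG.radical B hB).1 h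
  have down : (∀ ε : ℝ, 0 < ε → ∃ K : ℝ, ∀ (H : Type) [Group H] [Finite H], PerfRad p H →
        ∀ B : (H → F) → F, IsBlock B →
          (nWts p red B : ℝ) ≤ K * (Nat.card H : ℝ) ^ ε * nIrr B) →
      ∀ (G : Type) [Group G] [Finite G], Reduced p G → ∀ B : (G → F) → F, IsBlock B →
        nWts p red B ≤ nIrr B := fun h G _ _ hG B hB =>
    (main_ineq P p F red hHP G hG.perfect hG.radical B hB).2 h
  have sub_all : (∀ ε : ℝ, 0 < ε → ∃ K : ℝ, ∀ (H : Type) [Group H] [Finite H], PerfRad p H →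
        ∀ B : (H → F) → F, IsBlock B →
          (nIrr B : ℝ) ≤ K * (Nat.card H : ℝ) ^ ε * nWts p red B ∧
          (nWts p red B : ℝ) ≤ K * (Nat.card H : ℝ) ^ ε * nIrr B) →
      ∀ (G : Type) [Group G] [Finite G], BAWC p red G := by
    intro h
    refine fun G _ _ => bawc_red red (fun H _ _ hR => ?_) G
    rw [bawc_def]
    intro B hB
    refine le_antisymm (up (fun ε hε => ?_) H hR B hB) (down (fun ε hε => ?_) H hR B hB)
    · obtain ⟨K, hK⟩ := h ε hε
      exact ⟨K, fun H _ _ hH B hB => (hK H hH B hB).1⟩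
    · obtain ⟨K, hK⟩ := h ε hε
      exact ⟨K, fun H _ _ hH B hB => (hK H hH B hB).2⟩
  refine ⟨?_, ?_, ⟨fun h ε hε => ⟨1, fun H _ _ hH B hB => triv _ _ (h H (hperf H hH) B hB) H ε hε⟩,
    up⟩, ⟨fun h ε hε => ⟨1, fun H _ _ hH B hB => triv _ _ (h H (hperf H hH) B hB) H ε hε⟩, down⟩⟩
  · rw [krq_bawc]
    constructor
    · intro h H _ _ _
      exact h H
    · intro h
      refine sub_all fun ε hε => ⟨1, fun H _ _ hH B hB => ?_⟩
      have h1 := (bawc_def red H).1 (h H hH) B hB
      exact ⟨triv _ _ h1.le H ε hε, triv _ _ h1.ge H ε hε⟩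
  · rw [krq_bawc]
    constructor
    · intro h ε hε
      refine ⟨1, fun H _ _ hH B hB => ?_⟩
      have h1 := (bawc_def red H).1 (h H) B hB
      exact ⟨triv _ _ h1.le H ε hε, triv _ _ h1.ge H ε hε⟩
    · exact sub_all

end Pool.Agent.J4.H3.PG
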