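import Pool.Agent.J4.H3.PG.Key2
import Pool.Agent.J4.H3.PG.Fin1
import Pool.Agent.J4.H3.PG.D2
import Pool.Agent.J4.H3.PG.D3

/-!
# The inequalities for groups without quotients of order `p`: general form
-/

set_option autoImplicit false

open scoped Classical BigOperators

noncomputable section

namespace Pool.Agent.J4.H3.PG

open Pool.Agent.Y63.NV

/-- taking roots with the factor `f n` -/
def AmpFor (f : ℕ → ℝ) : Prop := ∀ (l w : ℕ) (g A : ℝ), 1 ≤ g → 0 ≤ A →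
  (∀ ε : ℝ, 0 < ε → ∃ K : ℝ, 0 ≤ K ∧ ∀ N : ℕ, ∃ n : ℕ, N ≤ n ∧ 1 ≤ n ∧
    (l : ℝ) ^ n ≤ K * (A * f n) * (g ^ n * n) ^ ε * (w : ℝ) ^ n) → l ≤ w

/-- the parts which do not depend on the perfect groups -/
structure Parts3 : Prop where
  BAS : S_BAS
  LPI : S_LPI
  WPI : S_WPI
  ID : S_ID
  ZF : S_ZF
  ACT : S_ACT
  TWL : S_TWL
  TWW : S_TWW
  TW : S_TW
  LC : S_LC
  WC : S_WC
  ISO : S_ISO
  SB : S_SB
  MC : S_MC

theorem ineq_gen (P : Parts3) (p : ℕ) [Fact p.Prime] (F : Type) [Field F] [IsAlgClosed F]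
    [CharP F p] (red : integralClosure ℤ ℂ →+* F) (G : Type) [Group G]
    [Finite G] (hN : ∀ N : Subgroup G, N.Normal → N.index ≠ p)
    (X : (H : Type) → Group H → Prop) (f : ℕ → ℝ) (hf0 : ∀ n, 0 ≤ f n) (hf : AmpFor f)
    (hQ : ∀ N : ℕ, ∃ (Q : Type) (_ : Group Q) (_ : Fintype Q), N ≤ Fintype.card Q ∧
      1 ≤ Fintype.card Q ∧ PerfRad p (sg G Q).ker ∧ X (sg G Q).ker inferInstance ∧
      BComp p red G Q (f (Fintype.card Q)))
    (B : (G → F) → F) (hB : IsBlock B) :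
    ((∀ ε : ℝ, 0 < ε → ∃ K : ℝ, ∀ (H : Type) (_ : Group H) (_ : Finite H), PerfRad p H →
      X H inferInstance → ∀ B' : (H → F) → F, IsBlock B' →
        (nIrr B' : ℝ) ≤ K * (Nat.card H : ℝ) ^ ε * nWts p red B') → nIrr B ≤ nWts p red B) ∧
    ((∀ ε : ℝ, 0 < ε → ∃ K : ℝ, ∀ (H : Type) (_ : Group H) (_ : Finite H), PerfRad p H →
      X H inferInstance → ∀ B' : (H → F) → F, IsBlock B' →
        (nWts p red B' : ℝ) ≤ K * (Nat.card H : ℝ) ^ ε * nIrr B') → nWts p red B ≤ nIrr B) := by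
  obtain ⟨hfin, hMA, hpM⟩ := P.MC p G hN
  set a : ℕ := Nat.card (G →* ℂˣ) with ha
  have hg1 : (1 : ℝ) ≤ Nat.card G := by exact_mod_cast Nat.card_pos
  -- the inequalities for one `Q`
  have one : ∀ (Q : Type) [Group Q] [Fintype Q], BComp p red G Q (f (Fintype.card Q)) →
      ∀ (K0 ε : ℝ), 0 < ε →
      ((∀ B' : ((sg G Q).ker → F) → F, IsBlock B' →
          (nIrr B' : ℝ) ≤ K0 * (Nat.card (sg G Q).ker : ℝ) ^ ε * nWts p red B') →
        (nIrr B : ℝ) ^ Fintype.card Q ≤ |K0| * ((a : ℝ) ^ 5 * f (Fintype.card Q)) *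
          ((Nat.card G : ℝ) ^ Fintype.card Q * Fintype.card Q) ^ ε *
            (nWts p red B : ℝ) ^ Fintype.card Q) ∧
      ((∀ B' : ((sg G Q).ker → F) → F, IsBlock B' →
          (nWts p red B' : ℝ) ≤ K0 * (Nat.card (sg G Q).ker : ℝ) ^ ε * nIrr B') →
        (nWts p red B : ℝ) ^ Fintype.card Q ≤ |K0| * ((a : ℝ) ^ 5 * f (Fintype.card Q)) *
          ((Nat.card G : ℝ) ^ Fintype.card Q * Fintype.card Q) ^ ε *
            (nIrr B : ℝ) ^ Fintype.card Q) := by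
    intro Q _ _ hBC K0 ε hε
    obtain ⟨z, c, hz, hs, h0, h1, h2, h3, h4⟩ := pow_core P.BAS P.LPI P.WPI P.ID P.ZF P.ACT P.TWL
      P.TWW P.TW p F red G hfin hpM B hB Q
    set H : Subgroup (RegularWreathProduct G Q) := (sg G Q).ker with hH
    have hHc : (Nat.card H : ℝ) ^ ε ≤ ((Nat.card G : ℝ) ^ Fintype.card Q * Fintype.card Q) ^ ε := by
      refine Real.rpow_le_rpow (Nat.cast_nonneg _) ?_ hε.le
      have e1 := Subgroup.card_le_card_group H
      rw [RegularWreathProduct.card, Nat.card_eq_fintype_card (α := Q)] at e1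
      exact_mod_cast e1
    have hHn : (0 : ℝ) ≤ (Nat.card H : ℝ) ^ ε := Real.rpow_nonneg (Nat.cast_nonneg _) _
    obtain ⟨k1, k2⟩ := key2 P.LC P.WC P.ISO P.SB p F red G (nIrr B) (nWts p red B) a hMA hpM Q
      (f (Fintype.card Q)) (hf0 _) hBC
      z c hz hs h0 h1 h2 h3 h4 (|K0| * (Nat.card H : ℝ) ^ ε) (mul_nonneg (abs_nonneg _) hHn)
    have up : ∀ x y : ℕ, (x : ℝ) ≤ K0 * (Nat.card H : ℝ) ^ ε * y →
        (x : ℝ) ≤ |K0| * (Nat.card H : ℝ) ^ ε * y := by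
      intro x y h
      refine h.trans ?_
      gcongr
      exact le_abs_self K0
    have hff := hf0 (Fintype.card Q)
    have fin : ∀ x y : ℝ, 0 ≤ y → x ≤ |K0| * (Nat.card H : ℝ) ^ ε *
        ((a : ℝ) ^ 5 * f (Fintype.card Q)) * y →
        x ≤ |K0| * ((a : ℝ) ^ 5 * f (Fintype.card Q)) *
          ((Nat.card G : ℝ) ^ Fintype.card Q * Fintype.card Q) ^ ε * y := by
      intro x y hy h
      refine h.trans ?_
      calc |K0| * (Nat.card H : ℝ) ^ ε * ((a : ℝ) ^ 5 * f (Fintype.card Q)) * y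
          = |K0| * ((a : ℝ) ^ 5 * f (Fintype.card Q)) * (Nat.card H : ℝ) ^ ε * y := by ring
        _ ≤ _ := by gcongr
    refine ⟨fun h => fin _ _ (by positivity) (k1 fun B' hB' => up _ _ (h B' hB')),
      fun h => fin _ _ (by positivity) (k2 fun B' hB' => up _ _ (h B' hB'))⟩
  constructor
  · intro h
    refine hf (nIrr B) (nWts p red B) (Nat.card G) ((a : ℝ) ^ 5) hg1 (by positivity) ?_
    intro ε hε
    obtain ⟨K0, hK0⟩ := h ε hε
    refine ⟨|K0|, abs_nonneg _, fun N => ?_⟩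
    obtain ⟨Q, i1, i2, hN', h1', hQ1, hQ2, hQ3⟩ := hQ N
    exact ⟨Fintype.card Q, hN', h1', (one Q hQ3 K0 ε hε).1 fun B' hB' =>
      hK0 (sg G Q).ker inferInstance inferInstance hQ1 hQ2 B' hB'⟩
  · intro h
    refine hf (nWts p red B) (nIrr B) (Nat.card G) ((a : ℝ) ^ 5) hg1 (by positivity) ?_
    intro ε hε
    obtain ⟨K0, hK0⟩ := h ε hε
    refine ⟨|K0|, abs_nonneg _, fun N => ?_⟩
    obtain ⟨Q, i1, i2, hN', h1', hQ1, hQ2, hQ3⟩ := hQ N
    exact ⟨Fintype.card Q, hN', h1', (one Q hQ3 K0 ε hε).2 fun B' hB' =>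
      hK0 (sg G Q).ker inferInstance inferInstance hQ1 hQ2 B' hB'⟩

/-- `p'`-index: the comparison with `n ^ 4` -/
theorem bcomp_odd (hWC : S_WC) (p : ℕ) [Fact p.Prime] (F : Type) [Field F] [IsAlgClosed F]
    [CharP F p] (red : integralClosure ℤ ℂ →+* F) (G : Type) [Group G] [Finite G] (Q : Type)
    [Group Q] [Fintype Q] (hpQ : ¬ p ∣ Nat.card Q) :
    BComp p red G Q ((Fintype.card Q : ℝ) ^ 4) := by
  intro z c hz
  have hBi : (BS G Q).index = Fintype.card Q := by rw [BS_index, Nat.card_eq_fintype_card]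
  obtain ⟨d1, d2⟩ := hWC p F red (RegularWreathProduct G Q) (BS G Q) z c
    (by rw [BS_index]; exact hpQ) hz
  rw [hBi] at d1 d2
  have n1 : (1 : ℝ) ≤ Fintype.card Q := by exact_mod_cast (Fintype.card_pos : 0 < Fintype.card Q)
  have D1 : (WW p red (fun x : BS G Q => z x) c : ℝ) ≤ (Fintype.card Q : ℝ) ^ 2 * WW p red z c := by
    exact_mod_cast d1
  have D2 : (WW p red z c : ℝ) ≤ (Fintype.card Q : ℝ) ^ 2 * WW p red (fun x : BS G Q => z x) c := by
    exact_mod_cast d2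
  constructor
  · calc (Fintype.card Q : ℝ) ^ 2 * WW p red (fun x : BS G Q => z x) c
        ≤ (Fintype.card Q : ℝ) ^ 2 * ((Fintype.card Q : ℝ) ^ 2 * WW p red z c) := by gcongr
      _ = _ := by ring
  · refine D2.trans ?_
    refine mul_le_mul_of_nonneg_right ?_ (Nat.cast_nonneg _)
    exact pow_le_pow_right₀ n1 (by norm_num)

/-- arbitrary index -/
theorem bcomp_all (hWG : S_WG) (hSUBC : S_SUBC) (p : ℕ) [Fact p.Prime] (F : Type) [Field F]
    [IsAlgClosed F] [CharP F p] (red : integralClosure ℤ ℂ →+* F) (G : Type) [Group G] [Finite G]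
    (Q : Type) [Group Q] [Fintype Q] :
    BComp p red G Q ((Fintype.card Q : ℝ) ^ 6 *
      (Fintype.card Q : ℝ) ^ (Nat.log 2 (Fintype.card Q))) := by
  intro z c hz
  have hBi : (BS G Q).index = Fintype.card Q := by rw [BS_index, Nat.card_eq_fintype_card]
  obtain ⟨d1, d2⟩ := hWG p F red (RegularWreathProduct G Q) (BS G Q) z c hz
  have hs : Nat.card (Subgroup (RegularWreathProduct G Q ⧸ BS G Q)) ≤
      Fintype.card Q ^ Nat.log 2 (Fintype.card Q) := by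
    have e : RegularWreathProduct G Q ⧸ BS G Q ≃* Q :=
      QuotientGroup.quotientKerEquivOfSurjective RegularWreathProduct.rightHom
        (fun q => ⟨⟨1, q⟩, rfl⟩)
    have h1 : Nat.card (Subgroup (RegularWreathProduct G Q ⧸ BS G Q)) = Nat.card (Subgroup Q) :=
      Nat.card_congr e.mapSubgroup.toEquiv
    rw [h1]
    have h2 := hSUBC Q
    rwa [Nat.card_eq_fintype_card (α := Q)] at h2
  rw [hBi] at d1 d2
  set n : ℕ := Fintype.card Q with hn
  set s : ℕ := Nat.card (Subgroup (RegularWreathProduct G Q ⧸ BS G Q)) with hsdef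
  have n1 : (1 : ℝ) ≤ n := by exact_mod_cast (Fintype.card_pos : 0 < Fintype.card Q)
  have hs' : (s : ℝ) ≤ (n : ℝ) ^ Nat.log 2 n := by exact_mod_cast hs
  have D1 : (WW p red (fun x : BS G Q => z x) c : ℝ) ≤ (n : ℝ) ^ 2 * WW p red z c := by
    exact_mod_cast d1
  have D2 : (WW p red z c : ℝ) ≤ (n : ℝ) ^ 3 * s * WW p red (fun x : BS G Q => z x) c := by
    exact_mod_cast d2
  have hp1 : (1 : ℝ) ≤ (n : ℝ) ^ Nat.log 2 n := one_le_pow₀ n1
  have hp46 : (n : ℝ) ^ 4 ≤ (n : ℝ) ^ 6 := pow_le_pow_right₀ n1 (by norm_num)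
  have hp36 : (n : ℝ) ^ 3 ≤ (n : ℝ) ^ 6 := pow_le_pow_right₀ n1 (by norm_num)
  constructor
  · calc (n : ℝ) ^ 2 * WW p red (fun x : BS G Q => z x) c
        ≤ (n : ℝ) ^ 2 * ((n : ℝ) ^ 2 * WW p red z c) := by gcongr
      _ = (n : ℝ) ^ 4 * 1 * WW p red z c := by ring
      _ ≤ (n : ℝ) ^ 6 * (n : ℝ) ^ Nat.log 2 n * WW p red z c := by gcongr
  · refine D2.trans ?_
    gcongr

end Pool.Agent.J4.H3.PG
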