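import Pool.Agent.J4.H3.PG.Fin3
import Pool.Agent.J4.H3.PG.Fin2

/-!
# The equivalences, relative to a class of groups
-/

set_option autoImplicit false

open scoped Classical BigOperators

noncomputable section

namespace Pool.Agent.J4.H3.PG

open Pool.Agent.Y63.NV
open Pool.Agent.Y63.KR
open Pool.Agent.R674.KB

/-- `O_p(G) = 1` -/
def Op1 (p : ℕ) (G : Type) [Group G] : Prop :=
  ∀ M : Subgroup G, M.Normal → IsPGroup p M → M = ⊥

/-- the equivalences, relative to the class `X` -/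
def Equiv4 (p : ℕ) {F : Type} [Field F] (red : integralClosure ℤ ℂ →+* F)
    (X : (G : Type) → Group G → Prop) : Prop :=
  ((∀ (G : Type) (i : Group G) (_ : Finite G), X G i → Op1 p G → KRQ p red G) ↔
      ∀ (H : Type) (i : Group H) (_ : Finite H), X H i → commutator H = ⊤ → Op1 p H →
        BAWC p red H) ∧
    ((∀ (G : Type) (i : Group G) (_ : Finite G), X G i → Op1 p G → KRQ p red G) ↔
      ∀ ε : ℝ, 0 < ε → ∃ K : ℝ, ∀ (H : Type) (i : Group H) (_ : Finite H), X H i →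
        commutator H = ⊤ → Op1 p H → ∀ B : (H → F) → F, IsBlock B →
          (nIrr B : ℝ) ≤ K * (Nat.card H : ℝ) ^ ε * nWts p red B ∧
          (nWts p red B : ℝ) ≤ K * (Nat.card H : ℝ) ^ ε * nIrr B) ∧
    ((∀ (G : Type) (i : Group G) (_ : Finite G), X G i → Op1 p G →
        (∀ N : Subgroup G, N.Normal → N.index ≠ p) → ∀ B : (G → F) → F, IsBlock B →
          nIrr B ≤ nWts p red B) ↔
      ∀ ε : ℝ, 0 < ε → ∃ K : ℝ, ∀ (H : Type) (i : Group H) (_ : Finite H), X H i →
        commutator H = ⊤ → Op1 p H → ∀ B : (H → F) → F, IsBlock B →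
          (nIrr B : ℝ) ≤ K * (Nat.card H : ℝ) ^ ε * nWts p red B) ∧
    ((∀ (G : Type) (i : Group G) (_ : Finite G), X G i → Op1 p G →
        (∀ N : Subgroup G, N.Normal → N.index ≠ p) → ∀ B : (G → F) → F, IsBlock B →
          nWts p red B ≤ nIrr B) ↔
      ∀ ε : ℝ, 0 < ε → ∃ K : ℝ, ∀ (H : Type) (i : Group H) (_ : Finite H), X H i →
        commutator H = ⊤ → Op1 p H → ∀ B : (H → F) → F, IsBlock B →
          (nWts p red B : ℝ) ≤ K * (Nat.card H : ℝ) ^ ε * nIrr B)

/-- the alternating sums and the weights, relative to a class -/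
theorem krq_bawcX {p : ℕ} [Fact p.Prime] {F : Type} [Field F] [IsAlgClosed F] [CharP F p]
    (red : integralClosure ℤ ℂ →+* F) (X : ∀ (G : Type) [Group G], Prop) (hX : Closed p X) :
    (∀ (G : Type) (i : Group G) (_ : Finite G), X G → Op1 p G → KRQ p red G) ↔
      ∀ (G : Type) (i : Group G) (_ : Finite G), X G → BAWC p red G := by
  constructor
  · intro h G _ _ hG
    rw [bawc_iff]
    refine bawc_reduction' red X hX ?_ (Nat.card G) G le_rfl
      ⟨⊤, inferInstance, hX.iso _ _ hG ⟨Subgroup.topEquiv.symm⟩, pgroup_top p G⟩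
    intro H _ _ hH hR hsmall
    refine bawc_of_krb kdimh kfilt kfin' red (fun σ hσ hne => ?_)
      ((krq_iff red H).1 (h H inferInstance inferInstance hH hR.radical))
    have hXP : XP p X (chainStabilizer σ) :=
      (xp_closed p X hX).sub H ⟨⊤, inferInstance,
        hX.iso _ _ hH ⟨Subgroup.topEquiv.symm⟩, pgroup_top p H⟩ _
    exact hsmall (chainStabilizer σ) hXP (stab_lt hR.radical hσ hne)
  · intro h G _ _ hG _
    rw [krq_iff]
    exact krb_of_bawc kdimh kfilt kfin' red fun σ _ =>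
      (bawc_iff p red).1 (h (chainStabilizer σ) inferInstance inferInstance (hX.sub G hG _))

/-- a perfect group has no normal subgroup of index `p` -/
theorem perf_index {p : ℕ} (hpr : p.Prime) (H : Type) [Group H] [Finite H]
    (hH : commutator H = ⊤) : ∀ N : Subgroup H, N.Normal → N.index ≠ p := by
  intro N hN hi
  have := hN
  have := Fact.mk hpr
  have hc : Nat.card (H ⧸ N) = p := hi
  have : IsCyclic (H ⧸ N) := isCyclic_of_prime_card hc
  have h1 : commutator H ≤ N := by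
    rw [← Subgroup.Normal.quotient_commutative_iff_commutator_le]
    exact IsCyclic.isMulCommutative
  rw [hH, top_le_iff] at h1
  subst h1
  rw [Subgroup.index_top] at hi
  exact hpr.one_lt.ne hi

theorem equiv_gen (P : Parts3) (p : ℕ) [Fact p.Prime] (F : Type) [Field F] [IsAlgClosed F]
    [CharP F p] (red : integralClosure ℤ ℂ →+* F) (X : (G : Type) → Group G → Prop)
    (hX : Closed p (fun G i => X G i)) (f : ℕ → ℝ) (hf0 : ∀ n, 0 ≤ f n) (hf : AmpFor f)
    (hQ : ∀ (G : Type) (i : Group G) (_ : Finite G), X G i → Op1 p G →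
      (∀ N : Subgroup G, N.Normal → N.index ≠ p) →
      ∀ N : ℕ, ∃ (Q : Type) (_ : Group Q) (_ : Fintype Q), N ≤ Fintype.card Q ∧
      1 ≤ Fintype.card Q ∧ PerfRad p (sg G Q).ker ∧ X (sg G Q).ker inferInstance ∧
      BComp p red G Q (f (Fintype.card Q))) : Equiv4 p red X := by
  have hpr : p.Prime := Fact.out
  have triv : ∀ (k l : ℕ), k ≤ l → ∀ (H : Type) [Group H] [Finite H] (ε : ℝ), 0 < ε →
      (k : ℝ) ≤ 1 * (Nat.card H : ℝ) ^ ε * (l : ℝ) := by
    intro k l hkl H _ _ ε hε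
    have h1 : (1 : ℝ) ≤ (Nat.card H : ℝ) ^ ε :=
      Real.one_le_rpow (by exact_mod_cast Nat.card_pos) hε.le
    have h2 : (k : ℝ) ≤ l := by exact_mod_cast hkl
    have h3 : (0 : ℝ) ≤ l := Nat.cast_nonneg _
    nlinarith
  have up : (∀ ε : ℝ, 0 < ε → ∃ K : ℝ, ∀ (H : Type) (i : Group H) (_ : Finite H), X H i →
        commutator H = ⊤ → Op1 p H → ∀ B : (H → F) → F, IsBlock B →
          (nIrr B : ℝ) ≤ K * (Nat.card H : ℝ) ^ ε * nWts p red B) →
      ∀ (G : Type) (i : Group G) (_ : Finite G), X G i → Op1 p G →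
        (∀ N : Subgroup G, N.Normal → N.index ≠ p) → ∀ B : (G → F) → F, IsBlock B →
          nIrr B ≤ nWts p red B := by
    intro h G i _ hG hM hN B hB
    refine (ineq_gen P p F red G hN X f hf0 hf (hQ G i inferInstance hG hM hN) B hB).1 ?_
    intro ε hε
    obtain ⟨K, hK⟩ := h ε hε
    exact ⟨K, fun H j hfH hP hXH B' hB' => hK H j hfH hXH hP.perf hP.rad B' hB'⟩
  have down : (∀ ε : ℝ, 0 < ε → ∃ K : ℝ, ∀ (H : Type) (i : Group H) (_ : Finite H), X H i →
        commutator H = ⊤ → Op1 p H → ∀ B : (H → F) → F, IsBlock B →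
          (nWts p red B : ℝ) ≤ K * (Nat.card H : ℝ) ^ ε * nIrr B) →
      ∀ (G : Type) (i : Group G) (_ : Finite G), X G i → Op1 p G →
        (∀ N : Subgroup G, N.Normal → N.index ≠ p) → ∀ B : (G → F) → F, IsBlock B →
          nWts p red B ≤ nIrr B := by
    intro h G i _ hG hM hN B hB
    refine (ineq_gen P p F red G hN X f hf0 hf (hQ G i inferInstance hG hM hN) B hB).2 ?_
    intro ε hε
    obtain ⟨K, hK⟩ := h ε hε
    exact ⟨K, fun H j hfH hP hXH B' hB' => hK H j hfH hXH hP.perf hP.rad B' hB'⟩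
  have sub_all : (∀ ε : ℝ, 0 < ε → ∃ K : ℝ, ∀ (H : Type) (i : Group H) (_ : Finite H), X H i →
        commutator H = ⊤ → Op1 p H → ∀ B : (H → F) → F, IsBlock B →
          (nIrr B : ℝ) ≤ K * (Nat.card H : ℝ) ^ ε * nWts p red B ∧
          (nWts p red B : ℝ) ≤ K * (Nat.card H : ℝ) ^ ε * nIrr B) →
      ∀ (G : Type) (i : Group G) (_ : Finite G), X G i → BAWC p red G := by
    intro h G i _ hG
    refine (bawc_strong red _ hX).1 (fun H j _ hH hR => ?_) G ⊤
      (hX.iso _ _ hG ⟨Subgroup.topEquiv.symm⟩) (pgroup_top p G)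
    rw [bawc_def]
    intro B hB
    refine le_antisymm (up (fun ε hε => ?_) H j inferInstance hH hR.radical hR.perfect B hB)
      (down (fun ε hε => ?_) H j inferInstance hH hR.radical hR.perfect B hB)
    · obtain ⟨K, hK⟩ := h ε hε
      exact ⟨K, fun H i hfH h1 h2 h3 B hB => (hK H i hfH h1 h2 h3 B hB).1⟩
    · obtain ⟨K, hK⟩ := h ε hε
      exact ⟨K, fun H i hfH h1 h2 h3 B hB => (hK H i hfH h1 h2 h3 B hB).2⟩
  have kb := krq_bawcX red (fun G i => X G i) hX
  refine ⟨?_, ?_, ⟨fun h ε hε => ⟨1, fun H i _ h1 h2 h3 B hB =>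
    triv _ _ (h H i inferInstance h1 h3 (perf_index hpr H h2) B hB) H ε hε⟩, up⟩,
    ⟨fun h ε hε => ⟨1, fun H i _ h1 h2 h3 B hB =>
      triv _ _ (h H i inferInstance h1 h3 (perf_index hpr H h2) B hB) H ε hε⟩, down⟩⟩
  · refine kb.trans ?_
    constructor
    · intro h H i hfH h1 _ _
      exact h H i hfH h1
    · intro h
      refine sub_all fun ε hε => ⟨1, fun H i hfH h1 h2 h3 B hB => ?_⟩
      have h4 := (bawc_def red H).1 (h H i hfH h1 h2 h3) B hB
      exact ⟨triv _ _ h4.le H ε hε, triv _ _ h4.ge H ε hε⟩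
  · refine kb.trans ?_
    constructor
    · intro h ε hε
      refine ⟨1, fun H i hfH h1 h2 h3 B hB => ?_⟩
      have h4 := (bawc_def red H).1 (h H i hfH h1) B hB
      exact ⟨triv _ _ h4.le H ε hε, triv _ _ h4.ge H ε hε⟩
    · exact sub_all

/-- `p` odd: classes of groups given by the Sylow subgroups -/
theorem equiv_odd (P : Parts3) (hPERF : S_PERF) (hOP : S_OP) (hQP : S_QP) (hAMP : S_AMP)
    (h1 : S_SYL1) (h2 : S_SYL2) (p : ℕ) [Fact p.Prime] (F : Type) [Field F] [IsAlgClosed F]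
    [CharP F p] (red : integralClosure ℤ ℂ →+* F) (hHP : HasPerfect p)
    (C : (P : Type) → Group P → Prop) (hC : ClsP C) :
    Equiv4 p red (fun G i => @SylIn p C G i) := by
  obtain ⟨c1, c2, c3⟩ := h1 p C hC
  refine equiv_gen P p F red _ ⟨fun G H _ _ hG e => c1 G H hG e, fun G _ hG H => c2 G hG H,
    fun G _ hG M _ hM => c3 G hG M hM⟩ (fun n => (n : ℝ) ^ 4) (fun n => by positivity) hAMP ?_
  intro G i hfG hG hM hN N
  obtain ⟨Q, i1, i2, i3, i4, i5, i6⟩ := hQP p hHP N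
  have hF := Fintype.ofFinite Q
  refine ⟨Q, i1, hF, ?_, Fintype.card_pos, ⟨hPERF G Q i3 i4, hOP p G Q i3 i5 hM⟩,
    h2 p C hC G Q i5 hG, bcomp_odd P.WC p F red G Q i5⟩
  rw [← Nat.card_eq_fintype_card]
  exact i6

/-- all primes -/
theorem equiv_all (P : Parts3) (hPERF : S_PERF) (hOP : S_OP2) (hQP : S_QP2) (hAMP : S_AMP2)
    (hWG : S_WG) (hSUBC : S_SUBC) (p : ℕ) [Fact p.Prime] (F : Type) [Field F] [IsAlgClosed F]
    [CharP F p] (red : integralClosure ℤ ℂ →+* F) :
    Equiv4 p red (fun _ _ => True) := by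
  refine equiv_gen P p F red _ (closed_true p)
    (fun n => (n : ℝ) ^ 6 * (n : ℝ) ^ (Nat.log 2 n)) (fun n => by positivity) hAMP ?_
  intro G i hfG hG hM hN N
  obtain ⟨Q, i1, i2, i3, i4, i5, i6⟩ := hQP p N
  have hF := Fintype.ofFinite Q
  refine ⟨Q, i1, hF, ?_, Fintype.card_pos, ⟨hPERF G Q i3 i4, hOP p G Q i3 i5 hM⟩,
    trivial, bcomp_all hWG hSUBC p F red G Q⟩
  rw [← Nat.card_eq_fintype_card]
  exact i6

end Pool.Agent.J4.H3.PG
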