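import Pool.Agent.J4.H3.PG.T_ISO
import Pool.Agent.Y63.NV.Pe

/-!
# The numbers `LL` and `WW` at the unit element
-/

set_option autoImplicit false

open scoped Classical BigOperators

noncomputable section

namespace Pool.Agent.J4.H3.PG

open Pool.Agent.Y63.NV
open Pool.Agent.J4.H3.PG.ISOp (ll_iso)
open Pool.Agent.Y63.AWC (IsIrreducibleCharacter pSubgroupSetoid numDefectZero numWeights
  numRegularClasses)

theorem t_GRL (p : ℕ) [Fact p.Prime] (F : Type) [Field F] [IsAlgClosed F] [CharP F p]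
    (G : Type) [Group G] [Finite G] :
    LL (Pi.single 1 1 : G → F) 1 = numRegularClasses p G := by
  have h1 : numInvIrr F (⊤ : Subgroup G) = numRegularClasses p G := by
    rw [← lnum_unit, lreg' p F G ⊤ (pgroup_top p G), invReg_top]
  rw [← h1, ← ll_iso (Subgroup.topEquiv : (⊤ : Subgroup G) ≃* G)]
  unfold LL numInvIrr
  refine Nat.card_congr (Equiv.subtypeEquivRight fun φ => ?_)
  constructor
  · rintro ⟨h, _⟩
    refine ⟨h, ?_⟩
    obtain ⟨V, _, _, _, ρ, hρ, rfl⟩ := h
    intro g _ x y hxy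
    have h2 : y = ⟨g, Subgroup.mem_top g⟩ * x * ⟨g, Subgroup.mem_top g⟩⁻¹ := Subtype.ext hxy
    rw [h2]
    exact ρ.char_conj _ _
  · rintro ⟨h, _⟩
    refine ⟨h, fun x => ?_⟩
    rw [finsum_eq_single _ (1 : (⊤ : Subgroup G))]
    · rw [one_mul, one_mul]
      change (Pi.single 1 1 : G → F) ((1 : (⊤ : Subgroup G)) : G) * φ x = φ x
      rw [show ((1 : (⊤ : Subgroup G)) : G) = 1 from rfl, Pi.single_eq_same, one_mul]
    · intro g hg
      have hg' : ((Subgroup.topEquiv : (⊤ : Subgroup G) ≃* G) g) ≠ 1 := fun h => hg (Subtype.ext h)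
      change (Pi.single 1 1 : G → F) ((Subgroup.topEquiv : (⊤ : Subgroup G) ≃* G) g) * φ (g * x) = 0
      rw [Pi.single_eq_of_ne hg', zero_mul]

theorem t_GRW (p : ℕ) [Fact p.Prime] (F : Type) [Field F] [IsAlgClosed F] [CharP F p]
    (red : integralClosure ℤ ℂ →+* F) (G : Type) [Group G] [Finite G] :
    WW p red (Pi.single 1 1 : G → F) 1 = Nat.card G * numWeights p G := by
  have h1 := wcov' p F red G ⊤
  have h2 : covW p (⊤ : Subgroup G) = Nat.card G * numWeights p G := by
    rw [covW_eq]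
    congr 1
    unfold numWeights
    refine finsum_congr fun c => ?_
    rw [if_pos (top_sup_eq _)]
    rfl
  have h3 : Wsum p red (⊤ : Subgroup G) ⊤ (Pi.single 1 1 : G → F) 1 =
      ((WW p red (Pi.single 1 1 : G → F) 1 : ℕ) : ℤ) := by
    unfold Wsum WW
    have hS : Fintype (Subgroup G) := Fintype.ofFinite _
    rw [finsum_eq_sum_of_fintype, finsum_eq_sum_of_fintype, Nat.cast_sum]
    refine Finset.sum_congr rfl fun Q _ => ?_
    by_cases hQ : IsPGroup p Q
    · rw [if_pos hQ, if_pos ⟨hQ, le_top, top_sup_eq _⟩, top_inf_eq]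
      push_cast
      rfl
    · rw [if_neg hQ, if_neg (fun h => hQ h.1)]
      rfl
  rw [h3, h2] at h1
  exact_mod_cast h1

end Pool.Agent.J4.H3.PG
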