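import Pool.Agent.J4.H3.PG.Fin5
import Pool.Agent.J4.H3.PG.Key3
import Pool.Agent.J4.H3.PG.T_GR

/-!
# The conjecture without blocks
-/

set_option autoImplicit false

open scoped Classical BigOperators

noncomputable section

namespace Pool.Agent.J4.H3.PG

open Pool.Agent.Y63.NV
open Pool.Agent.Y63.AWC (numWeights numRegularClasses)

/-- the unit element of the group algebra -/
def un (F G : Type) [Field F] [Group G] : G → F := Pi.single 1 1

theorem un_one (F G : Type) [Field F] [Group G] : un F G 1 = 1 := Pi.single_eq_same _ _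

theorem un_ne (F G : Type) [Field F] [Group G] {x : G} (hx : x ≠ 1) : un F G x = 0 :=
  Pi.single_eq_of_ne hx _

theorem un_cf (F : Type) [Field F] (G : Type) [Group G] :
    IsClassFun (un F G) := fun g x => Pool.Agent.Y63.NV.B532.single_conj g x

theorem un_LL (p : ℕ) [Fact p.Prime] (F : Type) [Field F] [IsAlgClosed F] [CharP F p]
    (G : Type) [Group G] [Finite G] : LL (un F G) 1 = numRegularClasses p G := t_GRL p F G

theorem un_WW (p : ℕ) [Fact p.Prime] (F : Type) [Field F] [IsAlgClosed F] [CharP F p]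
    (red : integralClosure ℤ ℂ →+* F) (G : Type) [Group G] [Finite G] :
    WW p red (un F G) 1 = Nat.card G * numWeights p G := t_GRW p F red G

theorem blk_un {F : Type} [Field F] {G : Type} [Group G] {B : (G → F) → F} (h : IsBlock B) :
    B (un F G) = 1 := h.one

theorem pow_grp (hBAS : S_BAS) (hLPI : S_LPI) (hWPI : S_WPI)
    (p : ℕ) [Fact p.Prime] (F : Type) [Field F] [IsAlgClosed F] [CharP F p]
    (red : integralClosure ℤ ℂ →+* F) (G : Type) [Group G] [Finite G] (ι : Type) [Fintype ι] :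
    LL (un F (ι → G)) 1 = numRegularClasses p G ^ Fintype.card ι ∧
    WW p red (un F (ι → G)) 1 = (Nat.card G * numWeights p G) ^ Fintype.card ι := by
  obtain ⟨f1, f2, b1, b2, v1, ne1, cnt, blk⟩ := hBAS p F red G
  obtain ⟨f1', f2', b1', b2', v1', ne1', cnt', blk'⟩ := hBAS p F red (ι → G)
  obtain ⟨EL, hEL⟩ := hLPI F G ι
  obtain ⟨EW, hEW⟩ := hWPI p F red G ι
  obtain ⟨c1, c2⟩ := cnt (un F G) 1 (un_cf F G)
  obtain ⟨c1', c2'⟩ := cnt' (un F (ι → G)) 1 (un_cf F (ι → G))
  have e1 : Nat.card {φ : Lt F G // lv φ (un F G) = 1} = Nat.card (Lt F G) :=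
    Nat.card_congr (Equiv.subtypeUnivEquiv fun φ => blk_un (b1 φ))
  have e2 : Nat.card {w : Wt p G // wv red w (un F G) = 1} = Nat.card (Wt p G) :=
    Nat.card_congr (Equiv.subtypeUnivEquiv fun φ => blk_un (b2 φ))
  have e1' : Nat.card {φ : Lt F (ι → G) // lv φ (un F (ι → G)) = 1} = Nat.card (Lt F (ι → G)) :=
    Nat.card_congr (Equiv.subtypeUnivEquiv fun φ => blk_un (b1' φ))
  have e2' : Nat.card {w : Wt p (ι → G) // wv red w (un F (ι → G)) = 1} = Nat.card (Wt p (ι → G)) :=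
    Nat.card_congr (Equiv.subtypeUnivEquiv fun φ => blk_un (b2' φ))
  rw [c1', c2', e1', e2', ← Nat.card_congr EL, ← Nat.card_congr EW, Nat.card_fun, Nat.card_fun,
    ← un_LL p F G, ← un_WW p F red G, c1, c2, e1, e2, Nat.card_eq_fintype_card (α := ι)]
  exact ⟨rfl, rfl⟩

theorem zW_single {F : Type} [Field F] (G Q : Type) [Group G] [Group Q] [Fintype Q]
    (H : Subgroup (RegularWreathProduct G Q)) :
    (fun x : H => zW (un F (Q → G)) x) = un F H := by
  funext x
  unfold zW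
  by_cases hx : x = 1
  · subst hx
    rw [un_one]
    change (if (1 : Q) = 1 then un F (Q → G) 1 else 0) = 1
    rw [if_pos rfl, un_one]
  · rw [un_ne F H hx]
    by_cases hr : (x : RegularWreathProduct G Q).right = 1
    · rw [if_pos hr]
      refine un_ne F (Q → G) fun h1 => hx (Subtype.ext ?_)
      exact RegularWreathProduct.ext h1 hr
    · rw [if_neg hr]

theorem ineqG (P : Parts3) (p : ℕ) [Fact p.Prime] (F : Type) [Field F] [IsAlgClosed F]
    [CharP F p] (red : integralClosure ℤ ℂ →+* F) (G : Type) [Group G]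
    [Finite G] (hN : ∀ N : Subgroup G, N.Normal → N.index ≠ p)
    (X : (H : Type) → Group H → Prop) (f : ℕ → ℝ) (hf0 : ∀ n, 0 ≤ f n) (hf : AmpFor f)
    (hQ : ∀ N : ℕ, ∃ (Q : Type) (_ : Group Q) (_ : Fintype Q), N ≤ Fintype.card Q ∧
      1 ≤ Fintype.card Q ∧ PerfRad p (sg G Q).ker ∧ X (sg G Q).ker inferInstance ∧
      BComp p red G Q (f (Fintype.card Q))) :
    ((∀ ε : ℝ, 0 < ε → ∃ K : ℝ, ∀ (H : Type) (_ : Group H) (_ : Finite H), PerfRad p H →
      X H inferInstance →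
        (numRegularClasses p H : ℝ) ≤ K * (Nat.card H : ℝ) ^ ε * numWeights p H) →
          numRegularClasses p G ≤ numWeights p G) ∧
    ((∀ ε : ℝ, 0 < ε → ∃ K : ℝ, ∀ (H : Type) (_ : Group H) (_ : Finite H), PerfRad p H →
      X H inferInstance →
        (numWeights p H : ℝ) ≤ K * (Nat.card H : ℝ) ^ ε * numRegularClasses p H) →
          numWeights p G ≤ numRegularClasses p G) := by
  obtain ⟨hfin, hMA, hpM⟩ := P.MC p G hN
  set a : ℕ := Nat.card (G →* ℂˣ) with ha
  have hg1 : (1 : ℝ) ≤ Nat.card G := by exact_mod_cast Nat.card_pos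
  have ha1 : 1 ≤ a := by
    rw [hMA]
    exact Nat.card_pos
  -- the inequalities for one `Q`
  have one : ∀ (Q : Type) [Group Q] [Fintype Q], BComp p red G Q (f (Fintype.card Q)) →
      ∀ (K0 ε : ℝ), 0 < ε →
      (((numRegularClasses p (sg G Q).ker : ℝ) ≤ K0 * (Nat.card (sg G Q).ker : ℝ) ^ ε *
          numWeights p (sg G Q).ker) →
        (numRegularClasses p G : ℝ) ^ Fintype.card Q ≤ |K0| * ((a : ℝ) ^ 5 * f (Fintype.card Q)) *
          ((Nat.card G : ℝ) ^ Fintype.card Q * Fintype.card Q) ^ ε *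
            (numWeights p G : ℝ) ^ Fintype.card Q) ∧
      (((numWeights p (sg G Q).ker : ℝ) ≤ K0 * (Nat.card (sg G Q).ker : ℝ) ^ ε *
          numRegularClasses p (sg G Q).ker) →
        (numWeights p G : ℝ) ^ Fintype.card Q ≤ |K0| * ((a : ℝ) ^ 5 * f (Fintype.card Q)) *
          ((Nat.card G : ℝ) ^ Fintype.card Q * Fintype.card Q) ^ ε *
            (numRegularClasses p G : ℝ) ^ Fintype.card Q) := by
    intro Q _ _ hBC K0 ε hε
    obtain ⟨g1, g2⟩ := pow_grp P.BAS P.LPI P.WPI p F red G Q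
    set H : Subgroup (RegularWreathProduct G Q) := (sg G Q).ker with hH
    have hHc : (Nat.card H : ℝ) ^ ε ≤ ((Nat.card G : ℝ) ^ Fintype.card Q * Fintype.card Q) ^ ε := by
      refine Real.rpow_le_rpow (Nat.cast_nonneg _) ?_ hε.le
      have e1 := Subgroup.card_le_card_group H
      rw [RegularWreathProduct.card, Nat.card_eq_fintype_card (α := Q)] at e1
      exact_mod_cast e1
    have hHn : (0 : ℝ) ≤ (Nat.card H : ℝ) ^ ε := Real.rpow_nonneg (Nat.cast_nonneg _) _
    obtain ⟨k1, k2⟩ := key3 P.LC P.WC P.ISO p F red G (numRegularClasses p G) (numWeights p G) a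
      hMA hpM Q (f (Fintype.card Q)) (hf0 _) hBC (un F (Q → G)) 1 (un_cf F _)
      (by
        intro s γ
        by_cases hγ : γ = 1
        · subst hγ
          rfl
        · rw [un_ne F _ hγ]
          refine un_ne F _ fun h1 => ?_
          apply hγ
          funext i
          have h2 := congrFun h1 (s.symm i)
          simpa using h2)
      (by
        intro γ hγ
        refine un_ne F _ fun h1 => hγ ?_
        rw [h1]
        simp)
      (by rw [g1]) (by rw [g1]; exact Nat.le_mul_of_pos_left _ ha1)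
      (by rw [g2]) (by rw [g2]; exact Nat.le_mul_of_pos_left _ ha1)
      (|K0| * (Nat.card H : ℝ) ^ ε) (mul_nonneg (abs_nonneg _) hHn)
    rw [zW_single G Q H, un_LL p F H, un_WW p F red H] at k1 k2
    have hHpos : (0 : ℝ) < Nat.card H := by exact_mod_cast Nat.card_pos
    have up : ∀ x y : ℕ, (x : ℝ) ≤ K0 * (Nat.card H : ℝ) ^ ε * y →
        (x : ℝ) ≤ |K0| * (Nat.card H : ℝ) ^ ε * y := by
      intro x y h
      refine h.trans ?_
      gcongr
      exact le_abs_self K0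
    have hff := hf0 (Fintype.card Q)
    have fin : ∀ x y : ℝ, 0 ≤ y → x ≤ |K0| * (Nat.card H : ℝ) ^ ε *
        ((a : ℝ) ^ 5 * f (Fintype.card Q)) * y →
        x ≤ |K0| * ((a : ℝ) ^ 5 * f (Fintype.card Q)) *
          ((Nat.card G : ℝ) ^ Fintype.card Q * Fintype.card Q) ^ ε * y := by
      intro x y hy h
      refine h.trans ?_
      calc |K0| * (Nat.card H : ℝ) ^ ε * ((a : ℝ) ^ 5 * f (Fintype.card Q)) * y
          = |K0| * ((a : ℝ) ^ 5 * f (Fintype.card Q)) * (Nat.card H : ℝ) ^ ε * y := by ring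
        _ ≤ _ := by gcongr
    refine ⟨fun h => fin _ _ (by positivity) (k1 ?_), fun h => fin _ _ (by positivity) (k2 ?_)⟩
    · push_cast
      calc (Nat.card H : ℝ) * numRegularClasses p H
          ≤ Nat.card H * (|K0| * (Nat.card H : ℝ) ^ ε * numWeights p H) :=
            mul_le_mul_of_nonneg_left (up _ _ h) hHpos.le
        _ = _ := by ring
    · push_cast
      calc (Nat.card H : ℝ) * numWeights p H
          ≤ Nat.card H * (|K0| * (Nat.card H : ℝ) ^ ε * numRegularClasses p H) :=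
            mul_le_mul_of_nonneg_left (up _ _ h) hHpos.le
        _ = _ := by ring
  constructor
  · intro h
    refine hf _ _ (Nat.card G) ((a : ℝ) ^ 5) hg1 (by positivity) ?_
    intro ε hε
    obtain ⟨K0, hK0⟩ := h ε hε
    refine ⟨|K0|, abs_nonneg _, fun N => ?_⟩
    obtain ⟨Q, i1, i2, hN', h1', hQ1, hQ2, hQ3⟩ := hQ N
    exact ⟨Fintype.card Q, hN', h1', (one Q hQ3 K0 ε hε).1
      (hK0 (sg G Q).ker inferInstance inferInstance hQ1 hQ2)⟩
  · intro h
    refine hf _ _ (Nat.card G) ((a : ℝ) ^ 5) hg1 (by positivity) ?_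
    intro ε hε
    obtain ⟨K0, hK0⟩ := h ε hε
    refine ⟨|K0|, abs_nonneg _, fun N => ?_⟩
    obtain ⟨Q, i1, i2, hN', h1', hQ1, hQ2, hQ3⟩ := hQ N
    exact ⟨Fintype.card Q, hN', h1', (one Q hQ3 K0 ε hε).2
      (hK0 (sg G Q).ker inferInstance inferInstance hQ1 hQ2)⟩

/-- the equivalences for the conjecture without blocks -/
def EquivG (p : ℕ) (X Y : (G : Type) → Group G → Prop) : Prop :=
  ((∀ (G : Type) (i : Group G) (_ : Finite G), X G i → numRegularClasses p G = numWeights p G) ↔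
      ∀ (H : Type) (i : Group H) (_ : Finite H), X H i → Y H i → Op1 p H →
        numRegularClasses p H = numWeights p H) ∧
    ((∀ (G : Type) (i : Group G) (_ : Finite G), X G i → numRegularClasses p G = numWeights p G) ↔
      ∀ ε : ℝ, 0 < ε → ∃ K : ℝ, ∀ (H : Type) (i : Group H) (_ : Finite H), X H i →
        Y H i → Op1 p H →
          (numRegularClasses p H : ℝ) ≤ K * (Nat.card H : ℝ) ^ ε * numWeights p H ∧
          (numWeights p H : ℝ) ≤ K * (Nat.card H : ℝ) ^ ε * numRegularClasses p H)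

theorem equivG_gen (P : Parts3) (p : ℕ) [Fact p.Prime] (F : Type) [Field F] [IsAlgClosed F]
    [CharP F p] (red : integralClosure ℤ ℂ →+* F) (X Y : (G : Type) → Group G → Prop)
    (hX : Closed p (fun G i => X G i)) (f : ℕ → ℝ) (hf0 : ∀ n, 0 ≤ f n) (hf : AmpFor f)
    (hQ : ∀ (G : Type) (i : Group G) (_ : Finite G), X G i → Op1 p G →
      (∀ N : Subgroup G, N.Normal → N.index ≠ p) →
      ∀ N : ℕ, ∃ (Q : Type) (_ : Group Q) (_ : Fintype Q), N ≤ Fintype.card Q ∧
      1 ≤ Fintype.card Q ∧ PerfRad p (sg G Q).ker ∧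
      (X (sg G Q).ker inferInstance ∧ Y (sg G Q).ker inferInstance) ∧
      BComp p red G Q (f (Fintype.card Q))) : EquivG p X Y := by
  have triv : ∀ (k l : ℕ), k ≤ l → ∀ (H : Type) [Group H] [Finite H] (ε : ℝ), 0 < ε →
      (k : ℝ) ≤ 1 * (Nat.card H : ℝ) ^ ε * (l : ℝ) := by
    intro k l hkl H _ _ ε hε
    have h1 : (1 : ℝ) ≤ (Nat.card H : ℝ) ^ ε :=
      Real.one_le_rpow (by exact_mod_cast Nat.card_pos) hε.le
    have h2 : (k : ℝ) ≤ l := by exact_mod_cast hkl
    have h3 : (0 : ℝ) ≤ l := Nat.cast_nonneg _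
    nlinarith
  have sub_all : (∀ ε : ℝ, 0 < ε → ∃ K : ℝ, ∀ (H : Type) (i : Group H) (_ : Finite H), X H i →
        Y H i → Op1 p H →
          (numRegularClasses p H : ℝ) ≤ K * (Nat.card H : ℝ) ^ ε * numWeights p H ∧
          (numWeights p H : ℝ) ≤ K * (Nat.card H : ℝ) ^ ε * numRegularClasses p H) →
      ∀ (G : Type) (i : Group G) (_ : Finite G), X G i →
        numRegularClasses p G = numWeights p G := by
    intro h G i _ hG
    refine (reduction p (fun G i => X G i) hX).1 ?_ G ⊤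
      (hX.iso _ _ hG ⟨Subgroup.topEquiv.symm⟩) (pgroup_top p G)
    intro H j _ hXH hN hM
    have hi := ineqG P p F red H hN (fun H i => X H i ∧ Y H i) f hf0 hf
      (hQ H j inferInstance hXH hM hN)
    refine le_antisymm (hi.1 fun ε hε => ?_) (hi.2 fun ε hε => ?_)
    · obtain ⟨K, hK⟩ := h ε hε
      exact ⟨K, fun H i hfH h1 h2 => (hK H i hfH h2.1 h2.2 h1.rad).1⟩
    · obtain ⟨K, hK⟩ := h ε hε
      exact ⟨K, fun H i hfH h1 h2 => (hK H i hfH h2.1 h2.2 h1.rad).2⟩
  refine ⟨⟨fun h H i hfH h1 _ _ => h H i hfH h1, fun h => sub_all fun ε hε =>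
    ⟨1, fun H i hfH h1 h2 h3 => ?_⟩⟩, ⟨fun h ε hε => ⟨1, fun H i hfH h1 _ _ => ?_⟩, sub_all⟩⟩
  · have h4 := h H i hfH h1 h2 h3
    exact ⟨triv _ _ h4.le H ε hε, triv _ _ h4.ge H ε hε⟩
  · have h4 := h H i hfH h1
    exact ⟨triv _ _ h4.le H ε hε, triv _ _ h4.ge H ε hε⟩

/-- all primes -/
theorem equivG_all (P : Parts3) (hPERF : S_PERF) (hOP : S_OP2) (hAMP : S_AMP2)
    (hWG : S_WG) (hSUBC : S_SUBC) (hU : S_UNIQ) (hT : S_TOWER) (p : ℕ) [Fact p.Prime]
    (S : Type) [Group S] [Finite S] [IsSimpleGroup S] (hS : ∃ a b : S, a * b ≠ b * a) :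
    EquivG p (fun _ _ => True) (fun H _ => Top1 S H) := by
  obtain ⟨red⟩ := exists_red p (AlgebraicClosure (ZMod p))
  have hSp := simple_perf S hS
  refine equivG_gen P p (AlgebraicClosure (ZMod p)) red _ _ (closed_true p)
    (fun n => (n : ℝ) ^ 6 * (n : ℝ) ^ (Nat.log 2 n)) (fun n => by positivity) hAMP ?_
  intro G i hfG hG hM hN N
  obtain ⟨Q, i1, i2, i3, i4, i5, i6, i7, i8, i9⟩ := hT S hSp N
  have hF := Fintype.ofFinite Q
  refine ⟨Q, i1, hF, ?_, Fintype.card_pos, ⟨hPERF G Q i3 i4, hOP p G Q i3 (i8 p Fact.out) hM⟩,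
    ⟨trivial, hU S G Q i5 i4 i7⟩, bcomp_all hWG hSUBC p _ red G Q⟩
  rw [← Nat.card_eq_fintype_card]
  exact i6

/-- classes of groups given by the Sylow subgroups -/
theorem equivG_odd (P : Parts3) (hPERF : S_PERF) (hOP : S_OP2) (hAMP : S_AMP)
    (h1 : S_SYL1) (h2 : S_SYL2) (hU : S_UNIQ) (hT : S_TOWER) (p : ℕ) [Fact p.Prime]
    (S : Type) [Group S] [Finite S] [IsSimpleGroup S] (hS : ∃ a b : S, a * b ≠ b * a)
    (hpS : ¬ p ∣ Nat.card S) (C : (P : Type) → Group P → Prop) (hC : ClsP C) :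
    EquivG p (fun G i => @SylIn p C G i) (fun H _ => Top1 S H) := by
  obtain ⟨red⟩ := exists_red p (AlgebraicClosure (ZMod p))
  have hSp := simple_perf S hS
  obtain ⟨c1, c2, c3⟩ := h1 p C hC
  refine equivG_gen P p (AlgebraicClosure (ZMod p)) red _ _ ⟨fun G H _ _ hG e => c1 G H hG e,
    fun G _ hG H => c2 G hG H, fun G _ hG M _ hM => c3 G hG M hM⟩
    (fun n => (n : ℝ) ^ 4) (fun n => by positivity) hAMP ?_
  intro G i hfG hG hM hN N
  obtain ⟨Q, i1, i2, i3, i4, i5, i6, i7, i8, i9⟩ := hT S hSp N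
  have hF := Fintype.ofFinite Q
  have hpQ := i9 p Fact.out hpS
  refine ⟨Q, i1, hF, ?_, Fintype.card_pos, ⟨hPERF G Q i3 i4, hOP p G Q i3 (i8 p Fact.out) hM⟩,
    ⟨h2 p C hC G Q hpQ hG, hU S G Q i5 i4 i7⟩, bcomp_odd P.WC p _ red G Q hpQ⟩
  rw [← Nat.card_eq_fintype_card]
  exact i6

end Pool.Agent.J4.H3.PG
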