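import Pool.Agent.Y914.NV.Irr

/-!
# Irreducible trace functions of direct products
-/

set_option autoImplicit false

open scoped TensorProduct MonoidAlgebra BigOperators

noncomputable section

namespace Pool.Agent.J4.H3.PG.IP

open Pool.Agent.Y63.NV Representation

section basic

variable {F : Type} [Field F] {G : Type} [Group G] {V : Type} [AddCommGroup V] [Module F V]

theorem irr_of [Nontrivial V] (ρ : Representation F G V)
    (h : ∀ U : Submodule F V, (∀ g, ∀ u ∈ U, ρ g u ∈ U) → ∀ u ∈ U, u ≠ 0 → U = ⊤) :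
    ρ.IsIrreducible := by
  refine { exists_pair_ne := ⟨⊥, ⊤, ?_⟩, eq_bot_or_eq_top := ?_ }
  · intro h0
    have h1 : (⊥ : Submodule F V) = ⊤ := congrArg Subrepresentation.toSubmodule h0
    exact bot_ne_top h1
  · intro U
    by_cases h0 : U.toSubmodule = ⊥
    · left
      exact Subrepresentation.toSubmodule_injective h0
    · right
      obtain ⟨u, hu, hu0⟩ := (Submodule.ne_bot_iff _).1 h0
      exact Subrepresentation.toSubmodule_injective
        (h U.toSubmodule (fun g u hu => U.apply_mem_toSubmodule g hu) u hu hu0)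

theorem irr_nontrivial {ρ : Representation F G V} (hρ : ρ.IsIrreducible) : Nontrivial V := by
  have := hρ
  exact IsSimpleModule.nontrivial F[G] ρ.asModule

theorem irr_top {ρ : Representation F G V} (hρ : ρ.IsIrreducible) (U : Submodule F V)
    (hU : ∀ g, ∀ u ∈ U, ρ g u ∈ U) (u : V) (hu : u ∈ U) (hu0 : u ≠ 0) : U = ⊤ := by
  let U' : Subrepresentation ρ := ⟨U, fun g v hv => hU g v hv⟩
  rcases hρ.eq_bot_or_eq_top U' with h | h
  · have h1 : U = ⊥ := congrArg Subrepresentation.toSubmodule h
    rw [h1, Submodule.mem_bot] at hu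
    exact absurd hu hu0
  · exact congrArg Subrepresentation.toSubmodule h

theorem char_eq {W : Type} [AddCommGroup W] [Module F W] (ρ : Representation F G V)
    (σ : Representation F G W) (e : V ≃ₗ[F] W) (h : ∀ g v, e (ρ g v) = σ g (e v)) :
    ρ.character = σ.character := by
  funext g
  have h2 : σ g = e.conj (ρ g) := by
    ext w
    rw [LinearEquiv.conj_apply_apply, h, LinearEquiv.apply_symm_apply]
  rw [character, character, h2, LinearMap.trace_conj']

/-- every operator is a combination of the `ρ g` -/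
theorem burn_span [IsAlgClosed F] [FiniteDimensional F V] {ρ : Representation F G V}
    (hρ : ρ.IsIrreducible) (P : V →ₗ[F] V) :
    P ∈ Submodule.span F (Set.range fun g => (ρ g : V →ₗ[F] V)) := by
  have := hρ
  obtain ⟨a, ha⟩ := Pool.Agent.Y914.NV.burn (F := F) (A := F[G]) (V := ρ.asModule)
    ((ρ.asModuleEquiv.symm : V →ₗ[F] ρ.asModule) ∘ₗ P ∘ₗ
      (ρ.asModuleEquiv : ρ.asModule →ₗ[F] V))
  have h1 : ρ.asAlgebraHom a = P := by
    ext w
    rw [Pool.Agent.Y914.NV.act, ha]
    simp
  rw [← h1]
  clear h1 ha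
  induction a using MonoidAlgebra.induction_linear with
  | zero => rw [map_zero]; exact Submodule.zero_mem _
  | add x y hx hy => rw [map_add]; exact Submodule.add_mem _ hx hy
  | single g r =>
    rw [asAlgebraHom_single]
    exact Submodule.smul_mem _ _ (Submodule.subset_span ⟨g, rfl⟩)

theorem exists_functional {v : V} (hv : v ≠ 0) : ∃ g : V →ₗ[F] F, g v = 1 := by
  by_contra hcon
  apply hv
  rw [← Module.forall_dual_apply_eq_zero_iff F v]
  intro g
  by_contra hg
  exact hcon ⟨(g v)⁻¹ • g, by rw [LinearMap.smul_apply, smul_eq_mul, inv_mul_cancel₀ hg]⟩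

/-- there is an irreducible subrepresentation -/
theorem exists_irr_sub [FiniteDimensional F V] [Nontrivial V] (τ : Representation F G V) :
    ∃ U : Subrepresentation τ, U.toRepresentation.IsIrreducible := by
  obtain ⟨U, hU, hmin⟩ := (measure fun U : Subrepresentation τ =>
    Module.finrank F U.toSubmodule).wf.has_min {U | U.toSubmodule ≠ ⊥}
      ⟨⊤, fun h => bot_ne_top (α := Submodule F V) h.symm⟩
  refine ⟨U, ?_⟩
  have : Nontrivial U.toSubmodule := Submodule.nontrivial_iff_ne_bot.2 hU
  refine irr_of _ fun U' hU' u hu hu0 => ?_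
  let U2 : Subrepresentation τ :=
    ⟨U'.map U.toSubmodule.subtype, by
      rintro g v ⟨w, hw, rfl⟩
      exact ⟨U.toRepresentation g w, hU' g w hw, rfl⟩⟩
  have h2 : U2.toSubmodule ≠ ⊥ := by
    rw [Submodule.ne_bot_iff]
    refine ⟨u, ⟨u, hu, rfl⟩, fun h => hu0 (Subtype.ext h)⟩
  have h3 := hmin U2 h2
  have h4 : Module.finrank F U2.toSubmodule = Module.finrank F U' :=
    LinearEquiv.finrank_eq (Submodule.equivMapOfInjective _
      (Submodule.injective_subtype _) U').symm
  have h5 : Module.finrank F U.toSubmodule ≤ Module.finrank F U' := by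
    rw [← h4]
    exact not_lt.1 h3
  exact Submodule.eq_top_of_finrank_eq (le_antisymm (Submodule.finrank_le _) h5)

theorem exists_irr [FiniteDimensional F V] [Nontrivial V] (τ : Representation F G V) :
    ∃ (W : Type) (_ : AddCommGroup W) (_ : Module F W) (_ : FiniteDimensional F W)
      (σ : Representation F G W) (j : W →ₗ[F] V), σ.IsIrreducible ∧ Function.Injective j ∧
        ∀ g w, j (σ g w) = τ g (j w) := by
  obtain ⟨U, hU⟩ := exists_irr_sub τ
  exact ⟨U.toSubmodule, inferInstance, inferInstance, inferInstance, U.toRepresentation,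
    U.toSubmodule.subtype, hU, Submodule.injective_subtype _, fun g w => rfl⟩

end basic

section two

variable {F : Type} [Field F] {G H : Type} [Group G] [Group H]
  {V W : Type} [AddCommGroup V] [Module F V] [AddCommGroup W] [Module F W]

/-- the outer tensor product -/
def outer (ρ : Representation F G V) (σ : Representation F H W) :
    Representation F (G × H) (V ⊗[F] W) where
  toFun x := TensorProduct.map (ρ x.1) (σ x.2)
  map_one' := by
    show TensorProduct.map (ρ 1) (σ 1) = 1
    rw [map_one, map_one, TensorProduct.map_one]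
  map_mul' x y := by
    show TensorProduct.map (ρ (x.1 * y.1)) (σ (x.2 * y.2)) = _
    rw [map_mul, map_mul, TensorProduct.map_mul]

theorem outer_char [FiniteDimensional F V] [FiniteDimensional F W] (ρ : Representation F G V)
    (σ : Representation F H W) :
    (outer ρ σ).character = fun x => ρ.character x.1 * σ.character x.2 := by
  funext x
  exact LinearMap.trace_tensorProduct' _ _

theorem outer_irr [IsAlgClosed F] [FiniteDimensional F V] [FiniteDimensional F W]
    {ρ : Representation F G V} {σ : Representation F H W} (hρ : ρ.IsIrreducible)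
    (hσ : σ.IsIrreducible) : (outer ρ σ).IsIrreducible := by
  have i1 := irr_nontrivial hρ
  have i2 := irr_nontrivial hσ
  have i3 : Nontrivial (V ⊗[F] W) := by
    apply Module.nontrivial_of_finrank_pos (R := F)
    rw [Module.finrank_tensorProduct]
    exact Nat.mul_pos Module.finrank_pos Module.finrank_pos
  refine irr_of _ fun U hU u hu hu0 => ?_
  -- invariance under the maps `P ⊗ Q`
  have h1 : ∀ P : V →ₗ[F] V, ∀ h : H, ∀ t ∈ U, TensorProduct.map P (σ h) t ∈ U := by
    intro P h t ht
    have hP := burn_span hρ P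
    induction hP using Submodule.span_induction with
    | mem x hx =>
      obtain ⟨g, rfl⟩ := hx
      exact hU (g, h) t ht
    | zero =>
      rw [TensorProduct.map_zero_left]
      exact U.zero_mem
    | add x y _ _ hx hy =>
      rw [TensorProduct.map_add_left]
      exact U.add_mem hx hy
    | smul a x _ hx =>
      rw [TensorProduct.map_smul_left]
      exact U.smul_mem a hx
  have h2 : ∀ (P : V →ₗ[F] V) (Q : W →ₗ[F] W), ∀ t ∈ U, TensorProduct.map P Q t ∈ U := by
    intro P Q t ht
    have hQ := burn_span hσ Q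
    induction hQ using Submodule.span_induction with
    | mem x hx =>
      obtain ⟨h, rfl⟩ := hx
      exact h1 P h t ht
    | zero =>
      rw [TensorProduct.map_zero_right]
      exact U.zero_mem
    | add x y _ _ hx hy =>
      rw [TensorProduct.map_add_right]
      exact U.add_mem hx hy
    | smul a x _ hx =>
      rw [TensorProduct.map_smul_right]
      exact U.smul_mem a hx
  have h3 : ∀ T : V ⊗[F] W →ₗ[F] V ⊗[F] W, ∀ t ∈ U, T t ∈ U := by
    intro T t ht
    obtain ⟨x, rfl⟩ := (homTensorHomEquiv F V W V W).surjective T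
    rw [homTensorHomEquiv_apply]
    induction x using TensorProduct.induction_on with
    | zero =>
      rw [map_zero]
      exact U.zero_mem
    | tmul P Q => exact h2 P Q t ht
    | add x y hx hy =>
      rw [map_add]
      exact U.add_mem hx hy
  rw [eq_top_iff]
  intro t _
  obtain ⟨f, hf⟩ := exists_functional (F := F) hu0
  have h4 := h3 (f.smulRight t) u hu
  rwa [LinearMap.smulRight_apply, hf, one_smul] at h4

/-- products of irreducible traces -/
theorem two_a [IsAlgClosed F] {φ : G → F} {ψ : H → F} (hφ : IsIrrTrace φ) (hψ : IsIrrTrace ψ) :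
    IsIrrTrace (fun x : G × H => φ x.1 * ψ x.2) := by
  obtain ⟨V, i1, i2, i3, ρ, hρ, rfl⟩ := hφ
  obtain ⟨W, j1, j2, j3, σ, hσ, rfl⟩ := hψ
  exact ⟨V ⊗[F] W, inferInstance, inferInstance, inferInstance, outer ρ σ, outer_irr hρ hσ,
    (outer_char ρ σ).symm⟩

end two

section conv

variable {F : Type} [Field F] {G H : Type} [Group G] [Group H]
  {X : Type} [AddCommGroup X] [Module F X]

/-- the space of the intertwining maps -/
def MM {W : Type} [AddCommGroup W] [Module F W] (σ : Representation F G W)
    (τ : Representation F (G × H) X) : Submodule F (W →ₗ[F] X) where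
  carrier := {f | ∀ g w, f (σ g w) = τ (g, 1) (f w)}
  zero_mem' g w := by simp
  add_mem' {a b} ha hb g w := by
    rw [LinearMap.add_apply, LinearMap.add_apply, map_add, ha g w, hb g w]
  smul_mem' c a ha g w := by
    rw [LinearMap.smul_apply, LinearMap.smul_apply, map_smul, ha g w]

/-- the action of the second factor -/
def mu {W : Type} [AddCommGroup W] [Module F W] (σ : Representation F G W)
    (τ : Representation F (G × H) X) : Representation F H (MM σ τ) where
  toFun h :=
    { toFun := fun f => ⟨(τ (1, h)) ∘ₗ f.1, fun g w => by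
        rw [LinearMap.comp_apply, LinearMap.comp_apply, f.2 g w, ← Module.End.mul_apply,
          ← Module.End.mul_apply, ← map_mul, ← map_mul, Prod.mk_mul_mk, Prod.mk_mul_mk, one_mul,
          mul_one, one_mul, mul_one]⟩
      map_add' := fun a b => by
        apply Subtype.ext
        exact LinearMap.comp_add _ _ _
      map_smul' := fun c a => by
        apply Subtype.ext
        exact LinearMap.comp_smul _ _ _ }
  map_one' := by
    ext f w
    show τ (1, 1) (f.1 w) = f.1 w
    have : ((1, 1) : G × H) = 1 := rfl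
    rw [this, map_one, Module.End.one_apply]
  map_mul' a b := by
    ext f w
    show τ (1, a * b) (f.1 w) = τ (1, a) (τ (1, b) (f.1 w))
    rw [← Module.End.mul_apply, ← map_mul, Prod.mk_mul_mk, one_mul]

theorem mu_apply {W : Type} [AddCommGroup W] [Module F W] (σ : Representation F G W)
    (τ : Representation F (G × H) X) (h : H) (f : MM σ τ) (w : W) :
    (mu σ τ h f).1 w = τ (1, h) (f.1 w) := rfl

theorem two_b_core [IsAlgClosed F] [FiniteDimensional F X] {W M : Type} [AddCommGroup W]
    [Module F W] [FiniteDimensional F W] [AddCommGroup M] [Module F M] [FiniteDimensional F M]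
    {σ : Representation F G W} {μ : Representation F H M} {τ : Representation F (G × H) X}
    (hσ : σ.IsIrreducible) (hμ : μ.IsIrreducible) (hτ : τ.IsIrreducible)
    (j : M →ₗ[F] (W →ₗ[F] X)) (hj : Function.Injective j)
    (h1 : ∀ g w f, j f (σ g w) = τ (g, 1) (j f w))
    (h2 : ∀ h f w, j (μ h f) w = τ (1, h) (j f w)) :
    τ.character = fun x => σ.character x.1 * μ.character x.2 := by
  have i1 := irr_nontrivial hσ
  have i2 := irr_nontrivial hμ
  let ev : W ⊗[F] M →ₗ[F] X := TensorProduct.lift j.flip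
  have hev : ∀ (w : W) (f : M), ev (w ⊗ₜ f) = j f w := fun w f => by
    show TensorProduct.lift j.flip (w ⊗ₜ f) = _
    rw [TensorProduct.lift.tmul, LinearMap.flip_apply]
  have hint : ∀ (x : G × H) (t), ev (outer σ μ x t) = τ x (ev t) := by
    intro x t
    induction t using TensorProduct.induction_on with
    | zero => simp
    | add a b ha hb => rw [map_add, map_add, map_add, map_add, ha, hb]
    | tmul w f =>
      show ev (TensorProduct.map (σ x.1) (μ x.2) (w ⊗ₜ f)) = _
      rw [TensorProduct.map_tmul, hev, hev, h2, h1, ← Module.End.mul_apply, ← map_mul,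
        Prod.mk_mul_mk, one_mul, mul_one]
  have := hτ
  have hirr : (outer σ μ).IsIrreducible := outer_irr hσ hμ
  let E : IntertwiningMap (outer σ μ) τ := ⟨ev, fun x => LinearMap.ext fun t => hint x t⟩
  have hE0 : E ≠ 0 := by
    intro h0
    obtain ⟨f, hf⟩ := exists_ne (0 : M)
    apply hf
    apply hj
    rw [map_zero]
    apply LinearMap.ext
    intro w
    have h1 : ev (w ⊗ₜ f) = 0 :=
      congrArg (fun e : IntertwiningMap (outer σ μ) τ => e.toLinearMap (w ⊗ₜ f)) h0
    rw [hev] at h1
    exact h1
  have hb := (IsIrreducible.bijective_or_eq_zero E).resolve_right hE0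
  have hb' : Function.Bijective ev := hb
  rw [← outer_char σ μ]
  exact (char_eq (outer σ μ) τ (LinearEquiv.ofBijective ev hb') (fun x t => hint x t)).symm

theorem two_b [IsAlgClosed F] {θ : G × H → F} (hθ : IsIrrTrace θ) :
    ∃ (φ : G → F) (ψ : H → F), IsIrrTrace φ ∧ IsIrrTrace ψ ∧ θ = fun x => φ x.1 * ψ x.2 := by
  obtain ⟨X, i1, i2, i3, τ, hτ, rfl⟩ := hθ
  have := irr_nontrivial hτ
  obtain ⟨W, j1, j2, j3, σ, j, hσ, hj, hjg⟩ :=
    exists_irr (G := G) (V := X) (τ.comp (MonoidHom.inl G H))
  have hWn : Nontrivial W := irr_nontrivial hσ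
  have hM0 : (⟨j, fun g w => hjg g w⟩ : MM σ τ) ≠ 0 := by
    intro h0
    obtain ⟨w, hw⟩ := exists_ne (0 : W)
    apply hw
    apply hj
    rw [map_zero]
    exact congrArg (fun f : MM σ τ => f.1 w) h0
  have hMn : Nontrivial (MM σ τ) := ⟨_, _, hM0⟩
  obtain ⟨M, k1, k2, k3, μ, i, hμ, hi, hig⟩ := exists_irr (mu σ τ)
  refine ⟨σ.character, μ.character, ⟨W, j1, j2, j3, σ, hσ, rfl⟩, ⟨M, k1, k2, k3, μ, hμ, rfl⟩, ?_⟩
  refine two_b_core hσ hμ hτ ((MM σ τ).subtype ∘ₗ i) ?_ ?_ ?_
  · exact (Submodule.injective_subtype _).comp hi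
  · intro g w f
    exact (i f).2 g w
  · intro h f w
    show (i (μ h f)).1 w = τ (1, h) ((i f).1 w)
    rw [hig, mu_apply]

end conv

section nfold

variable {F : Type} [Field F]

/-- transport along an isomorphism -/
theorem irrTrace_equiv {G H : Type} [Group G] [Group H] (e : G ≃* H) {φ : H → F}
    (hφ : IsIrrTrace φ) : IsIrrTrace (fun x => φ (e x)) := by
  obtain ⟨V, i1, i2, i3, ρ, hρ, rfl⟩ := hφ
  have := irr_nontrivial hρ
  refine ⟨V, i1, i2, i3, ρ.comp e.toMonoidHom, irr_of _ fun U hU u hu hu0 => ?_, rfl⟩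
  refine irr_top hρ U (fun h v hv => ?_) u hu hu0
  have h1 := hU (e.symm h) v hv
  have h2 : (ρ.comp e.toMonoidHom) (e.symm h) = ρ h := by
    show ρ (e (e.symm h)) = ρ h
    rw [e.apply_symm_apply]
  rwa [h2] at h1

theorem irrTrace_one {G : Type} [Group G] : IsIrrTrace (fun _ : G => (1 : F)) := by
  refine ⟨F, inferInstance, inferInstance, inferInstance, 1, irr_of _ fun U _ u hu hu0 => ?_, ?_⟩
  · rw [eq_top_iff]
    intro t _
    have h1 := U.smul_mem (t * u⁻¹) hu
    rwa [smul_eq_mul, mul_assoc, inv_mul_cancel₀ hu0, mul_one] at h1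
  · funext g
    show (1 : F) = LinearMap.trace F F 1
    rw [LinearMap.trace_one, Module.finrank_self, Nat.cast_one]

theorem irrTrace_triv {G : Type} [Group G] [Subsingleton G] {φ : G → F} (hφ : IsIrrTrace φ) :
    φ = fun _ => 1 := by
  obtain ⟨V, i1, i2, i3, ρ, hρ, rfl⟩ := hφ
  have := irr_nontrivial hρ
  obtain ⟨u, hu⟩ := exists_ne (0 : V)
  have h1 : ∀ g, ρ g = 1 := fun g => by rw [Subsingleton.elim g 1, map_one]
  have h2 : F ∙ u = ⊤ := irr_top hρ _ (fun g v hv => by rwa [h1 g]) u
    (Submodule.mem_span_singleton_self u) hu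
  have h3 : Module.finrank F V = 1 := (finrank_eq_one_iff_of_nonzero u hu).2 h2
  funext g
  rw [character, h1 g, LinearMap.trace_one, h3, Nat.cast_one]

/-- irreducible trace functions of direct products -/
theorem nfold [IsAlgClosed F] (ι : Type) [Fintype ι] : ∀ (J : ι → Type) [∀ i, Group (J i)],
    (∀ χ : ∀ i, J i → F, (∀ i, IsIrrTrace (χ i)) →
      IsIrrTrace (fun x : ∀ i, J i => ∏ i, χ i (x i))) ∧
    (∀ ψ : (∀ i, J i) → F, IsIrrTrace ψ → ∃ χ : ∀ i, J i → F, (∀ i, IsIrrTrace (χ i)) ∧
      ψ = fun x => ∏ i, χ i (x i)) := by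
  refine Fintype.induction_empty_option (P := fun ι _ => ∀ (J : ι → Type) [∀ i, Group (J i)],
    (∀ χ : ∀ i, J i → F, (∀ i, IsIrrTrace (χ i)) →
      IsIrrTrace (fun x : ∀ i, J i => ∏ i, χ i (x i))) ∧
    (∀ ψ : (∀ i, J i) → F, IsIrrTrace ψ → ∃ χ : ∀ i, J i → F, (∀ i, IsIrrTrace (χ i)) ∧
      ψ = fun x => ∏ i, χ i (x i))) ?_ ?_ ?_ ι
  · intro α β _ e hα J _
    let _ : Fintype α := Fintype.ofEquiv β e.symm
    obtain ⟨h1, h2⟩ := hα (fun a => J (e a))
    let E : (∀ b, J b) ≃* (∀ a, J (e a)) :=
      { (Equiv.piCongrLeft J e).symm with map_mul' := fun x y => rfl }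
    have hE : ∀ x a, E x a = x (e a) := fun x a => rfl
    constructor
    · intro χ hχ
      have h3 := irrTrace_equiv E (h1 (fun a => χ (e a)) fun a => hχ _)
      have h4 : (fun x : ∀ b, J b => ∏ b, χ b (x b)) =
          fun x => (fun x : ∀ a, J (e a) => ∏ a, χ (e a) (x a)) (E x) := by
        funext x
        exact (Fintype.prod_equiv e _ _ fun a => rfl).symm
      rw [h4]
      exact h3
    · intro ψ hψ
      obtain ⟨χ, hχ, h3⟩ := h2 _ (irrTrace_equiv E.symm hψ)
      refine ⟨(Equiv.piCongrLeft (fun b => J b → F) e) χ, fun b => ?_, ?_⟩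
      · obtain ⟨a, rfl⟩ := e.surjective b
        rw [Equiv.piCongrLeft_apply_apply]
        exact hχ a
      · funext x
        have h4 := congrFun h3 (E x)
        rw [E.symm_apply_apply] at h4
        rw [h4]
        refine Fintype.prod_equiv e _ _ fun a => ?_
        rw [Equiv.piCongrLeft_apply_apply]
        rfl
  · intro J _
    constructor
    · intro χ _
      have : (fun x : ∀ i, J i => ∏ i, χ i (x i)) = fun _ => 1 := by
        funext x
        simp
      rw [this]
      exact irrTrace_one
    · intro ψ hψ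
      refine ⟨fun i => i.elim, fun i => i.elim, ?_⟩
      rw [irrTrace_triv hψ]
      funext x
      simp
  · intro α _ hα J _
    obtain ⟨h1, h2⟩ := hα (fun a => J (some a))
    let E : (∀ o, J o) ≃* J none × (∀ a, J (some a)) :=
      { Equiv.piOptionEquivProd with map_mul' := fun x y => rfl }
    constructor
    · intro χ hχ
      have h3 := irrTrace_equiv E (two_a (hχ none) (h1 (fun a => χ (some a)) fun a => hχ _))
      have h4 : (fun x : ∀ b, J b => ∏ b, χ b (x b)) =
          fun x => (fun y : J none × (∀ a, J (some a)) => χ none y.1 *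
            (fun x : ∀ a, J (some a) => ∏ a, χ (some a) (x a)) y.2) (E x) := by
        funext x
        exact Fintype.prod_option _
      rw [h4]
      exact h3
    · intro ψ hψ
      obtain ⟨φ, θ, hφ, hθ, h3⟩ := two_b (irrTrace_equiv E.symm hψ)
      obtain ⟨χ, hχ, h4⟩ := h2 θ hθ
      refine ⟨fun o => match o with
        | none => φ
        | some a => χ a, fun o => ?_, ?_⟩
      · cases o with
        | none => exact hφ
        | some a => exact hχ a
      · funext x
        have h5 := congrFun h3 (E x)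
        rw [E.symm_apply_apply] at h5
        rw [h5, Fintype.prod_option, h4]
        rfl

theorem prop_eq [IsAlgClosed F] {N : Type} [Group N] [Finite N] {φ ψ : N → F}
    (hφ : IsIrrTrace φ) (hψ : IsIrrTrace ψ) {c c' : F} (hc : c ≠ 0)
    (h : ∀ y, c * φ y = c' * ψ y) : φ = ψ := by
  by_contra hne
  have h1 := Pool.Agent.Y914.NV.linInd (F := F) (N := N)
  have h2 := h1.comp ![⟨φ, hφ⟩, ⟨ψ, hψ⟩] (by
    intro i j hij
    fin_cases i <;> fin_cases j
    · rfl
    · exact absurd (congrArg Subtype.val hij) hne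
    · exact absurd (congrArg Subtype.val hij).symm hne
    · rfl)
  have h3 : LinearIndependent F ![φ, ψ] := by
    convert! h2 using 1
    funext i
    fin_cases i <;> rfl
  have h4 := LinearIndependent.pair_iff.1 h3 c (-c') (by
    funext y
    show c * φ y + -c' * ψ y = 0
    rw [h y]
    ring)
  exact hc h4.1

theorem irr_ne_zero [IsAlgClosed F] {N : Type} [Group N] [Finite N] {φ : N → F}
    (hφ : IsIrrTrace φ) : ∃ x, φ x ≠ 0 := by
  by_contra hcon
  push Not at hcon
  have h1 := Pool.Agent.Y914.NV.linInd (F := F) (N := N)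
  exact h1.ne_zero ⟨φ, hφ⟩ (funext hcon)

theorem prod_inj [IsAlgClosed F] {ι : Type} [Fintype ι] {J : ι → Type} [∀ i, Group (J i)]
    [∀ i, Finite (J i)] {χ χ' : ∀ i, J i → F} (h : ∀ i, IsIrrTrace (χ i))
    (h' : ∀ i, IsIrrTrace (χ' i))
    (heq : ∀ x : ∀ i, J i, ∏ i, χ i (x i) = ∏ i, χ' i (x i)) : χ = χ' := by
  classical
  choose x hx using fun i => irr_ne_zero (h i)
  funext i
  have key : ∀ (θ : ∀ i, J i → F) (y : J i), ∏ j, θ j (Function.update x i y j) =
      (∏ j ∈ Finset.univ.erase i, θ j (x j)) * θ i y := by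
    intro θ y
    rw [← Finset.mul_prod_erase Finset.univ _ (Finset.mem_univ i), Function.update_self, mul_comm]
    congr 1
    refine Finset.prod_congr rfl fun j hj => ?_
    rw [Function.update_of_ne (Finset.ne_of_mem_erase hj)]
  refine prop_eq (h i) (h' i) (c := ∏ j ∈ Finset.univ.erase i, χ j (x j))
    (c' := ∏ j ∈ Finset.univ.erase i, χ' j (x j))
    (Finset.prod_ne_zero_iff.2 fun j _ => hx j) fun y => ?_
  rw [← key, ← key]
  exact heq _

end nfold

end Pool.Agent.J4.H3.PG.IP
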