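import Pool.Agent.J4.H3.PG.D1

/-!
# The number of irreducible characters and weights over a power of a block
-/

set_option autoImplicit false

open scoped Classical BigOperators

noncomputable section

namespace Pool.Agent.J4.H3.PG

open Pool.Agent.Y63.NV

section

variable {F : Type} [Field F] {G : Type} [Group G]

theorem blk_sum {b : (G → F) → F} (hb : IsBlock b) {M : Type} (s : Finset M) (f : M → G → F)
    (hf : ∀ m ∈ s, IsClassFun (f m)) : b (∑ m ∈ s, f m) = ∑ m ∈ s, b (f m) := by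
  induction s using Finset.induction_on with
  | empty =>
    have h0 : IsClassFun (0 : G → F) := fun _ _ => rfl
    have h := hb.smul 0 0 h0
    rw [zero_smul, zero_mul] at h
    rw [Finset.sum_empty, Finset.sum_empty, h]
  | insert a s ha ih =>
    rw [Finset.sum_insert ha, Finset.sum_insert ha]
    have h1 : IsClassFun (∑ m ∈ s, f m) := by
      intro g x
      rw [Finset.sum_apply, Finset.sum_apply]
      exact Finset.sum_congr rfl fun m hm => hf m (Finset.mem_insert_of_mem hm) g x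
    rw [hb.add _ _ (hf a (Finset.mem_insert_self _ _)) h1,
      ih fun m hm => hf m (Finset.mem_insert_of_mem hm)]

theorem prod_class {ι : Type} [Fintype ι] {f : ι → G → F} (hf : ∀ i, IsClassFun (f i)) :
    IsClassFun (fun x : ι → G => ∏ i, f i (x i)) := by
  intro g x
  exact Finset.prod_congr rfl fun i _ => hf i (g i) (x i)

theorem act_bb (red : integralClosure ℤ ℂ →+* F)
    (hc : ∀ (μ : G →* ℂˣ) (f : G → F), IsClassFun f → IsClassFun (twf red μ f))
    (μ : G →* ℂˣ) (b : (G → F) → F) : act red μ (bb b) = bb (fun f => b (twf red μ f)) := by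
  funext f
  unfold act bb
  rw [dif_pos (hc μ f.1 f.2)]

theorem val_Z (red : integralClosure ℤ ℂ →+* F)
    (hc : ∀ (μ : G →* ℂˣ) (f : G → F), IsClassFun f → IsClassFun (twf red μ f))
    (hblk : ∀ (μ : G →* ℂˣ) (B : (G → F) → F), IsBlock B → IsBlock (fun f => B (twf red μ f)))
    (hfin : Finite (G →* ℂˣ)) {B : (G → F) → F} {e : G → F} (he : IsIdem B e)
    {ι : Type} [Fintype ι] {b : ((ι → G) → F) → F} (hb : IsBlock b) {bi : ι → (G → F) → F}
    (hbi : ∀ i, IsBlock (bi i))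
    (hprod : ∀ f : ι → G → F, (∀ i, IsClassFun (f i)) →
      b (fun x => ∏ i, f i (x i)) = ∏ i, bi i (f i)) :
    b (Zf red ι e) = (Nat.card (G →* ℂˣ) : F)⁻¹ *
      ∑ᶠ μ : G →* ℂˣ, ∏ i, (if act red μ (bb (bi i)) = bb B then (1 : F) else 0) := by
  haveI : Fintype (G →* ℂˣ) := Fintype.ofFinite _
  have hcl : ∀ μ : G →* ℂˣ, IsClassFun (fun x : ι → G => ∏ i, twf red μ e (x i)) := fun μ =>
    prod_class fun _ => hc μ e he.cf
  have h1 : Zf red ι e = (Nat.card (G →* ℂˣ) : F)⁻¹ •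
      ∑ μ : G →* ℂˣ, (fun x : ι → G => ∏ i, twf red μ e (x i)) := by
    funext γ
    unfold Zf
    rw [finsum_eq_sum_of_fintype, Pi.smul_apply, smul_eq_mul, Finset.sum_apply]
    rfl
  have h2 : IsClassFun (∑ μ : G →* ℂˣ, (fun x : ι → G => ∏ i, twf red μ e (x i))) := by
    intro g x
    rw [Finset.sum_apply, Finset.sum_apply]
    exact Finset.sum_congr rfl fun μ _ => hcl μ g x
  rw [h1, hb.smul _ _ h2, blk_sum hb _ _ fun μ _ => hcl μ, finsum_eq_sum_of_fintype]
  congr 1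
  refine Finset.sum_congr rfl fun μ _ => ?_
  rw [hprod (fun _ => twf red μ e) fun _ => hc μ e he.cf]
  refine Finset.prod_congr rfl fun i _ => ?_
  rw [act_bb red hc, ← he.val _ (hblk μ _ (hbi i))]

end

/-- the numbers over a power of a block -/
theorem pow_core (hBAS : S_BAS) (hLPI : S_LPI) (hWPI : S_WPI) (hID : S_ID) (hZF : S_ZF)
    (hACT : S_ACT) (hTWL : S_TWL) (hTWW : S_TWW) (hTW : S_TW)
    (p : ℕ) [Fact p.Prime] (F : Type) [Field F] [IsAlgClosed F] [CharP F p]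
    (red : integralClosure ℤ ℂ →+* F) (G : Type) [Group G] [Finite G]
    (hfin : Finite (G →* ℂˣ)) (hp : ¬ p ∣ Nat.card (G →* ℂˣ))
    (B : (G → F) → F) (hB : IsBlock B) (ι : Type) [Fintype ι] [Nonempty ι] :
    ∃ (z : (ι → G) → F) (c : F), IsClassFun z ∧
      (∀ (s : Equiv.Perm ι) (γ : ι → G), z (fun i => γ (s i)) = z γ) ∧
      (∀ γ : ι → G, ∏ i, Abelianization.of (γ i) ≠ 1 → z γ = 0) ∧
      nIrr B ^ Fintype.card ι ≤ LL z c ∧
      LL z c ≤ Nat.card (G →* ℂˣ) * nIrr B ^ Fintype.card ι ∧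
      (Nat.card G * nWts p red B) ^ Fintype.card ι ≤ WW p red z c ∧
      WW p red z c ≤ Nat.card (G →* ℂˣ) * (Nat.card G * nWts p red B) ^ Fintype.card ι := by
  obtain ⟨e, he⟩ := hID F G B hB
  obtain ⟨hz1, hz2, hz3⟩ := hZF p F red G ι e he.cf
  obtain ⟨hc, ha1, ha2, hblk⟩ := hACT p F red G
  obtain ⟨f1, f2, b1, b2, v1, ne1, cnt, blk⟩ := hBAS p F red G
  obtain ⟨f1', f2', b1', b2', v1', ne1', cnt', blk'⟩ := hBAS p F red (ι → G)
  obtain ⟨EL, hEL⟩ := hLPI F G ι
  obtain ⟨EW, hEW⟩ := hWPI p F red G ι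
  set c : F := (Nat.card (G →* ℂˣ) : F)⁻¹ * Nat.card {μ : G →* ℂˣ // act red μ (bb B) = bb B}
    with hcdef
  refine ⟨Zf red ι e, c, hz1, hz2, hz3, ?_⟩
  obtain ⟨c1, c2⟩ := cnt' (Zf red ι e) c hz1
  obtain ⟨n1, n2⟩ := blk B
  -- values for products of irreducible characters
  have hprodL : ∀ (t : ι → Lt F G) (f : ι → G → F), (∀ i, IsClassFun (f i)) →
      lv (EL t) (fun x => ∏ i, f i (x i)) = ∏ i, lv (t i) (f i) := by
    intro t f hf
    obtain ⟨x, hx⟩ := ne1' (EL t)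
    have h1 := v1' (EL t) (fun x => ∏ i, f i (x i)) (prod_class hf) x
    refine mul_right_cancel₀ hx (h1.symm.trans ?_)
    haveI : Fintype G := Fintype.ofFinite G
    rw [finsum_eq_sum_of_fintype, hEL t]
    have h2 : ∀ g : ι → G, (∏ i, f i (g i)) * ∏ i, (t i).1 ((g * x) i) =
        ∏ i, (f i (g i) * (t i).1 (g i * x i)) := by
      intro g
      rw [← Finset.prod_mul_distrib]
      rfl
    rw [Finset.sum_congr rfl fun g _ => h2 g]
    have h3 := Finset.prod_univ_sum (fun _ : ι => (Finset.univ : Finset G))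
      (fun i g => f i g * (t i).1 (g * x i))
    rw [Fintype.piFinset_univ] at h3
    rw [← h3, ← Finset.prod_mul_distrib]
    refine Finset.prod_congr rfl fun i _ => ?_
    have h4 := v1 (t i) (f i) (hf i) (x i)
    rw [finsum_eq_sum_of_fintype] at h4
    exact h4
  have hL : ∀ t : ι → Lt F G, lv (EL t) (Zf red ι e) = (Nat.card (G →* ℂˣ) : F)⁻¹ *
      ∑ᶠ μ : G →* ℂˣ, ∏ i, (if act red μ (lb (t i)) = bb B then (1 : F) else 0) := fun t =>
    val_Z red hc hblk hfin he (b1' (EL t)) (fun i => b1 (t i)) (hprodL t)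
  have hW : ∀ t : ι → Wt p G, wv red (EW t) (Zf red ι e) = (Nat.card (G →* ℂˣ) : F)⁻¹ *
      ∑ᶠ μ : G →* ℂˣ, ∏ i, (if act red μ (wb red (t i)) = bb B then (1 : F) else 0) := fun t =>
    val_Z red hc hblk hfin he (b2' (EW t)) (fun i => b2 (t i)) (hEW t)
  have e1 : LL (Zf red ι e) c = Nat.card {t : ι → Lt F G //
      (Nat.card (G →* ℂˣ) : F)⁻¹ *
        ∑ᶠ μ : G →* ℂˣ, ∏ i, (if act red μ (lb (t i)) = bb B then (1 : F) else 0) = c} := by
    rw [c1]
    refine (Nat.card_congr (Equiv.subtypeEquiv EL fun t => ?_)).symm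
    rw [hL t]
  have e2 : WW p red (Zf red ι e) c = Nat.card {t : ι → Wt p G //
      (Nat.card (G →* ℂˣ) : F)⁻¹ *
        ∑ᶠ μ : G →* ℂˣ, ∏ i, (if act red μ (wb red (t i)) = bb B then (1 : F) else 0) = c} := by
    rw [c2]
    refine (Nat.card_congr (Equiv.subtypeEquiv EW fun t => ?_)).symm
    rw [hW t]
  have hA1 : ∀ μ : G →* ℂˣ, Nat.card {φ : Lt F G // lb φ = act red μ (bb B)} =
      Nat.card {φ : Lt F G // lb φ = bb B} := fun μ => hTWL p F red G μ (bb B)
  have hA2 : ∀ μ : G →* ℂˣ, Nat.card {w : Wt p G // wb red w = act red μ (bb B)} =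
      Nat.card {w : Wt p G // wb red w = bb B} := fun μ => hTWW p F red G μ (bb B) hp
  have k1 := hTW (CFn G F → F) (Lt F G) (G →* ℂˣ) (act red) ha1 ha2 lb (bb B) hA1 p F hp ι
  have k2 := hTW (CFn G F → F) (Wt p G) (G →* ℂˣ) (act red) ha1 ha2 (wb red) (bb B) hA2 p F hp ι
  rw [← n1] at k1
  rw [← n2] at k2
  rw [e1, e2]
  exact ⟨k1.1, k1.2, k2.1, k2.2⟩

end Pool.Agent.J4.H3.PG
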