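import Pool.Agent.J4.H3.PG.Key
import Pool.Agent.J4.H3.PG.Pow

/-!
# The main inequality, general form
-/

set_option autoImplicit false

open scoped Classical BigOperators

noncomputable section

namespace Pool.Agent.J4.H3.PG

open Pool.Agent.Y63.NV

/-- the comparison of the weights of the base group and of the wreath product -/
def BComp (p : ℕ) {F : Type} [Field F] (red : integralClosure ℤ ℂ →+* F) (G Q : Type) [Group G]
    [Group Q] [Fintype Q] (D : ℝ) : Prop :=
  ∀ (z : RegularWreathProduct G Q → F) (c : F), InZ (BS G Q) z →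
    (Fintype.card Q : ℝ) ^ 2 * WW p red (fun x : BS G Q => z x) c ≤ D * WW p red z c ∧
      (WW p red z c : ℝ) ≤ D * WW p red (fun x : BS G Q => z x) c

/-- the main inequality -/
theorem key2 (hLC : S_LC) (hWC : S_WC) (hISO : S_ISO) (hSB : S_SB)
    (p : ℕ) [Fact p.Prime] (F : Type) [Field F] [IsAlgClosed F] [CharP F p]
    (red : integralClosure ℤ ℂ →+* F) (G : Type) [Group G] [Finite G] (l w a : ℕ)
    (ha : a = Nat.card (Abelianization G)) (hpa : ¬ p ∣ a)
    (Q : Type) [Group Q] [Fintype Q] (D : ℝ) (hD : 0 ≤ D) (hBC : BComp p red G Q D)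
    (z : (Q → G) → F) (c : F) (hz : IsClassFun z)
    (hs : ∀ (s : Equiv.Perm Q) (γ : Q → G), z (fun i => γ (s i)) = z γ)
    (h0 : ∀ γ : Q → G, ∏ i, Abelianization.of (γ i) ≠ 1 → z γ = 0)
    (h1 : l ^ Fintype.card Q ≤ LL z c) (h2 : LL z c ≤ a * l ^ Fintype.card Q)
    (h3 : (Nat.card G * w) ^ Fintype.card Q ≤ WW p red z c)
    (h4 : WW p red z c ≤ a * (Nat.card G * w) ^ Fintype.card Q) (K : ℝ) (hK : 0 ≤ K) :
    ((∀ B' : ((sg G Q).ker → F) → F, IsBlock B' → (nIrr B' : ℝ) ≤ K * nWts p red B') →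
      (l : ℝ) ^ Fintype.card Q ≤ K * ((a : ℝ) ^ 5 * D) * (w : ℝ) ^ Fintype.card Q) ∧
    ((∀ B' : ((sg G Q).ker → F) → F, IsBlock B' → (nWts p red B' : ℝ) ≤ K * nIrr B') →
      (w : ℝ) ^ Fintype.card Q ≤ K * ((a : ℝ) ^ 5 * D) * (l : ℝ) ^ Fintype.card Q) := by
  set n := Fintype.card Q with hn
  have hnQ : Nat.card Q = n := Nat.card_eq_fintype_card
  have hn1 : 1 ≤ n := Fintype.card_pos
  set H : Subgroup (RegularWreathProduct G Q) := (sg G Q).ker with hH
  set m := H.index with hm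
  have hfA : Finite (Abelianization G) := inferInstance
  have hmd : m ∣ a := by
    rw [hm, hH, Subgroup.index_ker, ha]
    exact Subgroup.card_subgroup_dvd_card _
  have ha0 : 0 < a := by rw [ha]; exact Nat.card_pos
  have hma : m ≤ a := Nat.le_of_dvd ha0 hmd
  have hm0 : 1 ≤ m := Nat.pos_of_dvd_of_pos hmd ha0
  have hpm : ¬ p ∣ H.index := fun h => hpa (h.trans hmd)
  have hBi : (BS G Q).index = n := by rw [BS_index, hnQ]
  have hcW : Nat.card H * m = Nat.card G ^ n * n := by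
    rw [hm, Subgroup.card_mul_index, RegularWreathProduct.card, hnQ]
  -- the comparisons
  obtain ⟨i1, i2⟩ := hISO p F red (BS G Q) (Q → G) (bsEquiv G Q) z c hz
  have hzb : (fun x : BS G Q => zW z x) = fun x : BS G Q => z (bsEquiv G Q x) := by
    funext x
    exact if_pos x.2
  obtain ⟨b1, b2⟩ := hLC F (RegularWreathProduct G Q) (BS G Q) (zW z) c (zW_BS hz hs)
  obtain ⟨b3, b4⟩ := hLC F (RegularWreathProduct G Q) H (zW z) c (zW_H hz hs h0)
  obtain ⟨D1, D2⟩ := hBC (zW z) c (zW_BS hz hs)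
  obtain ⟨d3, d4⟩ := hWC p F red (RegularWreathProduct G Q) H (zW z) c hpm (zW_H hz hs h0)
  rw [hzb, i1, hBi] at b1 b2
  rw [hzb, i2] at D1 D2
  have hclH : IsClassFun (fun x : H => zW z x) := fun g x => zW_class hz hs g x
  obtain ⟨s1, s2⟩ := hSB p F red H K hK
  set LW := LL (zW z) c
  set LH := LL (fun x : H => zW z x) c
  set WG := WW p red (zW z) c
  set WH := WW p red (fun x : H => zW z x) c
  set gg : ℝ := (Nat.card G : ℝ) ^ n with hgg
  have hgpos : 0 < gg := by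
    have : (0 : ℝ) < Nat.card G := by exact_mod_cast Nat.card_pos
    positivity
  have hcW' : (Nat.card H : ℝ) * m = gg * n := by
    rw [hgg]; exact_mod_cast hcW
  have B1 : (LL z c : ℝ) ≤ n * LW := by exact_mod_cast b1
  have B2 : (LW : ℝ) ≤ n * LL z c := by exact_mod_cast b2
  have B3 : (LH : ℝ) ≤ m * LW := by exact_mod_cast b3
  have B4 : (LW : ℝ) ≤ m * LH := by exact_mod_cast b4
  have D3 : (WH : ℝ) ≤ m ^ 2 * WG := by exact_mod_cast d3
  have D4 : (WG : ℝ) ≤ m ^ 2 * WH := by exact_mod_cast d4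
  have H1 : (l : ℝ) ^ n ≤ LL z c := by exact_mod_cast h1
  have H2 : (LL z c : ℝ) ≤ a * (l : ℝ) ^ n := by exact_mod_cast h2
  have H3 : gg * (w : ℝ) ^ n ≤ WW p red z c := by
    rw [hgg, ← mul_pow]; exact_mod_cast h3
  have H4 : (WW p red z c : ℝ) ≤ a * (gg * (w : ℝ) ^ n) := by
    rw [hgg, ← mul_pow]; exact_mod_cast h4
  have n1 : (1 : ℝ) ≤ n := by exact_mod_cast hn1
  have m1 : (1 : ℝ) ≤ m := by exact_mod_cast hm0
  have ma : (m : ℝ) ≤ a := by exact_mod_cast hma
  have a1 : (1 : ℝ) ≤ a := m1.trans ma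
  have hHpos : (0 : ℝ) < Nat.card H := by exact_mod_cast Nat.card_pos
  have nn : (0 : ℝ) < n := by linarith
  have mm : (0 : ℝ) < m := by linarith
  have aa : (0 : ℝ) < a := by linarith
  have hwn : (0 : ℝ) ≤ (w : ℝ) ^ n := by positivity
  have hln : (0 : ℝ) ≤ (l : ℝ) ^ n := by positivity
  constructor
  · intro hB
    have S1 := s1 hB _ c hclH
    have e1 : (Nat.card H : ℝ) * (l : ℝ) ^ n ≤ n * (m * (K * WH)) := by
      calc (Nat.card H : ℝ) * (l : ℝ) ^ n ≤ Nat.card H * (n * (m * LH)) := by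
            refine mul_le_mul_of_nonneg_left ?_ hHpos.le
            refine H1.trans (B1.trans ?_)
            exact mul_le_mul_of_nonneg_left B4 nn.le
        _ = n * (m * (Nat.card H * LH)) := by ring
        _ ≤ n * (m * (K * WH)) := by gcongr
    have e2 : (WH : ℝ) ≤ m ^ 2 * (D * (a * (gg * (w : ℝ) ^ n))) := by
      refine D3.trans ?_
      gcongr
      refine D2.trans ?_
      gcongr
    have e3 : (gg * n) * (l : ℝ) ^ n ≤
        (gg * n) * (K * ((m : ℝ) ^ 4 * a * D) * (w : ℝ) ^ n) := by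
      calc (gg * n) * (l : ℝ) ^ n = m * (Nat.card H * (l : ℝ) ^ n) := by rw [← hcW']; ring
        _ ≤ m * (n * (m * (K * (m ^ 2 * (D * (a * (gg * (w : ℝ) ^ n))))))) := by
            refine mul_le_mul_of_nonneg_left (e1.trans ?_) mm.le
            gcongr
        _ = (gg * n) * (K * ((m : ℝ) ^ 4 * a * D) * (w : ℝ) ^ n) := by ring
    have e4 := le_of_mul_le_mul_left e3 (by positivity)
    refine e4.trans ?_
    have e5 : (m : ℝ) ^ 4 * a * D ≤ (a : ℝ) ^ 5 * D := by
      calc (m : ℝ) ^ 4 * a * D ≤ (a : ℝ) ^ 4 * a * D := by gcongr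
        _ = (a : ℝ) ^ 5 * D := by ring
    gcongr
  · intro hB
    have S2 := s2 hB _ c hclH
    have hHW : (Nat.card H : ℝ) ≤ gg * n := by
      rw [← hcW']
      nlinarith
    have e0 : (WG : ℝ) ≤ m ^ 2 * (K * ((gg * n) * (m * (n * (a * (l : ℝ) ^ n))))) := by
      refine D4.trans ?_
      refine mul_le_mul_of_nonneg_left (S2.trans ?_) (by positivity)
      refine mul_le_mul_of_nonneg_left ?_ hK
      refine mul_le_mul hHW ?_ (by positivity) (by positivity)
      refine B3.trans ?_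
      refine mul_le_mul_of_nonneg_left (B2.trans ?_) mm.le
      exact mul_le_mul_of_nonneg_left H2 nn.le
    have e1 : (gg * n ^ 2) * (w : ℝ) ^ n ≤
        D * (m ^ 2 * (K * ((gg * n) * (m * (n * (a * (l : ℝ) ^ n)))))) := by
      calc (gg * n ^ 2) * (w : ℝ) ^ n = (n : ℝ) ^ 2 * (gg * (w : ℝ) ^ n) := by ring
        _ ≤ (n : ℝ) ^ 2 * (WW p red z c : ℝ) := by gcongr
        _ ≤ D * WG := D1
        _ ≤ _ := mul_le_mul_of_nonneg_left e0 hD
    have e2 : (gg * n ^ 2) * (w : ℝ) ^ n ≤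
        (gg * n ^ 2) * (K * ((m : ℝ) ^ 3 * a * D) * (l : ℝ) ^ n) := by
      refine e1.trans (le_of_eq ?_)
      ring
    have e3 := le_of_mul_le_mul_left e2 (by positivity)
    refine e3.trans ?_
    have e5 : (m : ℝ) ^ 3 * a * D ≤ (a : ℝ) ^ 5 * D := by
      calc (m : ℝ) ^ 3 * a * D ≤ (a : ℝ) ^ 3 * a * D := by gcongr
        _ = (a : ℝ) ^ 4 * D := by ring
        _ ≤ (a : ℝ) ^ 5 * D :=
            mul_le_mul_of_nonneg_right (pow_le_pow_right₀ a1 (by norm_num)) hD
    gcongr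

end Pool.Agent.J4.H3.PG
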