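import Pool.Agent.J4.H3.PG.D2

/-!
# Powers of `A_5`
-/

set_option autoImplicit false

open scoped Classical BigOperators

noncomputable section

namespace Pool.Agent.J4.H3.PG

namespace QP2

/-- the alternating group of degree five -/
abbrev A5 : Type := alternatingGroup (Fin 5)

lemma not_comm : ¬ ∀ x y : A5, x * y = y * x := by
  intro hc
  have hx : Equiv.swap (0 : Fin 5) 1 * Equiv.swap 1 2 ∈ alternatingGroup (Fin 5) := by
    rw [Equiv.Perm.mem_alternatingGroup]
    decide
  have hy : Equiv.swap (0 : Fin 5) 1 * Equiv.swap 1 3 ∈ alternatingGroup (Fin 5) := by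
    rw [Equiv.Perm.mem_alternatingGroup]
    decide
  have h1 : (Equiv.swap (0 : Fin 5) 1 * Equiv.swap 1 2) * (Equiv.swap (0 : Fin 5) 1 * Equiv.swap 1 3) =
      (Equiv.swap (0 : Fin 5) 1 * Equiv.swap 1 3) * (Equiv.swap (0 : Fin 5) 1 * Equiv.swap 1 2) :=
    congrArg Subtype.val (hc ⟨_, hx⟩ ⟨_, hy⟩)
  exact absurd h1 (by decide)

lemma perfect : commutator A5 = ⊤ := by
  rcases IsSimpleGroup.eq_bot_or_eq_top_of_normal (commutator A5) inferInstance with h | h
  · exfalso
    rw [commutator_eq_bot_iff_center_eq_top] at h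
    apply not_comm
    intro x y
    have hx : x ∈ Subgroup.center A5 := by rw [h]; trivial
    exact (Subgroup.mem_center_iff.1 hx y).symm
  · exact h

lemma no_normal (p : ℕ) [Fact p.Prime] (M : Subgroup A5) (hM : M.Normal) (hp : IsPGroup p M) :
    M = ⊥ := by
  rcases IsSimpleGroup.eq_bot_or_eq_top_of_normal M hM with h | h
  · exact h
  · exfalso
    rw [h] at hp
    have hp' : IsPGroup p A5 := hp.of_equiv Subgroup.topEquiv
    have hnil : Group.IsNilpotent A5 := hp'.isNilpotent
    have hsol : Group.IsSolvable A5 := inferInstance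
    have h1 : commutator A5 < ⊤ := Group.IsSolvable.commutator_lt_top_of_nontrivial A5
    exact h1.ne perfect

end QP2

open QP2

theorem t_QP2 : S_QP2 := by
  intro p _ n
  refine ⟨Fin (n + 1) → A5, inferInstance, inferInstance, inferInstance, ?_, ?_, ?_⟩
  · have h1 := Subgroup.commutator_pi_pi_of_finite (fun _ : Fin (n + 1) => (⊤ : Subgroup A5))
      (fun _ => ⊤)
    have h2 : Subgroup.pi Set.univ (fun _ : Fin (n + 1) => (⊤ : Subgroup A5)) = ⊤ := by
      ext x
      simp [Subgroup.mem_pi]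
    have h3 : ⁅(⊤ : Subgroup A5), (⊤ : Subgroup A5)⁆ = ⊤ := perfect
    rw [h3, h2] at h1
    exact h1
  · intro M hM hMp
    rw [eq_bot_iff]
    intro m hm
    rw [Subgroup.mem_bot]
    funext i
    have h1 : M.map (Pi.evalMonoidHom (fun _ : Fin (n + 1) => A5) i) = ⊥ := by
      apply no_normal p
      · exact hM.map _ (Function.surjective_eval i)
      · exact hMp.map _
    have h2 : m i ∈ M.map (Pi.evalMonoidHom (fun _ : Fin (n + 1) => A5) i) := ⟨m, hm, rfl⟩
    rw [h1] at h2
    exact Subgroup.mem_bot.1 h2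
  · rw [Nat.card_fun, Nat.card_fin]
    have h1 : 2 ≤ Nat.card A5 := Finite.one_lt_card
    have h2 : n + 1 < 2 ^ (n + 1) := Nat.lt_two_pow_self
    have h3 := Nat.pow_le_pow_left h1 (n + 1)
    omega

end Pool.Agent.J4.H3.PG
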