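import Pool.Agent.J4.H3.PG.W1D
import Pool.Agent.R674.KB.Dz
import Pool.Agent.Y405.NV.Rinj
import Pool.Agent.Y930.NV.Cen

/-!
# The piece WI of WG1
-/

set_option autoImplicit false

open scoped Classical BigOperators

noncomputable section

namespace Pool.Agent.J4.H3.PG.WG1

open Pool.Agent.Y63.NV
open Pool.Agent.Y63.AWC (IsIrreducibleCharacter)
open Pool.Agent.J4.H3.PG.WG2 (IQ)

section

variable {J : Type} [Group J]

/-- conjugation on a normal subgroup -/
def cj (X : Subgroup J) [hX : X.Normal] (g : J) : X ≃* X where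
  toFun x := ⟨g * x * g⁻¹, hX.conj_mem x x.2 g⟩
  invFun x := ⟨g⁻¹ * x * g, by
    have := hX.conj_mem x x.2 g⁻¹
    rwa [inv_inv] at this⟩
  left_inv x := by
    apply Subtype.ext
    show g⁻¹ * (g * x * g⁻¹) * g = x
    group
  right_inv x := by
    apply Subtype.ext
    show g * (g⁻¹ * x * g) * g⁻¹ = x
    group
  map_mul' x y := by
    apply Subtype.ext
    show g * (x * y) * g⁻¹ = g * x * g⁻¹ * (g * y * g⁻¹)
    group

theorem pg_quot {p : ℕ} {M Y : Subgroup J} [M.Normal] (h : ∀ y ∈ Y, ∃ k : ℕ, y ^ p ^ k ∈ M) :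
    IsPGroup p (Y ⧸ M.subgroupOf Y) := by
  intro x
  obtain ⟨y, rfl⟩ := QuotientGroup.mk_surjective x
  obtain ⟨k, hk⟩ := h y y.2
  refine ⟨k, ?_⟩
  rw [← QuotientGroup.mk_pow, QuotientGroup.eq_one_iff, Subgroup.mem_subgroupOf]
  exact hk

/-- an invariant block -/
theorem inv_of_fix {F : Type} [Field F] (red : integralClosure ℤ ℂ →+* F) (X : Subgroup J)
    [X.Normal] {θ : X → ℂ} (hθ : IsIrreducibleCharacter θ)
    (h : ∀ g : J, Fix X θ g) : IsInvBlock X (centralValue red θ) := by
  intro g f f' hf hff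
  have h1 : ∀ x : X, f' (cj X g x) = f x := fun x => hff x (cj X g x) rfl
  have hf' : IsClassFun f' := by
    intro a x
    obtain ⟨b, rfl⟩ := (cj X g).surjective a
    obtain ⟨y, rfl⟩ := (cj X g).surjective x
    rw [← map_inv, ← map_mul, ← map_mul, h1, h1]
    exact hf b y
  have h2 := Pool.Agent.Y624.NV.centralValue_comp red (cj X g) hθ hf'
  rw [← h2]
  have e1 : (fun x => θ (cj X g x)) = θ := by
    funext x
    exact h g x (cj X g x) rfl
  have e2 : (fun x => f' (cj X g x)) = f := funext h1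
  rw [e1, e2]

/-- **WI** -/
theorem t_WI : S_WI := by
  intro p _ F _ _ _ red J _ _ M Y _ hMY hpg θ θ' hθ hθ' hinv hinv' hag
  have : Fintype M := Fintype.ofFinite M
  have hX : (M.subgroupOf Y).Normal := inferInstance
  set e : M.subgroupOf Y ≃* M := Subgroup.subgroupOfEquivOfLe hMY with he
  have hec : ∀ x : M.subgroupOf Y, ((e x : M) : J) = ((x : Y) : J) := fun _ => rfl
  have hi : ∀ ψ : M → ℂ, IsIrreducibleCharacter ψ → IsIrreducibleCharacter (fun x => ψ (e x)) :=
    fun ψ hψ => Pool.Agent.Y624.NV.irr_comp e hψ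
  have hfx : ∀ ψ : M → ℂ, (∀ g ∈ Y, Fix M ψ g) →
      ∀ g : Y, Fix (M.subgroupOf Y) (fun x => ψ (e x)) g := by
    intro ψ hψ g x y hxy
    refine hψ g g.2 (e x) (e y) ?_
    rw [hec, hec, hxy]
    rfl
  have hb : ∀ ψ : M → ℂ, IsIrreducibleCharacter ψ →
      IsBlock (centralValue red (fun x : M.subgroupOf Y => ψ (e x))) := fun ψ hψ =>
    Pool.Agent.Y930.NV.cvh F red (M.subgroupOf Y) _ (hi ψ hψ)
  have key := Pool.Agent.Y405.NV.rinj p F Y (M.subgroupOf Y) (pg_quot hpg)
    (centralValue red (fun x : M.subgroupOf Y => θ (e x)))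
    (centralValue red (fun x : M.subgroupOf Y => θ' (e x)))
    (hb θ hθ.irr) (hb θ' hθ'.irr)
    (inv_of_fix red _ (hi θ hθ.irr) (hfx θ hinv))
    (inv_of_fix red _ (hi θ' hθ'.irr) (hfx θ' hinv')) (by
      intro z hz
      -- the extension of `z` to `J`
      let f : J → F := fun x => if h : x ∈ Y then z ⟨x, h⟩ else 0
      have hfz : ∀ x : Y, f x = z x := fun x => dif_pos x.2
      have hf : InZY M Y f := by
        refine ⟨fun g hg x => ?_, fun x hx => ?_⟩
        · by_cases hxY : x ∈ Y
          · have h1 := hfz (⟨g, hg⟩ * ⟨x, hxY⟩ * (⟨g, hg⟩ : Y)⁻¹)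
            have h2 := hfz ⟨x, hxY⟩
            have h3 := hz.conj ⟨g, hg⟩ ⟨x, hxY⟩
            rw [← h1, ← h2] at h3
            exact h3
          · have h1 : g * x * g⁻¹ ∉ Y := by
              intro h
              apply hxY
              have := Y.mul_mem (Y.mul_mem (Y.inv_mem hg) h) hg
              have e1 : g⁻¹ * (g * x * g⁻¹) * g = x := by group
              rwa [e1] at this
            change dite _ _ _ = dite _ _ _
            rw [dif_neg hxY, dif_neg h1]
        · by_cases hxY : x ∈ Y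
          · rw [hfz ⟨x, hxY⟩]
            exact hz.supp _ fun h => hx h
          · exact dif_neg hxY
      have h1 : ∀ ψ : M → ℂ, IsIrreducibleCharacter ψ →
          centralValue red (fun x : M.subgroupOf Y => ψ (e x)) (fun x => z x) =
            centralValue red ψ (fun x : M => f x) := by
        intro ψ hψ
        have h2 := Pool.Agent.Y624.NV.centralValue_comp red e hψ
          (f := fun x : M => f x) (fun g x => hf.conj _ (hMY g.2) _)
        rw [← h2]
        congr 1
        funext x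
        exact (hfz x).symm
      rw [h1 θ hθ.irr, h1 θ' hθ'.irr]
      exact hag f hf)
  refine Pool.Agent.R674.KB.dz_unique (p := p) (F := F) red hθ' hθ.irr fun f hf => ?_
  have h1 := Pool.Agent.Y624.NV.centralValue_comp red e hθ.irr hf
  have h2 := Pool.Agent.Y624.NV.centralValue_comp red e hθ'.irr hf
  rw [← h1, ← h2]
  refine key _ fun a x => ?_
  change f (e (a * x * a⁻¹)) = f (e x)
  rw [map_mul, map_mul, map_inv]
  exact hf _ _

end

end Pool.Agent.J4.H3.PG.WG1
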