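import Pool.Agent.J4.H3.PG.All2

/-!
# The unified form
-/

set_option autoImplicit false

open scoped Classical BigOperators

noncomputable section

namespace Pool.Agent.J4.H3.PG

open Pool.Agent.Y63.NV

/-- the equivalences relative to a class `C` of `p`-groups -/
theorem uni (p : ℕ) [Fact p.Prime] (F : Type) [Field F] [IsAlgClosed F] [CharP F p]
    (red : integralClosure ℤ ℂ →+* F) (S : Type) [Group S] [Finite S] [IsSimpleGroup S]
    (hS : ∃ a b : S, a * b ≠ b * a) (C : (P : Type) → Group P → Prop) (hC : ClsP C)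
    (hpS : p ∣ Nat.card S → ∀ (P : Type) (i : Group P), Finite P → IsPGroup p P → C P i) :
    EquivY p red (fun G i => @SylIn p C G i) (fun H _ => Top1 S H) := by
  by_cases h : p ∣ Nat.card S
  · have hSp := simple_perf S hS
    obtain ⟨c1, c2, c3⟩ := t_SYL1 p C hC
    refine equivY_gen parts3 p F red _ _ ⟨fun G H _ _ hG e => c1 G H hG e,
      fun G _ hG H => c2 G hG H, fun G _ hG M _ hM => c3 G hG M hM⟩
      (fun H _ h => top1_perf S hSp H h)
      (fun n => (n : ℝ) ^ 6 * (n : ℝ) ^ (Nat.log 2 n)) (fun n => by positivity) t_AMP2 ?_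
    intro G i hfG hG hM hN N
    obtain ⟨Q, i1, i2, i3, i4, i5, i6, i7, i8, i9⟩ := t_TOWER' S hSp N
    have hF := Fintype.ofFinite Q
    refine ⟨Q, i1, hF, ?_, Fintype.card_pos,
      ⟨t_PERF G Q i3 i4, t_OP2 p G Q i3 (i8 p Fact.out) hM⟩,
      ⟨fun T => hpS h T inferInstance inferInstance T.isPGroup', t_UNIQ' S G Q i5 i4 i7⟩,
      bcomp_all t_WG t_SUBC p F red G Q⟩
    rw [← Nat.card_eq_fintype_card]
    exact i6
  · exact syl_main p F red S hS h C hC

end Pool.Agent.J4.H3.PG
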