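import Pool.Agent.J4.H3.PG.T_WG2

/-!
# Statements for the piece WG1
-/

set_option autoImplicit false

open scoped Classical BigOperators

noncomputable section

namespace Pool.Agent.J4.H3.PG.WG1

open Pool.Agent.Y63.NV
open Pool.Agent.Y63.AWC (IsIrreducibleCharacter)
open Pool.Agent.J4.H3.PG.WG2 (IQ)

/-- `f` is supported on `M` and invariant under `Y` -/
structure InZY {J F : Type} [Group J] [Field F] (M Y : Subgroup J) (f : J → F) : Prop where
  conj : ∀ g ∈ Y, ∀ x : J, f (g * x * g⁻¹) = f x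
  supp : ∀ x : J, x ∉ M → f x = 0

/-- `θ` is invariant under `g` -/
def Fix {J : Type} [Group J] (M : Subgroup J) (θ : M → ℂ) (g : J) : Prop :=
  ∀ x y : M, (y : J) = g * x * g⁻¹ → θ y = θ x

/-- the weight character `χ` of `N_{MQ}(Q)` belongs to `θ` -/
def Lk (p : ℕ) {J F : Type} [Group J] [Field F] (red : integralClosure ℤ ℂ →+* F)
    (M Q : Subgroup J) (θ : M → ℂ) (χ : IQ M Q → ℂ) : Prop :=
  IsWt p ((Q.subgroupOf (Subgroup.normalizer (Q : Set J))).subgroupOf (IQ M Q)) χ ∧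
    ∀ f : J → F, InZY M (M ⊔ Q) f →
      centralValue red χ (fun x : IQ M Q => f x) = centralValue red θ (fun x : M => f x)

/-- WI: an invariant character of defect zero is determined by the invariant elements -/
def S_WI : Prop := ∀ (p : ℕ) [Fact p.Prime] (F : Type) [Field F] [IsAlgClosed F] [CharP F p]
  (red : integralClosure ℤ ℂ →+* F) (J : Type) [Group J] [Finite J] (M Y : Subgroup J) [M.Normal],
    M ≤ Y → (∀ y ∈ Y, ∃ k : ℕ, y ^ p ^ k ∈ M) → ∀ θ θ' : M → ℂ,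
    IsWt p (⊥ : Subgroup M) θ → IsWt p (⊥ : Subgroup M) θ' →
    (∀ g ∈ Y, Fix M θ g) → (∀ g ∈ Y, Fix M θ' g) →
    (∀ f : J → F, InZY M Y f →
      centralValue red θ (fun x : M => f x) = centralValue red θ' (fun x : M => f x)) → θ = θ'

/-- WB: the count of Dade, Glauberman and Nagao for the block of one character -/
def S_WB : Prop := ∀ (p : ℕ) [Fact p.Prime] (F : Type) [Field F] [IsAlgClosed F] [CharP F p]
  (red : integralClosure ℤ ℂ →+* F) (J : Type) [Group J] [Finite J] (M Y : Subgroup J) [M.Normal],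
    M ≤ Y → (∀ y ∈ Y, ∃ k : ℕ, y ^ p ^ k ∈ M) → ∀ θ : M → ℂ,
    IsWt p (⊥ : Subgroup M) θ → (∀ g ∈ Y, Fix M θ g) →
    Nat.card Y ≤ ∑ᶠ Q : Subgroup J, if (IsPGroup p Q ∧ M ⊓ Q = ⊥) ∧ M ⊔ Q = Y then
      Nat.card (IQ M Q) * Nat.card {χ : IQ M Q → ℂ // Lk p red M Q θ χ} else 0

/-- WS: the stabiliser of a weight character which belongs to `θ` -/
def S_WS : Prop := ∀ (p : ℕ) [Fact p.Prime] (F : Type) [Field F] [IsAlgClosed F] [CharP F p]
  (red : integralClosure ℤ ℂ →+* F) (J : Type) [Group J] [Finite J] (M Y Q : Subgroup J)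
  [M.Normal] (θ : M → ℂ) (χ : IQ M Q → ℂ),
    M ≤ Y → (∀ y ∈ Y, ∃ k : ℕ, y ^ p ^ k ∈ M) → IsWt p (⊥ : Subgroup M) θ →
    (∀ g ∈ Y, Fix M θ g) →
    (∀ P : Subgroup J, IsPGroup p P → (∀ g ∈ P, Fix M θ g) →
      P ≤ Subgroup.normalizer (Y : Set J) → P ≤ Y) →
    IsPGroup p Q → M ⊔ Q = Y → Lk p red M Q θ χ →
    (Nat.card (StabC (IQ M Q) χ)).factorization p = (Nat.card (IQ M Q)).factorization p

end Pool.Agent.J4.H3.PG.WG1
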